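import Mathlib
import Pool.Agent.TH974.IH.Box

set_option autoImplicit false

open Finset MeasureTheory ProbabilityTheory Filter Topology
open scoped ENNReal NNReal

namespace Pool.Agent.TH611.J2195

open Pool.Agent.TH974.IH

/-- the parametrisation of the bridges -/
noncomputable def bmap (d K : ℕ) (t : Fin d × Fin d × Bool × Bool) : Ed d :=
  (Function.update (Function.update (fun _ => 2) t.1 (if t.2.2.1 then 1 else (K : ℤ) + 3)) t.2.1
    (if t.2.2.2 then 1 else (K : ℤ) + 4), t.1)

theorem EB_fin (d K : ℕ) : ∃ F : Finset (Ed d), (F : Set (Ed d)) = EB d K ∧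
    F.card ≤ 4 * d ^ 2 := by
  classical
  refine ⟨((Finset.univ : Finset (Fin d × Fin d × Bool × Bool)).filter
    (fun t => t.1 ≠ t.2.1)).image (bmap d K), ?_, ?_⟩
  · ext e
    simp only [Finset.coe_image, Finset.coe_filter, Finset.mem_univ, true_and, Set.mem_image,
      Set.mem_setOf_eq, EB]
    constructor
    · rintro ⟨⟨i, j, a, b⟩, hij, rfl⟩
      refine ⟨i, j, if a then 1 else (K : ℤ) + 4, if b then 1 else (K : ℤ) + 4, hij, ?_, ?_, ?_⟩
      · cases a <;> simp
      · cases b <;> simp
      · cases a
        · right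
          simp [bmap]
        · left
          simp [bmap]
    · rintro ⟨i, j, a, b, hij, ha, hb, h⟩
      have hb' : ∃ β : Bool, b = if β then 1 else (K : ℤ) + 4 := by
        rcases hb with h | h
        · exact ⟨true, by simp [h]⟩
        · exact ⟨false, by simp [h]⟩
      obtain ⟨β, hβ⟩ := hb'
      rcases h with ⟨h1, h2⟩ | ⟨h1, h2⟩
      · exact ⟨(i, j, true, β), hij, by rw [h2, hβ]; simp [bmap]⟩
      · exact ⟨(i, j, false, β), hij, by rw [h2, hβ]; simp [bmap]⟩
  · refine (Finset.card_image_le.trans (Finset.card_filter_le _ _)).trans ?_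
    rw [Finset.card_univ]
    simp only [Fintype.card_prod, Fintype.card_fin, Fintype.card_bool]
    apply le_of_eq
    ring

/-- coordinates of the first endpoint of a bridge -/
theorem EB_coord {d K : ℕ} {e : Ed d} (h : e ∈ EB d K) (k : Fin d) :
    e.1 k = 1 ∨ e.1 k = 2 ∨ e.1 k = (K : ℤ) + 3 ∨ e.1 k = (K : ℤ) + 4 := by
  obtain ⟨i, j, a, b, hij, ha, hb, h⟩ := h
  rcases h with ⟨h1, h2⟩ | ⟨h1, h2⟩
  · rw [h2]
    simp only
    by_cases hkj : k = j
    · subst hkj
      rw [Function.update_self]
      rcases hb with h | h
      · left; exact h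
      · right; right; right; exact h
    · rw [Function.update_of_ne hkj]
      by_cases hki : k = i
      · subst hki
        rw [Function.update_self]
        left; rfl
      · rw [Function.update_of_ne hki]
        right; left; rfl
  · rw [h2]
    simp only
    by_cases hkj : k = j
    · subst hkj
      rw [Function.update_self]
      rcases hb with h | h
      · left; exact h
      · right; right; right; exact h
    · rw [Function.update_of_ne hkj]
      by_cases hki : k = i
      · subst hki
        rw [Function.update_self]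
        right; right; left; rfl
      · rw [Function.update_of_ne hki]
        right; left; rfl

theorem EB_disj {d : ℕ} (v : Zd d) (m m' : ℕ) (hm : m ≠ m') (e : Ed d)
    (h : (e.1 - (v - fun _ => 655200 * (m : ℤ) + 2), e.2) ∈ EB d (KK m)) :
    (e.1 - (v - fun _ => 655200 * (m' : ℤ) + 2), e.2) ∉ EB d (KK m') := by
  intro h'
  have c1 := EB_coord h e.2
  have c2 := EB_coord h' e.2
  simp only [Pi.sub_apply, KK, Nat.cast_mul] at c1 c2
  push_cast at c1 c2
  omega

end Pool.Agent.TH611.J2195
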