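import Mathlib
import Pool.Agent.TH974.IH.Box
import Pool.Agent.TH645.J2185
import Pool.Agent.TH645.J2186

set_option autoImplicit false

open Finset MeasureTheory ProbabilityTheory Filter Topology
open scoped ENNReal NNReal

namespace Pool.Agent.TH611.J2197

open Pool.Agent.TH974.IH

theorem final_zero {d : ℕ} (p : ℝ) (hp0 : 0 ≤ p) (hp1 : p ≤ 1) (F : ℕ → Finset (Ed d))
    (G : ℕ → Set (Env d)) (hG : ∀ m, Dep (F m : Set (Ed d)) (G m))
    (hF : ∀ m m', m ≠ m' → Disjoint (F m) (F m')) (g : ℝ) (hg : 0 < g)
    (hGg : ∀ m, g ≤ (perc d p).real (G m)) (N : Set (Env d))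
    (hN : Tendsto (fun m => (perc d p).real (N ∩ G m)) atTop (𝓝 0)) : perc d p N = 0 := by
  classical
  have hprob := Pool.Agent.TH645.IH.perc_prob (d := d) p hp0 hp1
  have hg1 : g ≤ 1 := (hGg 0).trans measureReal_le_one
  -- the intersection of the complements
  set A : ℕ → ℕ → Set (Env d) := fun m0 n => {ω | ∀ m < n, ω ∉ G (m0 + m)} with hA
  have hdep : ∀ m0 n, Dep (((Finset.range n).biUnion fun m => F (m0 + m) : Finset (Ed d)) :
      Set (Ed d)) (A m0 n) := by
    intro m0 n ω ω' h
    have h' : ∀ m < n, (ω ∈ G (m0 + m) ↔ ω' ∈ G (m0 + m)) := by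
      intro m hm
      apply hG
      intro e he
      apply h
      rw [Finset.mem_coe, Finset.mem_biUnion]
      exact ⟨m, Finset.mem_range.2 hm, he⟩
    constructor
    · intro h1 m hm h2
      exact h1 m hm ((h' m hm).2 h2)
    · intro h1 m hm h2
      exact h1 m hm ((h' m hm).1 h2)
  have hbound : ∀ m0 n, (perc d p).real (A m0 n) ≤ (1 - g) ^ n := by
    intro m0 n
    induction n with
    | zero => rw [pow_zero]; exact measureReal_le_one
    | succ n ih =>
      have e1 : A m0 (n + 1) = A m0 n ∩ (G (m0 + n))ᶜ := by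
        ext ω
        simp only [hA, Set.mem_setOf_eq, Set.mem_inter_iff, Set.mem_compl_iff]
        constructor
        · intro h
          exact ⟨fun m hm => h m (by omega), h n (by omega)⟩
        · rintro ⟨h1, h2⟩ m hm
          rcases Nat.lt_succ_iff_lt_or_eq.1 hm with h | h
          · exact h1 m h
          · rw [h]; exact h2
      have hdisj : Disjoint ((Finset.range n).biUnion fun m => F (m0 + m)) (F (m0 + n)) := by
        rw [Finset.disjoint_biUnion_left]
        intro m hm
        apply hF
        have := Finset.mem_range.1 hm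
        omega
      have hdc : Dep (F (m0 + n) : Set (Ed d)) (G (m0 + n))ᶜ := by
        intro ω ω' h
        simp only [Set.mem_compl_iff]
        rw [hG (m0 + n) ω ω' h]
      have hms : MeasurableSet (G (m0 + n)) := Pool.Agent.TH645.IH.dep_meas _ _ (hG _)
      rw [e1, Pool.Agent.TH645.IH.dep_indep p hp0 hp1 _ _ hdisj _ _ (hdep m0 n) hdc, pow_succ]
      apply mul_le_mul ih
      · rw [probReal_compl_eq_one_sub hms]
        linarith [hGg (m0 + n)]
      · exact measureReal_nonneg
      · exact pow_nonneg (by linarith) _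
  have hmain : ∀ n m0, (perc d p).real N ≤
      (1 - g) ^ n + ∑ m ∈ Finset.range n, (perc d p).real (N ∩ G (m0 + m)) := by
    intro n m0
    have hsub : N ⊆ A m0 n ∪ ⋃ m ∈ Finset.range n, (N ∩ G (m0 + m)) := by
      intro ω hω
      by_cases h : ω ∈ A m0 n
      · exact Or.inl h
      · right
        simp only [hA, Set.mem_setOf_eq, not_forall, not_not] at h
        obtain ⟨m, hm, h⟩ := h
        simp only [Set.mem_iUnion]
        exact ⟨m, Finset.mem_range.2 hm, hω, h⟩
    calc (perc d p).real N ≤ (perc d p).real (A m0 n ∪ ⋃ m ∈ Finset.range n, (N ∩ G (m0 + m))) :=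
          measureReal_mono hsub
      _ ≤ (perc d p).real (A m0 n) + (perc d p).real (⋃ m ∈ Finset.range n, (N ∩ G (m0 + m))) :=
          measureReal_union_le _ _
      _ ≤ _ := add_le_add (hbound m0 n) (measureReal_biUnion_finset_le _ _)
  have hlim1 : ∀ n, (perc d p).real N ≤ (1 - g) ^ n := by
    intro n
    have ht : Tendsto (fun m0 => (1 - g) ^ n +
        ∑ m ∈ Finset.range n, (perc d p).real (N ∩ G (m0 + m))) atTop (𝓝 ((1 - g) ^ n + 0)) := by
      apply Tendsto.const_add
      rw [show (0 : ℝ) = ∑ m ∈ Finset.range n, (0 : ℝ) by simp]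
      apply tendsto_finsetSum
      intro m _
      exact hN.comp (tendsto_add_atTop_nat m)
    rw [add_zero] at ht
    exact ge_of_tendsto' ht (fun m0 => hmain n m0)
  have hlim2 : (perc d p).real N ≤ 0 :=
    ge_of_tendsto' (tendsto_pow_atTop_nhds_zero_of_lt_one (by linarith) (by linarith)) hlim1
  have hz : (perc d p).real N = 0 := le_antisymm hlim2 measureReal_nonneg
  rwa [measureReal_eq_zero_iff] at hz

end Pool.Agent.TH611.J2197
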