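import Mathlib
import Pool.Agent.TH611.FL.Expo

set_option autoImplicit false

universe u v

namespace Pool.Agent.TH611.FL

open Module Pool.Agent.TH28.FL

theorem ref : S_REF.{u, v} := by
  intro K _ _ L _ _ _ _ w M hD c hcM hc2 f hf hf0
  have hMpos := hD.pos
  have hc0 : c ≠ 0 := by omega
  have hcK : (c : K) ≠ 0 := Int.cast_ne_zero.2 hc0
  have hw0 : w ∈ dg K w 0 := by rw [mem_dg]; simp
  -- a partner of `f`
  obtain ⟨e0, he0, hk⟩ : ∃ e0 ∈ dg K w c, killingForm K L e0 f ≠ 0 := by
    by_contra hcon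
    push Not at hcon
    apply hf0
    have hker : ∀ y : L, killingForm K L f y = 0 := by
      intro y
      have hy : y ∈ ⨆ j : ℤ, dg K w j := by rw [hD.top]; trivial
      induction hy using Submodule.iSup_induction' with
      | mem j x hx =>
        by_cases hj : j = c
        · subst hj
          rw [kf_comm]; exact hcon x hx
        · exact kil_dg hf hx (by omega)
      | zero => simp
      | add x y _ _ hx hy => rw [map_add, hx, hy, add_zero]
    have : f ∈ LinearMap.ker (killingForm K L) := by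
      rw [LinearMap.mem_ker]
      ext y
      exact hker y
    rw [LieAlgebra.IsKilling.ker_killingForm_eq_bot] at this
    exact (Submodule.mem_bot K).1 this
  have he00 : e0 ≠ 0 := by
    rintro rfl; simp at hk
  have hone : finrank K (dg K w c) ≤ 1 := hD.one c hc0
  have hone' : finrank K (dg K w (-c)) ≤ 1 := hD.one (-c) (by omega)
  have hh0 : ⁅e0, f⁆ ∈ dg K w 0 := by
    have := lie_dg he0 hf
    rwa [add_neg_cancel] at this
  have hwf : ⁅w, f⁆ = -((c : K) • f) := by
    rw [mem_dg.1 hf]; push_cast; rw [neg_smul]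
  have hkw : killingForm K L ⁅e0, f⁆ w = (c : K) * killingForm K L e0 f := by
    rw [kf_inv, ← lie_skew, hwf, neg_neg, map_smul, smul_eq_mul]
  -- the scalar
  obtain ⟨lam, hlam⟩ : ∃ lam : K, ⁅⁅e0, f⁆, e0⁆ = lam • e0 := by
    have h1 : ⁅⁅e0, f⁆, e0⁆ ∈ dg K w c := by
      have := lie_dg hh0 he0
      rwa [zero_add] at this
    exact line_smul hone he0 he00 h1
  obtain ⟨nu, hnu⟩ : ∃ nu : K, ⁅⁅e0, f⁆, f⁆ = nu • f := by
    have h1 : ⁅⁅e0, f⁆, f⁆ ∈ dg K w (-c) := by
      have := lie_dg hh0 hf
      rwa [zero_add] at this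
    exact line_smul hone' hf hf0 h1
  have hnl : nu = -lam := by
    have h1 := kf_inv' (K := K) ⁅e0, f⁆ e0 f
    rw [hlam, hnu, map_smul, map_smul, LinearMap.smul_apply, smul_eq_mul, smul_eq_mul] at h1
    have h2 : (nu + lam) * killingForm K L e0 f = 0 := by linear_combination h1
    rcases mul_eq_zero.1 h2 with h3 | h3
    · linear_combination h3
    · exact absurd h3 hk
  have hlam0 : lam ≠ 0 := by
    intro h0
    rw [h0, zero_smul] at hlam
    rw [hnl, h0, neg_zero, zero_smul] at hnu
    have had : LieAlgebra.ad K L ⁅e0, f⁆ = 0 := by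
      ext y
      rw [LieAlgebra.ad_apply, LinearMap.zero_apply]
      have hy : y ∈ ⨆ j : ℤ, dg K w j := by rw [hD.top]; trivial
      induction hy using Submodule.iSup_induction' with
      | mem j x hx =>
        by_cases hj : j = 0
        · subst hj
          exact hD.comm _ hh0 _ hx
        · by_cases hx0 : x = 0
          · rw [hx0, lie_zero]
          · have h1 : ⁅⁅e0, f⁆, x⁆ ∈ dg K w j := by
              have := lie_dg hh0 hx
              rwa [zero_add] at this
            obtain ⟨al, hal⟩ := line_smul (hD.one j hj) hx hx0 h1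
            by_cases hal0 : al = 0
            · rw [hal, hal0, zero_smul]
            · exact absurd (eig_bot hlam hnu hal hal0) hx0
      | zero => rw [lie_zero]
      | add x y _ _ hx hy => rw [lie_add, hx, hy, add_zero]
    have : killingForm K L ⁅e0, f⁆ w = 0 := by
      rw [LieModule.traceForm_apply_apply]
      change LinearMap.trace K L (LieAlgebra.ad K L ⁅e0, f⁆ ∘ₗ LieAlgebra.ad K L w) = 0
      rw [had, LinearMap.zero_comp, map_zero]
    rw [hkw] at this
    exact mul_ne_zero hcK hk this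
  -- the triple
  obtain ⟨e, he, h, hhdef, hhe, hhf, hef0⟩ : ∃ e ∈ dg K w c, ∃ h : L, h = ⁅e, f⁆ ∧
      ⁅h, e⁆ = (2 : K) • e ∧ ⁅h, f⁆ = -((2 : K) • f) ∧ killingForm K L e f ≠ 0 := by
    refine ⟨(2 / lam) • e0, Submodule.smul_mem _ _ he0, (2 / lam) • ⁅e0, f⁆, ?_, ?_, ?_, ?_⟩
    · rw [smul_lie]
    · rw [smul_lie, lie_smul, hlam, smul_smul, smul_smul, smul_smul]
      congr 1
      field_simp
    · rw [smul_lie, hnu, hnl, smul_smul, ← neg_smul]
      congr 1
      field_simp
    · rw [map_smul, LinearMap.smul_apply, smul_eq_mul]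
      exact mul_ne_zero (div_ne_zero two_ne_zero hlam0) hk
  clear hlam hnu hnl hlam0 hkw hh0 he00 hk he0
  have hh : h ∈ dg K w 0 := by
    rw [hhdef]
    have := lie_dg he hf
    rwa [add_neg_cancel] at this
  have he0 : e ≠ 0 := by
    rintro rfl; simp at hef0
  have hne : IsNilpotent (LieAlgebra.ad K L e) := nilp_dg hD.top hc0 he
  have hnf : IsNilpotent (LieAlgebra.ad K L (-f)) :=
    nilp_dg (c := -c) hD.top (by omega) (Submodule.neg_mem _ hf)
  obtain ⟨ψ1, hψ1⟩ := expA_equiv hne
  obtain ⟨ψ2, hψ2⟩ := expA_equiv hnf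
  have hW1 : Wd K ψ1 := Wd.step LieEquiv.refl ψ1 e hne (fun x => hψ1 x) Wd.one
  have hW2 : Wd K (ψ1.trans ψ2) := Wd.step ψ1 _ (-f) hnf (fun x => hψ2 (ψ1 x)) hW1
  have hW3 : Wd K ((ψ1.trans ψ2).trans ψ1) := Wd.step _ _ e hne (fun x => hψ1 _) hW2
  set φ : L ≃ₗ⁅K⁆ L := (ψ1.trans ψ2).trans ψ1 with hφdef
  have hφ : ∀ x, φ x = expA K e (expA K (-f) (expA K e x)) := by
    intro x
    show ψ1 (ψ2 (ψ1 x)) = _
    rw [hψ1, hψ2, hψ1]
  -- values on the triple
  have hehs : ⁅e, h⁆ = -((2 : K) • e) := by rw [← lie_skew, hhe]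
  have hfhs : ⁅f, h⁆ = (2 : K) • f := by rw [← lie_skew, hhf, neg_neg]
  have hfes : ⁅f, e⁆ = -h := by rw [← lie_skew, ← hhdef]
  have hEe : expA K e e = e := expA_fix hne (lie_self e)
  have hEh : expA K e h = h - (2 : K) • e := by
    rw [expA_two hne, hehs, sub_eq_add_neg]
    rw [hehs, lie_neg, lie_smul, lie_self, smul_zero, neg_zero]
  have hEf : expA K e f = f + h - e := by
    rw [expA_three hne]
    · rw [← hhdef, hehs, smul_neg, smul_smul, inv_mul_cancel₀ two_ne_zero, one_smul,
        sub_eq_add_neg]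
    · rw [← hhdef, hehs, lie_neg, lie_smul, lie_self, smul_zero, neg_zero]
  have hFf : expA K (-f) f = f := expA_fix hnf (by rw [neg_lie, lie_self, neg_zero])
  have hFh : expA K (-f) h = h - (2 : K) • f := by
    rw [expA_two hnf, neg_lie, hfhs, sub_eq_add_neg]
    rw [neg_lie, neg_lie, hfhs, lie_neg, lie_smul, lie_self, smul_zero, neg_zero, neg_zero]
  have hFe : expA K (-f) e = e + h - f := by
    have h1 : ⁅-f, e⁆ = h := by rw [neg_lie, hfes, neg_neg]
    have h2 : ⁅-f, h⁆ = -((2 : K) • f) := by rw [neg_lie, hfhs]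
    rw [expA_three hnf, h1, h2]
    · rw [smul_neg, smul_smul, inv_mul_cancel₀ two_ne_zero, one_smul, sub_eq_add_neg]
    · rw [h1, h2, neg_lie, lie_neg, lie_smul, lie_self, smul_zero, neg_zero, neg_zero]
  have hφh : φ h = -h := by
    rw [hφ, hEh, map_sub, map_smul, hFh, hFe, map_sub, map_sub, map_smul, map_smul, map_sub,
      map_add, hEh, hEf, hEe]
    module
  have hφe : φ e = -f := by
    rw [hφ, hEe, hFe, map_sub, map_add, hEh, hEf, hEe]
    module
  have hφfix : ∀ x ∈ dg K w 0, ⁅x, e⁆ = 0 → φ x = x := by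
    intro x hx hxe
    have hxf : ⁅x, f⁆ = 0 := by
      have h1 : ⁅x, f⁆ ∈ dg K w (-c) := by
        have := lie_dg hx hf
        rwa [zero_add] at this
      obtain ⟨nu, hnu⟩ := line_smul hone' hf hf0 h1
      have h2 : ⁅x, ⁅e, f⁆⁆ = 0 := by rw [← hhdef]; exact hD.comm _ hx _ hh
      rw [leibniz_lie, hxe, zero_lie, zero_add, hnu, lie_smul, ← hhdef] at h2
      have hh0 : h ≠ 0 := by
        rintro rfl
        rw [zero_lie] at hhe
        exact he0 ((smul_eq_zero.1 hhe.symm).resolve_left two_ne_zero)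
      rw [hnu, (smul_eq_zero.1 h2).resolve_right hh0, zero_smul]
    have hex : ⁅e, x⁆ = 0 := by rw [← lie_skew, hxe, neg_zero]
    have hfx : ⁅-f, x⁆ = 0 := by rw [neg_lie, ← lie_skew, hxf, neg_zero, neg_zero]
    rw [hφ, expA_fix hne hex, expA_fix hnf hfx, expA_fix hne hex]
  have hdec : ∀ x ∈ dg K w 0, ∃ x' ∈ dg K w 0, ∃ t : K, ⁅x', e⁆ = 0 ∧ x = x' + t • h := by
    intro x hx
    have h1 : ⁅x, e⁆ ∈ dg K w c := by
      have := lie_dg hx he
      rwa [zero_add] at this
    obtain ⟨xi, hxi⟩ := line_smul hone he he0 h1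
    refine ⟨x - (xi / 2) • h, Submodule.sub_mem _ hx (Submodule.smul_mem _ _ hh), xi / 2, ?_, ?_⟩
    · rw [sub_lie, smul_lie, hxi, hhe, smul_smul, div_mul_cancel₀ _ two_ne_zero, sub_self]
    · simp
  have hφ0 : ∀ x ∈ dg K w 0, φ x ∈ dg K w 0 ∧ φ (φ x) = x := by
    intro x hx
    obtain ⟨x', hx', t, hx'e, rfl⟩ := hdec x hx
    have h1 : φ (x' + t • h) = x' - t • h := by
      rw [map_add, map_smul, hφh, hφfix x' hx' hx'e, smul_neg, sub_eq_add_neg]
    rw [h1]
    refine ⟨Submodule.sub_mem _ hx' (Submodule.smul_mem _ _ hh), ?_⟩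
    rw [map_sub, map_smul, hφh, hφfix x' hx' hx'e, smul_neg, sub_neg_eq_add]
  refine ⟨φ, hW3, ?_, ?_⟩
  · apply le_antisymm
    · rintro _ ⟨x, hx, rfl⟩
      exact (hφ0 x hx).1
    · intro x hx
      exact ⟨φ x, (hφ0 x hx).1, (hφ0 x hx).2⟩
  · set uc : Submodule K L := ⨆ j : ℤ, ⨆ _ : 0 < j ∧ j ≠ c, dg K w j with huc
    have hle : ∀ j : ℤ, 0 < j → j ≠ c → dg K w j ≤ uc := by
      intro j h1 h2
      rw [huc]
      exact le_iSup₂_of_le j ⟨h1, h2⟩ le_rfl
    have hind : ∀ a : L, (∀ j : ℤ, 0 < j → j ≠ c → ∀ x ∈ dg K w j, ⁅a, x⁆ ∈ uc) →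
        ∀ x ∈ uc, ⁅a, x⁆ ∈ uc := by
      intro a ha
      have : uc ≤ uc.comap (LieAlgebra.ad K L a : L →ₗ[K] L) := by
        conv_lhs => rw [huc]
        apply iSup_le
        intro j
        apply iSup_le
        intro hj x hx
        exact ha j hj.1 hj.2 x hx
      intro x hx
      exact this hx
    have hue : ∀ x ∈ uc, ⁅e, x⁆ ∈ uc := by
      apply hind
      intro j hj1 hj2 x hx
      exact hle (c + j) (by omega) (by omega) (lie_dg he hx)
    have huf : ∀ x ∈ uc, ⁅-f, x⁆ ∈ uc := by
      apply hind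
      intro j hj1 hj2 x hx
      rw [neg_lie]
      apply Submodule.neg_mem
      have h1 := lie_dg hf hx
      by_cases hjM : j < M
      · have hx0 : x = 0 := by
          have := hD.gap j (by omega) (by rw [abs_of_pos hj1]; exact hjM)
          rw [this] at hx
          exact (Submodule.mem_bot K).1 hx
        rw [hx0, lie_zero]
        exact Submodule.zero_mem _
      · by_cases hjc : j < c
        · have := hD.gap (-c + j) (by omega) (by rw [abs_lt]; constructor <;> omega)
          rw [this] at h1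
          rw [(Submodule.mem_bot K).1 h1]
          exact Submodule.zero_mem _
        · by_cases hj2c : j = 2 * c
          · have h2 : -c + j = c := by omega
            rw [h2] at h1
            obtain ⟨nu, hnu⟩ := line_smul hone he he0 h1
            have h3 : killingForm K L ⁅f, x⁆ f = 0 := by
              rw [kf_inv', lie_self, map_zero, neg_zero]
            rw [hnu, map_smul, LinearMap.smul_apply, smul_eq_mul] at h3
            rw [hnu, (mul_eq_zero.1 h3).resolve_right hef0, zero_smul]
            exact Submodule.zero_mem _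
          · exact hle (-c + j) (by omega) (by omega) h1
    have hφu : uc.map (φ : L →ₗ[K] L) = uc := by
      have hle1 : uc.map (φ : L →ₗ[K] L) ≤ uc := by
        rintro _ ⟨x, hx, rfl⟩
        show φ x ∈ uc
        rw [hφ]
        exact expA_mem hue _ (expA_mem huf _ (expA_mem hue _ hx))
      apply Submodule.eq_of_le_of_finrank_eq hle1
      exact LinearEquiv.finrank_map_eq (φ.toLinearEquiv) uc
    have hnn : nn K w = uc ⊔ Submodule.span K {e} := by
      apply le_antisymm
      · apply iSup_le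
        intro j
        apply iSup_le
        intro hj
        by_cases hjc : j = c
        · subst hjc
          intro x hx
          obtain ⟨t, rfl⟩ := line_smul hone he he0 hx
          exact Submodule.mem_sup_right (Submodule.smul_mem _ _
            (Submodule.mem_span_singleton_self e))
        · exact (hle j hj hjc).trans le_sup_left
      · apply sup_le
        · rw [huc]
          apply iSup_le
          intro j
          apply iSup_le
          intro hj
          exact le_iSup₂_of_le j hj.1 le_rfl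
        · rw [Submodule.span_singleton_le_iff_mem]
          have : dg K w c ≤ nn K w := le_iSup₂_of_le c (by omega : 0 < c) le_rfl
          exact this he
    rw [hnn, Submodule.map_sup, hφu, Submodule.map_span, Set.image_singleton]
    have : (φ : L →ₗ[K] L) e = -f := hφe
    rw [this]
    congr 1
    rw [← Set.neg_singleton, Submodule.span_neg]

end Pool.Agent.TH611.FL
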