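import Pool.Agent.TH281.DW.Stmts

set_option autoImplicit false

namespace Pool.Agent.TH611.J2106

open Pool.Agent.TH281.DW

/-- the eighth root of `T` -/
theorem root8 {T : ℝ} (hT : 256 ≤ T) : ∃ S : ℝ, 2 ≤ S ∧ S ^ 8 = T ∧ T ^ (1 / 8 : ℝ) = S ∧
    T ^ (1 / 4 : ℝ) = S ^ 2 := by
  have hT0 : 0 ≤ T := by linarith
  refine ⟨T ^ (1 / 8 : ℝ), ?_, ?_, rfl, ?_⟩
  · have h1 : (256 : ℝ) ^ (1 / 8 : ℝ) ≤ T ^ (1 / 8 : ℝ) :=
      Real.rpow_le_rpow (by norm_num) hT (by norm_num)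
    have h2 : (256 : ℝ) ^ (1 / 8 : ℝ) = 2 := by
      rw [show (256 : ℝ) = 2 ^ (8 : ℝ) by norm_num, ← Real.rpow_mul (by norm_num)]
      norm_num
    rwa [h2] at h1
  · rw [← Real.rpow_natCast, ← Real.rpow_mul hT0]; norm_num
  · rw [← Real.rpow_natCast, ← Real.rpow_mul hT0]; norm_num

theorem fq_cast (k : Z2) : (fq k : ℝ) = (k 0 : ℝ) ^ 2 + (k 1 : ℝ) ^ 2 := by
  unfold fq; push_cast; rfl

theorem fq_nonneg (k : Z2) : (0 : ℝ) ≤ (fq k : ℝ) := by
  rw [fq_cast]; positivity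

/-- the basic estimate -/
theorem dt_bound {S : ℝ} (hS : 2 ≤ S) {k l : Z2} (hk : |(fq k : ℝ) - S ^ 16| ≤ S)
    (hl : |(fq l : ℝ) - S ^ 16| ≤ S) (hn : (fq (l - k) : ℝ) ≤ S ^ 2) :
    |(dt k (l - k) : ℝ)| ≤ 3 / 2 * S ^ 2 := by
  have e : (fq l : ℝ) = fq k + 2 * dt k (l - k) + fq (l - k) := by
    have : fq l = fq k + 2 * dt k (l - k) + fq (l - k) := by
      unfold fq dt; simp only [Pi.sub_apply]; ring
    rw [this]; push_cast; ring
  have h0 := fq_nonneg (l - k)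
  rw [abs_le] at hk hl ⊢
  constructor <;> nlinarith

theorem taskLat1 : TaskLat1 := by
  refine ⟨256, by norm_num, ?_⟩
  intro T hT k1 k2 k3 h1 h2 h3 h12 h32
  obtain ⟨S, hS, hS8, e8, e4⟩ := root8 hT
  have hT2 : T ^ 2 = S ^ 16 := by rw [← hS8]; ring
  unfold An at h1 h2 h3
  unfold nb at h12 h32
  rw [e8, hT2] at h1 h2 h3
  rw [e4] at h12 h32
  by_contra hcr
  set n := k1 - k2 with hn
  set n' := k3 - k2 with hn'
  have ha := dt_bound hS h2 h1 h12
  have hb := dt_bound hS h2 h3 h32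
  rw [← hn] at ha
  rw [← hn'] at hb
  set a : ℝ := (dt k2 n : ℝ) with ha'
  set b : ℝ := (dt k2 n' : ℝ) with hb'
  have ha2 : a ^ 2 ≤ 9 / 4 * S ^ 4 := by
    have := pow_le_pow_left₀ (abs_nonneg a) ha 2
    rw [sq_abs] at this
    nlinarith
  have hb2 : b ^ 2 ≤ 9 / 4 * S ^ 4 := by
    have := pow_le_pow_left₀ (abs_nonneg b) hb 2
    rw [sq_abs] at this
    nlinarith
  have hc1 : (1 : ℝ) ≤ (cr n n' : ℝ) ^ 2 := by
    have : (1 : ℤ) ≤ (cr n n') ^ 2 := by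
      have := sq_pos_of_ne_zero hcr
      omega
    exact_mod_cast this
  have hid : (fq k2 : ℝ) * (cr n n' : ℝ) ^ 2 =
      a ^ 2 * fq n' + b ^ 2 * fq n - 2 * a * b * (dt n n' : ℝ) := by
    have : fq k2 * (cr n n') ^ 2 = (dt k2 n) ^ 2 * fq n' + (dt k2 n') ^ 2 * fq n -
        2 * (dt k2 n) * (dt k2 n') * (dt n n') := by
      unfold fq cr dt; ring
    have h5 := congrArg (fun z : ℤ => (z : ℝ)) this
    simpa [ha', hb'] using h5
  have hle : a ^ 2 * fq n' + b ^ 2 * fq n - 2 * a * b * (dt n n' : ℝ) ≤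
      2 * (a ^ 2 * fq n' + b ^ 2 * fq n) := by
    have e1 : a ^ 2 * fq n' + b ^ 2 * fq n + 2 * a * b * (dt n n' : ℝ) =
        (a * n' 0 + b * n 0) ^ 2 + (a * n' 1 + b * n 1) ^ 2 := by
      rw [fq_cast, fq_cast]
      have : (dt n n' : ℝ) = n 0 * n' 0 + n 1 * n' 1 := by unfold dt; push_cast; rfl
      rw [this]; ring
    nlinarith [sq_nonneg (a * (n' 0 : ℝ) + b * n 0), sq_nonneg (a * (n' 1 : ℝ) + b * n 1)]
  have h16 : 2 * (a ^ 2 * fq n' + b ^ 2 * fq n) ≤ 9 * S ^ 6 := by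
    have m1 : a ^ 2 * (fq n' : ℝ) ≤ 9 / 4 * S ^ 4 * S ^ 2 :=
      mul_le_mul ha2 h32 (fq_nonneg _) (by positivity)
    have m2 : b ^ 2 * (fq n : ℝ) ≤ 9 / 4 * S ^ 4 * S ^ 2 :=
      mul_le_mul hb2 h12 (fq_nonneg _) (by positivity)
    nlinarith
  have hk2 : (fq k2 : ℝ) ≤ 9 * S ^ 6 := by
    calc (fq k2 : ℝ) = fq k2 * 1 := (mul_one _).symm
      _ ≤ fq k2 * (cr n n' : ℝ) ^ 2 := mul_le_mul_of_nonneg_left hc1 (fq_nonneg _)
      _ ≤ 9 * S ^ 6 := by rw [hid]; linarith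
  have hlow : S ^ 16 - S ≤ fq k2 := by
    rw [abs_le] at h2; linarith [h2.1]
  have hS10 : (1024 : ℝ) ≤ S ^ 10 := by
    calc (1024 : ℝ) = 2 ^ 10 := by norm_num
      _ ≤ S ^ 10 := pow_le_pow_left₀ (by norm_num) hS 10
  have hS16 : 1024 * S ^ 6 ≤ S ^ 16 := by
    calc 1024 * S ^ 6 ≤ S ^ 10 * S ^ 6 := by gcongr
      _ = S ^ 16 := by ring
  have hS6 : S ≤ S ^ 6 := by
    calc S = S ^ 1 := (pow_one S).symm
      _ ≤ S ^ 6 := pow_le_pow_right₀ (by linarith) (by norm_num)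
  nlinarith [pow_pos (by linarith : (0 : ℝ) < S) 6]

theorem fq_pos {d : Z2} (hd : IsCoprime (d 0) (d 1)) : 1 ≤ fq d := by
  have h0 : 0 ≤ fq d := by unfold fq; positivity
  rcases h0.lt_or_eq with h | h
  · omega
  · exfalso
    have h1 : d 0 ^ 2 + d 1 ^ 2 = 0 := h.symm
    have h2 : d 0 = 0 := by nlinarith [sq_nonneg (d 0), sq_nonneg (d 1)]
    have h3 : d 1 = 0 := by nlinarith [sq_nonneg (d 0), sq_nonneg (d 1)]
    rw [h2, h3] at hd
    exact not_isCoprime_zero_zero hd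

theorem parallel {n d : Z2} (hd : IsCoprime (d 0) (d 1)) (h : cr n d = 0) :
    ∃ j : ℤ, n 0 = j * d 0 ∧ n 1 = j * d 1 := by
  obtain ⟨a, b, hab⟩ := hd
  have h' : n 0 * d 1 = n 1 * d 0 := by unfold cr at h; linarith
  refine ⟨a * n 0 + b * n 1, ?_, ?_⟩
  · linear_combination (-(n 0)) * hab + b * h'
  · linear_combination (-(n 1)) * hab - a * h'

theorem taskLat2 : TaskLat2 := by
  intro d hd
  have hfq := fq_pos hd
  have hfqR : (1 : ℝ) ≤ (fq d : ℝ) := by exact_mod_cast hfq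
  set A : ℝ := 2 * (fq d + 3) + 1 with hA
  have hA0 : 0 < A := by rw [hA]; linarith
  refine ⟨A ^ 2 + 256, by nlinarith, ?_⟩
  intro T hT k l hk hl hkl hn hcr
  obtain ⟨S, hS, hS8, e8, e4⟩ := root8 (by nlinarith : (256 : ℝ) ≤ T)
  have hT2 : T ^ 2 = S ^ 16 := by rw [← hS8]; ring
  unfold An at hk hl
  unfold nb at hn
  rw [e8, hT2] at hk hl
  rw [e4] at hn
  have hS0 : 0 < S := by linarith
  have hS4 : A ≤ S ^ 4 := by
    have h1 : A ^ 2 ≤ (S ^ 4) ^ 2 := by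
      calc A ^ 2 ≤ T := by linarith
        _ = (S ^ 4) ^ 2 := by rw [← hS8]; ring
    exact le_of_sq_le_sq h1 (by positivity)
  -- `l - k = j d`
  have hcr' : cr (l - k) d = 0 := by
    unfold cr at hcr ⊢; simp only [Pi.sub_apply] at hcr ⊢; linarith
  obtain ⟨j, hj0, hj1⟩ := parallel hd hcr'
  have hj : j ≠ 0 := by
    rintro rfl
    apply hkl
    funext i
    fin_cases i
    · simp only [Pi.sub_apply, zero_mul] at hj0
      show k 0 = l 0
      linarith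
    · simp only [Pi.sub_apply, zero_mul] at hj1
      show k 1 = l 1
      linarith
  have hn' : (fq (l - k) : ℝ) ≤ S ^ 2 := by
    have : fq (l - k) = fq (k - l) := by unfold fq; simp only [Pi.sub_apply]; ring
    rw [this]; exact hn
  have hdt := dt_bound hS hk hl hn'
  have hdtj : (dt k (l - k) : ℝ) = j * dt k d := by
    have : dt k (l - k) = j * dt k d := by unfold dt; rw [hj0, hj1]; ring
    rw [this]; push_cast; rfl
  have hdtd : |(dt k d : ℝ)| ≤ 3 / 2 * S ^ 2 := by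
    rw [hdtj, abs_mul] at hdt
    have h1 : (1 : ℝ) ≤ |(j : ℝ)| := by exact_mod_cast Int.one_le_abs hj
    calc |(dt k d : ℝ)| = 1 * |(dt k d : ℝ)| := (one_mul _).symm
      _ ≤ |(j : ℝ)| * |(dt k d : ℝ)| := mul_le_mul_of_nonneg_right h1 (abs_nonneg _)
      _ ≤ _ := hdt
  have hdt2 : (dt k d : ℝ) ^ 2 ≤ 9 / 4 * S ^ 4 := by
    have := pow_le_pow_left₀ (abs_nonneg _) hdtd 2
    rw [sq_abs] at this
    nlinarith
  set c : ℝ := |(cr k d : ℝ)| with hc
  have hc0 : 0 ≤ c := abs_nonneg _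
  have hc2 : c ^ 2 = fq k * fq d - (dt k d : ℝ) ^ 2 := by
    rw [hc, sq_abs]
    have := congrArg (fun z : ℤ => (z : ℝ)) (dt_cr k d)
    push_cast at this
    linarith
  set r : ℝ := Real.sqrt (fq d : ℝ) with hr
  have hr2 : r ^ 2 = fq d := Real.sq_sqrt (by linarith)
  have hr1 : 1 ≤ r := by
    rw [hr, Real.one_le_sqrt]; exact hfqR
  have hT0 : 0 < T := by nlinarith
  have hdiff : |c ^ 2 - (T * r) ^ 2| ≤ (fq d + 3) * S ^ 4 := by
    have e1 : c ^ 2 - (T * r) ^ 2 = ((fq k : ℝ) - S ^ 16) * fq d - (dt k d : ℝ) ^ 2 := by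
      rw [hc2, mul_pow, hr2, hT2]; ring
    have hSS : S ≤ S ^ 4 := by
      calc S = S ^ 1 := (pow_one S).symm
        _ ≤ S ^ 4 := pow_le_pow_right₀ (by linarith) (by norm_num)
    rw [e1]
    calc |((fq k : ℝ) - S ^ 16) * fq d - (dt k d : ℝ) ^ 2|
        ≤ |((fq k : ℝ) - S ^ 16) * fq d| + |(dt k d : ℝ) ^ 2| := abs_sub _ _
      _ = |(fq k : ℝ) - S ^ 16| * fq d + (dt k d : ℝ) ^ 2 := by
          rw [abs_mul, abs_of_pos (by linarith : (0 : ℝ) < fq d), abs_of_nonneg (sq_nonneg ((dt k d : ℤ) : ℝ))]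
      _ ≤ S * fq d + 9 / 4 * S ^ 4 := by gcongr
      _ ≤ S ^ 4 * fq d + 3 * S ^ 4 := by
          have : S * (fq d : ℝ) ≤ S ^ 4 * fq d := by gcongr
          have h4 : 0 < S ^ 4 := by positivity
          linarith
      _ = (fq d + 3) * S ^ 4 := by ring
  have hclose : |c - T * r| < 1 / 2 := by
    have hfac : |c - T * r| * (c + T * r) = |c ^ 2 - (T * r) ^ 2| := by
      have : c ^ 2 - (T * r) ^ 2 = (c - T * r) * (c + T * r) := by ring
      rw [this, abs_mul, abs_of_nonneg (by positivity : 0 ≤ c + T * r)]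
    by_contra hcon
    push Not at hcon
    have h1 : 1 / 2 * T ≤ |c - T * r| * (c + T * r) := by
      apply mul_le_mul hcon _ hT0.le (abs_nonneg _)
      nlinarith
    rw [hfac] at h1
    have h2 : 1 / 2 * (S ^ 4 * S ^ 4) ≤ (fq d + 3) * S ^ 4 := by
      calc 1 / 2 * (S ^ 4 * S ^ 4) = 1 / 2 * T := by rw [← hS8]; ring
        _ ≤ _ := h1.trans hdiff
    have h4 : 0 < S ^ 4 := by positivity
    have h5 : 1 / 2 * S ^ 4 ≤ fq d + 3 := by
      have : (1 / 2 * S ^ 4) * S ^ 4 ≤ (fq d + 3) * S ^ 4 := by linarith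
      exact le_of_mul_le_mul_right this h4
    rw [hA] at hS4
    linarith
  have hmd : md T d = |cr k d| := by
    unfold md
    rw [round_eq_iff]
    rw [abs_lt] at hclose
    have hcc : ((|cr k d| : ℤ) : ℝ) = c := by rw [hc]; push_cast; rfl
    rw [hcc]
    constructor <;> linarith
  rcases abs_choice (cr k d) with h | h
  · exact ⟨1, Or.inl rfl, by unfold onl; rw [hmd]; simp only; rw [h, one_mul]⟩
  · exact ⟨-1, Or.inr rfl, by unfold onl; rw [hmd]; simp only; rw [h]; ring⟩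

theorem taskDir : TaskDir := by
  intro D0
  classical
  set 𝒟 : Finset Z2 := (Fintype.piFinset fun _ => Finset.Icc (-(D0 : ℤ)) D0).filter
    (fun d => IsCoprime (d 0) (d 1) ∧ (0 < d 0 ∨ (d 0 = 0 ∧ d 1 = 1))) with h𝒟
  have hmem : ∀ d : Z2, d ∈ 𝒟 ↔ ((∀ i, -(D0 : ℤ) ≤ d i ∧ d i ≤ D0) ∧ IsCoprime (d 0) (d 1) ∧
      (0 < d 0 ∨ (d 0 = 0 ∧ d 1 = 1))) := by
    intro d
    rw [h𝒟, Finset.mem_filter, Fintype.mem_piFinset]
    simp only [Finset.mem_Icc]
  refine ⟨𝒟, ⟨fun d hd => ((hmem d).1 hd).2.1, ?_⟩, ?_⟩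
  · intro d hd d' hd' hne hcr
    apply hne
    obtain ⟨-, hp, hn⟩ := (hmem d).1 hd
    obtain ⟨-, hp', hn'⟩ := (hmem d').1 hd'
    obtain ⟨j, hj0, hj1⟩ := parallel hp' hcr
    have hju : IsUnit j := by
      rw [hj0, hj1] at hp
      obtain ⟨a, b, hab⟩ := hp
      exact isUnit_of_dvd_one ⟨a * d' 0 + b * d' 1, by linear_combination -hab⟩
    rcases Int.isUnit_iff.1 hju with rfl | rfl
    · funext i
      fin_cases i
      · show d 0 = d' 0; linarith
      · show d 1 = d' 1; linarith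
    · exfalso
      rcases hn with h | ⟨h, h'⟩ <;> rcases hn' with h2 | ⟨h2, h2'⟩ <;> omega
  · intro n hn hfq
    have hb : ∀ i, |n i| ≤ D0 := by
      intro i
      apply abs_le_of_sq_le_sq _ (by positivity)
      have h0 : 0 ≤ n 0 ^ 2 := sq_nonneg _
      have h1 : 0 ≤ n 1 ^ 2 := sq_nonneg _
      unfold fq at hfq
      fin_cases i
      · show n 0 ^ 2 ≤ (D0 : ℤ) ^ 2; linarith
      · show n 1 ^ 2 ≤ (D0 : ℤ) ^ 2; linarith
    -- primitive vector
    obtain ⟨g, d, hg, hnd, hp⟩ : ∃ (g : ℤ) (d : Z2), 0 < g ∧ (∀ i, n i = g * d i) ∧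
        IsCoprime (d 0) (d 1) := by
      have hgpos : 0 < Int.gcd (n 0) (n 1) := by
        rw [Nat.pos_iff_ne_zero]
        intro h
        rw [Int.gcd_eq_zero_iff] at h
        apply hn
        funext i
        fin_cases i
        · exact h.1
        · exact h.2
      obtain ⟨m, m', hm, h0, h1⟩ := Int.exists_gcd_one hgpos
      refine ⟨Int.gcd (n 0) (n 1), ![m, m'], by exact_mod_cast hgpos, ?_, ?_⟩
      · intro i
        fin_cases i
        · simpa [mul_comm] using h0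
        · simpa [mul_comm] using h1
      · simpa [Int.isCoprime_iff_gcd_eq_one] using hm
    have hdb : ∀ i, |d i| ≤ D0 := by
      intro i
      refine le_trans ?_ (hb i)
      rw [hnd i, abs_mul, abs_of_pos hg]
      nlinarith [abs_nonneg (d i)]
    have hcr : cr n d = 0 := by unfold cr; rw [hnd 0, hnd 1]; ring
    -- normalise the sign
    have hcases : (0 < d 0 ∨ (d 0 = 0 ∧ d 1 = 1)) ∨ (0 < -d 0 ∨ (-d 0 = 0 ∧ -d 1 = 1)) := by
      rcases lt_trichotomy (d 0) 0 with h | h | h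
      · right; left; omega
      · rw [h, isCoprime_zero_left, Int.isUnit_iff] at hp
        rcases hp with h' | h'
        · left; right; exact ⟨h, h'⟩
        · right; right; constructor <;> omega
      · left; left; exact h
    rcases hcases with hc | hc
    · exact ⟨d, (hmem d).2 ⟨fun i => abs_le.1 (hdb i), hp, hc⟩, hcr⟩
    · refine ⟨-d, (hmem (-d)).2 ⟨fun i => ?_, ?_, hc⟩, ?_⟩
      · have := abs_le.1 (hdb i)
        simp only [Pi.neg_apply]
        constructor <;> linarith [this.1, this.2]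
      · simp only [Pi.neg_apply]
        exact (hp.neg_left).neg_right
      · unfold cr at hcr ⊢
        simp only [Pi.neg_apply]
        linarith

end Pool.Agent.TH611.J2106
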