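import Pool.Agent.TH611.J2106

set_option autoImplicit false

namespace Pool.Agent.TH611.J2107

open Pool.Agent.TH281.DW
open Pool.Agent.TH611.J2106

theorem md_bound {T : ℝ} (hT : 1 ≤ T) {d : Z2} (hd : IsCoprime (d 0) (d 1)) :
    T ^ 2 * (fq d : ℝ) / 4 ≤ (md T d : ℝ) ^ 2 ∧ T ^ 2 - T ≤ (md T d : ℝ) ^ 2 / (fq d : ℝ) := by
  have hfqR : (1 : ℝ) ≤ (fq d : ℝ) := by exact_mod_cast fq_pos hd
  set r : ℝ := Real.sqrt (fq d : ℝ) with hr
  have hr2 : r ^ 2 = fq d := Real.sq_sqrt (by linarith)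
  have hr1 : 1 ≤ r := by
    rw [hr, Real.one_le_sqrt]; exact hfqR
  have h1 : |T * r - (md T d : ℝ)| ≤ 1 / 2 := abs_sub_round _
  rw [abs_le] at h1
  have hTr : 1 ≤ T * r := by nlinarith
  have hm : T * r - 1 / 2 ≤ (md T d : ℝ) := by linarith [h1.2]
  have hm2 : (T * r - 1 / 2) ^ 2 ≤ (md T d : ℝ) ^ 2 := by
    apply pow_le_pow_left₀ (by linarith) hm
  constructor
  · have : T ^ 2 * (fq d : ℝ) / 4 ≤ (T * r - 1 / 2) ^ 2 := by
      rw [← hr2]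
      nlinarith
    exact this.trans hm2
  · rw [le_div_iff₀ (by linarith)]
    refine le_trans ?_ hm2
    rw [← hr2]
    have h2 : T * r ≤ T * r ^ 2 := by
      have : 0 ≤ T * r := by linarith
      nlinarith
    nlinarith

theorem kap0 (T : ℝ) (d : Z2) (e : ℤ) :
    kap T (d, e) 0 = ((e * md T d : ℤ) : ℝ) / (fq d : ℝ) * (d 1 : ℝ) := by
  unfold kap; simp

theorem kap1 (T : ℝ) (d : Z2) (e : ℤ) :
    kap T (d, e) 1 = -(((e * md T d : ℤ) : ℝ) / (fq d : ℝ) * (d 0 : ℝ)) := by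
  unfold kap; simp

theorem mem_lines {𝒟 : Finset Z2} {d : Z2} {e : ℤ} (h : (d, e) ∈ Lines 𝒟) :
    d ∈ 𝒟 ∧ (e = 1 ∨ e = -1) := by
  unfold Lines at h
  rw [Finset.mem_product] at h
  simpa using h

theorem taskSep : TaskSep := by
  intro 𝒟 h𝒟
  set M : ℝ := 1 + ∑ d ∈ 𝒟, (fq d : ℝ) with hM
  have hsum0 : 0 ≤ ∑ d ∈ 𝒟, (fq d : ℝ) := Finset.sum_nonneg fun d _ => fq_nonneg d
  have hM1 : 1 ≤ M := by rw [hM]; linarith
  have hMd : ∀ d ∈ 𝒟, (fq d : ℝ) ≤ M := by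
    intro d hd
    have := Finset.single_le_sum (f := fun d : Z2 => (fq d : ℝ)) (fun d _ => fq_nonneg d) hd
    rw [hM]
    linarith
  refine ⟨1 / (2 * M), by positivity, 1, le_rfl, ?_⟩
  intro T hT l hl l' hl' hne
  obtain ⟨d, e⟩ := l
  obtain ⟨d', e'⟩ := l'
  obtain ⟨hd, he⟩ := mem_lines hl
  obtain ⟨hd', he'⟩ := mem_lines hl'
  have hp := h𝒟.prim d hd
  have hp' := h𝒟.prim d' hd'
  have hfq : (1 : ℝ) ≤ (fq d : ℝ) := by exact_mod_cast fq_pos hp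
  have hfq' : (1 : ℝ) ≤ (fq d' : ℝ) := by exact_mod_cast fq_pos hp'
  have hm := (md_bound hT hp).1
  rw [kap0, kap1, kap0, kap1]
  set A : ℝ := ((e * md T d : ℤ) : ℝ) / (fq d : ℝ) with hA
  set A' : ℝ := ((e' * md T d' : ℤ) : ℝ) / (fq d' : ℝ) with hA'
  have he2 : ((e : ℤ) : ℝ) ^ 2 = 1 := by rcases he with h | h <;> rw [h] <;> norm_num
  have hA2 : A ^ 2 * (fq d : ℝ) = (md T d : ℝ) ^ 2 / (fq d : ℝ) := by
    rw [hA]
    push_cast
    have : (fq d : ℝ) ≠ 0 := by linarith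
    field_simp
    rw [he2, one_mul]
  have hA3 : T ^ 2 / 4 ≤ A ^ 2 * (fq d : ℝ) := by
    rw [hA2, le_div_iff₀ (by linarith)]
    linarith
  have hBT : (1 / (2 * M) * T) ^ 2 = T ^ 2 / 4 / (M * M) := by
    field_simp
    ring
  rw [hBT, div_le_iff₀ (by positivity)]
  by_cases hdd : d = d'
  · subst hdd
    have hee : e' = -e := by
      have : e ≠ e' := fun h => hne (by rw [h])
      rcases he with h | h <;> rcases he' with h' | h' <;> subst h <;> subst h' <;> simp_all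
    have hAA : A' = -A := by rw [hA', hA, hee]; push_cast; ring
    rw [hAA]
    have e1 : (A * (d 1 : ℝ) - -A * (d 1 : ℝ)) ^ 2 + (-(A * (d 0 : ℝ)) - -(-A * (d 0 : ℝ))) ^ 2 =
        4 * (A ^ 2 * fq d) := by rw [fq_cast]; ring
    rw [e1]
    have hMM : 1 ≤ M * M := by nlinarith
    have h0 : 0 ≤ T ^ 2 / 4 := by positivity
    nlinarith
  · have hcr := h𝒟.sep d hd d' hd' hdd
    have hcr1 : (1 : ℝ) ≤ (cr d d' : ℝ) ^ 2 := by
      have : (1 : ℤ) ≤ (cr d d') ^ 2 := by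
        have := sq_pos_of_ne_zero hcr
        omega
      exact_mod_cast this
    set u0 : ℝ := A * (d 1 : ℝ) - A' * (d' 1 : ℝ) with hu0
    set u1 : ℝ := -(A * (d 0 : ℝ)) - -(A' * (d' 0 : ℝ)) with hu1
    have e1 : u0 * d' 0 + u1 * d' 1 = -(A * (cr d d' : ℝ)) := by
      rw [hu0, hu1]; unfold cr; push_cast; ring
    have e2 : (u0 * d' 0 + u1 * d' 1) ^ 2 ≤ (u0 ^ 2 + u1 ^ 2) * fq d' := by
      rw [fq_cast]
      nlinarith [sq_nonneg (u0 * (d' 1 : ℝ) - u1 * d' 0)]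
    rw [e1] at e2
    have e3 : A ^ 2 ≤ (u0 ^ 2 + u1 ^ 2) * fq d' := by
      calc A ^ 2 = A ^ 2 * 1 := (mul_one _).symm
        _ ≤ A ^ 2 * (cr d d' : ℝ) ^ 2 := mul_le_mul_of_nonneg_left hcr1 (sq_nonneg _)
        _ = (-(A * (cr d d' : ℝ))) ^ 2 := by ring
        _ ≤ _ := e2
    calc T ^ 2 / 4 ≤ A ^ 2 * fq d := hA3
      _ ≤ ((u0 ^ 2 + u1 ^ 2) * fq d') * fq d := by gcongr
      _ = (u0 ^ 2 + u1 ^ 2) * (fq d' * fq d) := by ring
      _ ≤ (u0 ^ 2 + u1 ^ 2) * (M * M) := by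
          have h1 := hMd d hd
          have h2 := hMd d' hd'
          gcongr

/-- a point of the annulus on the line `l` is close to `kap T l` -/
theorem close {T S : ℝ} (hT : 1 ≤ T) {k d : Z2} {e : ℤ} (hd : IsCoprime (d 0) (d 1))
    (he : e = 1 ∨ e = -1) (hk : |(fq k : ℝ) - T ^ 2| ≤ S) (hS : S ≤ T) (hon : onl T (d, e) k) :
    ((k 0 : ℝ) - kap T (d, e) 0) ^ 2 + ((k 1 : ℝ) - kap T (d, e) 1) ^ 2 ≤ 2 * T := by
  have hfq : (1 : ℝ) ≤ (fq d : ℝ) := by exact_mod_cast fq_pos hd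
  have hfq0 : (fq d : ℝ) ≠ 0 := by linarith
  have hm := (md_bound hT hd).2
  have hc : cr k d = e * md T d := hon
  rw [kap0, kap1, ← hc]
  have he2 : ((e : ℤ) : ℝ) ^ 2 = 1 := by rcases he with h | h <;> rw [h] <;> norm_num
  have hc2 : (cr k d : ℝ) ^ 2 = (md T d : ℝ) ^ 2 := by
    rw [hc]; push_cast; rw [mul_pow, he2, one_mul]
  have e0 : (k 0 : ℝ) - (cr k d : ℝ) / (fq d : ℝ) * (d 1 : ℝ) = (dt k d : ℝ) * d 0 / fq d := by
    have h1 : (k 0 : ℝ) * fq d = (dt k d : ℝ) * d 0 + (cr k d : ℝ) * d 1 := by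
      rw [fq_cast]; unfold dt cr; push_cast; ring
    field_simp
    linarith
  have e1 : (k 1 : ℝ) - -((cr k d : ℝ) / (fq d : ℝ) * (d 0 : ℝ)) =
      (dt k d : ℝ) * d 1 / fq d := by
    have h1 : (k 1 : ℝ) * fq d = (dt k d : ℝ) * d 1 - (cr k d : ℝ) * d 0 := by
      rw [fq_cast]; unfold dt cr; push_cast; ring
    field_simp
    linarith
  rw [e0, e1]
  have e2 : ((dt k d : ℝ) * d 0 / fq d) ^ 2 + ((dt k d : ℝ) * d 1 / fq d) ^ 2 =
      (dt k d : ℝ) ^ 2 / fq d := by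
    have : ((dt k d : ℝ) * d 0 / fq d) ^ 2 + ((dt k d : ℝ) * d 1 / fq d) ^ 2 =
      (dt k d : ℝ) ^ 2 * ((d 0 : ℝ) ^ 2 + (d 1 : ℝ) ^ 2) / (fq d) ^ 2 := by ring
    rw [this, ← fq_cast]
    field_simp
  rw [e2]
  have e3 : (dt k d : ℝ) ^ 2 / fq d = fq k - (md T d : ℝ) ^ 2 / fq d := by
    have h1 : (dt k d : ℝ) ^ 2 + (cr k d : ℝ) ^ 2 = fq k * fq d := by
      have := congrArg (fun z : ℤ => (z : ℝ)) (dt_cr k d)
      push_cast at this
      exact this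
    rw [← hc2]
    field_simp
    linarith
  rw [e3]
  rw [abs_le] at hk
  linarith [hk.2]

theorem taskLat3 (h : TaskSep) : TaskLat3 := by
  intro 𝒟 h𝒟
  obtain ⟨B, hB, T0, hT0, hsep⟩ := h 𝒟 h𝒟
  refine ⟨T0 + 15 / B ^ 2 + 256, ?_, ?_⟩
  · have : 0 < 15 / B ^ 2 := by positivity
    linarith
  intro T hT k k' hk hk' hn l hl l' hl' hon hon'
  have h15 : 0 < 15 / B ^ 2 := by positivity
  obtain ⟨S, hS, hS8, e8, e4⟩ := root8 (by linarith : (256 : ℝ) ≤ T)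
  unfold An at hk hk'
  unfold nb at hn
  rw [e8] at hk hk'
  rw [e4] at hn
  have hS1 : 1 ≤ S := by linarith
  have hST : S ≤ T := by
    rw [← hS8]
    calc S = S ^ 1 := (pow_one S).symm
      _ ≤ S ^ 8 := pow_le_pow_right₀ hS1 (by norm_num)
  have hS2T : S ^ 2 ≤ T := by
    rw [← hS8]
    exact pow_le_pow_right₀ hS1 (by norm_num)
  by_contra hne
  have hsep' := hsep T (by linarith) l hl l' hl' hne
  obtain ⟨d, e⟩ := l
  obtain ⟨d', e'⟩ := l'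
  obtain ⟨hd, he⟩ := mem_lines hl
  obtain ⟨hd', he'⟩ := mem_lines hl'
  have hT1 : 1 ≤ T := by linarith
  have c1 := close hT1 (h𝒟.prim d hd) he hk hST hon
  have c2 := close hT1 (h𝒟.prim d' hd') he' hk' hST hon'
  set x0 := kap T (d, e) 0
  set x1 := kap T (d, e) 1
  set y0 := kap T (d', e') 0
  set y1 := kap T (d', e') 1
  have c3 : ((k 0 : ℝ) - k' 0) ^ 2 + ((k 1 : ℝ) - k' 1) ^ 2 ≤ T := by
    have : (fq (k - k') : ℝ) = ((k 0 : ℝ) - k' 0) ^ 2 + ((k 1 : ℝ) - k' 1) ^ 2 := by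
      rw [fq_cast]; simp only [Pi.sub_apply]; push_cast; ring
    rw [← this]
    linarith
  have tri : ∀ a b c d : ℝ, (a - d) ^ 2 ≤ 3 * ((b - a) ^ 2 + (b - c) ^ 2 + (c - d) ^ 2) := by
    intro a b c d
    nlinarith [sq_nonneg ((b - a) + (b - c)), sq_nonneg ((b - a) + (c - d)),
      sq_nonneg ((b - c) - (c - d))]
  have t0 := tri x0 (k 0) (k' 0) y0
  have t1 := tri x1 (k 1) (k' 1) y1
  have hfin : (B * T) ^ 2 ≤ 15 * T := by linarith
  have hB2 : 0 < B ^ 2 := by positivity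
  have h2 : 15 < B ^ 2 * T := by
    have : 15 / B ^ 2 < T := by linarith
    rw [div_lt_iff₀ hB2] at this
    linarith
  nlinarith

end Pool.Agent.TH611.J2107
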