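import Pool.Agent.TH317.CC.Arr

/-!
# Connectedness of the arrangement graph at small scales
(project MP_86dbc7_gt, job CC-R4, helper611)
-/

set_option autoImplicit false

universe u v w

namespace Pool.Agent.TH317.CC

open Filter Topology

namespace H611

section Rel

variable {D V Λ : Type*} [LinearOrder Λ] (G : Rib D V Λ) (S : Set V)

/-- `x` and `y` are joined by a walk with all vertices in `S` -/
def Cn (x y : V) : Prop := ∃ w, Walk G x y w ∧ ∀ e ∈ w, G.tl e ∈ S ∧ G.hd e ∈ S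

variable {G S}

lemma Cn.refl (x : V) : Cn G S x x := ⟨[], rfl, by simp⟩

lemma walk_append : ∀ (w w' : List D) (x y z : V), Walk G x y w → Walk G y z w' →
    Walk G x z (w ++ w')
  | [], w', x, y, z, h, h' => by
      have : x = y := h
      subst this
      exact h'
  | d :: w, w', x, y, z, h, h' => ⟨h.1, walk_append w w' _ y z h.2 h'⟩

lemma Cn.trans {x y z : V} (h : Cn G S x y) (h' : Cn G S y z) : Cn G S x z := by
  obtain ⟨w, hw, hS⟩ := h
  obtain ⟨w', hw', hS'⟩ := h'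
  refine ⟨w ++ w', walk_append w w' x y z hw hw', ?_⟩
  intro e he
  rcases List.mem_append.1 he with he | he
  · exact hS e he
  · exact hS' e he

lemma Cn.dart (d : D) (h1 : G.tl d ∈ S) (h2 : G.hd d ∈ S) : Cn G S (G.tl d) (G.hd d) :=
  ⟨[d], ⟨rfl, rfl⟩, by intro e he; rw [List.mem_singleton.1 he]; exact ⟨h1, h2⟩⟩

lemma Cn.symm {x y : V} (h : Cn G S x y) : Cn G S y x := by
  obtain ⟨w, hw, hS⟩ := h
  induction w generalizing x with
  | nil =>
    have : x = y := hw
    subst this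
    exact Cn.refl x
  | cons d l ih =>
    have h1 : Cn G S y (G.hd d) := ih hw.2 (fun e he => hS e (List.mem_cons_of_mem _ he))
    have h2 := hS d List.mem_cons_self
    have e1 : G.hd (G.inv d) = G.tl d := by simp only [Rib.hd, G.inv_inv]
    have h3 : Cn G S (G.tl (G.inv d)) (G.hd (G.inv d)) := by
      apply Cn.dart
      · exact h2.2
      · rw [e1]; exact h2.1
    rw [e1, hw.1] at h3
    exact h1.trans h3

end Rel

/-- a grid line in an interval -/
lemma exists_k {m : ℕ} (hm : 1 ≤ m) {c : ℝ} (hc : 0 < c ∧ c < 1) {a b : ℝ} (ha : 0 ≤ a)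
    (hb : b ≤ 1) (hab : 1 / (m : ℝ) ≤ b - a) :
    ∃ k : Fin m, a ≤ ((k : ℕ) + c) / m ∧ ((k : ℕ) + c) / m ≤ b := by
  have hm0 : (0 : ℝ) < m := by exact_mod_cast hm
  have h1 : 1 ≤ (b - a) * m := by
    rwa [div_le_iff₀ hm0] at hab
  have hk1 : a * m - c ≤ (⌈a * m - c⌉₊ : ℝ) := Nat.le_ceil _
  have ham : 0 ≤ a * m := by positivity
  have hbm : b * m ≤ m := by nlinarith
  have hk2 : (⌈a * m - c⌉₊ : ℝ) ≤ b * m - c := by
    rcases le_or_gt 0 (a * m - c) with h | h
    · have := Nat.ceil_lt_add_one h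
      nlinarith
    · have : ⌈a * m - c⌉₊ = 0 := Nat.ceil_eq_zero.2 h.le
      rw [this]
      push_cast
      nlinarith [hc.2]
  have hk3 : ⌈a * m - c⌉₊ < m := by
    have : (⌈a * m - c⌉₊ : ℝ) < m := by linarith [hc.1]
    exact_mod_cast this
  refine ⟨⟨_, hk3⟩, ?_, ?_⟩
  · rw [le_div_iff₀ hm0]
    simp only
    linarith
  · rw [div_le_iff₀ hm0]
    simp only
    linarith

section Main

variable {M : Type u} [MetricSpace M] {n : ℕ} (C : BoxCharts M n) (m : ℕ)
  (s : Fin n → Bool → ℝ)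

lemma crossT_finite (hs : Generic C m s) (l : LineIx n m) : (crossT C m s l).Finite := by
  classical
  have : crossT C m s l ⊆ ⋃ l' ∈ {l' : LineIx n m | l' ≠ l},
      Prod.fst '' {q : ℝ × ℝ | q.1 ∈ Set.Icc (0 : ℝ) 1 ∧ q.2 ∈ Set.Icc (0 : ℝ) 1 ∧
        line C m s l q.1 = line C m s l' q.2} := by
    rintro t ⟨ht, l', hl', t', ht', h⟩
    simp only [Set.mem_iUnion, Set.mem_image]
    exact ⟨l', hl', (t, t'), ⟨ht, ht', h⟩, rfl⟩
  refine Set.Finite.subset ?_ this
  refine Set.Finite.biUnion (Set.toFinite _) ?_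
  intro l' hl'
  exact (hs.fin l l' (Ne.symm hl')).image _

variable {N : Type u} [LinearOrder N] {ν : M → N} {G : Rib (ArrD C m s) M (N ×ₗ ℕ)}

/-- walks along a line, increasing times -/
lemma line_walk_le (hs : Generic C m s) (hG : IsArrRib C m s ν G) (S : Set M)
    (l : LineIx n m) : ∀ (q : ℕ) (t t' : ℝ), t ∈ crossT C m s l → t' ∈ crossT C m s l →
    t ≤ t' → (crossT C m s l ∩ Set.Ioc t t').ncard ≤ q →
    (∀ τ ∈ Set.Icc t t', line C m s l τ ∈ S) →
    Cn G S (line C m s l t) (line C m s l t') := by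
  intro q
  induction q with
  | zero =>
    intro t t' ht ht' hle hq hS
    have hfin : (crossT C m s l ∩ Set.Ioc t t').Finite :=
      (crossT_finite C m s hs l).subset Set.inter_subset_left
    have h0 : crossT C m s l ∩ Set.Ioc t t' = ∅ :=
      (Set.ncard_eq_zero hfin).1 (Nat.le_zero.1 hq)
    rcases eq_or_lt_of_le hle with h | h
    · subst h
      exact Cn.refl _
    · exfalso
      have : t' ∈ crossT C m s l ∩ Set.Ioc t t' := ⟨ht', h, le_refl _⟩
      rw [h0] at this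
      exact this
  | succ q ih =>
    intro t t' ht ht' hle hq hS
    have hfin : (crossT C m s l ∩ Set.Ioc t t').Finite :=
      (crossT_finite C m s hs l).subset Set.inter_subset_left
    rcases eq_or_lt_of_le hle with h | h
    · subst h
      exact Cn.refl _
    · have hne : (crossT C m s l ∩ Set.Ioc t t').Nonempty := ⟨t', ht', h, le_refl _⟩
      obtain ⟨t1, ⟨ht1, ht1b⟩, hmin⟩ := Set.exists_min_image _ (fun x : ℝ => x) hfin hne
      -- the dart
      have hd : (l, t, t1).2.1 ∈ crossT C m s (l, t, t1).1 ∧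
          (l, t, t1).2.2 ∈ crossT C m s (l, t, t1).1 ∧
          (l, t, t1).2.1 ≠ (l, t, t1).2.2 ∧ ∀ τ ∈ crossT C m s (l, t, t1).1,
            ¬ (min (l, t, t1).2.1 (l, t, t1).2.2 < τ ∧ τ < max (l, t, t1).2.1 (l, t, t1).2.2) := by
        refine ⟨ht, ht1, (ne_of_lt ht1b.1), ?_⟩
        intro τ hτ
        simp only [min_eq_left ht1b.1.le, max_eq_right ht1b.1.le]
        rintro ⟨h1, h2⟩
        have := hmin τ ⟨hτ, h1, h2.le.trans ht1b.2⟩
        exact absurd h2 (not_lt.2 this)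
      let d : ArrD C m s := ⟨(l, t, t1), hd⟩
      have e1 : G.tl d = line C m s l t := by rw [hG.tl]; rfl
      have e2 : G.hd d = line C m s l t1 := by
        unfold Rib.hd
        rw [hG.inv, hG.tl]; rfl
      have hc : Cn G S (G.tl d) (G.hd d) := by
        apply Cn.dart
        · rw [e1]; exact hS t ⟨le_refl _, hle⟩
        · rw [e2]; exact hS t1 ⟨ht1b.1.le, ht1b.2⟩
      rw [e1, e2] at hc
      refine hc.trans (ih t1 t' ht1 ht' ht1b.2 ?_ ?_)
      · have hsub : crossT C m s l ∩ Set.Ioc t1 t' ⊂ crossT C m s l ∩ Set.Ioc t t' := by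
          refine ⟨?_, ?_⟩
          · rintro x ⟨hx, hx2⟩
            exact ⟨hx, ht1b.1.trans hx2.1, hx2.2⟩
          · intro hh
            have := hh ⟨ht1, ht1b⟩
            exact lt_irrefl _ this.2.1
        have := Set.ncard_lt_ncard hsub hfin
        omega
      · intro τ hτ
        exact hS τ ⟨ht1b.1.le.trans hτ.1, hτ.2⟩

/-- walks along a line -/
lemma line_walk (hs : Generic C m s) (hG : IsArrRib C m s ν G) (S : Set M)
    (l : LineIx n m) (t t' : ℝ) (ht : t ∈ crossT C m s l) (ht' : t' ∈ crossT C m s l)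
    (hS : ∀ τ ∈ Set.uIcc t t', line C m s l τ ∈ S) :
    Cn G S (line C m s l t) (line C m s l t') := by
  rcases le_total t t' with h | h
  · rw [Set.uIcc_of_le h] at hS
    exact line_walk_le C m s hs hG S l _ t t' ht ht' h (le_refl _) hS
  · rw [Set.uIcc_of_ge h] at hS
    exact (line_walk_le C m s hs hG S l _ t' t ht' ht h (le_refl _) hS).symm

lemma lineC_mem (hm : 1 ≤ m) (hs : Generic C m s) (l : LineIx n m) :
    0 < lineC m s l ∧ lineC m s l < 1 := by
  have hm0 : (0 : ℝ) < m := by exact_mod_cast hm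
  have h1 := hs.off l.1 l.2.1
  have h2 : ((l.2.2 : ℕ) : ℝ) + 1 ≤ m := by exact_mod_cast l.2.2.2
  have h3 : (0 : ℝ) ≤ ((l.2.2 : ℕ) : ℝ) := Nat.cast_nonneg _
  unfold lineC
  refine ⟨?_, ?_⟩
  · apply div_pos _ hm0
    linarith [h1.1]
  · rw [div_lt_one hm0]
    linarith [h1.2]

lemma line_v (i : Fin n) (k : Fin m) (t : ℝ) :
    line C m s (i, true, k) t = (C.e i).symm (lineC m s (i, true, k), t) := by
  simp [line, lineP]

lemma line_h (i : Fin n) (k : Fin m) (t : ℝ) :
    line C m s (i, false, k) t = (C.e i).symm (t, lineC m s (i, false, k)) := by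
  simp [line, lineP]

lemma cross_v (hm : 1 ≤ m) (hs : Generic C m s) (i : Fin n) (k k' : Fin m) :
    lineC m s (i, false, k') ∈ crossT C m s (i, true, k) := by
  have h1 := lineC_mem C m s hm hs (i, false, k')
  have h2 := lineC_mem C m s hm hs (i, true, k)
  refine ⟨⟨h1.1.le, h1.2.le⟩, (i, false, k'), by simp, lineC m s (i, true, k),
    ⟨h2.1.le, h2.2.le⟩, ?_⟩
  rw [line_v, line_h]

lemma cross_h (hm : 1 ≤ m) (hs : Generic C m s) (i : Fin n) (k k' : Fin m) :
    lineC m s (i, true, k) ∈ crossT C m s (i, false, k') := by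
  have h1 := lineC_mem C m s hm hs (i, false, k')
  have h2 := lineC_mem C m s hm hs (i, true, k)
  refine ⟨⟨h2.1.le, h2.2.le⟩, (i, true, k), by simp, lineC m s (i, false, k'),
    ⟨h1.1.le, h1.2.le⟩, ?_⟩
  rw [line_v, line_h]

/-- standing assumption on the box -/
def BoxOK (p : ℝ × ℝ) (η : ℝ) : Prop :=
  (η < p.1 ∧ p.1 < 1 - η) ∧ (η < p.2 ∧ p.2 < 1 - η)

lemma box_I2 {p : ℝ × ℝ} {η : ℝ} (hp : BoxOK p η) {a b : ℝ} (ha : |a - p.1| ≤ η)
    (hb : |b - p.2| ≤ η) : (a, b) ∈ I2 := by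
  obtain ⟨h1, h2⟩ := hp
  have ha' := abs_le.1 ha
  have hb' := abs_le.1 hb
  refine ⟨⟨?_, ?_⟩, ⟨?_, ?_⟩⟩ <;> simp only <;> linarith [h1.1, h1.2, h2.1, h2.2]

lemma sym_mem {p : ℝ × ℝ} {η : ℝ} (hp : BoxOK p η) (i : Fin n) {a b : ℝ}
    (ha : |a - p.1| ≤ η) (hb : |b - p.2| ≤ η) :
    (C.e i).symm (a, b) ∈ boxS C i p η := by
  have h := C.box i (box_I2 hp ha hb)
  have h' : C.e i ((C.e i).symm (a, b)) = (a, b) := (C.e i).right_inv h
  refine ⟨(C.e i).map_target h, ?_, ?_⟩
  · rw [h']; exact ha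
  · rw [h']; exact hb

lemma abs_mid {x y z c η : ℝ} (hx : |x - c| ≤ η) (hy : |y - c| ≤ η) (hz : z ∈ Set.uIcc x y) :
    |z - c| ≤ η := by
  have hx' := abs_le.1 hx
  have hy' := abs_le.1 hy
  rcases Set.mem_uIcc.1 hz with h | h <;> rw [abs_le] <;> constructor <;> linarith [h.1, h.2]

lemma v_walk (hs : Generic C m s) (hG : IsArrRib C m s ν G) {p : ℝ × ℝ} {η : ℝ}
    (hp : BoxOK p η) (i : Fin n) (k : Fin m) (t t' : ℝ)
    (ht : t ∈ crossT C m s (i, true, k)) (ht' : t' ∈ crossT C m s (i, true, k))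
    (hk : |lineC m s (i, true, k) - p.1| ≤ η) (h : |t - p.2| ≤ η) (h' : |t' - p.2| ≤ η) :
    Cn G (boxS C i p η) (line C m s (i, true, k) t) (line C m s (i, true, k) t') := by
  apply line_walk C m s hs hG _ _ _ _ ht ht'
  intro τ hτ
  rw [line_v]
  exact sym_mem C hp i hk (abs_mid h h' hτ)

lemma h_walk (hs : Generic C m s) (hG : IsArrRib C m s ν G) {p : ℝ × ℝ} {η : ℝ}
    (hp : BoxOK p η) (i : Fin n) (k : Fin m) (t t' : ℝ)
    (ht : t ∈ crossT C m s (i, false, k)) (ht' : t' ∈ crossT C m s (i, false, k))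
    (hk : |lineC m s (i, false, k) - p.2| ≤ η) (h : |t - p.1| ≤ η) (h' : |t' - p.1| ≤ η) :
    Cn G (boxS C i p η) (line C m s (i, false, k) t) (line C m s (i, false, k) t') := by
  apply line_walk C m s hs hG _ _ _ _ ht ht'
  intro τ hτ
  rw [line_h]
  exact sym_mem C hp i (abs_mid h h' hτ) hk

/-- from a crossing point of a vertical line to a grid vertex -/
lemma from_v (hm : 1 ≤ m) (hs : Generic C m s) (hG : IsArrRib C m s ν G) {p : ℝ × ℝ} {η : ℝ}
    (hp : BoxOK p η) (i : Fin n) (k0 k0' : Fin m)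
    (hk0 : |lineC m s (i, true, k0) - p.1| ≤ η) (hk0' : |lineC m s (i, false, k0') - p.2| ≤ η)
    (k : Fin m) (t : ℝ) (ht : t ∈ crossT C m s (i, true, k))
    (hk : |lineC m s (i, true, k) - p.1| ≤ η) (h : |t - p.2| ≤ η) :
    Cn G (boxS C i p η) (line C m s (i, true, k) t)
      ((C.e i).symm (lineC m s (i, true, k0), lineC m s (i, false, k0'))) := by
  have h1 := v_walk C m s hs hG hp i k t (lineC m s (i, false, k0')) ht
    (cross_v C m s hm hs i k k0') hk h hk0'
  have h2 := h_walk C m s hs hG hp i k0' (lineC m s (i, true, k)) (lineC m s (i, true, k0))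
    (cross_h C m s hm hs i k k0') (cross_h C m s hm hs i k0 k0') hk0' hk hk0
  rw [line_h, line_h] at h2
  refine Cn.trans h1 ?_
  rw [line_v]
  exact h2

/-- from a crossing point of a horizontal line to a grid vertex -/
lemma from_h (hm : 1 ≤ m) (hs : Generic C m s) (hG : IsArrRib C m s ν G) {p : ℝ × ℝ} {η : ℝ}
    (hp : BoxOK p η) (i : Fin n) (k0 k0' : Fin m)
    (hk0 : |lineC m s (i, true, k0) - p.1| ≤ η) (hk0' : |lineC m s (i, false, k0') - p.2| ≤ η)
    (k : Fin m) (t : ℝ) (ht : t ∈ crossT C m s (i, false, k))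
    (hk : |lineC m s (i, false, k) - p.2| ≤ η) (h : |t - p.1| ≤ η) :
    Cn G (boxS C i p η) (line C m s (i, false, k) t)
      ((C.e i).symm (lineC m s (i, true, k0), lineC m s (i, false, k0'))) := by
  have h1 := h_walk C m s hs hG hp i k t (lineC m s (i, true, k0)) ht
    (cross_h C m s hm hs i k0 k) hk h hk0
  have h2 := v_walk C m s hs hG hp i k0 (lineC m s (i, false, k)) (lineC m s (i, false, k0'))
    (cross_v C m s hm hs i k0 k) (cross_v C m s hm hs i k0 k0') hk0 hk hk0'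
  rw [line_v, line_v] at h2
  refine Cn.trans h1 ?_
  rw [line_h]
  exact h2

/-- the box is compact -/
lemma box_compact {p : ℝ × ℝ} {η : ℝ} (hp : BoxOK p η) (i : Fin n) :
    IsCompact (boxS C i p η) := by
  have h : boxS C i p η = (C.e i).symm '' (Set.Icc (p.1 - η) (p.1 + η) ×ˢ
      Set.Icc (p.2 - η) (p.2 + η)) := by
    ext x
    constructor
    · rintro ⟨hx, h1, h2⟩
      refine ⟨C.e i x, ⟨⟨?_, ?_⟩, ⟨?_, ?_⟩⟩, (C.e i).left_inv hx⟩
      · linarith [(abs_le.1 h1).1]
      · linarith [(abs_le.1 h1).2]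
      · linarith [(abs_le.1 h2).1]
      · linarith [(abs_le.1 h2).2]
    · rintro ⟨⟨a, b⟩, ⟨⟨h1, h2⟩, ⟨h3, h4⟩⟩, rfl⟩
      simp only at h1 h2 h3 h4
      apply sym_mem C hp i
      · rw [abs_le]; constructor <;> linarith
      · rw [abs_le]; constructor <;> linarith
  rw [h]
  apply IsCompact.image_of_continuousOn (isCompact_Icc.prod isCompact_Icc)
  apply (C.e i).symm.continuousOn.mono
  rintro ⟨a, b⟩ ⟨⟨h1, h2⟩, ⟨h3, h4⟩⟩
  simp only at h1 h2 h3 h4
  apply C.box i
  apply box_I2 hp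
  · rw [abs_le]; constructor <;> linarith
  · rw [abs_le]; constructor <;> linarith

/-- following a path out of the box: it meets a grid line before it leaves the box -/
lemma exit (hm : 1 ≤ m) (hs : Generic C m s) {p : ℝ × ℝ} {η : ℝ} (hη : 0 < η)
    (hmη : 8 / m < η) (hp : BoxOK p η) (i : Fin n) (γ : ℝ → M)
    (hγ : ContinuousOn γ (Set.Icc 0 1)) (h0 : γ 0 ∈ boxS C i p (η / 2))
    (h1 : γ 1 ∉ boxS C i p η) :
    ∃ σ ∈ Set.Icc (0 : ℝ) 1, (∀ τ ∈ Set.Icc 0 σ, γ τ ∈ boxS C i p η) ∧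
      ((∃ k, (C.e i (γ σ)).1 = lineC m s (i, true, k)) ∨
        ∃ k, (C.e i (γ σ)).2 = lineC m s (i, false, k)) := by
  have hm0 : (0 : ℝ) < m := by exact_mod_cast hm
  have hcl : IsClosed (boxS C i p η) := (box_compact C hp i).isClosed
  have h0' : γ 0 ∈ boxS C i p η := ⟨h0.1, by linarith [h0.2.1], by linarith [h0.2.2]⟩
  -- the set of good times
  set A : Set ℝ := {T | T ∈ Set.Icc (0 : ℝ) 1 ∧ ∀ τ ∈ Set.Icc 0 T, γ τ ∈ boxS C i p η} with hA
  have hA0 : (0 : ℝ) ∈ A := by
    refine ⟨⟨le_refl _, zero_le_one⟩, ?_⟩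
    intro τ hτ
    have : τ = 0 := le_antisymm hτ.2 hτ.1
    rw [this]; exact h0'
  have hAb : BddAbove A := ⟨1, fun T hT => hT.1.2⟩
  set T := sSup A with hT
  have hT0 : 0 ≤ T := le_csSup hAb hA0
  have hT1 : T ≤ 1 := csSup_le ⟨0, hA0⟩ (fun x hx => hx.1.2)
  have hlt : ∀ τ, 0 ≤ τ → τ < T → γ τ ∈ boxS C i p η := by
    intro τ hτ0 hτ
    obtain ⟨x, hx, hτx⟩ := exists_lt_of_lt_csSup ⟨0, hA0⟩ hτ
    exact hx.2 τ ⟨hτ0, hτx.le⟩
  have hTS : γ T ∈ boxS C i p η := by
    rcases eq_or_lt_of_le hT0 with h | h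
    · rw [← h]; exact h0'
    · -- closedness
      have hc : ContinuousWithinAt γ (Set.Ico 0 T) T :=
        (hγ T ⟨hT0, hT1⟩).mono (fun x hx => ⟨hx.1, hx.2.le.trans hT1⟩)
      have hcl' : T ∈ closure (Set.Ico 0 T) := by
        rw [closure_Ico h.ne]
        exact ⟨hT0, le_refl _⟩
      have := hc.mem_closure_image hcl'
      have h2 : γ '' Set.Ico 0 T ⊆ boxS C i p η := by
        rintro _ ⟨τ, hτ, rfl⟩
        exact hlt τ hτ.1 hτ.2
      exact (closure_minimal h2 hcl) this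
  have hle : ∀ τ ∈ Set.Icc 0 T, γ τ ∈ boxS C i p η := by
    intro τ hτ
    rcases eq_or_lt_of_le hτ.2 with h | h
    · rw [h]; exact hTS
    · exact hlt τ hτ.1 h
  have hTlt : T < 1 := by
    rcases eq_or_lt_of_le hT1 with h | h
    · exfalso
      rw [h] at hTS
      exact h1 hTS
    · exact h
  -- the end point is on the boundary of the box
  have hbd : |(C.e i (γ T)).1 - p.1| = η ∨ |(C.e i (γ T)).2 - p.2| = η := by
    by_contra hcon
    push Not at hcon
    have hs1 : |(C.e i (γ T)).1 - p.1| < η := lt_of_le_of_ne hTS.2.1 hcon.1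
    have hs2 : |(C.e i (γ T)).2 - p.2| < η := lt_of_le_of_ne hTS.2.2 hcon.2
    have hca : ContinuousAt (C.e i) (γ T) := (C.e i).continuousAt hTS.1
    have hev : ∀ᶠ x in 𝓝 (γ T), x ∈ boxS C i p η := by
      have e1 : ∀ᶠ x in 𝓝 (γ T), x ∈ (C.e i).source :=
        (C.e i).open_source.mem_nhds hTS.1
      have e2 : ∀ᶠ x in 𝓝 (γ T), |(C.e i x).1 - p.1| < η := by
        have hc : ContinuousAt (fun x => |(C.e i x).1 - p.1|) (γ T) :=
          ((hca.fst).sub continuousAt_const).abs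
        exact hc.eventually_lt continuousAt_const hs1
      have e3 : ∀ᶠ x in 𝓝 (γ T), |(C.e i x).2 - p.2| < η := by
        have hc : ContinuousAt (fun x => |(C.e i x).2 - p.2|) (γ T) :=
          ((hca.snd).sub continuousAt_const).abs
        exact hc.eventually_lt continuousAt_const hs2
      filter_upwards [e1, e2, e3] with x h1 h2 h3
      exact ⟨h1, h2.le, h3.le⟩
    have hev2 : ∀ᶠ τ in 𝓝[Set.Icc 0 1] T, γ τ ∈ boxS C i p η :=
      (hγ T ⟨hT0, hT1⟩) hev
    rw [eventually_nhdsWithin_iff] at hev2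
    obtain ⟨ε, hε, hball⟩ := Metric.eventually_nhds_iff.1 hev2
    -- a larger good time
    set T' := min 1 (T + ε / 2) with hT'
    have hT'1 : T < T' := lt_min hTlt (by linarith)
    have hT'A : T' ∈ A := by
      refine ⟨⟨hT0.trans hT'1.le, min_le_left _ _⟩, ?_⟩
      intro τ hτ
      rcases le_or_gt τ T with h | h
      · exact hle τ ⟨hτ.1, h⟩
      · apply hball
        · rw [Real.dist_eq, abs_of_pos (by linarith)]
          have := hτ.2.trans (min_le_right _ _)
          linarith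
        · exact ⟨hτ.1, hτ.2.trans (min_le_left _ _)⟩
    exact absurd (le_csSup hAb hT'A) (not_le.2 hT'1)
  -- continuity of the coordinates
  have hcc : ContinuousOn (fun τ => C.e i (γ τ)) (Set.Icc 0 T) := by
    apply (C.e i).continuousOn.comp (hγ.mono (Set.Icc_subset_Icc_right hT1))
    intro τ hτ
    exact (hle τ hτ).1
  have h8 : 8 / (m : ℝ) = 8 * (1 / m) := by ring
  have hgap : 1 / (m : ℝ) ≤ η / 2 := by
    have : 0 < 1 / (m : ℝ) := by positivity
    rw [h8] at hmη
    linarith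
  -- IVT for a coordinate
  have key : ∀ (f : ℝ → ℝ) (c : ℝ) (o : ℝ) (_ : 0 < o ∧ o < 1), η < c → c < 1 - η →
      ContinuousOn f (Set.Icc 0 T) → |f 0 - c| ≤ η / 2 → |f T - c| = η →
      ∃ σ ∈ Set.Icc 0 T, ∃ k : Fin m, f σ = ((k : ℕ) + o) / m := by
    intro f c o ho hc1 hc2 hf hf0 hfT
    have hf0' := abs_le.1 hf0
    have hI : Set.uIcc (f 0) (f T) ⊆ f '' Set.Icc 0 T := by
      have := intermediate_value_uIcc (a := (0 : ℝ)) (b := T) (f := f)
        (by rw [Set.uIcc_of_le hT0]; exact hf)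
      rwa [Set.uIcc_of_le hT0] at this
    rcases abs_eq hη.le |>.1 hfT with h | h
    · obtain ⟨k, hk1, hk2⟩ := exists_k hm ho (a := f 0) (b := f T) (by linarith) (by linarith)
        (by linarith)
      obtain ⟨σ, hσ, hσ'⟩ := hI (Set.mem_uIcc.2 (Or.inl ⟨hk1, hk2⟩))
      exact ⟨σ, hσ, k, hσ'⟩
    · obtain ⟨k, hk1, hk2⟩ := exists_k hm ho (a := f T) (b := f 0) (by linarith) (by linarith)
        (by linarith)
      obtain ⟨σ, hσ, hσ'⟩ := hI (Set.mem_uIcc.2 (Or.inr ⟨hk1, hk2⟩))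
      exact ⟨σ, hσ, k, hσ'⟩
  rcases hbd with hbd | hbd
  · obtain ⟨σ, hσ, k, hk⟩ := key (fun τ => (C.e i (γ τ)).1) p.1 (s i true) (hs.off i true)
      hp.1.1 hp.1.2 (continuous_fst.comp_continuousOn hcc) h0.2.1 hbd
    refine ⟨σ, ⟨hσ.1, hσ.2.trans hT1⟩, fun τ hτ => hle τ ⟨hτ.1, hτ.2.trans hσ.2⟩, Or.inl ⟨k, ?_⟩⟩
    exact hk
  · obtain ⟨σ, hσ, k, hk⟩ := key (fun τ => (C.e i (γ τ)).2) p.2 (s i false) (hs.off i false)
      hp.2.1 hp.2.2 (continuous_snd.comp_continuousOn hcc) h0.2.2 hbd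
    refine ⟨σ, ⟨hσ.1, hσ.2.trans hT1⟩, fun τ hτ => hle τ ⟨hτ.1, hτ.2.trans hσ.2⟩, Or.inr ⟨k, ?_⟩⟩
    exact hk

lemma line_cont (hm : 1 ≤ m) (hs : Generic C m s) (l : LineIx n m) :
    ContinuousOn (line C m s l) (Set.Icc 0 1) := by
  have h : ContinuousOn (lineP m s l) (Set.Icc 0 1) := by
    unfold lineP
    split_ifs
    · exact (continuous_const.prodMk continuous_id).continuousOn
    · exact (continuous_id.prodMk continuous_const).continuousOn
  apply (C.e l.1).symm.continuousOn.comp h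
  intro t ht
  apply C.box l.1
  have h1 := lineC_mem C m s hm hs l
  unfold lineP
  split_ifs
  · exact ⟨⟨h1.1.le, ht.1⟩, ⟨h1.2.le, ht.2⟩⟩
  · exact ⟨⟨ht.1, h1.1.le⟩, ⟨ht.2, h1.2.le⟩⟩

/-- every vertex in the half box is joined to a given grid vertex -/
lemma to_base (hm : 1 ≤ m) (hs : Generic C m s) (hG : IsArrRib C m s ν G) {p : ℝ × ℝ} {η : ℝ}
    (hη : 0 < η) (hmη : 8 / m < η) (hp : BoxOK p η) (i : Fin n) (k0 k0' : Fin m)
    (hk0 : |lineC m s (i, true, k0) - p.1| ≤ η) (hk0' : |lineC m s (i, false, k0') - p.2| ≤ η)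
    (hlong : ∀ l : LineIx n m, ¬ (line C m s l 0 ∈ boxS C i p η ∧ line C m s l 1 ∈ boxS C i p η))
    (d : ArrD C m s) (hd : G.tl d ∈ boxS C i p (η / 2)) :
    Cn G (boxS C i p η) (G.tl d)
      ((C.e i).symm (lineC m s (i, true, k0), lineC m s (i, false, k0'))) := by
  obtain ⟨⟨l, t, t'⟩, hd1, hd2, hd3, hd4⟩ := d
  simp only at hd1 hd2 hd3 hd4
  have e1 : G.tl ⟨(l, t, t'), hd1, hd2, hd3, hd4⟩ = line C m s l t := by rw [hG.tl]; rfl
  rw [e1] at hd ⊢
  have hdη : line C m s l t ∈ boxS C i p η := ⟨hd.1, by linarith [hd.2.1], by linarith [hd.2.2]⟩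
  by_cases hl : l.1 = i
  · -- on a line of the chart `i`
    obtain ⟨j, o, k⟩ := l
    simp only at hl
    subst hl
    have hI : lineP m s (j, o, k) t ∈ I2 := by
      have h1 := lineC_mem C m s hm hs (j, o, k)
      have ht := hd1.1
      unfold lineP
      split_ifs
      · exact ⟨⟨h1.1.le, ht.1⟩, ⟨h1.2.le, ht.2⟩⟩
      · exact ⟨⟨ht.1, h1.1.le⟩, ⟨ht.2, h1.2.le⟩⟩
    have he : C.e j (line C m s (j, o, k) t) = lineP m s (j, o, k) t :=
      (C.e j).right_inv (C.box j hI)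
    have hb1 := hdη.2.1
    have hb2 := hdη.2.2
    rw [he] at hb1 hb2
    cases o with
    | true =>
      simp only [lineP, if_true] at hb1 hb2
      exact from_v C m s hm hs hG hp j k0 k0' hk0 hk0' k t hd1 hb1 hb2
    | false =>
      simp only [lineP, Bool.false_eq_true, if_false] at hb1 hb2
      exact from_h C m s hm hs hG hp j k0 k0' hk0 hk0' k t hd1 hb2 hb1
  · -- on a line of another chart
    -- a common treatment of both directions
    have main : ∀ (T : ℝ), T ∈ Set.Icc (0 : ℝ) 1 → line C m s l T ∉ boxS C i p η →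
        Cn G (boxS C i p η) (line C m s l t)
          ((C.e i).symm (lineC m s (i, true, k0), lineC m s (i, false, k0'))) := by
      intro T hT hTn
      have ht := hd1.1
      have hmaps : Set.MapsTo (fun τ : ℝ => t + τ * (T - t)) (Set.Icc 0 1) (Set.Icc 0 1) := by
        intro τ hτ
        simp only [Set.mem_Icc] at hτ ht hT ⊢
        constructor <;> nlinarith [mul_nonneg hτ.1 hT.1, mul_nonneg (sub_nonneg.2 hτ.2) ht.1,
          mul_nonneg hτ.1 (sub_nonneg.2 hT.2),
          mul_nonneg (sub_nonneg.2 hτ.2) (sub_nonneg.2 ht.2)]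
      have hcont : ContinuousOn (fun τ : ℝ => line C m s l (t + τ * (T - t))) (Set.Icc 0 1) := by
        apply (line_cont C m s hm hs l).comp _ hmaps
        exact (by fun_prop : Continuous (fun τ : ℝ => t + τ * (T - t))).continuousOn
      obtain ⟨σ, hσ, hin, hcase⟩ := exit C m s hm hs hη hmη hp i
        (fun τ : ℝ => line C m s l (t + τ * (T - t))) hcont (by simpa using hd)
        (by simpa using hTn)
      set θ := t + σ * (T - t) with hθ
      have hθ1 : θ ∈ Set.Icc (0 : ℝ) 1 := hmaps hσ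
      have hθin : line C m s l θ ∈ boxS C i p η := hin σ ⟨hσ.1, le_refl _⟩
      -- all points between are in the box
      have hbet : ∀ τ ∈ Set.uIcc t θ, line C m s l τ ∈ boxS C i p η := by
        intro τ hτ
        have hτ2 : τ ∈ segment ℝ t θ := by
          rw [segment_eq_uIcc]; exact hτ
        obtain ⟨a, b, ha, hb, hab, rfl⟩ := hτ2
        have hh := hin (b * σ) ⟨mul_nonneg hb hσ.1, by nlinarith [hσ.1]⟩
        have e2 : t + b * σ * (T - t) = a • t + b • θ := by
          simp only [smul_eq_mul, hθ]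
          have : a = 1 - b := by linarith
          rw [this]; ring
        rwa [e2] at hh
      have hθsrc := hθin.1
      have hinv : (C.e i).symm (C.e i (line C m s l θ)) = line C m s l θ :=
        (C.e i).left_inv hθsrc
      have hbI := hθin.2
      have hq : ((C.e i (line C m s l θ)).1, (C.e i (line C m s l θ)).2) ∈ I2 :=
        box_I2 hp hbI.1 hbI.2
      rcases hcase with ⟨k, hk⟩ | ⟨k, hk⟩
      · have hk' : (C.e i (line C m s l θ)).1 = lineC m s (i, true, k) := hk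
        have e3 : line C m s (i, true, k) (C.e i (line C m s l θ)).2 = line C m s l θ := by
          rw [line_v, ← hk', Prod.mk.eta, hinv]
        have hc1 : θ ∈ crossT C m s l := by
          refine ⟨hθ1, (i, true, k), ?_, (C.e i (line C m s l θ)).2, ⟨hq.1.2, hq.2.2⟩, e3.symm⟩
          intro h
          exact hl (by rw [← h])
        have hc2 : (C.e i (line C m s l θ)).2 ∈ crossT C m s (i, true, k) := by
          refine ⟨⟨hq.1.2, hq.2.2⟩, l, ?_, θ, hθ1, e3⟩
          intro h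
          exact hl (by rw [h])
        have h1 := line_walk C m s hs hG _ l t θ hd1 hc1 hbet
        have h2 := from_v C m s hm hs hG hp i k0 k0' hk0 hk0' k _ hc2
          (by rw [← hk']; exact hbI.1) hbI.2
        rw [e3] at h2
        exact h1.trans h2
      · have hk' : (C.e i (line C m s l θ)).2 = lineC m s (i, false, k) := hk
        have e3 : line C m s (i, false, k) (C.e i (line C m s l θ)).1 = line C m s l θ := by
          rw [line_h, ← hk', Prod.mk.eta, hinv]
        have hc1 : θ ∈ crossT C m s l := by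
          refine ⟨hθ1, (i, false, k), ?_, (C.e i (line C m s l θ)).1, ⟨hq.1.1, hq.2.1⟩, e3.symm⟩
          intro h
          exact hl (by rw [← h])
        have hc2 : (C.e i (line C m s l θ)).1 ∈ crossT C m s (i, false, k) := by
          refine ⟨⟨hq.1.1, hq.2.1⟩, l, ?_, θ, hθ1, e3⟩
          intro h
          exact hl (by rw [h])
        have h1 := line_walk C m s hs hG _ l t θ hd1 hc1 hbet
        have h2 := from_h C m s hm hs hG hp i k0 k0' hk0 hk0' k _ hc2
          (by rw [← hk']; exact hbI.2) hbI.1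
        rw [e3] at h2
        exact h1.trans h2
    by_cases h0 : line C m s l 0 ∈ boxS C i p η
    · exact main 1 ⟨zero_le_one, le_refl _⟩ (fun h1 => hlong l ⟨h0, h1⟩)
    · exact main 0 ⟨le_refl _, zero_le_one⟩ h0

end Main

end H611

theorem arr_conn {M : Type u} [MetricSpace M] {n : ℕ} (C : BoxCharts M n) (m : ℕ)
    (hm : 1 ≤ m) (s : Fin n → Bool → ℝ) (hs : Generic C m s) {N : Type u} [LinearOrder N]
    (ν : M → N) (G : Rib (ArrD C m s) M (N ×ₗ ℕ)) (hG : IsArrRib C m s ν G)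
    (i : Fin n) (p : ℝ × ℝ) (η : ℝ) (hη : 0 < η) (hmη : 8 / m < η)
    (hp1 : η < p.1 ∧ p.1 < 1 - η) (hp2 : η < p.2 ∧ p.2 < 1 - η)
    (hlong : ∀ l : LineIx n m, ¬ (line C m s l 0 ∈ boxS C i p η ∧ line C m s l 1 ∈ boxS C i p η))
    (d d' : ArrD C m s) (hd : G.tl d ∈ boxS C i p (η / 2)) (hd' : G.tl d' ∈ boxS C i p (η / 2)) :
    ∃ w, Walk G (G.tl d) (G.tl d') w ∧ ∀ e ∈ w, G.tl e ∈ boxS C i p η ∧ G.hd e ∈ boxS C i p η := by
  have hm0 : (0 : ℝ) < m := by exact_mod_cast hm
  have h8 : 8 / (m : ℝ) = 8 * (1 / m) := by ring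
  have hgap : 1 / (m : ℝ) ≤ η := by
    have : 0 < 1 / (m : ℝ) := by positivity
    rw [h8] at hmη
    linarith
  have hp : H611.BoxOK p η := ⟨hp1, hp2⟩
  obtain ⟨k0, hk1, hk2⟩ := H611.exists_k hm (hs.off i true) (a := p.1 - η) (b := p.1)
    (by linarith [hp1.1]) (by linarith [hp1.2]) (by linarith)
  obtain ⟨k0', hk1', hk2'⟩ := H611.exists_k hm (hs.off i false) (a := p.2 - η) (b := p.2)
    (by linarith [hp2.1]) (by linarith [hp2.2]) (by linarith)
  have hk0 : |lineC m s (i, true, k0) - p.1| ≤ η := by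
    unfold lineC
    rw [abs_le]; constructor <;> simp only <;> linarith
  have hk0' : |lineC m s (i, false, k0') - p.2| ≤ η := by
    unfold lineC
    rw [abs_le]; constructor <;> simp only <;> linarith
  have h1 := H611.to_base C m s hm hs hG hη hmη hp i k0 k0' hk0 hk0' hlong d hd
  have h2 := H611.to_base C m s hm hs hG hη hmη hp i k0 k0' hk0 hk0' hlong d' hd'
  exact h1.trans h2.symm

end Pool.Agent.TH317.CC
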