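import Pool.Agent.TH32.H.Lim

set_option autoImplicit false

namespace Pool.Agent.TH611.TZHPOL

open Polynomial Pool.Agent.TH32

/-- value of a list of coefficients at `s` -/
def ev (s : ℚ) : List ℤ → ℚ
  | [] => 0
  | p :: ps => (p : ℚ) + s * ev s ps

/-- last entry, `r` if there is none -/
def lst : ℤ → List ℤ → ℤ
  | r, [] => r
  | _, p :: ps => lst p ps

theorem dvA_spec (a b : ℤ) (s : ℚ) : ∀ (l l' : List ℤ) (r : ℤ), dvA a b r l = some l' →
    l'.length = l.length ∧
      ((b : ℚ) * s - a) * ev s l' = ev s l - b * r + b * (lst r l' : ℚ) * s ^ l.length := by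
  intro l
  induction l with
  | nil =>
    intro l' r h
    simp only [dvA, Option.some.injEq] at h
    subst h
    simp [ev, lst]
  | cons p ps ih =>
    intro l' r h
    simp only [dvA] at h
    split_ifs at h with hz
    · set z := (b * r - p) / a with hzdef
      cases h1 : dvA a b z ps with
      | none => rw [h1] at h; simp at h
      | some l1 =>
        rw [h1] at h
        simp only [Option.some.injEq] at h
        subst h
        obtain ⟨i1, i2⟩ := ih l1 z h1
        refine ⟨by simp [i1], ?_⟩
        have hz' : (z : ℚ) * a = b * r - p := by exact_mod_cast hz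
        simp only [ev, lst, List.length_cons]
        have e1 : ((b : ℚ) * s - a) * ((z : ℚ) + s * ev s l1) =
            (b : ℚ) * s * z - (z : ℚ) * a + s * (((b : ℚ) * s - a) * ev s l1) := by ring
        rw [e1, i2, hz']
        ring

theorem dvB_spec (b : ℤ) (s : ℚ) : ∀ (l l' : List ℤ), dvB b l = some l' →
    l'.length = l.length ∧ (b : ℚ) * ev s l' = ev s l := by
  intro l
  induction l with
  | nil =>
    intro l' h
    simp only [dvB, Option.some.injEq] at h
    subst h
    simp [ev]
  | cons p ps ih =>
    intro l' h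
    simp only [dvB] at h
    split_ifs at h with hz
    · set z := p / b with hzdef
      cases h1 : dvB b ps with
      | none => rw [h1] at h; simp at h
      | some l1 =>
        rw [h1] at h
        simp only [Option.some.injEq] at h
        subst h
        obtain ⟨i1, i2⟩ := ih l1 h1
        refine ⟨by simp [i1], ?_⟩
        have hz' : (z : ℚ) * b = p := by exact_mod_cast hz
        simp only [ev]
        rw [mul_add, ← i2]
        have : (b : ℚ) * z = p := by rw [← hz']; ring
        rw [this]; ring

/-- the regular factor -/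
noncomputable def fac (d : ℤ × ℤ) : ℚ[X] :=
  if d.1 = 0 then C (d.2 : ℚ) else C (d.2 : ℚ) * X - C (d.1 : ℚ)

theorem dvs_spec : ∀ (ds : List (ℤ × ℤ)) (l l' : List ℤ), dvs ds l = some l' →
    l'.length = l.length ∧ ∃ N : ℚ[X], ∀ s : ℚ,
      ((ds.map fac).prod).eval s * ev s l' = ev s l + s ^ l.length * N.eval s := by
  intro ds
  induction ds with
  | nil =>
    intro l l' h
    simp only [dvs, Option.some.injEq] at h
    subst h
    exact ⟨rfl, 0, by intro s; simp⟩
  | cons d ds ih =>
    intro l l' h
    obtain ⟨a, b⟩ := d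
    simp only [dvs] at h
    by_cases ha : a = 0
    · rw [if_pos ha] at h
      cases h1 : dvB b l with
      | none => rw [h1] at h; simp at h
      | some l1 =>
        rw [h1] at h
        simp only at h
        obtain ⟨i1, N', i2⟩ := ih l1 l' h
        have j1 := (dvB_spec b 0 l l1 h1).1
        refine ⟨i1.trans j1, C (b : ℚ) * N', ?_⟩
        intro s
        have j2 := (dvB_spec b s l l1 h1).2
        simp only [List.map_cons, List.prod_cons, fac, if_pos ha, eval_mul, eval_C]
        rw [mul_assoc, i2 s, j1, ← j2]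
        ring
    · rw [if_neg ha] at h
      cases h1 : dvA a b 0 l with
      | none => rw [h1] at h; simp at h
      | some l1 =>
        rw [h1] at h
        simp only at h
        obtain ⟨i1, N', i2⟩ := ih l1 l' h
        have j1 := (dvA_spec a b 0 l l1 0 h1).1
        refine ⟨i1.trans j1, C ((b : ℚ) * (lst 0 l1 : ℚ)) + (C (b : ℚ) * X - C (a : ℚ)) * N', ?_⟩
        intro s
        have j2 := (dvA_spec a b s l l1 0 h1).2
        simp only [List.map_cons, List.prod_cons, fac, if_neg ha, eval_mul, eval_C, eval_sub,
          eval_X, eval_add]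
        rw [mul_assoc, i2 s, j1, mul_add, j2]
        push_cast
        ring

theorem pval_nil (Λ : ℤ) (s : ℚ) : pval Λ s [] = 0 := by simp [pval]

theorem pval_cons (Λ : ℤ) (s : ℚ) (a : ℤ) (f : List ℤ) :
    pval Λ s (a :: f) = (a : ℚ) / (Λ * s) + s⁻¹ * pval Λ s f := by
  unfold pval
  rw [List.length_cons, Finset.sum_range_succ', add_comm, Finset.mul_sum]
  congr 1
  · simp
  · refine Finset.sum_congr rfl fun j _ => ?_
    rw [List.getD_cons_succ]
    rw [pow_succ s (j + 1), div_eq_mul_inv, div_eq_mul_inv, mul_inv, mul_inv, mul_inv]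
    ring

theorem pval_add (Λ : ℤ) (s : ℚ) : ∀ f g : List ℤ,
    pval Λ s (addF f g) = pval Λ s f + pval Λ s g := by
  intro f
  induction f with
  | nil => intro g; simp [addF, pval_nil]
  | cons a f ih =>
    intro g
    cases g with
    | nil => simp [addF, pval_nil]
    | cons b g =>
      simp only [addF]
      rw [pval_cons, pval_cons, pval_cons, ih g]
      push_cast
      ring

theorem pval_append (Λ : ℤ) (s : ℚ) (p : ℤ) : ∀ m : List ℤ,
    pval Λ s (m ++ [p]) = pval Λ s m + (p : ℚ) / (Λ * s ^ (m.length + 1)) := by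
  intro m
  induction m with
  | nil => simp [pval_cons, pval_nil]
  | cons a m ih =>
    rw [List.cons_append, pval_cons, ih, pval_cons, List.length_cons]
    rw [pow_succ s (m.length + 1), div_eq_mul_inv (p : ℚ), div_eq_mul_inv (p : ℚ), mul_inv,
      mul_inv, mul_inv]
    ring

theorem pval_reverse (Λ : ℤ) (s : ℚ) (hs : s ≠ 0) : ∀ l : List ℤ,
    pval Λ s l.reverse = ev s l / (Λ * s ^ l.length) := by
  intro l
  induction l with
  | nil => simp [pval_nil, ev]
  | cons p ps ih =>
    rw [List.reverse_cons, pval_append, ih, List.length_reverse, ev, List.length_cons]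
    by_cases hΛ : (Λ : ℚ) = 0
    · simp [hΛ]
    · field_simp
      ring

theorem fac_eval {d : ℤ × ℤ} {s : ℚ} (hd : okd d = true) (hs : (d.2 : ℚ) * s - d.1 ≠ 0) :
    (fac d).eval s ≠ 0 := by
  unfold fac
  split_ifs with h
  · rw [eval_C]
    unfold okd at hd
    simp only [Bool.or_eq_true, Bool.and_eq_true, decide_eq_true_eq] at hd
    have : d.2 ≠ 0 := by omega
    exact_mod_cast this
  · simpa using hs

theorem fac_eval_zero {d : ℤ × ℤ} (hd : okd d = true) : (fac d).eval 0 ≠ 0 := by
  unfold fac
  split_ifs with h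
  · rw [eval_C]
    unfold okd at hd
    simp only [Bool.or_eq_true, Bool.and_eq_true, decide_eq_true_eq] at hd
    have : d.2 ≠ 0 := by omega
    exact_mod_cast this
  · simpa using h

theorem prod_ne {ds : List (ℤ × ℤ)} {s : ℚ} (h : ∀ d ∈ ds, (fac d).eval s ≠ 0) :
    ((ds.map fac).prod).eval s ≠ 0 := by
  induction ds with
  | nil => simp
  | cons d ds ih =>
    rw [List.map_cons, List.prod_cons, eval_mul]
    exact mul_ne_zero (h d (by simp)) (ih fun e he => h e (by simp [he]))

/-- the product of the factors -/
theorem prod_fac (s : ℚ) : ∀ ds : List (ℤ × ℤ),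
    (ds.map (fun d => ((d.2 : ℚ) * s - d.1)⁻¹)).prod =
      (((ds.map fac).prod).eval s * s ^ nz ds)⁻¹ := by
  intro ds
  induction ds with
  | nil => simp [nz]
  | cons d ds ih =>
    rw [List.map_cons, List.prod_cons, ih, List.map_cons, List.prod_cons, eval_mul]
    by_cases h : d.1 = 0
    · have : nz (d :: ds) = nz ds + 1 := by simp [nz, h]
      rw [this]
      have hf : (fac d).eval s = (d.2 : ℚ) := by simp [fac, h]
      rw [hf]
      simp only [h, Int.cast_zero, sub_zero, pow_succ, mul_inv]
      ring
    · have : nz (d :: ds) = nz ds := by simp [nz, h]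
      rw [this]
      have hf : (fac d).eval s = (d.2 : ℚ) * s - d.1 := by simp [fac, h]
      rw [hf]
      simp only [mul_inv]
      ring

theorem ev_replicate (s : ℚ) (n : ℕ) : ev s (List.replicate n 0) = 0 := by
  induction n with
  | zero => simp [ev]
  | succ n ih => simp [List.replicate_succ, ev, ih]

theorem pol_term (Λ : ℤ) (t : Tm) (l : List ℤ) (hΛ : Λ ≠ 0) (hok : t.ds.all okd = true)
    (h : polT Λ t = some l) : ∃ N D : ℚ[X], D.eval 0 ≠ 0 ∧ ∀ s : ℚ, s ≠ 0 → t.reg s →
      D.eval s ≠ 0 ∧ Tm.lim s t = pval Λ s l + N.eval s / D.eval s := by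
  have hΛ' : (Λ : ℚ) ≠ 0 := by exact_mod_cast hΛ
  rw [List.all_eq_true] at hok
  unfold polT at h
  split at h
  · rename_i hz
    simp only [Option.some.injEq] at h
    subst h
    refine ⟨C (t.c : ℚ), (t.ds.map fac).prod, prod_ne fun d hd => fac_eval_zero (hok d hd), ?_⟩
    intro s _ hr
    have h1 : ((t.ds.map fac).prod).eval s ≠ 0 :=
      prod_ne fun d hd => fac_eval (hok d hd) (hr d hd)
    refine ⟨h1, ?_⟩
    rw [pval_nil, zero_add, eval_C]
    unfold Tm.lim
    rw [prod_fac, hz, pow_zero, mul_one, div_eq_mul_inv]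
  · rename_i z hz
    split at h
    · simp at h
    · rename_i l1 hl1
      simp only [Option.some.injEq] at h
      subst h
      obtain ⟨i1, N, i2⟩ := dvs_spec _ _ _ hl1
      simp only [List.length_cons, List.length_replicate] at i1 i2
      refine ⟨-N, C (Λ : ℚ) * (t.ds.map fac).prod, ?_, ?_⟩
      · rw [eval_mul, eval_C]
        exact mul_ne_zero hΛ' (prod_ne fun d hd => fac_eval_zero (hok d hd))
      · intro s hs hr
        have h1 : ((t.ds.map fac).prod).eval s ≠ 0 :=
          prod_ne fun d hd => fac_eval (hok d hd) (hr d hd)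
        refine ⟨by rw [eval_mul, eval_C]; exact mul_ne_zero hΛ' h1, ?_⟩
        have i3 := i2 s
        rw [ev, ev_replicate, mul_zero, add_zero] at i3
        rw [pval_reverse Λ s hs, i1, eval_mul, eval_C, eval_neg]
        unfold Tm.lim
        rw [prod_fac, hz]
        set P := ((t.ds.map fac).prod).eval s
        push_cast at i3
        have hsz : s ^ (z + 1) ≠ 0 := pow_ne_zero _ hs
        set w := s ^ (z + 1)
        field_simp
        linarith

theorem pol : PolStmt := by
  intro Λ L
  induction L with
  | nil =>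
    intro l hΛ _ h
    simp only [polL, Option.some.injEq] at h
    subst h
    exact ⟨0, 1, by simp, fun s _ _ => by simp [pval_nil]⟩
  | cons t L ih =>
    intro l hΛ hok h
    simp only [polL] at h
    cases h1 : polT Λ t with
    | none => rw [h1] at h; simp at h
    | some l1 =>
      cases h2 : polL Λ L with
      | none => rw [h1, h2] at h; simp at h
      | some l2 =>
        rw [h1, h2] at h
        simp only [Option.some.injEq] at h
        subst h
        obtain ⟨N1, D1, a1, b1⟩ := pol_term Λ t l1 hΛ (hok t (by simp)) h1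
        obtain ⟨N2, D2, a2, b2⟩ := ih l2 hΛ (fun t' ht' => hok t' (by simp [ht'])) h2
        refine ⟨N1 * D2 + N2 * D1, D1 * D2, by rw [eval_mul]; exact mul_ne_zero a1 a2, ?_⟩
        intro s hs hr
        obtain ⟨c1, d1⟩ := b1 s hs (hr t (by simp))
        obtain ⟨c2, d2⟩ := b2 s hs (fun t' ht' => hr t' (by simp [ht']))
        refine ⟨by rw [eval_mul]; exact mul_ne_zero c1 c2, ?_⟩
        rw [List.map_cons, List.sum_cons, d1, d2, pval_add, eval_add, eval_mul, eval_mul, eval_mul]
        field_simp
        ring

end Pool.Agent.TH611.TZHPOL
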