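import Pool.Agent.TH722.FI.Defs

namespace Pool.Agent.TH611.FI

open MeasureTheory Set Filter Pool.Agent.TH722.FI
open scoped Topology ENNReal

/-- the word of a neighbour: one letter is added or removed in front -/
theorem toWord_step {r : ℕ} (x : Fin r × Bool) (a : FreeGroup (Fin r)) :
    (FreeGroup.mk [x] * a).toWord = x :: a.toWord ∨
      (x.1, !x.2) :: (FreeGroup.mk [x] * a).toWord = a.toWord := by
  have h1 : (FreeGroup.mk [x] * a).toWord = FreeGroup.reduce (x :: a.toWord) := by
    rw [FreeGroup.toWord_mul]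
    simp
  rw [h1, FreeGroup.reduce.cons, FreeGroup.reduce_toWord]
  cases h : a.toWord with
  | nil => left; rfl
  | cons hd tl =>
    by_cases hc : x.1 = hd.1 ∧ x.2 = !hd.2
    · right
      simp only [hc, and_self, if_true]
      obtain ⟨h1, h2⟩ := hc
      cases hd with
      | mk p q => simp at *
    · left
      simp only [hc, if_false]

theorem cg_adj_iff {r : ℕ} (a b : FreeGroup (Fin r)) :
    (CG r).Adj a b ↔ ∃ x : Fin r × Bool, b = FreeGroup.mk [x] * a := by
  show (∃ i : Fin r, b = FreeGroup.of i * a ∨ a = FreeGroup.of i * b) ↔ _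
  constructor
  · rintro ⟨i, h | h⟩
    · exact ⟨(i, true), h⟩
    · refine ⟨(i, false), ?_⟩
      have : FreeGroup.mk [(i, false)] = (FreeGroup.of i)⁻¹ := by
        simp [FreeGroup.of, FreeGroup.inv_mk, FreeGroup.invRev]
      rw [this, h]; simp
  · rintro ⟨⟨i, s⟩, h⟩
    cases s with
    | true => exact ⟨i, Or.inl h⟩
    | false =>
      refine ⟨i, Or.inr ?_⟩
      have : FreeGroup.mk [(i, false)] = (FreeGroup.of i)⁻¹ := by
        simp [FreeGroup.of, FreeGroup.inv_mk, FreeGroup.invRev]
      rw [this] at h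
      rw [h]; simp

theorem cg_walk {r : ℕ} (L : List (Fin r × Bool)) (a : FreeGroup (Fin r)) :
    ∃ w : (CG r).Walk a (FreeGroup.mk L * a), w.length = L.length := by
  induction L with
  | nil =>
    have : FreeGroup.mk ([] : List (Fin r × Bool)) * a = a := by
      have : FreeGroup.mk ([] : List (Fin r × Bool)) = 1 := rfl
      rw [this, one_mul]
    rw [this]
    exact ⟨SimpleGraph.Walk.nil, rfl⟩
  | cons x L ih =>
    obtain ⟨w, hw⟩ := ih
    have he : FreeGroup.mk (x :: L) * a = FreeGroup.mk [x] * (FreeGroup.mk L * a) := by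
      rw [← mul_assoc, FreeGroup.mul_mk]; rfl
    rw [he]
    have hadj : (CG r).Adj (FreeGroup.mk L * a) (FreeGroup.mk [x] * (FreeGroup.mk L * a)) :=
      (cg_adj_iff _ _).2 ⟨x, rfl⟩
    exact ⟨w.concat hadj, by rw [SimpleGraph.Walk.length_concat, hw]; rfl⟩

theorem cg_dist {r : ℕ} (a b : FreeGroup (Fin r)) :
    (CG r).dist a b = (b * a⁻¹).norm ∧ (CG r).Reachable a b := by
  have he : FreeGroup.mk (b * a⁻¹).toWord * a = b := by
    rw [FreeGroup.mk_toWord]; simp
  have hex := cg_walk (b * a⁻¹).toWord a
  rw [he] at hex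
  obtain ⟨w, hw⟩ := hex
  refine ⟨le_antisymm ?_ ?_, w.reachable⟩
  · have := SimpleGraph.dist_le w
    rw [hw] at this
    exact this
  · obtain ⟨w', hw'⟩ := w.reachable.exists_walk_length_eq_dist
    rw [← hw']
    clear hw hw' w he
    induction w' with
    | nil => simp
    | @cons u v t h p ih =>
      rw [SimpleGraph.Walk.length_cons]
      obtain ⟨x, hx⟩ := (cg_adj_iff u v).1 h
      have h1 : t * u⁻¹ = (t * v⁻¹) * FreeGroup.mk [x] := by
        rw [hx]; group
      rw [h1]
      refine (FreeGroup.norm_mul_le _ _).trans ?_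
      have h2 : (FreeGroup.mk [x]).norm ≤ 1 := by
        simpa using (FreeGroup.norm_mk_le (L₁ := [x]))
      omega

theorem cg_mul {r : ℕ} (a b h : FreeGroup (Fin r)) :
    (CG r).Adj (a * h) (b * h) ↔ (CG r).Adj a b := by
  show (∃ i : Fin r, b * h = FreeGroup.of i * (a * h) ∨ a * h = FreeGroup.of i * (b * h)) ↔
    (∃ i : Fin r, b = FreeGroup.of i * a ∨ a = FreeGroup.of i * b)
  simp only [← mul_assoc, mul_left_inj]

theorem cg_acyclic (r : ℕ) : (CG r).IsAcyclic := by
  rw [SimpleGraph.isAcyclic_iff_forall_adj_isBridge]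
  -- a symmetric reduction
  have key : ∀ (x : Fin r × Bool) (a b : FreeGroup (Fin r)), b.toWord = x :: a.toWord →
      ¬ ((CG r).deleteEdges {s(a, b)}).Reachable a b := by
    intro x a b hab
    have hstep : ∀ v w, ((CG r).deleteEdges {s(a, b)}).Adj v w →
        (b.toWord <:+ v.toWord) → (b.toWord <:+ w.toWord) := by
      intro v w hvw hv
      rw [SimpleGraph.deleteEdges_adj] at hvw
      obtain ⟨hadj, hne⟩ := hvw
      obtain ⟨y, hy⟩ := (cg_adj_iff v w).1 hadj
      rcases toWord_step y v with h | h
      · rw [← hy] at h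
        rw [h]
        exact hv.trans (List.suffix_cons _ _)
      · rw [← hy] at h
        rw [← h] at hv
        rcases List.suffix_cons_iff.1 hv with h' | h'
        · exfalso
          apply hne
          have e1 : b = v := FreeGroup.toWord_injective (by rw [h', h])
          have e2 : a = w := by
            apply FreeGroup.toWord_injective
            have : x :: a.toWord = (y.1, !y.2) :: w.toWord := by rw [← hab, h']
            exact (List.cons.inj this).2
          rw [e1, e2]
          exact Set.mem_singleton_iff.2 Sym2.eq_swap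
        · exact h'
    have hreach : ∀ v w, ((CG r).deleteEdges {s(a, b)}).Reachable v w →
        (b.toWord <:+ v.toWord) → (b.toWord <:+ w.toWord) := by
      intro v w hvw
      obtain ⟨p⟩ := hvw
      induction p with
      | nil => exact id
      | cons h p ih => exact fun hv => ih (hstep _ _ h hv)
    intro hr
    have h1 := hreach b a hr.symm (List.suffix_refl _)
    have h2 := h1.length_le
    rw [hab] at h2
    simp at h2
  intro v w hvw
  rw [SimpleGraph.isBridge_iff]
  obtain ⟨y, hy⟩ := (cg_adj_iff v w).1 hvw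
  rcases toWord_step y v with h | h
  · rw [← hy] at h
    exact key y v w h
  · rw [← hy] at h
    have := key (y.1, !y.2) w v h.symm
    rw [Sym2.eq_swap]
    exact fun hr => this hr.symm

theorem cg_tree (r : ℕ) : (CG r).IsTree ∧
    (∀ a b : FreeGroup (Fin r), (CG r).dist a b = (b * a⁻¹).norm) ∧
    (∀ a b h : FreeGroup (Fin r), (CG r).Adj (a * h) (b * h) ↔ (CG r).Adj a b) ∧
    (∃ N : ℕ → ℕ, BallBd (CG r) N) := by
  refine ⟨⟨?_, cg_acyclic r⟩, fun a b => (cg_dist a b).1, cg_mul, ?_⟩
  · have : Nonempty (FreeGroup (Fin r)) := ⟨1⟩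
    exact ⟨fun a b => (cg_dist a b).2⟩
  · refine ⟨fun n => {g : FreeGroup (Fin r) | g.norm ≤ n}.ncard, ?_⟩
    intro u n
    have hfin : {g : FreeGroup (Fin r) | g.norm ≤ n}.Finite := by
      apply Set.Finite.of_injOn (f := FreeGroup.toWord)
        (t := {L : List (Fin r × Bool) | L.length ≤ n})
      · intro g hg
        exact hg
      · exact FreeGroup.toWord_injective.injOn
      · exact List.finite_length_le _ n
    have heq : {v | (CG r).dist u v ≤ n} = (fun g => g * u) '' {g : FreeGroup (Fin r) | g.norm ≤ n} := by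
      ext v
      simp only [Set.mem_ofPred_eq, Set.mem_image]
      rw [(cg_dist u v).1]
      constructor
      · intro h
        exact ⟨v * u⁻¹, h, by simp⟩
      · rintro ⟨g, hg, rfl⟩
        simpa using hg
    rw [heq]
    refine ⟨hfin.image _, ?_⟩
    rw [Set.ncard_image_of_injective _ (mul_left_injective u)]

end Pool.Agent.TH611.FI
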