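import Pool.Agent.TH722.FI.Defs

namespace Pool.Agent.TH611.FI

open MeasureTheory Set Filter Pool.Agent.TH722.FI
open scoped Topology ENNReal

section

variable {V V' : Type*}

theorem iso_reach (e : V ≃ V') (G : SimpleGraph V) (G' : SimpleGraph V')
    (h : ∀ a b, G'.Adj (e a) (e b) ↔ G.Adj a b) (a b : V) :
    G'.Reachable (e a) (e b) ↔ G.Reachable a b := by
  let φ : G ≃g G' := ⟨e, fun {a b} => h a b⟩
  exact SimpleGraph.Iso.reachable_iff (φ := φ)

theorem iso_dist_le (e : V ≃ V') (G : SimpleGraph V) (G' : SimpleGraph V')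
    (h : ∀ a b, G'.Adj (e a) (e b) ↔ G.Adj a b) (a b : V) (hr : G.Reachable a b) :
    G'.dist (e a) (e b) ≤ G.dist a b := by
  obtain ⟨w, hw⟩ := hr.exists_walk_length_eq_dist
  let φ : G →g G' := ⟨e, fun {a b} hab => (h a b).2 hab⟩
  have := SimpleGraph.dist_le (w.map φ)
  rw [SimpleGraph.Walk.length_map, hw] at this
  exact this

theorem iso_dist (e : V ≃ V') (G : SimpleGraph V) (G' : SimpleGraph V')
    (h : ∀ a b, G'.Adj (e a) (e b) ↔ G.Adj a b) (a b : V) :
    G'.dist (e a) (e b) = G.dist a b := by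
  by_cases hr : G.Reachable a b
  · have hr' := (iso_reach e G G' h a b).2 hr
    apply le_antisymm (iso_dist_le e G G' h a b hr)
    have h' : ∀ a b, G.Adj (e.symm a) (e.symm b) ↔ G'.Adj a b := by
      intro a b
      rw [← h (e.symm a) (e.symm b)]
      simp
    have := iso_dist_le e.symm G' G h' (e a) (e b) hr'
    simpa using this
  · have hr' : ¬ G'.Reachable (e a) (e b) := fun h' => hr ((iso_reach e G G' h a b).1 h')
    rw [SimpleGraph.dist_eq_zero_of_not_reachable hr, SimpleGraph.dist_eq_zero_of_not_reachable hr']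

end

theorem hyb_nat {V V' : Type*} (e : V ≃ V') (U T C : SimpleGraph V) (U' T' C' : SimpleGraph V')
    (hU : ∀ a b, U'.Adj (e a) (e b) ↔ U.Adj a b) (hT : ∀ a b, T'.Adj (e a) (e b) ↔ T.Adj a b)
    (hC : ∀ a b, C'.Adj (e a) (e b) ↔ C.Adj a b) (key : V → ℝ) (key' : V' → ℝ)
    (hk : ∀ a, key' (e a) = key a) :
    (∀ a b, (Hyb U' T' C' key').Adj (e a) (e b) ↔ (Hyb U T C key).Adj a b) ∧
    (∀ M a b, Nice U' T' M (e a) (e b) ↔ Nice U T M a b) ∧
    (∀ a b, Blk T' C' (e a) (e b) ↔ Blk T C a b) ∧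
    (∀ a b, Near U' T' C' key' (e a) (e b) ↔ Near U T C key a b) ∧
    (∀ (P : Set V) (P' : Set V') (_ : ∀ a, e a ∈ P' ↔ a ∈ P) (R : ℕ) (a b : V),
      Clus U' (Hyb U' T' C' key') P' R (e a) (e b) ↔ Clus U (Hyb U T C key) P R a b) := by
  have hall : ∀ {p : V' → Prop}, (∀ b, p b) ↔ ∀ a, p (e a) := fun {p} =>
    ⟨fun h a => h _, fun h b => by simpa using h (e.symm b)⟩
  have hex : ∀ {p : V' → Prop}, (∃ b, p b) ↔ ∃ a, p (e a) := fun {p} =>
    ⟨fun ⟨b, hb⟩ => ⟨e.symm b, by simpa using hb⟩, fun ⟨a, ha⟩ => ⟨_, ha⟩⟩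
  have hBlk : ∀ a b, Blk T' C' (e a) (e b) ↔ Blk T C a b := by
    intro a b
    apply iso_reach e (T \ C) (T' \ C')
    intro a b
    simp only [SimpleGraph.sdiff_adj, hT, hC]
  have hUd := iso_dist e U U' hU
  have hNear : ∀ a b, Near U' T' C' key' (e a) (e b) ↔ Near U T C key a b := by
    intro a b
    unfold Near
    rw [hall]
    simp only [hBlk, hUd, hk]
  have hHyb : ∀ a b, (Hyb U' T' C' key').Adj (e a) (e b) ↔ (Hyb U T C key).Adj a b := by
    intro a b
    show (C'.Adj (e a) (e b) ∨ (e a ≠ e b ∧ Blk T' C' (e a) (e b) ∧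
      ∃ u v, U'.Adj u v ∧ Near U' T' C' key' u (e a) ∧ Near U' T' C' key' v (e b))) ↔
      (C.Adj a b ∨ (a ≠ b ∧ Blk T C a b ∧
      ∃ u v, U.Adj u v ∧ Near U T C key u a ∧ Near U T C key v b))
    rw [hC, hBlk, hex]
    have : ∀ u, (∃ v, U'.Adj (e u) v ∧ Near U' T' C' key' (e u) (e a) ∧
        Near U' T' C' key' v (e b)) ↔
        ∃ v, U.Adj u v ∧ Near U T C key u a ∧ Near U T C key v b := by
      intro u
      rw [hex]
      simp only [hU, hNear]
    simp only [this, ne_eq, e.injective.eq_iff]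
  have hHd := iso_dist e _ _ hHyb
  refine ⟨hHyb, ?_, hBlk, hNear, ?_⟩
  · intro M a b
    have hdel : ∀ u v, (T'.deleteEdges {s(e a, e b)}).Reachable (e u) (e v) ↔
        (T.deleteEdges {s(a, b)}).Reachable u v := by
      apply iso_reach e
      intro u v
      simp only [SimpleGraph.deleteEdges_adj, hT, Set.mem_singleton_iff, Sym2.eq_iff,
        e.injective.eq_iff]
    unfold Nice
    rw [hUd, hall]
    have : ∀ u, (∀ v, U'.Adj (e u) v → ¬ (T'.deleteEdges {s(e a, e b)}).Reachable (e u) v →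
        U'.dist (e u) (e a) ≤ M ∧ U'.dist (e u) (e b) ≤ M) ↔
        (∀ v, U.Adj u v → ¬ (T.deleteEdges {s(a, b)}).Reachable u v →
        U.dist u a ≤ M ∧ U.dist u b ≤ M) := by
      intro u
      rw [hall]
      simp only [hU, hdel, hUd]
    simp only [this]
  · intro P P' hP R a b
    have hHull : ∀ n z, Hull (Hyb U' T' C' key') {v | U'.dist (e n) v ≤ R} (e z) ↔
        Hull (Hyb U T C key) {v | U.dist n v ≤ R} z := by
      intro n z
      unfold Hull
      rw [hex]
      have : ∀ p, (e p ∈ {v | U'.dist (e n) v ≤ R} ∧ ∃ q ∈ {v | U'.dist (e n) v ≤ R},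
          (Hyb U' T' C' key').dist (e p) (e z) + (Hyb U' T' C' key').dist (e z) q =
            (Hyb U' T' C' key').dist (e p) q) ↔
          (p ∈ {v | U.dist n v ≤ R} ∧ ∃ q ∈ {v | U.dist n v ≤ R},
          (Hyb U T C key).dist p z + (Hyb U T C key).dist z q =
            (Hyb U T C key).dist p q) := by
        intro p
        rw [hex]
        simp only [Set.mem_ofPred_eq, hUd, hHd]
      simp only [this]
    unfold Clus
    rw [hex]
    simp only [hP, hHull, e.injective.eq_iff]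

end Pool.Agent.TH611.FI
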