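import Pool.Agent.TH722.FI.Defs
import Pool.Agent.TH611.FI_CAYLEY

namespace Pool.Agent.TH611.FI

open MeasureTheory Set Filter Pool.Agent.TH722.FI
open scoped Topology ENNReal

variable {r : ℕ} {X : Type*} [MeasurableSpace X] {μ : Measure X}
  [IsProbabilityMeasure μ] [MulAction (FreeGroup (Fin r)) X]

omit [IsProbabilityMeasure μ] in
theorem tg_iso (T : FreeGroup (Fin r) → X → X) (hC : Common μ T) (x : X) :
    ∃ e : CG r ≃g TG T x, (∀ γ, T γ x = (e γ) • x) ∧ e 1 = 1 := by
  have huniq : ∀ a b : FreeGroup (Fin r), ∀ y : X, a • y = b • y → a = b := by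
    intro a b y h
    have h1 : (b⁻¹ * a) • y = y := by rw [mul_smul, h, inv_smul_smul]
    have h2 := hC.freeU _ _ h1
    exact (inv_mul_eq_one.1 h2).symm
  have hTuniq : ∀ a b : FreeGroup (Fin r), ∀ y : X, T a y = T b y → a = b := by
    intro a b y h
    have h1 : T (b⁻¹ * a) y = y := by
      rw [hC.actT.mul, h, ← hC.actT.mul, inv_mul_cancel, hC.actT.one]
    have h2 := hC.actT.free _ _ h1
    exact (inv_mul_eq_one.1 h2).symm
  choose f hf using fun γ : FreeGroup (Fin r) => hC.orb1 γ x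
  choose g hg using fun a : FreeGroup (Fin r) => hC.orb2 a x
  have h1 : ∀ γ, g (f γ) = γ := by
    intro γ
    apply hTuniq _ _ x
    rw [← hg, ← hf]
  have h2 : ∀ a, f (g a) = a := by
    intro a
    apply huniq _ _ x
    rw [← hf, ← hg]
  refine ⟨⟨⟨f, g, h1, h2⟩, ?_⟩, hf, ?_⟩
  · intro a b
    show (f a ≠ f b ∧ ∃ i : Fin r,
      T (FreeGroup.of i) (f a • x) = f b • x ∨ T (FreeGroup.of i) (f b • x) = f a • x) ↔
      ∃ i : Fin r, b = FreeGroup.of i * a ∨ a = FreeGroup.of i * b
    simp only [← hf, ← hC.actT.mul]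
    constructor
    · rintro ⟨-, i, h | h⟩
      · exact ⟨i, Or.inl (hTuniq _ _ _ h).symm⟩
      · exact ⟨i, Or.inr (hTuniq _ _ _ h).symm⟩
    · rintro ⟨i, h | h⟩
      · refine ⟨?_, i, Or.inl (by rw [← h])⟩
        intro hab
        have : a = b := by rw [← h1 a, ← h1 b, hab]
        rw [← this] at h
        exact FreeGroup.of_ne_one i (by simpa using h.symm)
      · refine ⟨?_, i, Or.inr (by rw [← h])⟩
        intro hab
        have : a = b := by rw [← h1 a, ← h1 b, hab]
        rw [← this] at h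
        exact FreeGroup.of_ne_one i (by simpa using h.symm)
  · apply huniq _ _ x
    show f 1 • x = (1 : FreeGroup (Fin r)) • x
    rw [← hf, hC.actT.one, one_smul]

theorem tg_tree (T : FreeGroup (Fin r) → X → X) (hC : Common μ T) (x : X) :
    (TG T x).IsTree ∧
    (∀ g h : FreeGroup (Fin r), T h x = g • x → (TG T x).dist 1 g = h.norm) ∧
    (∀ (E : Fin r → Set X), CC T E x ≤ TG T x) ∧
    (∀ h a b : FreeGroup (Fin r), (TG T (h • x)).Adj a b ↔ (TG T x).Adj (a * h) (b * h)) ∧
    (∀ (E : Fin r → Set X) (h a b : FreeGroup (Fin r)),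
      (CC T E (h • x)).Adj a b ↔ (CC T E x).Adj (a * h) (b * h)) := by
  have huniq : ∀ a b : FreeGroup (Fin r), ∀ y : X, a • y = b • y → a = b := by
    intro a b y h
    have h1 : (b⁻¹ * a) • y = y := by rw [mul_smul, h, inv_smul_smul]
    have h2 := hC.freeU _ _ h1
    exact (inv_mul_eq_one.1 h2).symm
  obtain ⟨e, he, he1⟩ := tg_iso T hC x
  refine ⟨(SimpleGraph.Iso.isTree_iff e).1 (cg_tree r).1, ?_, ?_, ?_, ?_⟩
  · intro g h hgh
    have hg : e h = g := huniq _ _ x (by rw [← he, hgh])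
    rw [← hg, ← he1]
    have hd : (TG T x).dist (e 1) (e h) = (CG r).dist 1 h := by
      apply le_antisymm
      · obtain ⟨w, hw⟩ := (cg_dist (1 : FreeGroup (Fin r)) h).2.exists_walk_length_eq_dist
        have := SimpleGraph.dist_le (w.map e.toHom)
        rw [SimpleGraph.Walk.length_map, hw] at this
        exact this
      · have hr : (TG T x).Reachable (e 1) (e h) :=
          (SimpleGraph.Iso.reachable_iff (φ := e)).2 (cg_dist (1 : FreeGroup (Fin r)) h).2
        obtain ⟨w, hw⟩ := hr.exists_walk_length_eq_dist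
        have := SimpleGraph.dist_le (w.map e.symm.toHom)
        rw [SimpleGraph.Walk.length_map, hw] at this
        have e1 : e.symm.toHom (e 1) = 1 := e.symm_apply_apply 1
        have e2 : e.symm.toHom (e h) = h := e.symm_apply_apply h
        rw [e1, e2] at this
        exact this
    rw [hd, (cg_dist _ _).1]
    simp
  · intro E a b hab
    obtain ⟨hne, i, h | h⟩ := hab
    · exact ⟨hne, i, Or.inl h.2⟩
    · exact ⟨hne, i, Or.inr h.2⟩
  · intro h a b
    show (a ≠ b ∧ ∃ i : Fin r,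
      T (FreeGroup.of i) (a • h • x) = b • h • x ∨ T (FreeGroup.of i) (b • h • x) = a • h • x) ↔
      (a * h ≠ b * h ∧ ∃ i : Fin r,
      T (FreeGroup.of i) ((a * h) • x) = (b * h) • x ∨
        T (FreeGroup.of i) ((b * h) • x) = (a * h) • x)
    simp only [mul_smul, ne_eq, mul_left_inj]
  · intro E h a b
    show (a ≠ b ∧ ∃ i : Fin r,
      (a • h • x ∈ E i ∧ T (FreeGroup.of i) (a • h • x) = b • h • x) ∨
      (b • h • x ∈ E i ∧ T (FreeGroup.of i) (b • h • x) = a • h • x)) ↔
      (a * h ≠ b * h ∧ ∃ i : Fin r,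
      ((a * h) • x ∈ E i ∧ T (FreeGroup.of i) ((a * h) • x) = (b * h) • x) ∨
      ((b * h) • x ∈ E i ∧ T (FreeGroup.of i) ((b * h) • x) = (a * h) • x))
    simp only [mul_smul, ne_eq, mul_left_inj]

end Pool.Agent.TH611.FI
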