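import Pool.Agent.TH981.SD.Stm

set_option autoImplicit false

open Pool.Agent.TH981.SD
open Finset Set Filter
open scoped BigOperators Topology Classical

namespace Pool.Agent.TH611.J2296

theorem card_degs {n : ℕ} (G : SimpleGraph (Fin n)) (C : Finset (Fin n)) :
    Multiset.card (degs G C) = C.card := by
  unfold degs
  rw [Multiset.card_map]
  rfl

theorem lam_nonneg (α : ℝ) (d : ℕ) : 0 ≤ lam α d := by unfold lam; positivity

theorem sum_lam_le (α : ℝ) {n : ℕ} (G : SimpleGraph (Fin n)) (C : Finset (Fin n)) :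
    ((degs G C).map (lam α)).sum ≤ totW α G := by
  unfold degs totW
  rw [Multiset.map_map]
  have : (Multiset.map (lam α ∘ dg G) C.val).sum = ∑ v ∈ C, lam α (dg G v) := rfl
  rw [this]
  exact Finset.sum_le_sum_of_subset_of_nonneg (Finset.subset_univ _)
    fun v _ _ => lam_nonneg _ _

theorem aW_le {α z : ℝ} {Y : ℕ → ℝ → ℝ} (hY : IsY α z Y) {t : ℝ} (ht : 0 ≤ t)
    (C : Multiset ℕ) : 0 ≤ aW Y t C ∧ aW Y t C ≤ z ^ Multiset.card C := by
  unfold aW
  induction C using Multiset.induction with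
  | empty => simp
  | cons d C ih =>
    rw [Multiset.map_cons, Multiset.prod_cons, Multiset.card_cons, pow_succ']
    have h1 := hY.pos d t ht
    have h2 := hY.le d t ht
    exact ⟨mul_nonneg h1.le ih.1, mul_le_mul h2 ih.2 ih.1 (h1.le.trans h2)⟩

/-- bound of one hub -/
theorem hval_bound {n : ℕ} (O : Finset (Fin n)) (a b : Fin n → ℝ) (g : ℕ → ℝ) (c : Fin n → ℕ)
    (z k W : ℝ) (D : ℕ) (hz : 0 ≤ z) (hk : 0 ≤ k) (hW : 0 ≤ W)
    (ha : ∀ x ∈ O, 0 ≤ a x ∧ a x ≤ z ^ c x) (hb : ∀ x ∈ O, 0 ≤ b x ∧ b x ≤ k * z ^ c x)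
    (hg : ∀ r, r ≤ O.card → 0 ≤ g r ∧ g r ≤ W) (hO : O.card ≤ D) :
    0 ≤ hval O a b g 0 ∧ hval O a b g 0 ≤ z ^ (∑ x ∈ O, c x) * (W * (1 + k) ^ D) := by
  unfold hval
  constructor
  · refine Finset.sum_nonneg fun S hS => ?_
    rw [Finset.mem_powerset] at hS
    refine mul_nonneg (mul_nonneg (Finset.prod_nonneg fun x hx => (hb x (hS hx)).1)
      (Finset.prod_nonneg fun x hx => (ha x (Finset.mem_sdiff.1 hx).1).1)) ?_
    rw [zero_add]
    exact (hg _ (Finset.card_le_card hS)).1
  · calc ∑ S ∈ O.powerset, (∏ x ∈ S, b x) * (∏ x ∈ O \ S, a x) * g (0 + S.card)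
        ≤ ∑ S ∈ O.powerset, (z ^ (∑ x ∈ O, c x) * W) * (k ^ S.card * 1 ^ (O.card - S.card)) := by
          refine Finset.sum_le_sum fun S hS => ?_
          rw [Finset.mem_powerset] at hS
          rw [zero_add]
          have e1 : ∏ x ∈ S, b x ≤ ∏ x ∈ S, (k * z ^ c x) :=
            Finset.prod_le_prod (fun x hx => (hb x (hS hx)).1) fun x hx => (hb x (hS hx)).2
          have e2 : ∏ x ∈ O \ S, a x ≤ ∏ x ∈ O \ S, z ^ c x :=
            Finset.prod_le_prod (fun x hx => (ha x (Finset.mem_sdiff.1 hx).1).1)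
              fun x hx => (ha x (Finset.mem_sdiff.1 hx).1).2
          have e3 : (∏ x ∈ O \ S, z ^ c x) * (∏ x ∈ S, z ^ c x) = z ^ (∑ x ∈ O, c x) := by
            rw [Finset.prod_sdiff hS, Finset.prod_pow_eq_pow_sum]
          have e4 : ∏ x ∈ S, (k * z ^ c x) = k ^ S.card * ∏ x ∈ S, z ^ c x := by
            rw [Finset.prod_mul_distrib, Finset.prod_const]
          have h1 : 0 ≤ ∏ x ∈ S, b x := Finset.prod_nonneg fun x hx => (hb x (hS hx)).1
          have h2 : 0 ≤ ∏ x ∈ O \ S, a x :=
            Finset.prod_nonneg fun x hx => (ha x (Finset.mem_sdiff.1 hx).1).1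
          have h3 := hg _ (Finset.card_le_card hS)
          calc (∏ x ∈ S, b x) * (∏ x ∈ O \ S, a x) * g S.card
              ≤ (∏ x ∈ S, (k * z ^ c x)) * (∏ x ∈ O \ S, z ^ c x) * W := by
                apply mul_le_mul _ h3.2 h3.1
                · have h4 : 0 ≤ ∏ x ∈ S, (k * z ^ c x) := h1.trans e1
                  have h5 : 0 ≤ ∏ x ∈ O \ S, z ^ c x := h2.trans e2
                  positivity
                · exact mul_le_mul e1 e2 h2 (h1.trans e1)
            _ = _ := by rw [e4, ← e3]; ring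
      _ = z ^ (∑ x ∈ O, c x) * W * (k + 1) ^ O.card := by
          rw [← Finset.mul_sum, Finset.sum_pow_mul_eq_add_pow]
      _ ≤ z ^ (∑ x ∈ O, c x) * W * (k + 1) ^ D := by
          have : (k + 1) ^ O.card ≤ (k + 1) ^ D := pow_le_pow_right₀ (by linarith) hO
          have h4 : 0 ≤ z ^ (∑ x ∈ O, c x) := pow_nonneg hz _
          gcongr
      _ = _ := by rw [add_comm k 1]; ring

theorem offN_card {n : ℕ} (G : SimpleGraph (Fin n)) (I : Finset (Fin n)) (h : Fin n) :
    (offN G I h).card ≤ dg G h := by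
  unfold offN dg
  apply Finset.card_le_card
  intro x hx
  rw [Finset.mem_filter] at hx ⊢
  exact ⟨hx.1, hx.2.1⟩

theorem hval_zero {n : ℕ} (O : Finset (Fin n)) (a b : Fin n → ℝ) (r : ℕ) :
    hval O a b (fun _ => 0) r = 0 := by
  unfold hval
  exact Finset.sum_eq_zero fun S _ => mul_zero _

theorem lb2 (h1 : S_AB) (h2 : S_TW) (h3 : S_ATT) (h4 : S_CNT) (h5 : S_YF) (h6 : S_PE) :
    S_LB2 := by
  intro j n α z J Kv g Y Δ w G hα0 hα1 hz0 hz1 hY hJ hKv hg0 hg1 hw hG hn τ hτ
  have hj : 1 ≤ j := by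
    obtain ⟨i⟩ := hJ.connected.nonempty
    exact Nat.one_le_iff_ne_zero.2 (fun h => by subst h; exact i.elim0)
  -- bound for the hub functions
  have hcont : ∀ i d r, ∃ B : ℝ, ∀ t, 0 ≤ t → t ≤ τ → d ≤ Δ → w i d r t ≤ B := by
    intro i d r
    by_cases hd : d ≤ Δ
    · have hc : ContinuousOn (w i d r) (Set.Icc 0 τ) := by
        intro t ht
        exact (((hw i).deriv d r t ht.1 hd).continuousWithinAt).mono
          (fun s hs => hs.1)
      obtain ⟨B, hB⟩ := isCompact_Icc.exists_bound_of_continuousOn hc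
      exact ⟨B, fun t h0 h1 _ => (le_abs_self _).trans (hB t ⟨h0, h1⟩)⟩
    · exact ⟨0, fun t _ _ h => absurd h hd⟩
  choose B hB using hcont
  set W : ℝ := ∑ i, ∑ d ∈ Finset.range (Δ + 1), ∑ r ∈ Finset.range (Δ + 1), |B i d r| with hWdef
  have hW0 : 0 ≤ W := Finset.sum_nonneg fun _ _ => Finset.sum_nonneg fun _ _ =>
    Finset.sum_nonneg fun _ _ => abs_nonneg _
  have hW : ∀ i d r t, 0 ≤ t → t ≤ τ → d ≤ Δ → r ≤ Δ → 0 ≤ w i d r t ∧ w i d r t ≤ W := by
    intro i d r t ht0 ht1 hd hr
    refine ⟨(hw i).nonneg d r t ht0, ?_⟩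
    calc w i d r t ≤ B i d r := hB i d r t ht0 ht1 hd
      _ ≤ |B i d r| := le_abs_self _
      _ ≤ ∑ r ∈ Finset.range (Δ + 1), |B i d r| :=
          Finset.single_le_sum (f := fun r => |B i d r|) (fun _ _ => abs_nonneg _)
            (Finset.mem_range.2 (by omega))
      _ ≤ ∑ d ∈ Finset.range (Δ + 1), ∑ r ∈ Finset.range (Δ + 1), |B i d r| :=
          Finset.single_le_sum (f := fun d => ∑ r ∈ Finset.range (Δ + 1), |B i d r|)
            (fun _ _ => Finset.sum_nonneg fun _ _ => abs_nonneg _)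
            (Finset.mem_range.2 (by omega))
      _ ≤ W := Finset.single_le_sum
            (f := fun i => ∑ d ∈ Finset.range (Δ + 1), ∑ r ∈ Finset.range (Δ + 1), |B i d r|)
            (fun _ _ => Finset.sum_nonneg fun _ _ => Finset.sum_nonneg fun _ _ => abs_nonneg _)
            (Finset.mem_univ i)
  -- bound for one weight
  have hwt : ∀ (n' : ℕ) (G' : SimpleGraph (Fin n')), G'.IsTree → 2 ≤ n' → ∀ t, 0 ≤ t → t ≤ τ →
      ∀ ψ ∈ TEs J G', 0 ≤ wt J G' (aW Y t) (bW α Y t) Kv (fun _ => 0)
        (fun i _ d r => w i d r t) ψ ∧ wt J G' (aW Y t) (bW α Y t) Kv (fun _ => 0)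
        (fun i _ d r => w i d r t) ψ ≤ (z ^ n' / z ^ j) *
          ∏ i, (W * (1 + Kv i * (2 * n')) ^ Δ) := by
    intro n' G' hG' hn' t ht0 ht1 ψ hψ
    unfold TEs at hψ
    rw [Finset.mem_filter] at hψ
    obtain ⟨-, hPE, hsome⟩ := hψ
    have hex : ∀ i, ∃ v, ψ i = some v := fun i => Option.ne_none_iff_exists'.1 (hsome i)
    choose f hf using hex
    have hcnt := ((h4 j n' J G' hj hn' hJ hG').1 ψ
      (by unfold PEs; rw [Finset.mem_filter]; exact ⟨Finset.mem_univ _, hPE⟩)).2.2.2.2
    have hdom : (dom ψ).card = j := by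
      have : dom ψ = Finset.univ := by
        unfold dom
        rw [Finset.filter_true_of_mem]
        intro i _
        exact hsome i
      rw [this]; simp
    have hsum : ∑ i, (∑ b ∈ offN G' (img ψ) (f i), (br G' (f i) b).card) + j = n' := by
      rw [hdom] at hcnt
      refine Eq.trans ?_ hcnt
      congr 1
      refine Finset.sum_congr rfl fun i _ => ?_
      rw [hf i]
    have hzz : z ^ (∑ i, (∑ b ∈ offN G' (img ψ) (f i), (br G' (f i) b).card)) =
        z ^ n' / z ^ j := by
      set e := ∑ i, (∑ b ∈ offN G' (img ψ) (f i), (br G' (f i) b).card)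
      rw [← hsum, pow_add]
      have : z ^ j ≠ 0 := (pow_pos hz0 _).ne'
      field_simp
    have hwte : wt J G' (aW Y t) (bW α Y t) Kv (fun _ => 0) (fun i _ d r => w i d r t) ψ =
        ∏ i, hval (offN G' (img ψ) (f i)) (fun x => aW Y t (degs G' (br G' (f i) x)))
          (fun x => Kv i * bW α Y t (degs G' (br G' (f i) x)))
          (fun r => w i (dg G' (f i)) r t) 0 := by
      unfold wt
      refine Finset.prod_congr rfl fun i _ => ?_
      rw [hf i]
      rfl
    have hn0 : (0 : ℝ) ≤ n' := Nat.cast_nonneg _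
    have hb : ∀ i, 0 ≤ hval (offN G' (img ψ) (f i)) (fun x => aW Y t (degs G' (br G' (f i) x)))
          (fun x => Kv i * bW α Y t (degs G' (br G' (f i) x)))
          (fun r => w i (dg G' (f i)) r t) 0 ∧
        hval (offN G' (img ψ) (f i)) (fun x => aW Y t (degs G' (br G' (f i) x)))
          (fun x => Kv i * bW α Y t (degs G' (br G' (f i) x)))
          (fun r => w i (dg G' (f i)) r t) 0 ≤
        z ^ (∑ b ∈ offN G' (img ψ) (f i), (br G' (f i) b).card) *
          (W * (1 + Kv i * (2 * n')) ^ Δ) := by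
      intro i
      have hKi := hKv i
      by_cases hd : dg G' (f i) ≤ Δ
      · apply hval_bound _ _ _ _ (fun b => (br G' (f i) b).card) z (Kv i * (2 * n')) W Δ hz0.le
          (by positivity) hW0
        · intro x _
          have := aW_le hY ht0 (degs G' (br G' (f i) x))
          rwa [card_degs] at this
        · intro x _
          have ha := aW_le hY ht0 (degs G' (br G' (f i) x))
          rw [card_degs] at ha
          obtain ⟨-, -, -, b1, b2, -⟩ := (h1 α z Y hα0 hα1 hz0 hz1 hY).1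
            (degs G' (br G' (f i) x)) t ht0
          refine ⟨mul_nonneg hKi b1, ?_⟩
          have hs : ((degs G' (br G' (f i) x)).map (lam α)).sum ≤ 2 * n' :=
            (sum_lam_le α G' _).trans (h2 α n' G' hα0 hα1 hn' hG').2.2.2
          have hs0 : 0 ≤ ((degs G' (br G' (f i) x)).map (lam α)).sum := by
            apply Multiset.sum_nonneg
            intro y hy
            rw [Multiset.mem_map] at hy
            obtain ⟨d, -, rfl⟩ := hy
            exact lam_nonneg _ _
          calc Kv i * bW α Y t (degs G' (br G' (f i) x))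
              ≤ Kv i * (z ^ (br G' (f i) x).card * (2 * n')) := by
                apply mul_le_mul_of_nonneg_left _ hKi
                exact b2.trans (mul_le_mul ha.2 hs hs0 (pow_nonneg hz0.le _))
            _ = _ := by ring
        · intro r hr
          exact hW i _ r t ht0 ht1 hd (hr.trans ((offN_card _ _ _).trans hd))
        · exact (offN_card _ _ _).trans hd
      · have hzero : (fun r => w i (dg G' (f i)) r t) = fun _ => 0 := by
          funext r
          exact (hw i).zero _ r t (by omega)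
        rw [hzero, hval_zero]
        refine ⟨le_rfl, ?_⟩
        positivity
    rw [hwte]
    refine ⟨Finset.prod_nonneg fun i _ => (hb i).1, ?_⟩
    calc _ ≤ ∏ i, z ^ (∑ b ∈ offN G' (img ψ) (f i), (br G' (f i) b).card) *
          (W * (1 + Kv i * (2 * n')) ^ Δ) :=
          Finset.prod_le_prod (fun i _ => (hb i).1) fun i _ => (hb i).2
      _ = _ := by rw [Finset.prod_mul_distrib, Finset.prod_pow_eq_pow_sum, hzz]
  -- the bound for the functional
  set C : ℝ := (∏ i, (W * (1 + 2 * Kv i) ^ Δ)) / z ^ j / z with hC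
  have hC0 : 0 ≤ C := by
    have : 0 ≤ ∏ i, (W * (1 + 2 * Kv i) ^ Δ) := Finset.prod_nonneg fun i _ => by
      have := hKv i
      positivity
    positivity
  set p : ℕ := j + Δ * j with hp
  set Bd : ℕ → ℝ := fun n' => C * (((n' + 1 : ℕ) : ℝ) ^ p * z ^ (n' + 1)) with hBd
  have hF : ∀ (n' : ℕ) (G' : SimpleGraph (Fin n')), G'.IsTree → 2 ≤ n' → ∀ t, 0 ≤ t → t ≤ τ →
      0 ≤ Fcap α J Kv Y w G' t ∧ Fcap α J Kv Y w G' t ≤ Bd n' := by
    intro n' G' hG' hn' t ht0 ht1
    unfold Fcap
    have hn0 : (0 : ℝ) ≤ n' := Nat.cast_nonneg _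
    constructor
    · exact Finset.sum_nonneg fun ψ hψ => (hwt n' G' hG' hn' t ht0 ht1 ψ hψ).1
    · calc _ ≤ ∑ ψ ∈ TEs J G', (z ^ n' / z ^ j) * ∏ i, (W * (1 + Kv i * (2 * n')) ^ Δ) :=
            Finset.sum_le_sum fun ψ hψ => (hwt n' G' hG' hn' t ht0 ht1 ψ hψ).2
        _ = (TEs J G').card * ((z ^ n' / z ^ j) * ∏ i, (W * (1 + Kv i * (2 * n')) ^ Δ)) := by
            rw [Finset.sum_const, nsmul_eq_mul]
        _ ≤ ((n' + 1 : ℕ) : ℝ) ^ j * ((z ^ n' / z ^ j) *
              ∏ i, ((W * (1 + 2 * Kv i) ^ Δ) * ((n' + 1 : ℕ) : ℝ) ^ Δ)) := by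
            have e1 : ((TEs J G').card : ℝ) ≤ ((n' + 1 : ℕ) : ℝ) ^ j := by
              have : (TEs J G').card ≤ (n' + 1) ^ j := by
                calc (TEs J G').card ≤ (Finset.univ : Finset (Fin j → Option (Fin n'))).card :=
                      Finset.card_le_card (Finset.subset_univ _)
                  _ = (n' + 1) ^ j := by simp
              exact_mod_cast this
            have e2 : ∏ i, (W * (1 + Kv i * (2 * n')) ^ Δ) ≤
                ∏ i, ((W * (1 + 2 * Kv i) ^ Δ) * ((n' + 1 : ℕ) : ℝ) ^ Δ) := by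
              apply Finset.prod_le_prod
              · intro i _
                have := hKv i
                positivity
              · intro i _
                have hKi := hKv i
                rw [mul_assoc, ← mul_pow]
                apply mul_le_mul_of_nonneg_left _ hW0
                apply pow_le_pow_left₀ (by positivity)
                push_cast
                nlinarith
            have e3 : 0 ≤ ∏ i, (W * (1 + Kv i * (2 * n')) ^ Δ) :=
              Finset.prod_nonneg fun i _ => by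
                have := hKv i
                positivity
            have e4 : 0 ≤ z ^ n' / z ^ j := by positivity
            apply mul_le_mul e1 _ (mul_nonneg e4 e3) (by positivity)
            exact mul_le_mul_of_nonneg_left e2 e4
        _ = Bd n' := by
            rw [Finset.prod_mul_distrib, Finset.prod_const, Finset.card_univ, Fintype.card_fin]
            simp only [hBd, hC, hp]
            rw [pow_add, pow_mul, pow_succ z n']
            have h9 : z ^ j ≠ 0 := (pow_pos hz0 _).ne'
            field_simp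
  have hint : ∀ (n' : ℕ) (G' : SimpleGraph (Fin n')), G'.IsTree → 2 ≤ n' →
      0 ≤ (∫ t in (0:ℝ)..τ, Fcap α J Kv Y w G' t) ∧
      (∫ t in (0:ℝ)..τ, Fcap α J Kv Y w G' t) ≤ Bd n' * τ := by
    intro n' G' hG' hn'
    constructor
    · apply intervalIntegral.integral_nonneg hτ
      intro t ht
      exact (hF n' G' hG' hn' t ht.1 ht.2).1
    · have := intervalIntegral.norm_integral_le_of_norm_le_const (a := 0) (b := τ)
        (f := fun t => Fcap α J Kv Y w G' t) (C := Bd n') (by
          intro t ht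
          rw [Set.uIoc_of_le hτ] at ht
          have h9 := hF n' G' hG' hn' t ht.1.le ht.2
          rw [Real.norm_eq_abs, abs_of_nonneg h9.1]
          exact h9.2)
      rw [Real.norm_eq_abs, sub_zero, abs_of_nonneg hτ] at this
      exact (le_abs_self _).trans this
  have hBlim : Tendsto (fun m => Bd (n + m) * τ) atTop (𝓝 0) := by
    have h9 : Tendsto (fun k : ℕ => ((k : ℕ) : ℝ) ^ p * z ^ k) atTop (𝓝 0) :=
      tendsto_pow_const_mul_const_pow_of_abs_lt_one p (by rw [abs_of_pos hz0]; exact hz1)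
    have h10 : Tendsto (fun m : ℕ => n + m + 1) atTop atTop := by
      apply tendsto_atTop_mono (fun m : ℕ => (by omega : m ≤ n + m + 1)) tendsto_id
    have h11 := ((h9.comp h10).const_mul C).mul_const τ
    rw [mul_zero, zero_mul] at h11
    exact h11
  obtain ⟨-, p2, p3, -, -⟩ := h6 α hα0 hα1
  apply squeeze_zero _ _ hBlim
  · intro m
    have := p2 (fun _ _ => (0 : ℝ)) (fun _ G' => ∫ t in (0:ℝ)..τ, Fcap α J Kv Y w G' t) m n G hG hn
      (fun n' G' hG' hn' _ => (hint n' G' hG' hn').1)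
    rwa [p3 0 m n G hG hn] at this
  · intro m
    have := p2 (fun _ G' => ∫ t in (0:ℝ)..τ, Fcap α J Kv Y w G' t) (fun _ _ => Bd (n + m) * τ) m n G
      hG hn (fun n' G' hG' hn' h => by subst h; exact (hint _ G' hG' hn').2)
    rwa [p3 _ m n G hG hn] at this

end Pool.Agent.TH611.J2296
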