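import Pool.Agent.TH981.SD.Stm

set_option autoImplicit false

open Pool.Agent.TH981.SD
open Finset Set Filter
open scoped BigOperators Topology Classical

namespace Pool.Agent.TH611.J2300

/-- weight of the branch -/
noncomputable def Rb (α : ℝ) {n : ℕ} (G : SimpleGraph (Fin n)) (h b : Fin n) : ℝ :=
  ∑ v ∈ br G h b, lam α (dg G v)

theorem lam_nonneg (α : ℝ) (d : ℕ) : 0 ≤ lam α d := by unfold lam; positivity

theorem Rb_nonneg (α : ℝ) {n : ℕ} (G : SimpleGraph (Fin n)) (h b : Fin n) : 0 ≤ Rb α G h b :=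
  Finset.sum_nonneg fun _ _ => lam_nonneg _ _

theorem card_degs {n : ℕ} (G : SimpleGraph (Fin n)) (C : Finset (Fin n)) :
    Multiset.card (degs G C) = C.card := by
  unfold degs
  rw [Multiset.card_map]
  rfl

theorem sum_degs (α z : ℝ) {n : ℕ} (G : SimpleGraph (Fin n)) (h b : Fin n) :
    ((degs G (br G h b)).map (fun d => lam α d * (1 - z))).sum = (1 - z) * Rb α G h b := by
  unfold degs Rb
  rw [Multiset.map_map]
  have : (Multiset.map ((fun d => lam α d * (1 - z)) ∘ dg G) (br G h b).val).sum =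
      ∑ v ∈ br G h b, lam α (dg G v) * (1 - z) := rfl
  rw [this, ← Finset.sum_mul, mul_comm]

/-- the bound for one hub -/
noncomputable def Q (α : ℝ) (M : ℕ) (c : ℝ) {n : ℕ} (G : SimpleGraph (Fin n)) (h : Fin n) : ℝ :=
  ∑ m ∈ Finset.Icc 4 M, c ^ m * ∑ S ∈ Finset.powersetCard m (offN G ∅ h), ∏ b ∈ S, Rb α G h b

theorem Q_nonneg (α : ℝ) (M : ℕ) {c : ℝ} (hc : 0 ≤ c) {n : ℕ} (G : SimpleGraph (Fin n))
    (h : Fin n) : 0 ≤ Q α M c G h := by
  unfold Q
  refine Finset.sum_nonneg fun m _ => mul_nonneg (pow_nonneg hc _) ?_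
  exact Finset.sum_nonneg fun S _ => Finset.prod_nonneg fun b _ => Rb_nonneg _ _ _ _

theorem hub_bound (α z : ℝ) (M : ℕ) (K : ℝ) {n : ℕ} (G : SimpleGraph (Fin n)) (I : Finset (Fin n))
    (h : Fin n) (hz0 : 0 ≤ z) (hz1 : z ≤ 1) (hK : 0 ≤ K) :
    0 ≤ hval (offN G I h) (fun x => z ^ Multiset.card (degs G (br G h x)))
      (fun x => K * (z ^ Multiset.card (degs G (br G h x)) *
        ((degs G (br G h x)).map (fun d => lam α d * (1 - z))).sum)) (fun r => gM M r) 0 ∧
    hval (offN G I h) (fun x => z ^ Multiset.card (degs G (br G h x)))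
      (fun x => K * (z ^ Multiset.card (degs G (br G h x)) *
        ((degs G (br G h x)).map (fun d => lam α d * (1 - z))).sum)) (fun r => gM M r) 0 ≤
      z ^ (∑ b ∈ offN G I h, (br G h b).card) * Q α M (K * (1 - z)) G h := by
  have hg : ∀ r, 0 ≤ gM M r := by intro r; unfold gM; split_ifs <;> norm_num
  have hθ : 0 ≤ 1 - z := by linarith
  have hc : 0 ≤ K * (1 - z) := mul_nonneg hK hθ
  have e1 : hval (offN G I h) (fun x => z ^ Multiset.card (degs G (br G h x)))
      (fun x => K * (z ^ Multiset.card (degs G (br G h x)) *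
        ((degs G (br G h x)).map (fun d => lam α d * (1 - z))).sum)) (fun r => gM M r) 0 =
      z ^ (∑ b ∈ offN G I h, (br G h b).card) *
        ∑ S ∈ (offN G I h).powerset, ((K * (1 - z)) ^ S.card * ∏ b ∈ S, Rb α G h b) *
          gM M S.card := by
    unfold hval
    rw [Finset.mul_sum]
    refine Finset.sum_congr rfl fun S hS => ?_
    rw [Finset.mem_powerset] at hS
    simp only [card_degs, sum_degs, zero_add]
    have e2 : ∏ x ∈ S, K * (z ^ (br G h x).card * ((1 - z) * Rb α G h x)) =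
        (∏ x ∈ S, z ^ (br G h x).card) * ((K * (1 - z)) ^ S.card * ∏ b ∈ S, Rb α G h b) := by
      rw [← Finset.prod_const, ← Finset.prod_mul_distrib, ← Finset.prod_mul_distrib]
      refine Finset.prod_congr rfl fun x _ => ?_
      ring
    have e3 : (∏ x ∈ offN G I h \ S, z ^ (br G h x).card) * (∏ x ∈ S, z ^ (br G h x).card) =
        z ^ (∑ b ∈ offN G I h, (br G h b).card) := by
      rw [Finset.prod_sdiff hS, Finset.prod_pow_eq_pow_sum]
    rw [e2, ← e3]
    ring
  have hterm : ∀ S : Finset (Fin n), 0 ≤ ((K * (1 - z)) ^ S.card * ∏ b ∈ S, Rb α G h b) *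
      gM M S.card := by
    intro S
    exact mul_nonneg (mul_nonneg (pow_nonneg hc _)
      (Finset.prod_nonneg fun b _ => Rb_nonneg _ _ _ _)) (hg _)
  rw [e1]
  have hzp : 0 ≤ z ^ (∑ b ∈ offN G I h, (br G h b).card) := pow_nonneg hz0 _
  refine ⟨mul_nonneg hzp (Finset.sum_nonneg fun S _ => hterm S), ?_⟩
  apply mul_le_mul_of_nonneg_left _ hzp
  have hsub : offN G I h ⊆ offN G ∅ h := by
    intro x hx
    unfold offN at hx ⊢
    rw [Finset.mem_filter] at hx ⊢
    exact ⟨hx.1, hx.2.1, by simp⟩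
  calc ∑ S ∈ (offN G I h).powerset, ((K * (1 - z)) ^ S.card * ∏ b ∈ S, Rb α G h b) * gM M S.card
      ≤ ∑ S ∈ (offN G ∅ h).powerset, ((K * (1 - z)) ^ S.card * ∏ b ∈ S, Rb α G h b) *
          gM M S.card :=
        Finset.sum_le_sum_of_subset_of_nonneg (Finset.powerset_mono.2 hsub) fun S _ _ => hterm S
    _ = Q α M (K * (1 - z)) G h := by
        have e4 : ∀ S : Finset (Fin n), ((K * (1 - z)) ^ S.card * ∏ b ∈ S, Rb α G h b) *
            gM M S.card = ∑ m ∈ Finset.Icc 4 M, if S.card = m then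
              ((K * (1 - z)) ^ m * ∏ b ∈ S, Rb α G h b) else 0 := by
          intro S
          rw [Finset.sum_ite_eq]
          unfold gM
          simp only [Finset.mem_Icc]
          split_ifs <;> ring
        simp only [e4]
        rw [Finset.sum_comm]
        unfold Q
        refine Finset.sum_congr rfl fun m _ => ?_
        rw [Finset.mul_sum, Finset.powersetCard_eq_filter, Finset.sum_filter]

theorem bd (h1 : S_MED) (h2 : S_TW) (h3 : S_CNT) : S_BD := by
  intro α j M J Kv hα0 hα1 hj hJ hKv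
  set A : ℝ := ∏ i, ∑ m ∈ Finset.Icc 4 M, (2 * Kv i) ^ m with hA
  have hA0 : 0 ≤ A := Finset.prod_nonneg fun i _ => Finset.sum_nonneg fun m _ =>
    pow_nonneg (by linarith [hKv i]) _
  set p : ℕ := 4 * j + M * j with hp
  refine ⟨2 ^ j * A * (2 ^ p * (p.factorial : ℝ) * Real.exp (1 / 2)), by positivity, ?_⟩
  intro z hz0 hz1 n G hn hG
  have hθ : 0 < 1 - z := by linarith
  have hz : 0 < z := by linarith
  obtain ⟨-, -, w3, w4⟩ := h2 α n G hα0 hα1 hn hG
  have hn0 : (0 : ℝ) < n := by
    have : 0 < n := by omega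
    exact_mod_cast this
  have hW0 : 0 < totW α G := by linarith
  -- the weights
  set q : Fin j → Option (Fin n) → ℝ := fun i o =>
    match o with
    | none => 0
    | some h => Q α M (Kv i * (1 - z)) G h with hq
  have hq0 : ∀ i o, 0 ≤ q i o := by
    intro i o
    cases o with
    | none => exact le_rfl
    | some h => exact Q_nonneg _ _ (mul_nonneg (hKv i) hθ.le) _ _
  have hwt : ∀ ψ ∈ TEs J G, 0 ≤ wt J G (fun C => z ^ (Multiset.card C))
      (fun C => z ^ (Multiset.card C) * ((C.map (fun d => lam α d * (1 - z))).sum)) Kv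
      (fun _ => 0) (fun _ _ _ r => gM M r) ψ ∧
      wt J G (fun C => z ^ (Multiset.card C))
      (fun C => z ^ (Multiset.card C) * ((C.map (fun d => lam α d * (1 - z))).sum)) Kv
      (fun _ => 0) (fun _ _ _ r => gM M r) ψ ≤ 2 ^ j * z ^ n * ∏ i, q i (ψ i) := by
    intro ψ hψ
    unfold TEs at hψ
    rw [Finset.mem_filter] at hψ
    obtain ⟨-, hPE, hsome⟩ := hψ
    have hex : ∀ i, ∃ v, ψ i = some v := fun i => Option.ne_none_iff_exists'.1 (hsome i)
    choose f hf using hex
    have hcnt := ((h3 j n J G hj hn hJ hG).1 ψ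
      (by unfold PEs; rw [Finset.mem_filter]; exact ⟨Finset.mem_univ _, hPE⟩)).2.2.2.2
    have hdom : (dom ψ).card = j := by
      have : dom ψ = Finset.univ := by
        unfold dom
        rw [Finset.filter_true_of_mem]
        intro i _
        exact hsome i
      rw [this]; simp
    have hsum : ∑ i, (∑ b ∈ offN G (img ψ) (f i), (br G (f i) b).card) + j = n := by
      rw [hdom] at hcnt
      refine Eq.trans ?_ hcnt
      congr 1
      refine Finset.sum_congr rfl fun i _ => ?_
      rw [hf i]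
    have hzz : z ^ (∑ i, (∑ b ∈ offN G (img ψ) (f i), (br G (f i) b).card)) ≤ 2 ^ j * z ^ n := by
      set e := ∑ i, (∑ b ∈ offN G (img ψ) (f i), (br G (f i) b).card)
      rw [← hsum, pow_add]
      have h9 : 1 ≤ 2 ^ j * z ^ j := by
        rw [← mul_pow]
        exact one_le_pow₀ (by linarith)
      have h10 : 0 ≤ z ^ e := by positivity
      calc z ^ e = z ^ e * 1 := (mul_one _).symm
        _ ≤ z ^ e * (2 ^ j * z ^ j) := mul_le_mul_of_nonneg_left h9 h10
        _ = _ := by ring
    have hwte : wt J G (fun C => z ^ (Multiset.card C))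
      (fun C => z ^ (Multiset.card C) * ((C.map (fun d => lam α d * (1 - z))).sum)) Kv
      (fun _ => 0) (fun _ _ _ r => gM M r) ψ =
      ∏ i, hval (offN G (img ψ) (f i)) (fun x => z ^ Multiset.card (degs G (br G (f i) x)))
      (fun x => Kv i * (z ^ Multiset.card (degs G (br G (f i) x)) *
        ((degs G (br G (f i) x)).map (fun d => lam α d * (1 - z))).sum)) (fun r => gM M r) 0 := by
      unfold wt
      refine Finset.prod_congr rfl fun i _ => ?_
      rw [hf i]
      rfl
    have hb := fun i => hub_bound α z M (Kv i) G (img ψ) (f i) hz.le hz1.le (hKv i)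
    rw [hwte]
    refine ⟨Finset.prod_nonneg fun i _ => (hb i).1, ?_⟩
    calc ∏ i, hval (offN G (img ψ) (f i)) (fun x => z ^ Multiset.card (degs G (br G (f i) x)))
          (fun x => Kv i * (z ^ Multiset.card (degs G (br G (f i) x)) *
          ((degs G (br G (f i) x)).map (fun d => lam α d * (1 - z))).sum)) (fun r => gM M r) 0
        ≤ ∏ i, z ^ (∑ b ∈ offN G (img ψ) (f i), (br G (f i) b).card) *
            Q α M (Kv i * (1 - z)) G (f i) :=
          Finset.prod_le_prod (fun i _ => (hb i).1) fun i _ => (hb i).2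
      _ = z ^ (∑ i, (∑ b ∈ offN G (img ψ) (f i), (br G (f i) b).card)) * ∏ i, q i (ψ i) := by
          rw [Finset.prod_mul_distrib, Finset.prod_pow_eq_pow_sum]
          congr 1
          refine Finset.prod_congr rfl fun i _ => ?_
          rw [hf i]
      _ ≤ 2 ^ j * z ^ n * ∏ i, q i (ψ i) :=
          mul_le_mul_of_nonneg_right hzz (Finset.prod_nonneg fun i _ => hq0 i _)
  have hfz0 : 0 ≤ fz α z J Kv (gM M) n G := by
    unfold fz
    exact Finset.sum_nonneg fun ψ hψ => (hwt ψ hψ).1
  -- the sum over all maps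
  set x : ℝ := (1 - z) * n with hx
  have hx0 : 0 ≤ x := by positivity
  have hQsum : ∀ i, ∑ h, Q α M (Kv i * (1 - z)) G h ≤
      (∑ m ∈ Finset.Icc 4 M, (2 * Kv i) ^ m) * (x ^ 4 * (1 + x) ^ M) := by
    intro i
    unfold Q
    rw [Finset.sum_comm, Finset.sum_mul]
    refine Finset.sum_le_sum fun m hm => ?_
    rw [Finset.mem_Icc] at hm
    rw [← Finset.mul_sum]
    have h9 := h1 α n m G hα0 hα1 hG (by omega)
    have hc : 0 ≤ Kv i * (1 - z) := mul_nonneg (hKv i) hθ.le
    calc (Kv i * (1 - z)) ^ m * ∑ h, ∑ S ∈ Finset.powersetCard m (offN G ∅ h),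
          ∏ b ∈ S, Rb α G h b
        ≤ (Kv i * (1 - z)) ^ m * totW α G ^ m := mul_le_mul_of_nonneg_left h9 (pow_nonneg hc _)
      _ ≤ (Kv i * (1 - z)) ^ m * (2 * n) ^ m := by gcongr
      _ = (2 * Kv i) ^ m * x ^ m := by rw [← mul_pow, ← mul_pow, hx]; congr 1; ring
      _ ≤ (2 * Kv i) ^ m * (x ^ 4 * (1 + x) ^ M) := by
          have hKi := hKv i
          apply mul_le_mul_of_nonneg_left _ (by positivity)
          obtain ⟨c, rfl⟩ := Nat.exists_eq_add_of_le hm.1
          rw [pow_add]
          apply mul_le_mul_of_nonneg_left _ (by positivity)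
          calc x ^ c ≤ (1 + x) ^ c := pow_le_pow_left₀ hx0 (by linarith) _
            _ ≤ (1 + x) ^ M := pow_le_pow_right₀ (by linarith) (by omega)
  have hfz : fz α z J Kv (gM M) n G ≤ 2 ^ j * z ^ n * (A * (x ^ (4 * j) * (1 + x) ^ (M * j))) := by
    calc fz α z J Kv (gM M) n G ≤ ∑ ψ ∈ TEs J G, 2 ^ j * z ^ n * ∏ i, q i (ψ i) := by
          unfold fz
          exact Finset.sum_le_sum fun ψ hψ => (hwt ψ hψ).2
      _ ≤ ∑ ψ : Fin j → Option (Fin n), 2 ^ j * z ^ n * ∏ i, q i (ψ i) := by
          apply Finset.sum_le_sum_of_subset_of_nonneg (Finset.subset_univ _)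
          intro ψ _ _
          have := Finset.prod_nonneg (s := Finset.univ) (f := fun i => q i (ψ i))
            fun i _ => hq0 i _
          positivity
      _ = 2 ^ j * z ^ n * ∏ i, ∑ h, Q α M (Kv i * (1 - z)) G h := by
          rw [← Finset.mul_sum]
          congr 1
          have := Finset.prod_univ_sum (fun _ : Fin j => (Finset.univ : Finset (Option (Fin n)))) q
          rw [Fintype.piFinset_univ] at this
          rw [← this]
          refine Finset.prod_congr rfl fun i _ => ?_
          rw [Fintype.sum_option]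
          simp only [hq, zero_add]
      _ ≤ 2 ^ j * z ^ n * ∏ i, ((∑ m ∈ Finset.Icc 4 M, (2 * Kv i) ^ m) *
            (x ^ 4 * (1 + x) ^ M)) := by
          apply mul_le_mul_of_nonneg_left _ (by positivity)
          apply Finset.prod_le_prod
          · intro i _
            exact Finset.sum_nonneg fun h _ => Q_nonneg _ _ (mul_nonneg (hKv i) hθ.le) _ _
          · intro i _
            exact hQsum i
      _ = _ := by
          rw [Finset.prod_mul_distrib, Finset.prod_const, Finset.card_univ, Fintype.card_fin,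
            mul_pow, ← pow_mul, ← pow_mul]
  have hzn : z ^ n ≤ Real.exp (-x) := by
    have h9 : z ≤ Real.exp (-(1 - z)) := by
      have := Real.add_one_le_exp (-(1 - z))
      linarith
    calc z ^ n ≤ (Real.exp (-(1 - z))) ^ n := pow_le_pow_left₀ hz.le h9 _
      _ = Real.exp (-x) := by rw [← Real.exp_nat_mul, hx]; congr 1; ring
  constructor
  · unfold fR
    exact div_nonneg hfz0 hW0.le
  · unfold fR
    have h10 : x ^ (4 * j) ≤ n * ((1 - z) * (1 + x) ^ (4 * j)) := by
      obtain ⟨c, hc⟩ : ∃ c, 4 * j = c + 1 := ⟨4 * j - 1, by omega⟩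
      rw [hc, pow_succ]
      calc x ^ c * x = n * ((1 - z) * x ^ c) := by rw [hx]; ring
        _ ≤ n * ((1 - z) * (1 + x) ^ (c + 1)) := by
          have : x ^ c ≤ (1 + x) ^ (c + 1) :=
            (pow_le_pow_left₀ hx0 (by linarith) _).trans
              (pow_le_pow_right₀ (by linarith) (by omega))
          gcongr
    have h11 : (1 + x) ^ p ≤ 2 ^ p * (p.factorial : ℝ) * Real.exp (1 / 2) * Real.exp (x / 2) := by
      have h12 := Real.pow_div_factorial_le_exp ((1 + x) / 2) (by positivity) p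
      have h13 : (0 : ℝ) < p.factorial := by exact_mod_cast p.factorial_pos
      rw [div_le_iff₀ h13] at h12
      have h14 : (1 + x) ^ p = 2 ^ p * ((1 + x) / 2) ^ p := by
        rw [← mul_pow]; congr 1; ring
      rw [h14]
      calc 2 ^ p * ((1 + x) / 2) ^ p ≤ 2 ^ p * (Real.exp ((1 + x) / 2) * (p.factorial : ℝ)) := by
            gcongr
        _ = _ := by
          rw [show (1 + x) / 2 = 1 / 2 + x / 2 by ring, Real.exp_add]; ring
    rw [div_le_iff₀ hW0]
    calc fz α z J Kv (gM M) n G ≤ 2 ^ j * z ^ n * (A * (x ^ (4 * j) * (1 + x) ^ (M * j))) := hfz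
      _ ≤ 2 ^ j * Real.exp (-x) * (A * ((n * ((1 - z) * (1 + x) ^ (4 * j))) *
            (1 + x) ^ (M * j))) := by gcongr
      _ = 2 ^ j * A * ((1 - z) * (Real.exp (-x) * (1 + x) ^ p)) * n := by
          rw [hp, pow_add]; ring
      _ ≤ 2 ^ j * A * ((1 - z) * (Real.exp (-x) * (2 ^ p * (p.factorial : ℝ) *
            Real.exp (1 / 2) * Real.exp (x / 2)))) * n := by gcongr
      _ = 2 ^ j * A * (2 ^ p * (p.factorial : ℝ) * Real.exp (1 / 2)) *
            ((1 - z) * Real.exp (-(x / 2))) * n := by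
          have : Real.exp (-x) * Real.exp (x / 2) = Real.exp (-(x / 2)) := by
            rw [← Real.exp_add]; congr 1; ring
          rw [← this]; ring
      _ ≤ 2 ^ j * A * (2 ^ p * (p.factorial : ℝ) * Real.exp (1 / 2)) *
            ((1 - z) * Real.exp (-(x / 2))) * totW α G := by gcongr
      _ = _ := by rw [hx]

end Pool.Agent.TH611.J2300
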