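import Pool.Agent.TH981.SD.Stm

set_option autoImplicit false

open Pool.Agent.TH981.SD
open Finset Set Filter
open scoped BigOperators Topology Classical

namespace Pool.Agent.TH611.J2303

/-- the model: the pattern with `m i` leaves attached to `i` -/
def Kg {j : ℕ} (J : SimpleGraph (Fin j)) (m : Fin j → ℕ) :
    SimpleGraph (Fin j ⊕ (Σ i : Fin j, Fin (m i))) where
  Adj x y := Sum.elim (fun i => Sum.elim (fun i' => J.Adj i i') (fun p => i = p.1) y)
    (fun p => Sum.elim (fun i' => i' = p.1) (fun _ => False) y) x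
  symm := ⟨by
    rintro (i | p) (i' | p') h
    · exact SimpleGraph.Adj.symm (G := J) h
    · exact h
    · exact h
    · exact h⟩
  loopless := ⟨by
    rintro (i | p) h
    · exact J.loopless.irrefl i h
    · exact h⟩

theorem uniq {n : ℕ} {G : SimpleGraph (Fin n)} {b x y : Fin n} (h : dg G b = 1)
    (hx : G.Adj b x) (hy : G.Adj b y) : x = y := by
  unfold dg at h
  obtain ⟨a, ha⟩ := Finset.card_eq_one.1 h
  have h1 : x ∈ Finset.univ.filter (fun w => G.Adj b w) := by
    rw [Finset.mem_filter]; exact ⟨Finset.mem_univ _, hx⟩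
  have h2 : y ∈ Finset.univ.filter (fun w => G.Adj b w) := by
    rw [Finset.mem_filter]; exact ⟨Finset.mem_univ _, hy⟩
  rw [ha, Finset.mem_singleton] at h1 h2
  rw [h1, h2]

theorem exists_nbr {n : ℕ} {G : SimpleGraph (Fin n)} {b : Fin n} (h : dg G b = 1) :
    ∃ x, G.Adj b x := by
  unfold dg at h
  obtain ⟨a, ha⟩ := Finset.card_eq_one.1 h
  have h1 : a ∈ Finset.univ.filter (fun w => G.Adj b w) := by rw [ha]; simp
  rw [Finset.mem_filter] at h1
  exact ⟨a, h1.2⟩

/-- two adjacent vertices of degree one in a connected graph with at least three vertices -/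
theorem no_two {n : ℕ} {G : SimpleGraph (Fin n)} (hn : 3 ≤ n) (hG : G.Connected) {v p : Fin n}
    (hv : dg G v = 1) (hp : dg G p = 1) (h : G.Adj v p) : False := by
  have hclosed : ∀ x y, G.Adj x y → (x = v ∨ x = p) → (y = v ∨ y = p) := by
    rintro x y hxy (rfl | rfl)
    · right; exact uniq hv hxy h
    · left; exact uniq hp hxy h.symm
  have hwalk : ∀ x y (w : G.Walk x y), (x = v ∨ x = p) → (y = v ∨ y = p) := by
    intro x y w
    induction w with
    | nil => exact id
    | cons hxy _ ih => intro hx; exact ih (hclosed _ _ hxy hx)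
  have hall : ∀ y, y = v ∨ y = p := by
    intro y
    obtain ⟨w⟩ := hG.preconnected v y
    exact hwalk v y w (Or.inl rfl)
  have h1 : (Finset.univ : Finset (Fin n)) ⊆ {v, p} := by
    intro y _
    rcases hall y with rfl | rfl <;> simp
  have h2 := Finset.card_le_card h1
  rw [Finset.card_univ, Fintype.card_fin] at h2
  have h3 : ({v, p} : Finset (Fin n)).card ≤ 2 := Finset.card_le_two
  omega

theorem model (h1 : S_CNT) (h2 : S_IMG) {j N : ℕ} {J : SimpleGraph (Fin j)}
    {G : SimpleGraph (Fin N)} {ψ : Fin j → Option (Fin N)} (hj : 1 ≤ j) (hN : 3 ≤ N)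
    (hJ : J.IsTree) (hG : G.IsTree) (hψ : FullT J G ψ) :
    Nonempty (Kg J (fun i => dv G ψ i - dg J i) ≃g G) := by
  obtain ⟨hTE, hfull⟩ := id hψ
  unfold TEs at hTE
  rw [Finset.mem_filter] at hTE
  obtain ⟨-, hPE, hsome⟩ := hTE
  have hex : ∀ i, ∃ v, ψ i = some v := fun i => Option.ne_none_iff_exists'.1 (hsome i)
  choose f hf using hex
  have hfinj : Function.Injective f := by
    intro i i' h
    exact hPE.inj i i' (f i) (hf i) (by rw [hf i', h])
  have himg : ∀ v, v ∈ img ψ ↔ ∃ i, f i = v := by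
    intro v
    unfold img
    rw [Finset.mem_filter]
    constructor
    · rintro ⟨-, i, hi⟩
      rw [hf i] at hi
      exact ⟨i, Option.some.inj hi⟩
    · rintro ⟨i, rfl⟩
      exact ⟨Finset.mem_univ _, i, hf i⟩
  obtain ⟨-, hadj, -⟩ := h2 j N J G ψ hJ hG hPE
  obtain ⟨c1, c2, -⟩ := h1 j N J G hj (by omega) hJ hG
  obtain ⟨c1a, -⟩ := c1 ψ (by unfold PEs; rw [Finset.mem_filter]; exact ⟨Finset.mem_univ _, hPE⟩)
  have hmiss : ∀ i, miss J ψ i = 0 := by
    intro i
    unfold miss
    rw [Finset.card_eq_zero, Finset.filter_eq_empty_iff]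
    rintro l - ⟨-, h⟩
    exact hsome l h
  have hcard : ∀ i, (offN G (img ψ) (f i)).card = dv G ψ i - dg J i := by
    intro i
    have h3 := c1a i (f i) (hf i)
    rw [hmiss i] at h3
    have h4 : dv G ψ i = dg G (f i) := by unfold dv; rw [hf i]
    rw [h4]
    omega
  -- the leaves
  have hmem : ∀ i b, b ∈ offN G (img ψ) (f i) ↔ G.Adj (f i) b ∧ b ∉ img ψ := by
    intro i b
    unfold offN
    rw [Finset.mem_filter]
    simp
  set E : ∀ i : Fin j, Fin (dv G ψ i - dg J i) ≃ {x // x ∈ offN G (img ψ) (f i)} :=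
    fun i => (Finset.equivFinOfCardEq (hcard i)).symm with hE
  set φ : Fin j ⊕ (Σ i : Fin j, Fin (dv G ψ i - dg J i)) → Fin N :=
    Sum.elim f (fun p => ((E p.1 p.2 : {x // x ∈ offN G (img ψ) (f p.1)}) : Fin N)) with hφ
  have hleaf : ∀ p : (Σ i : Fin j, Fin (dv G ψ i - dg J i)), G.Adj (f p.1) (φ (.inr p)) ∧
      φ (.inr p) ∉ img ψ := by
    intro p
    have := (E p.1 p.2).2
    rw [hmem] at this
    exact this
  have hdeg : ∀ p : (Σ i : Fin j, Fin (dv G ψ i - dg J i)), dg G (φ (.inr p)) = 1 :=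
    fun p => hfull _ (hleaf p).2
  have hφinj : Function.Injective φ := by
    rintro (i | ⟨i, a⟩) (i' | ⟨i', a'⟩) h
    · exact congrArg Sum.inl (hfinj h)
    · exact absurd ((himg _).2 ⟨i, h⟩) (hleaf ⟨i', a'⟩).2
    · exact absurd ((himg _).2 ⟨i', h.symm⟩) (hleaf ⟨i, a⟩).2
    · have e1 : i = i' := by
        apply hfinj
        apply uniq (hdeg ⟨i, a⟩) (hleaf ⟨i, a⟩).1.symm
        rw [h]
        exact (hleaf ⟨i', a'⟩).1.symm
      subst e1
      have e2 : a = a' := by
        apply (E i).injective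
        exact Subtype.ext h
      rw [e2]
  have hφsurj : Function.Surjective φ := by
    intro v
    by_cases hv : v ∈ img ψ
    · obtain ⟨i, hi⟩ := (himg v).1 hv
      exact ⟨.inl i, hi⟩
    · obtain ⟨x, hx⟩ := exists_nbr (hfull v hv)
      have hx2 : x ∈ img ψ := by
        by_contra hcon
        exact no_two hN hG.connected (hfull v hv) (hfull x hcon) hx
      obtain ⟨i, rfl⟩ := (himg x).1 hx2
      have h3 : v ∈ offN G (img ψ) (f i) := (hmem i v).2 ⟨hx.symm, hv⟩
      refine ⟨.inr ⟨i, (E i).symm ⟨v, h3⟩⟩, ?_⟩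
      show ((E i ((E i).symm ⟨v, h3⟩) : {x // x ∈ offN G (img ψ) (f i)}) : Fin N) = v
      rw [Equiv.apply_symm_apply]
  refine ⟨⟨Equiv.ofBijective φ ⟨hφinj, hφsurj⟩, ?_⟩⟩
  intro x y
  show G.Adj (φ x) (φ y) ↔ (Kg J (fun i => dv G ψ i - dg J i)).Adj x y
  rcases x with i | p <;> rcases y with i' | p'
  · exact hadj i i' (f i) (f i') (hf i) (hf i')
  · constructor
    · intro h
      show i = p'.1
      apply hfinj
      exact uniq (hdeg p') h.symm (hleaf p').1.symm
    · intro h
      have h' : i = p'.1 := h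
      rw [h']
      exact (hleaf p').1
  · constructor
    · intro h
      show i' = p.1
      apply hfinj
      exact uniq (hdeg p) h (hleaf p).1.symm
    · intro h
      have h' : i' = p.1 := h
      rw [h']
      exact (hleaf p).1.symm
  · constructor
    · intro h
      have h3 : φ (.inr p') = f p.1 := uniq (hdeg p) h (hleaf p).1.symm
      exact absurd ((himg _).2 ⟨p.1, h3.symm⟩) (hleaf p').2
    · intro h
      exact absurd h id

theorem iso_ (h1 : S_CNT) (h2 : S_IMG) : S_ISO := by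
  intro j N J G H ψ ψ' hj hN hJ hG hH hψ hψ' hdv
  obtain ⟨e1⟩ := model h1 h2 hj hN hJ hG hψ
  obtain ⟨e2⟩ := model h1 h2 hj hN hJ hH hψ'
  rw [hdv] at e1
  exact ⟨e2.comp e1.symm⟩

end Pool.Agent.TH611.J2303
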