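import Pool.Agent.TH981.SD.Stm

set_option autoImplicit false

open Pool.Agent.TH981.SD
open Finset Set Filter
open scoped BigOperators Topology Classical

namespace Pool.Agent.TH611.J2304

theorem mem_img {j n : ℕ} {ψ : Fin j → Option (Fin n)} {v : Fin n} :
    v ∈ img ψ ↔ ∃ i, ψ i = some v := by
  unfold img
  rw [Finset.mem_filter]
  simp

theorem mem_offN {n : ℕ} {G : SimpleGraph (Fin n)} {I : Finset (Fin n)} {h b : Fin n} :
    b ∈ offN G I h ↔ G.Adj h b ∧ b ∉ I := by
  unfold offN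
  rw [Finset.mem_filter]
  simp

theorem mem_br {n : ℕ} {G : SimpleGraph (Fin n)} {h b v : Fin n} :
    v ∈ br G h b ↔ G.dist v b < G.dist v h := by
  unfold br
  rw [Finset.mem_filter]
  simp

/-- in a tree a neighbour `c ≠ h` of `b` lies in the branch at `b` seen from `h` -/
theorem nbr_mem_br {n : ℕ} {G : SimpleGraph (Fin n)} (hG : G.IsTree) {h b c : Fin n}
    (hhb : G.Adj h b) (hbc : G.Adj b c) (hc : c ≠ h) : c ∈ br G h b := by
  rw [mem_br]
  have h1 : G.dist c b = 1 := SimpleGraph.dist_eq_one_iff_adj.2 hbc.symm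
  have h2 : G.dist c h ≠ G.dist c b := hG.dist_ne_of_adj c hhb
  have h3 : G.dist c h ≠ 0 := by
    intro h0
    exact hc ((hG.connected.dist_eq_zero_iff).1 h0)
  omega

theorem self_mem_br {n : ℕ} {G : SimpleGraph (Fin n)} {h b : Fin n}
    (hhb : G.Adj h b) : b ∈ br G h b := by
  rw [mem_br]
  have h1 : G.dist b h = 1 := SimpleGraph.dist_eq_one_iff_adj.2 hhb.symm
  rw [SimpleGraph.dist_self, h1]
  norm_num

theorem outside {j N : ℕ} {J : SimpleGraph (Fin j)} {G : SimpleGraph (Fin N)}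
    {ψ : Fin j → Option (Fin N)} (hG : G.IsTree) (hψ : PE J G ψ) (he : eTot G ψ = 0) :
    ∀ v, v ∉ img ψ → dg G v = 1 := by
  have hb : ∀ i h b, ψ i = some h → b ∈ offN G (img ψ) h → ∀ c, G.Adj b c → c = h := by
    intro i h b hi hb c hbc
    by_contra hne
    unfold eTot at he
    rw [Finset.sum_eq_zero_iff] at he
    have h1 := he i (Finset.mem_univ i)
    rw [hi] at h1
    simp only at h1
    rw [Finset.sum_eq_zero_iff] at h1
    have h2 := h1 b hb
    have h3 := nbr_mem_br hG (mem_offN.1 hb).1 hbc hne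
    have h4 := self_mem_br (mem_offN.1 hb).1
    have h5 : ({b, c} : Finset (Fin N)) ⊆ br G h b := by
      intro x hx
      rw [Finset.mem_insert, Finset.mem_singleton] at hx
      rcases hx with rfl | rfl
      · exact h4
      · exact h3
    have h6 := Finset.card_le_card h5
    rw [Finset.card_pair hbc.ne] at h6
    omega
  -- the image and the attached leaves are everything
  obtain ⟨⟨i0, hi0⟩⟩ := hψ.conn.nonempty
  obtain ⟨h0, hh0⟩ := Option.ne_none_iff_exists'.1 hi0
  have hclosed : ∀ x y, G.Adj x y → (x ∈ img ψ ∨ ∃ i h, ψ i = some h ∧ x ∈ offN G (img ψ) h) →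
      (y ∈ img ψ ∨ ∃ i h, ψ i = some h ∧ y ∈ offN G (img ψ) h) := by
    rintro x y hxy (hx | ⟨i, h, hi, hx⟩)
    · by_cases hy : y ∈ img ψ
      · exact Or.inl hy
      · obtain ⟨i, hi⟩ := mem_img.1 hx
        exact Or.inr ⟨i, x, hi, mem_offN.2 ⟨hxy, hy⟩⟩
    · left
      rw [hb i h x hi hx y hxy]
      exact mem_img.2 ⟨i, hi⟩
  have hwalk : ∀ x y (w : G.Walk x y),
      (x ∈ img ψ ∨ ∃ i h, ψ i = some h ∧ x ∈ offN G (img ψ) h) →
      (y ∈ img ψ ∨ ∃ i h, ψ i = some h ∧ y ∈ offN G (img ψ) h) := by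
    intro x y w
    induction w with
    | nil => exact id
    | cons hxy _ ih => intro hx; exact ih (hclosed _ _ hxy hx)
  intro v hv
  obtain ⟨w⟩ := hG.connected.preconnected h0 v
  rcases hwalk h0 v w (Or.inl (mem_img.2 ⟨i0, hh0⟩)) with h | ⟨i, h, hi, hvh⟩
  · exact absurd h hv
  · unfold dg
    rw [Finset.card_eq_one]
    refine ⟨h, ?_⟩
    ext c
    rw [Finset.mem_filter, Finset.mem_singleton]
    constructor
    · rintro ⟨-, hc⟩
      exact hb i h v hi hvh c hc
    · rintro rfl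
      exact ⟨Finset.mem_univ _, (mem_offN.1 hvh).1.symm⟩

/-- the property minimised -/
def P (N : ℕ) (𝒢 : Set (SimpleGraph (Fin N))) (j : ℕ) : Prop :=
  1 ≤ j ∧ ∃ (J : SimpleGraph (Fin j)) (G : SimpleGraph (Fin N)) (ψ : Fin j → Option (Fin N)),
    J.IsTree ∧ G ∈ 𝒢 ∧ FullT J G ψ

theorem restrict {j N : ℕ} {𝒢 : Set (SimpleGraph (Fin N))} {J : SimpleGraph (Fin j)}
    {G : SimpleGraph (Fin N)} {ψ : Fin j → Option (Fin N)} (hJ : J.IsTree) (hG : G ∈ 𝒢)
    (hψ : PE J G ψ) (ho : ∀ v, v ∉ img ψ → dg G v = 1) : P N 𝒢 (dom ψ).card := by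
  have hcard : Fintype.card {i // i ∈ {i | ψ i ≠ none}} = (dom ψ).card := by
    unfold dom
    rw [Fintype.card_subtype]
    rfl
  set e : Fin (dom ψ).card ≃ {i // i ∈ {i | ψ i ≠ none}} :=
    (Fintype.equivFinOfCardEq hcard).symm with he
  set J' : SimpleGraph (Fin (dom ψ).card) := (J.induce {i | ψ i ≠ none}).comap e with hJ'
  have iso : J' ≃g J.induce {i | ψ i ≠ none} := ⟨e, Iff.rfl⟩
  have hJ'c : J'.Connected := iso.connected_iff.2 hψ.conn
  have hJ't : J'.IsTree := iso.isTree_iff.2 ⟨hψ.conn, hJ.isAcyclic.induce _⟩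
  have hsome : ∀ a, ψ (e a) ≠ none := fun a => (e a).2
  have himg : img (fun a => ψ (e a)) = img ψ := by
    ext v
    rw [mem_img, mem_img]
    constructor
    · rintro ⟨a, ha⟩
      exact ⟨_, ha⟩
    · rintro ⟨i, hi⟩
      have h1 : i ∈ {i | ψ i ≠ none} := by
        show ψ i ≠ none
        rw [hi]; simp
      refine ⟨e.symm ⟨i, h1⟩, ?_⟩
      rw [Equiv.apply_symm_apply]
      exact hi
  have hcpos : 1 ≤ (dom ψ).card := by
    obtain ⟨⟨i0, hi0⟩⟩ := hψ.conn.nonempty
    rw [Nat.one_le_iff_ne_zero, Ne, Finset.card_eq_zero]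
    intro h
    have : i0 ∈ dom ψ := by
      unfold dom
      rw [Finset.mem_filter]
      exact ⟨Finset.mem_univ _, hi0⟩
    rw [h] at this
    simp at this
  refine ⟨hcpos, J', G, fun a => ψ (e a), hJ't, hG, ?_, ?_⟩
  · unfold TEs
    rw [Finset.mem_filter]
    refine ⟨Finset.mem_univ _, ⟨?_, ?_, ?_⟩, hsome⟩
    · intro a a' v h h'
      exact e.injective (Subtype.ext (hψ.inj _ _ v h h'))
    · intro a a' v v' h h1 h2
      exact hψ.hom _ _ v v' h h1 h2
    · have : {a | (fun a => ψ (e a)) a ≠ none} = Set.univ := by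
        ext a
        simp only [Set.mem_univ, iff_true]
        exact hsome a
      rw [this]
      exact (SimpleGraph.induceUnivIso J').connected_iff.2 hJ'c
  · intro v hv
    apply ho
    rwa [himg] at hv

theorem P_self {N : ℕ} {𝒢 : Set (SimpleGraph (Fin N))} (hN : 3 ≤ N) {G : SimpleGraph (Fin N)}
    (hG : G ∈ 𝒢) (hT : G.IsTree) : P N 𝒢 N := by
  refine ⟨by omega, G, G, some, hT, hG, ?_, ?_⟩
  · unfold TEs
    rw [Finset.mem_filter]
    refine ⟨Finset.mem_univ _, ⟨?_, ?_, ?_⟩, by simp⟩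
    · intro a a' v h h'
      rw [Option.some.inj h, Option.some.inj h']
    · intro a a' v v' h h1 h2
      rw [← Option.some.inj h1, ← Option.some.inj h2]
      exact h
    · have : {a : Fin N | (some a : Option (Fin N)) ≠ none} = Set.univ := by
        ext a
        simp
      rw [this]
      exact (SimpleGraph.induceUnivIso G).connected_iff.2 hT.connected
  · intro v hv
    exact absurd (mem_img.2 ⟨v, rfl⟩) hv

/-- kill the coordinate `0` -/
def cut {j : ℕ} (d : Fin j → ℕ) : Lex (Fin j → ℕ) := toLex fun i => if i.val = 0 then 0 else d i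

theorem sel (h1 : S_CNT) (h2 : S_IMG) (h3 : S_ISO) : S_SEL := by
  intro N 𝒢 hN hne htree hiso
  obtain ⟨G₁, hG₁⟩ := hne
  have hex : ∃ j, P N 𝒢 j := ⟨N, P_self hN hG₁ (htree G₁ hG₁)⟩
  set j := Nat.find hex with hj
  obtain ⟨hj1, J, G₀, ψ₀, hJ, hG₀, hψ₀⟩ := Nat.find_spec hex
  have hjN : j ≤ N := Nat.find_min' hex (P_self hN hG₁ (htree G₁ hG₁))
  -- lexicographic minimum
  set D : Set (Lex (Fin j → ℕ)) := {x | ∃ G ∈ 𝒢, ∃ ψ, FullT J G ψ ∧ x = cut (dv G ψ)} with hD
  have hDne : D.Nonempty := ⟨_, G₀, hG₀, ψ₀, hψ₀, rfl⟩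
  obtain ⟨x, hx, hmin⟩ := (wellFounded_lt (α := Lex (Fin j → ℕ))).has_min D hDne
  obtain ⟨Hs, hHs, ψs, hψs, hxs⟩ := hx
  refine ⟨j, J, Hs, ψs, hj1, hjN, hJ, hHs, hψs, ?_⟩
  intro G hG hnot ψ hψ
  by_cases he : eTot G ψ = 0
  swap
  · left; omega
  right
  unfold PEs at hψ
  rw [Finset.mem_filter] at hψ
  have hPE := hψ.2
  have ho := outside (htree G hG) hPE he
  have hjle : j ≤ (dom ψ).card := Nat.find_min' hex (restrict hJ hG hPE ho)
  have hdom : dom ψ = Finset.univ := by
    apply Finset.eq_univ_of_card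
    rw [Fintype.card_fin]
    apply le_antisymm _ hjle
    calc (dom ψ).card ≤ (Finset.univ : Finset (Fin j)).card := Finset.card_le_card (by simp)
      _ = j := by simp
  have hfull : ∀ i, ψ i ≠ none := by
    intro i
    have : i ∈ dom ψ := by rw [hdom]; simp
    unfold dom at this
    rw [Finset.mem_filter] at this
    exact this.2
  have hF : FullT J G ψ := by
    refine ⟨?_, ho⟩
    unfold TEs
    rw [Finset.mem_filter]
    exact ⟨Finset.mem_univ _, hPE, hfull⟩
  refine ⟨hF, ?_⟩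
  have hdne : dv G ψ ≠ dv Hs ψs := by
    intro h
    exact hnot (h3 j N J G Hs ψ ψs hj1 hN hJ (htree G hG) (htree Hs hHs) hF hψs h)
  have hA := ((h1 j N J G hj1 (by omega) hJ (htree G hG)).2.1 ψ hF).1
  have hAs := ((h1 j N J Hs hj1 (by omega) hJ (htree Hs hHs)).2.1 ψs hψs).1
  have hnlt : ¬ cut (dv G ψ) < cut (dv Hs ψs) := by
    have := hmin (cut (dv G ψ)) ⟨G, hG, ψ, hF, rfl⟩
    rwa [hxs] at this
  rcases (not_lt.1 hnlt).lt_or_eq with hlt | heq
  · -- the first difference
    obtain ⟨i, hi1, hi2⟩ := hlt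
    have e1 : ∀ (d : Fin j → ℕ) (i : Fin j), (cut d) i = if i.val = 0 then 0 else d i :=
      fun d i => rfl
    have hi0 : 1 ≤ i.val := by
      by_contra hcon
      have h0 : i.val = 0 := by omega
      have h5 := hi2
      simp only [e1, h0, if_true] at h5
      exact lt_irrefl _ h5
    refine ⟨i, hi0, ?_, ?_⟩
    · have h5 := hi2
      simp only [e1] at h5
      rw [if_neg (by omega), if_neg (by omega)] at h5
      exact h5
    · intro i' hi' hlt'
      have h5 := hi1 i' hlt'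
      simp only [e1] at h5
      rw [if_neg (by omega), if_neg (by omega)] at h5
      exact h5.symm
  · exfalso
    apply hdne
    have e2 : ∀ i : Fin j, 1 ≤ i.val → dv G ψ i = dv Hs ψs i := by
      intro i hi
      have h5 : (cut (dv Hs ψs)) i = (cut (dv G ψ)) i := by rw [heq]
      have e1 : ∀ (d : Fin j → ℕ) (i : Fin j), (cut d) i = if i.val = 0 then 0 else d i :=
        fun d i => rfl
      simp only [e1] at h5
      rw [if_neg (by omega), if_neg (by omega)] at h5
      exact h5.symm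
    have i0 : Fin j := ⟨0, by omega⟩
    have hs1 := hA.2
    have hs2 := hAs.2
    funext i
    by_cases hi : 1 ≤ i.val
    · exact e2 i hi
    · have h6 : ∑ i', ((dv G ψ i' : ℤ) - (dv Hs ψs i' : ℤ)) = (dv G ψ i : ℤ) - (dv Hs ψs i : ℤ) := by
        apply Finset.sum_eq_single i
        · intro i' _ hi'
          rw [e2 i', sub_self]
          by_contra hcon
          apply hi'
          apply Fin.ext
          omega
        · intro h
          exact absurd (Finset.mem_univ i) h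
      rw [Finset.sum_sub_distrib] at h6
      have h8 : ∑ i', dv G ψ i' = ∑ i', dv Hs ψs i' :=
        Nat.add_right_cancel (hs1.trans hs2.symm)
      have h7 : ((∑ i', dv G ψ i' : ℕ) : ℤ) = ((∑ i', dv Hs ψs i' : ℕ) : ℤ) := by
        rw [h8]
      rw [Nat.cast_sum, Nat.cast_sum] at h7
      rw [h7, sub_self] at h6
      have h9 : (dv G ψ i : ℤ) = (dv Hs ψs i : ℤ) := by linarith
      exact_mod_cast h9

end Pool.Agent.TH611.J2304
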