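import Pool.Agent.TH981.SD.Stm

set_option autoImplicit false

open Pool.Agent.TH981.SD
open Finset Set Filter
open scoped BigOperators Topology Classical

namespace Pool.Agent.TH611.J2307

/-- the indicator family of a family of sets of graphs -/
noncomputable def ind (A : (m : ℕ) → Set (SimpleGraph (Fin m))) (n : ℕ) (G : SimpleGraph (Fin n)) :
    ℝ := if G ∈ A n then 1 else 0

/-- invariant families -/
def Inv (A : (m : ℕ) → Set (SimpleGraph (Fin m))) : Prop :=
  ∀ m (G H : SimpleGraph (Fin m)), Nonempty (G ≃g H) → (G ∈ A m ↔ H ∈ A m)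

theorem ind_isoInv {A : (m : ℕ) → Set (SimpleGraph (Fin m))} (hA : Inv A) : IsoInv (ind A) := by
  intro n G H h
  unfold ind
  rw [hA n G H h]

theorem ind_nonneg (A : (m : ℕ) → Set (SimpleGraph (Fin m))) (n : ℕ) (G : SimpleGraph (Fin n)) :
    0 ≤ ind A n G := by unfold ind; split_ifs <;> norm_num

theorem ind_le (A : (m : ℕ) → Set (SimpleGraph (Fin m))) (n : ℕ) (G : SimpleGraph (Fin n)) :
    ind A n G ≤ 1 := by unfold ind; split_ifs <;> norm_num

section
variable {α : ℝ} (h0 : 0 < α) (h1 : α < 1) (hPE : S_PE) (hLAW : S_LAW)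
include h0 h1 hPE

theorem pexp_range {f : (n : ℕ) → SimpleGraph (Fin n) → ℝ} {B : ℝ} {k m : ℕ}
    {S : SimpleGraph (Fin k)} (hk : 2 ≤ k) (hS : S.IsTree)
    (hf : ∀ n' (G' : SimpleGraph (Fin n')), G'.IsTree → n' = k + m → 0 ≤ f n' G' ∧ f n' G' ≤ B) :
    0 ≤ pexp α f m k S ∧ pexp α f m k S ≤ B := by
  obtain ⟨-, p2, p3, -, -⟩ := hPE α h0 h1
  constructor
  · have := p2 (fun _ _ => (0 : ℝ)) f m k S hS hk (fun n' G' h _ h' => (hf n' G' h h').1)
    rwa [p3 0 m k S hS hk] at this
  · have := p2 f (fun _ _ => B) m k S hS hk (fun n' G' h _ h' => (hf n' G' h h').2)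
    rwa [p3 B m k S hS hk] at this

theorem pexp_congr {f g : (n : ℕ) → SimpleGraph (Fin n) → ℝ} {k m : ℕ}
    {S : SimpleGraph (Fin k)} (hk : 2 ≤ k) (hS : S.IsTree)
    (hf : ∀ n' (G' : SimpleGraph (Fin n')), G'.IsTree → n' = k + m → f n' G' = g n' G') :
    pexp α f m k S = pexp α g m k S := by
  obtain ⟨-, p2, -, -, -⟩ := hPE α h0 h1
  apply le_antisymm
  · exact p2 f g m k S hS hk (fun n' G' h _ h' => (hf n' G' h h').le)
  · exact p2 g f m k S hS hk (fun n' G' h _ h' => (hf n' G' h h').ge)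

end

/-- the set in the definition of `dTV` -/
theorem dTV_eq (hLAW : S_LAW) (α : ℝ) {k l : ℕ} (S : SimpleGraph (Fin k))
    (T : SimpleGraph (Fin l)) (n : ℕ) :
    dTV α S T n = sSup {x : ℝ | ∃ A, Inv A ∧
      x = |pexp α (ind A) (n - k) k S - pexp α (ind A) (n - l) l T|} := by
  unfold dTV
  congr 1
  ext x
  constructor
  · rintro ⟨A, hA, hx⟩
    refine ⟨A, hA, ?_⟩
    rw [hx, ← hLAW, ← hLAW]
    simp only [ind, mul_ite, mul_one, mul_zero]
  · rintro ⟨A, hA, hx⟩
    refine ⟨A, hA, ?_⟩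
    rw [hx, ← hLAW, ← hLAW]
    simp only [ind, mul_ite, mul_one, mul_zero]

theorem layer {c B : ℝ} (h0 : 0 ≤ c) (h1 : c ≤ B) :
    ∫ t in (0 : ℝ)..B, (if t < c then (1 : ℝ) else 0) = c := by
  have e1 : ∫ t in (0 : ℝ)..B, (if t < c then (1 : ℝ) else 0) =
      (∫ t in (0 : ℝ)..c, (if t < c then (1 : ℝ) else 0)) +
        ∫ t in c..B, (if t < c then (1 : ℝ) else 0) := by
    rw [intervalIntegral.integral_add_adjacent_intervals]
    all_goals
      apply Antitone.intervalIntegrable
      intro x y hxy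
      simp only
      split_ifs <;> first | linarith | norm_num
  have e2 : ∫ t in c..B, (if t < c then (1 : ℝ) else 0) = 0 := by
    rw [intervalIntegral.integral_congr (g := fun _ => (0 : ℝ))]
    · simp
    · intro t ht
      rw [Set.uIcc_of_le h1] at ht
      simp only
      rw [if_neg (not_lt.2 ht.1)]
  have e3 : ∫ t in (0 : ℝ)..c, (if t < c then (1 : ℝ) else 0) = c := by
    have : ∫ t in (0 : ℝ)..c, (if t < c then (1 : ℝ) else 0) = ∫ t in (0 : ℝ)..c, (1 : ℝ) := by
      rw [intervalIntegral.integral_of_le h0, intervalIntegral.integral_of_le h0,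
        MeasureTheory.integral_Ioc_eq_integral_Ioo, MeasureTheory.integral_Ioc_eq_integral_Ioo]
      apply MeasureTheory.setIntegral_congr_fun measurableSet_Ioo
      intro t ht
      simp only
      rw [if_pos ht.2]
    rw [this]; simp
  rw [e1, e2, e3, add_zero]

theorem int_ite (c B : ℝ) :
    IntervalIntegrable (fun t : ℝ => if t < c then (1 : ℝ) else 0) MeasureTheory.volume 0 B := by
  apply Antitone.intervalIntegrable
  intro x y hxy
  simp only
  split_ifs <;> first | linarith | norm_num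

/-- layer-cake for the expectation -/
theorem pexp_layer (hLAW : S_LAW) (α : ℝ) {k m : ℕ} (S : SimpleGraph (Fin k))
    (f : (n : ℕ) → SimpleGraph (Fin n) → ℝ) {B : ℝ} (hf : ∀ n G, 0 ≤ f n G ∧ f n G ≤ B) :
    IntervalIntegrable (fun t : ℝ => pexp α (ind fun n => {G | t < f n G}) m k S)
      MeasureTheory.volume 0 B ∧
    pexp α f m k S = ∫ t in (0 : ℝ)..B, pexp α (ind fun n => {G | t < f n G}) m k S := by
  have e : ∀ t : ℝ, pexp α (ind fun n => {G | t < f n G}) m k S =
      ∑ G, law α S m G * (if t < f (k + m) G then (1 : ℝ) else 0) := by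
    intro t
    rw [← hLAW]
    rfl
  have hi : ∀ G : SimpleGraph (Fin (k + m)), IntervalIntegrable (fun t : ℝ => law α S m G *
      (if t < f (k + m) G then (1 : ℝ) else 0)) MeasureTheory.volume 0 B :=
    fun G => (int_ite _ _).const_mul _
  constructor
  · simp only [e]
    have := IntervalIntegrable.sum (Finset.univ : Finset (SimpleGraph (Fin (k + m))))
      (f := fun G t => law α S m G * (if t < f (k + m) G then (1 : ℝ) else 0))
      (fun G _ => hi G)
    have e5 : (fun t : ℝ => ∑ G, law α S m G * (if t < f (k + m) G then (1 : ℝ) else 0)) =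
        ∑ G : SimpleGraph (Fin (k + m)),
          fun t : ℝ => law α S m G * (if t < f (k + m) G then (1 : ℝ) else 0) := by
      funext t
      simp
    rw [e5]
    exact this
  · simp only [e]
    rw [intervalIntegral.integral_finsetSum (fun G _ => hi G), ← hLAW]
    refine Finset.sum_congr rfl fun G _ => ?_
    rw [intervalIntegral.integral_const_mul, layer (hf _ _).1 (hf _ _).2]

theorem tv (h1 : S_PE) (h2 : S_LAW) (h3 : S_ATT) (h4 : S_TW) : S_TV := by
  intro α k l S T hα0 hα1 hk hl hS hT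
  have hk2 : 2 ≤ k := by omega
  have hl2 : 2 ≤ l := by omega
  -- the set is bounded
  have hbd : ∀ n, ∀ A, |pexp α (ind A) (n - k) k S - pexp α (ind A) (n - l) l T| ≤ 1 := by
    intro n A
    have a1 := pexp_range hα0 hα1 h1 (f := ind A) (B := 1) (m := n - k) hk2 hS
      (fun n' G' _ _ => ⟨ind_nonneg _ _ _, ind_le _ _ _⟩)
    have a2 := pexp_range hα0 hα1 h1 (f := ind A) (B := 1) (m := n - l) hl2 hT
      (fun n' G' _ _ => ⟨ind_nonneg _ _ _, ind_le _ _ _⟩)
    rw [abs_le]
    constructor <;> linarith [a1.1, a1.2, a2.1, a2.2]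
  have hba : ∀ n, BddAbove {x : ℝ | ∃ A, Inv A ∧
      x = |pexp α (ind A) (n - k) k S - pexp α (ind A) (n - l) l T|} := by
    intro n
    refine ⟨1, ?_⟩
    rintro x ⟨A, -, rfl⟩
    exact hbd n A
  have hle : ∀ n, ∀ A, Inv A →
      |pexp α (ind A) (n - k) k S - pexp α (ind A) (n - l) l T| ≤ dTV α S T n := by
    intro n A hA
    rw [dTV_eq h2]
    exact le_csSup (hba n) ⟨A, hA, rfl⟩
  have hone : ∀ n, dTV α S T n ≤ 1 := by
    intro n
    rw [dTV_eq h2]
    apply Real.sSup_le _ (by norm_num)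
    rintro x ⟨A, -, rfl⟩
    exact hbd n A
  have hnn : ∀ n, 0 ≤ dTV α S T n := by
    intro n
    rw [dTV_eq h2]
    apply Real.sSup_nonneg
    rintro x ⟨A, -, rfl⟩
    exact abs_nonneg _
  have htest : ∀ (f : (n : ℕ) → SimpleGraph (Fin n) → ℝ) (B : ℝ) (n : ℕ), IsoInv f → k ≤ n →
      l ≤ n → (∀ n' (G' : SimpleGraph (Fin n')), G'.IsTree → n' = n → 0 ≤ f n' G' ∧ f n' G' ≤ B) →
      |pexp α f (n - k) k S - pexp α f (n - l) l T| ≤ B * dTV α S T n := by
    intro f B n hf hkn hln hfB
    have hB : 0 ≤ B := by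
      have := pexp_range hα0 hα1 h1 (f := f) (B := B) (m := n - k) hk2 hS
        (fun n' G' h h' => hfB n' G' h (by omega))
      linarith [this.1, this.2]
    set F : (n : ℕ) → SimpleGraph (Fin n) → ℝ := fun n' G' => min (max (f n' G') 0) B with hF
    have hFB : ∀ n' G', 0 ≤ F n' G' ∧ F n' G' ≤ B := by
      intro n' G'
      exact ⟨le_min (le_max_right _ _) hB, min_le_right _ _⟩
    have hfF : ∀ n' (G' : SimpleGraph (Fin n')), G'.IsTree → n' = n → f n' G' = F n' G' := by
      intro n' G' h h'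
      obtain ⟨a1, a2⟩ := hfB n' G' h h'
      simp only [hF]
      rw [max_eq_left a1, min_eq_left a2]
    have eS : pexp α f (n - k) k S = pexp α F (n - k) k S :=
      pexp_congr hα0 hα1 h1 hk2 hS (fun n' G' h h' => hfF n' G' h (by omega))
    have eT : pexp α f (n - l) l T = pexp α F (n - l) l T :=
      pexp_congr hα0 hα1 h1 hl2 hT (fun n' G' h h' => hfF n' G' h (by omega))
    obtain ⟨iS, lS⟩ := pexp_layer h2 α (m := n - k) S F hFB
    obtain ⟨iT, lT⟩ := pexp_layer h2 α (m := n - l) T F hFB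
    rw [eS, eT, lS, lT, ← intervalIntegral.integral_sub iS iT]
    have := intervalIntegral.norm_integral_le_of_norm_le_const (a := 0) (b := B)
      (f := fun t : ℝ => pexp α (ind fun n => {G | t < F n G}) (n - k) k S -
        pexp α (ind fun n => {G | t < F n G}) (n - l) l T) (C := dTV α S T n) (by
        intro t _
        rw [Real.norm_eq_abs]
        apply hle
        intro m G H hGH
        have : F m G = F m H := by
          simp only [hF]
          rw [hf m G H hGH]
        simp only [Set.mem_setOf_eq, this])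
    rw [Real.norm_eq_abs, sub_zero, abs_of_nonneg hB] at this
    linarith
  refine ⟨?_, htest, hone, hnn⟩
  -- monotonicity
  have hmono : ∀ n, k ≤ n → l ≤ n → dTV α S T (n + 1) ≤ dTV α S T n := by
    intro n hkn hln
    obtain ⟨p1, -, -, -, p5⟩ := h1 α hα0 hα1
    rw [dTV_eq h2 α S T (n + 1)]
    apply Real.sSup_le _ (hnn n)
    rintro x ⟨A, hA, rfl⟩
    have e1 : n + 1 - k = (n - k) + 1 := by omega
    have e2 : n + 1 - l = (n - l) + 1 := by omega
    rw [e1, e2, p1, p1]
    have := htest (fun n' G' => pexp α (ind A) 1 n' G') 1 n (p5 _ 1 (ind_isoInv hA)) hkn hln (by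
      intro n' G' hG' hn'
      exact pexp_range hα0 hα1 h1 (by omega) hG'
        (fun n' G' _ _ => ⟨ind_nonneg _ _ _, ind_le _ _ _⟩))
    rwa [one_mul] at this
  set m0 := k + l with hm0
  have hanti : Antitone fun n => dTV α S T (n + m0) := by
    apply antitone_nat_of_succ_le
    intro n
    have := hmono (n + m0) (by omega) (by omega)
    rwa [show n + 1 + m0 = n + m0 + 1 by ring]
  have hlim := tendsto_atTop_ciInf hanti ⟨0, by rintro x ⟨n, rfl⟩; exact hnn _⟩
  rw [tendsto_add_atTop_iff_nat m0] at hlim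
  exact ⟨_, le_ciInf fun n => hnn _, hlim⟩

end Pool.Agent.TH611.J2307
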