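import Pool.Agent.TH611.J2307

set_option autoImplicit false

open Pool.Agent.TH981.SD
open Finset Set Filter
open scoped BigOperators Topology Classical

namespace Pool.Agent.TH611.J2308

/-! ### sums over classes -/

section classes
variable {X : Type} [Fintype X] {R : X → X → Prop}

/-- size of the class -/
noncomputable def cR (R : X → X → Prop) (x : X) : ℝ := ∑ y, if R x y then (1 : ℝ) else 0

/-- sum over the class -/
noncomputable def wR (R : X → X → Prop) (μ : X → ℝ) (x : X) : ℝ := ∑ y, if R x y then μ y else 0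

theorem cR_pos (hR : Equivalence R) (x : X) : 0 < cR R x := by
  have h : (if R x x then (1 : ℝ) else 0) ≤ cR R x :=
    Finset.single_le_sum (f := fun y => if R x y then (1 : ℝ) else 0)
      (fun y _ => by split_ifs <;> norm_num) (Finset.mem_univ x)
  rw [if_pos (hR.refl x)] at h
  linarith

theorem cR_congr (hR : Equivalence R) {x y : X} (h : R x y) : cR R x = cR R y := by
  unfold cR
  refine Finset.sum_congr rfl fun z _ => ?_
  have : R x z ↔ R y z := ⟨fun h1 => hR.trans (hR.symm h) h1, fun h1 => hR.trans h h1⟩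
  simp only [this]

theorem wR_congr (hR : Equivalence R) (μ : X → ℝ) {x y : X} (h : R x y) :
    wR R μ x = wR R μ y := by
  unfold wR
  refine Finset.sum_congr rfl fun z _ => ?_
  have : R x z ↔ R y z := ⟨fun h1 => hR.trans (hR.symm h) h1, fun h1 => hR.trans h h1⟩
  simp only [this]

theorem class_sum (hR : Equivalence R) (μ F : X → ℝ) (hF : ∀ x y, R x y → F x = F y) :
    ∑ x, μ x * F x = ∑ x, wR R μ x * (F x / cR R x) := by
  have e1 : ∀ x, wR R μ x * (F x / cR R x) =
      ∑ y, if R x y then μ y * (F y / cR R y) else 0 := by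
    intro x
    unfold wR
    rw [Finset.sum_mul]
    refine Finset.sum_congr rfl fun y _ => ?_
    split_ifs with h
    · rw [hF x y h, cR_congr hR h]
    · rw [zero_mul]
  simp only [e1]
  rw [Finset.sum_comm]
  refine Finset.sum_congr rfl fun y _ => ?_
  have e2 : ∑ x, (if R x y then μ y * (F y / cR R y) else 0) =
      (μ y * (F y / cR R y)) * ∑ x, if R x y then (1 : ℝ) else 0 := by
    rw [Finset.mul_sum]
    refine Finset.sum_congr rfl fun x _ => ?_
    split_ifs <;> ring
  have e3 : ∑ x, (if R x y then (1 : ℝ) else 0) = cR R y := by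
    unfold cR
    refine Finset.sum_congr rfl fun x _ => ?_
    have : R x y ↔ R y x := ⟨fun h1 => hR.symm h1, fun h1 => hR.symm h1⟩
    simp only [this]
  rw [e2, e3]
  have := (cR_pos hR y).ne'
  field_simp

theorem class_bound (hR : Equivalence R) (μ F : X → ℝ) (hF : ∀ x y, R x y → F x = F y) (x0 : X)
    (E : ℝ) (hE0 : 0 ≤ E) (hE : ∀ x, ¬ R x x0 → wR R μ x ≠ 0 → |F x| ≤ E) :
    |∑ x, μ x * F x - wR R μ x0 * F x0| ≤ E * ∑ x, |μ x| := by
  have e0 : wR R μ x0 * F x0 = ∑ x, if R x x0 then wR R μ x * (F x / cR R x) else 0 := by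
    have e3 : ∑ x, (if R x x0 then (1 : ℝ) else 0) = cR R x0 := by
      unfold cR
      refine Finset.sum_congr rfl fun x _ => ?_
      have : R x x0 ↔ R x0 x := ⟨fun h1 => hR.symm h1, fun h1 => hR.symm h1⟩
      simp only [this]
    have e4 : ∑ x, (if R x x0 then wR R μ x * (F x / cR R x) else 0) =
        (wR R μ x0 * (F x0 / cR R x0)) * ∑ x, (if R x x0 then (1 : ℝ) else 0) := by
      rw [Finset.mul_sum]
      refine Finset.sum_congr rfl fun x _ => ?_
      split_ifs with h
      · rw [wR_congr hR μ h, hF x x0 h, cR_congr hR h, mul_one]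
      · rw [mul_zero]
    rw [e4, e3]
    have := (cR_pos hR x0).ne'
    field_simp
  rw [class_sum hR μ F hF, e0, ← Finset.sum_sub_distrib]
  have h1 : ∀ x, |wR R μ x * (F x / cR R x) -
      (if R x x0 then wR R μ x * (F x / cR R x) else 0)| ≤
      E * (wR R (fun y => |μ y|) x * (1 / cR R x)) := by
    intro x
    have hc := cR_pos hR x
    have hw : |wR R μ x| ≤ wR R (fun y => |μ y|) x := by
      unfold wR
      refine (Finset.abs_sum_le_sum_abs _ _).trans (Finset.sum_le_sum fun y _ => ?_)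
      split_ifs <;> simp
    have hw0 : 0 ≤ wR R (fun y => |μ y|) x := (abs_nonneg _).trans hw
    by_cases h : R x x0
    · rw [if_pos h, sub_self, abs_zero]
      positivity
    · rw [if_neg h, sub_zero]
      by_cases h2 : wR R μ x = 0
      · rw [h2, zero_mul, abs_zero]
        positivity
      · have h3 := hE x h h2
        rw [abs_mul, abs_div, abs_of_pos hc]
        calc |wR R μ x| * (|F x| / cR R x) ≤ wR R (fun y => |μ y|) x * (E / cR R x) := by gcongr
          _ = _ := by ring
  calc |∑ x, (wR R μ x * (F x / cR R x) -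
        (if R x x0 then wR R μ x * (F x / cR R x) else 0))|
      ≤ ∑ x, |wR R μ x * (F x / cR R x) -
        (if R x x0 then wR R μ x * (F x / cR R x) else 0)| := Finset.abs_sum_le_sum_abs _ _
    _ ≤ ∑ x, E * (wR R (fun y => |μ y|) x * (1 / cR R x)) := Finset.sum_le_sum fun x _ => h1 x
    _ = E * ∑ x, |μ x| := by
        rw [← Finset.mul_sum]
        have := class_sum hR (fun y => |μ y|) (fun _ => 1) (fun _ _ _ => rfl)
        simp only [mul_one] at this
        rw [this]

end classes

/-! ### the law -/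

theorem law_nonneg (α : ℝ) {k : ℕ} (S : SimpleGraph (Fin k)) : ∀ (m : ℕ)
    (G : SimpleGraph (Fin (k + m))), 0 ≤ law α S m G := by
  intro m
  induction m with
  | zero => intro G; unfold law; split_ifs <;> norm_num
  | succ m ih =>
    intro G
    unfold law
    refine Finset.sum_nonneg fun G' _ => Finset.sum_nonneg fun v _ => ?_
    have h1 := ih G'
    have h2 : (0 : ℝ) ≤ (dg G' v : ℝ) ^ α / ∑ w, (dg G' w : ℝ) ^ α := by positivity
    split_ifs <;> positivity

theorem law_tree (h6 : S_ATT) (α : ℝ) {k : ℕ} (S : SimpleGraph (Fin k)) (hS : S.IsTree) :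
    ∀ (m : ℕ) (G : SimpleGraph (Fin (k + m))), law α S m G ≠ 0 → G.IsTree := by
  intro m
  induction m with
  | zero =>
    intro G hG
    unfold law at hG
    split_ifs at hG with h
    · rw [h]; exact hS
    · exact absurd rfl hG
  | succ m ih =>
    intro G hG
    unfold law at hG
    obtain ⟨G', -, hG'⟩ := Finset.exists_ne_zero_of_sum_ne_zero hG
    obtain ⟨v, -, hv⟩ := Finset.exists_ne_zero_of_sum_ne_zero hG'
    split_ifs at hv with h
    · rw [← h]
      apply (h6 _ G' v _).1
      apply ih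
      intro h0
      apply hv
      rw [h0]; ring
    · simp at hv

theorem law_attach (h7 : S_TW) (α : ℝ) (hα0 : 0 < α) (hα1 : α < 1) {k : ℕ}
    (S : SimpleGraph (Fin k)) {m : ℕ} {G : SimpleGraph (Fin (k + m))} (hG : 0 < law α S m G)
    (hT : G.IsTree) (hk : 2 ≤ k) (v : Fin (k + m)) : 0 < law α S (m + 1) (attach G v) := by
  obtain ⟨w1, -, w3, -⟩ := h7 α (k + m) G hα0 hα1 (by omega) hT
  have hpos : 0 < law α S m G * ((dg G v : ℝ) ^ α / ∑ w, (dg G w : ℝ) ^ α) *
      (if attach G v = attach G v then 1 else 0) := by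
    rw [if_pos rfl, mul_one]
    apply mul_pos hG
    apply div_pos
    · apply Real.rpow_pos_of_pos
      have := w1 v
      exact_mod_cast this
    · have h1 : ((k + m : ℕ) : ℝ) ≤ ∑ w, (dg G w : ℝ) ^ α := w3
      have h2 : (0 : ℝ) < ((k + m : ℕ) : ℝ) := by
        have : 0 < k + m := by omega
        exact_mod_cast this
      linarith
  have hnn : ∀ (G' : SimpleGraph (Fin (k + m))) (v' : Fin (k + m)), 0 ≤ law α S m G' *
      ((dg G' v' : ℝ) ^ α / ∑ w, (dg G' w : ℝ) ^ α) *
      (if attach G' v' = attach G v then 1 else 0) := by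
    intro G' v'
    have h1 := law_nonneg α S m G'
    have h2 : (0 : ℝ) ≤ (dg G' v' : ℝ) ^ α / ∑ w, (dg G' w : ℝ) ^ α := by positivity
    split_ifs <;> positivity
  have e : law α S (m + 1) (attach G v) = ∑ G' : SimpleGraph (Fin (k + m)),
      ∑ v' : Fin (k + m), law α S m G' * ((dg G' v' : ℝ) ^ α / ∑ w, (dg G' w : ℝ) ^ α) *
        (if attach G' v' = attach G v then 1 else 0) := rfl
  rw [e]
  calc (0 : ℝ) < _ := hpos
    _ ≤ ∑ v' : Fin (k + m), law α S m G * ((dg G v' : ℝ) ^ α / ∑ w, (dg G w : ℝ) ^ α) *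
        (if attach G v' = attach G v then 1 else 0) :=
      Finset.single_le_sum (f := fun v' : Fin (k + m) => law α S m G *
        ((dg G v' : ℝ) ^ α / ∑ w, (dg G w : ℝ) ^ α) *
        (if attach G v' = attach G v then 1 else 0)) (fun v' _ => hnn G v') (Finset.mem_univ v)
    _ ≤ _ := Finset.single_le_sum (f := fun G' : SimpleGraph (Fin (k + m)) =>
        ∑ v' : Fin (k + m), law α S m G' * ((dg G' v' : ℝ) ^ α / ∑ w, (dg G' w : ℝ) ^ α) *
        (if attach G' v' = attach G v then 1 else 0))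
        (fun G' _ => Finset.sum_nonneg fun v' _ => hnn G' v') (Finset.mem_univ G)

theorem law_exists (h6 : S_ATT) (h7 : S_TW) (α : ℝ) (hα0 : 0 < α) (hα1 : α < 1) {k : ℕ}
    (S : SimpleGraph (Fin k)) (hS : S.IsTree) (hk : 2 ≤ k) : ∀ m : ℕ,
    ∃ G : SimpleGraph (Fin (k + m)), G.IsTree ∧ 0 < law α S m G := by
  intro m
  induction m with
  | zero => exact ⟨S, hS, by unfold law; rw [if_pos rfl]; norm_num⟩
  | succ m ih =>
    obtain ⟨G, hG, hp⟩ := ih
    have v : Fin (k + m) := ⟨0, by omega⟩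
    exact ⟨attach G v, (h6 _ G v hG).1, law_attach h7 α hα0 hα1 S hp hG hk v⟩

theorem dg_iso {n : ℕ} {G H : SimpleGraph (Fin n)} (φ : G ≃g H) (v : Fin n) :
    dg H (φ v) = dg G v := by
  unfold dg
  symm
  apply Finset.card_bij (fun w _ => φ w)
  · intro w hw
    rw [Finset.mem_filter] at hw ⊢
    exact ⟨Finset.mem_univ _, φ.map_adj_iff.2 hw.2⟩
  · intro a _ b _ h
    exact φ.injective h
  · intro w hw
    rw [Finset.mem_filter] at hw
    refine ⟨φ.symm w, ?_, by simp⟩
    rw [Finset.mem_filter]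
    refine ⟨Finset.mem_univ _, ?_⟩
    rw [← φ.map_adj_iff]
    simpa using hw.2

/-- attaching to a vertex of maximal degree or to a leaf gives non-isomorphic trees -/
theorem two_trees (h6 : S_ATT) (h7 : S_TW) {n : ℕ} (hn : 3 ≤ n) (G : SimpleGraph (Fin n))
    (hG : G.IsTree) : ∃ u v : Fin n, ¬ Nonempty (attach G v ≃g attach G u) := by
  obtain ⟨w1, w2, -, -⟩ := h7 (1 / 2) n G (by norm_num) (by norm_num) (by omega) hG
  have : Nonempty (Fin n) := ⟨⟨0, by omega⟩⟩
  obtain ⟨v, -, hv⟩ := Finset.exists_max_image (Finset.univ : Finset (Fin n)) (dg G)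
    Finset.univ_nonempty
  have hv2 : 2 ≤ dg G v := by
    by_contra hcon
    push Not at hcon
    have h1 : ∑ v, dg G v ≤ ∑ _v : Fin n, 1 := by
      apply Finset.sum_le_sum
      intro w _
      have := hv w (Finset.mem_univ w)
      omega
    rw [w2] at h1
    simp at h1
    omega
  obtain ⟨u, hu⟩ : ∃ u, dg G u = 1 := by
    by_contra hcon
    push Not at hcon
    have h1 : ∑ _v : Fin n, 2 ≤ ∑ v, dg G v := by
      apply Finset.sum_le_sum
      intro w _
      have := w1 w
      have := hcon w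
      omega
    rw [w2] at h1
    simp at h1
    omega
  refine ⟨u, v, ?_⟩
  rintro ⟨φ⟩
  have h1 := dg_iso φ v.castSucc
  have h2 := (h6 n G v hG).2.2.2.2.2.1 v
  rw [if_pos rfl] at h2
  rw [h2] at h1
  -- all degrees are at most `dg G v`
  have h3 : ∀ x : Fin (n + 1), dg (attach G u) x ≤ dg G v := by
    intro x
    refine Fin.lastCases ?_ (fun w => ?_) x
    · rw [(h6 n G u hG).2.2.2.2.2.2]; omega
    · rw [(h6 n G u hG).2.2.2.2.2.1 w]
      split_ifs with h
      · rw [h, hu]; omega
      · have := hv w (Finset.mem_univ w)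
        omega
  have := h3 (φ v.castSucc)
  omega

theorem isoRel (n : ℕ) : Equivalence (fun G H : SimpleGraph (Fin n) => Nonempty (G ≃g H)) where
  refl G := ⟨SimpleGraph.Iso.refl⟩
  symm := fun ⟨φ⟩ => ⟨φ.symm⟩
  trans := fun ⟨φ⟩ ⟨ψ⟩ => ⟨ψ.comp φ⟩

/-- bound for the sum over time -/
theorem time_sum {t C ε : ℝ} (ht0 : 0 < t) (ht1 : t ≤ 1) (hC : 0 ≤ C) (hε : 0 ≤ ε) (n0 m : ℕ)
    (a δ : ℕ → ℝ) (ha : ∀ i, |a i| ≤ C * (t * Real.exp (-(t * i / 2))) * δ i)
    (hδ0 : ∀ i, 0 ≤ δ i) (hδ1 : ∀ i, δ i ≤ 1) (hδ : ∀ i, n0 ≤ i → δ i ≤ ε) :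
    |∑ i ∈ Finset.range m, a i| ≤ C * t * n0 + 4 * C * ε := by
  set q : ℝ := Real.exp (-(t / 2)) with hq
  have hq0 : 0 < q := Real.exp_pos _
  have hqn : ∀ i : ℕ, Real.exp (-(t * i / 2)) = q ^ i := by
    intro i
    rw [hq, ← Real.exp_nat_mul]
    congr 1; ring
  have hq1 : t / 4 ≤ 1 - q := by
    have h1 : 1 + t / 2 ≤ Real.exp (t / 2) := by linarith [Real.add_one_le_exp (t / 2)]
    have h2 : q * Real.exp (t / 2) = 1 := by rw [hq, ← Real.exp_add]; simp
    have h3 : q * (1 + t / 2) ≤ 1 := (mul_le_mul_of_nonneg_left h1 hq0.le).trans h2.le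
    have h4 : (1 - t / 4) * (1 + t / 2) ≥ 1 := by nlinarith
    nlinarith
  have hq2 : q < 1 := by linarith
  have hterm : ∀ i, |a i| ≤ (C * t) * (if i < n0 then 1 else 0) + (C * t * ε) * q ^ i := by
    intro i
    refine (ha i).trans ?_
    rw [hqn]
    have hqi : 0 ≤ q ^ i := by positivity
    have hqi1 : q ^ i ≤ 1 := pow_le_one₀ hq0.le hq2.le
    have hCt : 0 ≤ C * t := by positivity
    split_ifs with h
    · have h1 : q ^ i * δ i ≤ 1 * 1 := mul_le_mul hqi1 (hδ1 i) (hδ0 i) (by norm_num)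
      have h2 : C * (t * q ^ i) * δ i = (C * t) * (q ^ i * δ i) := by ring
      rw [h2]
      have h3 : (C * t) * (q ^ i * δ i) ≤ (C * t) * (1 * 1) := mul_le_mul_of_nonneg_left h1 hCt
      have h4 : 0 ≤ C * t * ε * q ^ i := by positivity
      linarith
    · have h1 : δ i ≤ ε := hδ i (by omega)
      have h2 : C * (t * q ^ i) * δ i ≤ C * (t * q ^ i) * ε :=
        mul_le_mul_of_nonneg_left h1 (by positivity)
      linarith
  calc |∑ i ∈ Finset.range m, a i| ≤ ∑ i ∈ Finset.range m, |a i| :=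
        Finset.abs_sum_le_sum_abs _ _
    _ ≤ ∑ i ∈ Finset.range m, ((C * t) * (if i < n0 then 1 else 0) + (C * t * ε) * q ^ i) :=
        Finset.sum_le_sum fun i _ => hterm i
    _ = (C * t) * ∑ i ∈ Finset.range m, (if i < n0 then (1 : ℝ) else 0) +
        (C * t * ε) * ∑ i ∈ Finset.range m, q ^ i := by
        rw [Finset.sum_add_distrib, Finset.mul_sum, Finset.mul_sum]
    _ ≤ (C * t) * n0 + (C * t * ε) * (4 / t) := by
        have h1 : ∑ i ∈ Finset.range m, (if i < n0 then (1 : ℝ) else 0) ≤ n0 := by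
          rw [Finset.sum_ite, Finset.sum_const_zero, add_zero, Finset.sum_const, nsmul_eq_mul,
            mul_one]
          have : (Finset.filter (fun i => i < n0) (Finset.range m)).card ≤ n0 := by
            calc _ ≤ (Finset.range n0).card := by
                  apply Finset.card_le_card
                  intro i hi
                  rw [Finset.mem_filter] at hi
                  exact Finset.mem_range.2 hi.2
              _ = n0 := Finset.card_range n0
          exact_mod_cast this
        have h2 : ∑ i ∈ Finset.range m, q ^ i ≤ 4 / t := by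
          rw [geom_sum_eq hq2.ne]
          have : (q ^ m - 1) / (q - 1) = (1 - q ^ m) / (1 - q) := by
            rw [← neg_div_neg_eq]; congr 1 <;> ring
          rw [this]
          calc (1 - q ^ m) / (1 - q) ≤ 1 / (1 - q) := by
                have : 0 ≤ q ^ m := by positivity
                have h5 : 0 < 1 - q := by linarith
                gcongr
                linarith
            _ ≤ 1 / (t / 4) := by
                apply one_div_le_one_div_of_le (by linarith) hq1
            _ = 4 / t := by field_simp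
        gcongr
    _ = _ := by field_simp

theorem dTV_symm (α : ℝ) {k l : ℕ} (S : SimpleGraph (Fin k)) (T : SimpleGraph (Fin l)) (n : ℕ) :
    dTV α S T n = dTV α T S n := by
  unfold dTV
  congr 1
  ext x
  constructor
  · rintro ⟨A, hA, hx⟩
    exact ⟨A, hA, by rw [hx, abs_sub_comm]⟩
  · rintro ⟨A, hA, hx⟩
    exact ⟨A, hA, by rw [hx, abs_sub_comm]⟩

/-- a tree of positive probability which is not isomorphic to `T` -/
theorem two_law (h6 : S_ATT) (h7 : S_TW) (α : ℝ) (hα0 : 0 < α) (hα1 : α < 1) (k m : ℕ)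
    (S : SimpleGraph (Fin k)) (T : SimpleGraph (Fin (k + m))) (hk : 3 ≤ k) (hS : S.IsTree)
    (hST : ¬ Nonempty (S ≃g T)) :
    ∃ G : SimpleGraph (Fin (k + m)), 0 < law α S m G ∧ ¬ Nonempty (G ≃g T) := by
  cases m with
  | zero => exact ⟨S, by unfold law; rw [if_pos rfl]; norm_num, hST⟩
  | succ m =>
    by_contra hcon
    push Not at hcon
    obtain ⟨G, hG, hp⟩ := law_exists h6 h7 α hα0 hα1 S hS (by omega) m
    obtain ⟨u, v, huv⟩ := two_trees h6 h7 (n := k + m) (by omega) G hG
    apply huv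
    obtain ⟨φ⟩ := hcon (attach G v) (law_attach h7 α hα0 hα1 S hp hG (by omega) v)
    obtain ⟨ψ⟩ := hcon (attach G u) (law_attach h7 α hα0 hα1 S hp hG (by omega) u)
    exact ⟨ψ.symm.comp φ⟩

/-- the case `l = k + m` -/
theorem main (h1 : S_MAIN) (h2 : S_BD) (h3 : S_PE) (h4 : S_LAW) (h5 : S_TV) (h6 : S_ATT)
    (h7 : S_TW) (h8 : S_ISOF) (α : ℝ) (hα0 : 0 < α) (hα1 : α < 1) (k m : ℕ)
    (S : SimpleGraph (Fin k)) (T : SimpleGraph (Fin (k + m))) (hk : 3 ≤ k) (hS : S.IsTree)
    (hT : T.IsTree) (hST : ¬ Nonempty (S ≃g T)) :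
    ∃ δ : ℝ, 0 < δ ∧ Tendsto (dTV α S T) atTop (𝓝 δ) := by
  obtain ⟨⟨δ, hδ0, hδ⟩, htest, hone, hnn⟩ := h5 α k (k + m) S T hα0 hα1 hk (by omega) hS hT
  rcases hδ0.lt_or_eq with hpos | hzero
  · exact ⟨δ, hpos, hδ⟩
  exfalso
  rw [← hzero] at hδ
  obtain ⟨p1, p2, p3, p4, p5⟩ := h3 α hα0 hα1
  set R : SimpleGraph (Fin (k + m)) → SimpleGraph (Fin (k + m)) → Prop :=
    fun G H => Nonempty (G ≃g H) with hR
  have hRe : Equivalence R := isoRel (k + m)
  set μ : SimpleGraph (Fin (k + m)) → ℝ :=
    fun G => law α S m G - (if G = T then 1 else 0) with hμ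
  have hlaw1 : ∑ G, law α S m G = 1 := by
    have := h4 α k m S (fun _ _ => 1)
    simp only [mul_one] at this
    rw [this]; exact p3 1 m k S hS (by omega)
  have hμ2 : ∑ G, |μ G| ≤ 2 := by
    calc ∑ G, |μ G| ≤ ∑ G, (law α S m G + (if G = T then 1 else 0)) := by
          apply Finset.sum_le_sum
          intro G _
          have := law_nonneg α S m G
          simp only [hμ]
          rw [abs_le]
          constructor <;> split_ifs <;> linarith
      _ = 2 := by
          rw [Finset.sum_add_distrib, hlaw1]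
          simp
          norm_num
  set w := wR R μ with hw
  have hμtree : ∀ G, μ G ≠ 0 → G.IsTree := by
    intro G hG
    by_cases h : G = T
    · rw [h]; exact hT
    · simp only [hμ, if_neg h, sub_zero] at hG
      exact law_tree h6 α S hS m G hG
  have hwtree : ∀ G, w G ≠ 0 → G.IsTree := by
    intro G hG
    obtain ⟨G', -, hG'⟩ := Finset.exists_ne_zero_of_sum_ne_zero hG
    split_ifs at hG' with h
    · obtain ⟨φ⟩ := h
      exact φ.isTree_iff.2 (hμtree G' hG')
    · exact absurd rfl hG'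
  set 𝒢 : Set (SimpleGraph (Fin (k + m))) := {G | w G ≠ 0} with h𝒢
  have hne : 𝒢.Nonempty := by
    obtain ⟨G, hG1, hG2⟩ := two_law h6 h7 α hα0 hα1 k m S T hk hS hST
    refine ⟨G, ?_⟩
    show w G ≠ 0
    have e1 : w G = ∑ y, (if R G y then law α S m y else 0) := by
      rw [hw]
      unfold wR
      refine Finset.sum_congr rfl fun y _ => ?_
      split_ifs with h
      · simp only [hμ]
        rw [if_neg, sub_zero]
        rintro rfl
        exact hG2 h
      · rfl
    have e2 : (if R G G then law α S m G else 0) ≤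
        ∑ y, (if R G y then law α S m y else 0) :=
      Finset.single_le_sum (f := fun y => if R G y then law α S m y else 0)
        (fun y _ => by
          have := law_nonneg α S m y
          split_ifs
          · exact this
          · exact le_rfl) (Finset.mem_univ G)
    rw [if_pos (hRe.refl G), ← e1] at e2
    linarith
  obtain ⟨Hs, hHs, hmain⟩ := h1 α (k + m) 𝒢 hα0 hα1 (by omega) hne (fun G hG => hwtree G hG)
    (fun G H h hG => by
      have h' : w G = w H := wR_congr hRe μ h
      show w H ≠ 0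
      rw [← h']
      exact hG)
  set ws := |w Hs| with hws
  have hws0 : 0 < ws := abs_pos.2 hHs
  obtain ⟨j, J, Kv, M, z0, hj, hJ, hKv, hz0, hz1, hz⟩ := hmain (ws / 8) (by positivity)
  obtain ⟨C, hC0, hC⟩ := h2 α j M J Kv hα0 hα1 hj hJ hKv
  set ε := ws / (32 * (C + 1)) with hε
  have hε0 : 0 < ε := by positivity
  obtain ⟨n0, hn0⟩ : ∃ n0, ∀ n, n0 ≤ n → dTV α S T n ≤ ε := by
    obtain ⟨n0, h⟩ := eventually_atTop.1 (hδ.eventually_lt_const hε0)
    exact ⟨n0, fun n hn => (h n hn).le⟩
  set t := min ((1 - z0) / 2) (ws / (8 * (C * n0 + 1))) with ht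
  have ht0 : 0 < t := by
    rw [ht]
    apply lt_min
    · linarith
    · positivity
  have ht1 : t ≤ (1 - z0) / 2 := min_le_left _ _
  have ht2 : C * t * n0 ≤ ws / 8 := by
    have h9 : t ≤ ws / (8 * (C * n0 + 1)) := min_le_right _ _
    have h10 : 0 < 8 * (C * n0 + 1) := by positivity
    rw [le_div_iff₀ h10] at h9
    nlinarith
  set z := 1 - t with hzdef
  obtain ⟨b, hb1, ⟨m0, hm0⟩, hb2⟩ := hz z (by linarith) (by linarith)
  set f := fR α z J Kv (gM M) with hf
  have hfinv : IsoInv f := h8 α z j J Kv (gM M)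
  have hfb : ∀ n (G : SimpleGraph (Fin n)), 2 ≤ n → G.IsTree →
      0 ≤ f n G ∧ f n G ≤ C * (t * Real.exp (-(t * n / 2))) := by
    intro n G hn hG
    have := hC z (by linarith) (by linarith) n G hn hG
    rw [hzdef, sub_sub_cancel] at this
    exact this
  set F : SimpleGraph (Fin (k + m)) → ℝ := fun G => psum α f m0 (k + m) G with hFdef
  have hF : ∀ G H, R G H → F G = F H := by
    intro G H h
    simp only [hFdef]
    unfold psum
    exact Finset.sum_congr rfl fun i _ => p5 f i hfinv (k + m) G H h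
  have hexp1 : ∀ n : ℕ, C * (t * Real.exp (-(t * n / 2))) ≤ C * t := by
    intro n
    have h9 : Real.exp (-(t * n / 2)) ≤ 1 := by
      rw [Real.exp_le_one_iff]
      have : 0 ≤ t * n / 2 := by positivity
      linarith
    have h10 : t * Real.exp (-(t * n / 2)) ≤ t * 1 := mul_le_mul_of_nonneg_left h9 ht0.le
    rw [mul_one] at h10
    exact mul_le_mul_of_nonneg_left h10 hC0
  have hFnn : ∀ G, G.IsTree → 0 ≤ F G := by
    intro G hG
    simp only [hFdef]
    unfold psum
    refine Finset.sum_nonneg fun i _ => ?_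
    exact (J2307.pexp_range hα0 hα1 h3 (f := f) (B := C * t) (by omega) hG
      (fun n' G' h h' => ⟨(hfb n' G' (by omega) h).1,
        ((hfb n' G' (by omega) h).2).trans (hexp1 n')⟩)).1
  have hFle : ∀ G, ¬ R G Hs → w G ≠ 0 → |F G| ≤ ws / 8 * b := by
    intro G hG hwG
    rw [abs_of_nonneg (hFnn G (hwtree G hwG))]
    exact hb2 G hwG hG m0
  have hcb := class_bound hRe μ F hF Hs (ws / 8 * b) (by positivity) hFle
  have hup : |∑ G, μ G * F G| ≤ C * t * n0 + 4 * C * ε := by
    have e1 : ∑ G, μ G * F G = ∑ i ∈ Finset.range m0,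
        (pexp α f (m + i) k S - pexp α f i (k + m) T) := by
      have e2 : ∀ G, μ G * F G = law α S m G * F G - (if G = T then F G else 0) := by
        intro G
        simp only [hμ]
        split_ifs <;> ring
      simp only [e2]
      rw [Finset.sum_sub_distrib, Finset.sum_ite_eq' Finset.univ T F, if_pos (Finset.mem_univ T),
        Finset.sum_sub_distrib]
      congr 1
      simp only [hFdef]
      unfold psum
      simp only [Finset.mul_sum]
      rw [Finset.sum_comm]
      refine Finset.sum_congr rfl fun i _ => ?_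
      rw [p1, ← h4]
    rw [e1]
    refine time_sum ht0 (by linarith) hC0 hε0.le n0 m0 _ (fun i => dTV α S T (k + m + i)) ?_
      (fun i => hnn _) (fun i => hone _) (fun i hi => hn0 _ (by omega))
    intro i
    have h9 := htest f (C * (t * Real.exp (-(t * ((k + m + i : ℕ) : ℝ) / 2)))) (k + m + i) hfinv
      (by omega) (by omega) (by
        intro n' G' hG' hn'
        subst hn'
        exact hfb _ G' (by omega) hG')
    rw [show k + m + i - k = m + i by omega, show k + m + i - (k + m) = i by omega] at h9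
    refine h9.trans ?_
    have h10 : Real.exp (-(t * ((k + m + i : ℕ) : ℝ) / 2)) ≤ Real.exp (-(t * i / 2)) := by
      apply Real.exp_le_exp.2
      have h11 : (i : ℝ) ≤ ((k + m + i : ℕ) : ℝ) := by
        push_cast
        have : (0 : ℝ) ≤ (k : ℝ) + m := by positivity
        linarith
      have h12 : t * i ≤ t * ((k + m + i : ℕ) : ℝ) := mul_le_mul_of_nonneg_left h11 ht0.le
      linarith
    have h13 : C * (t * Real.exp (-(t * ((k + m + i : ℕ) : ℝ) / 2))) ≤
        C * (t * Real.exp (-(t * i / 2))) :=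
      mul_le_mul_of_nonneg_left (mul_le_mul_of_nonneg_left h10 ht0.le) hC0
    exact mul_le_mul_of_nonneg_right h13 (hnn _)
  have hFHs : b ≤ F Hs := hm0 m0 le_rfl
  have h20 : 4 * C * ε ≤ ws / 8 := by
    rw [hε]
    have : 4 * C * (ws / (32 * (C + 1))) = (ws / 8) * (C / (C + 1)) := by
      field_simp
      ring
    rw [this]
    have h21 : C / (C + 1) ≤ 1 := by
      rw [div_le_one (by positivity)]; linarith
    calc ws / 8 * (C / (C + 1)) ≤ ws / 8 * 1 := by gcongr
      _ = ws / 8 := mul_one _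
  have h22 : ws * b ≤ |w Hs * F Hs| := by
    rw [abs_mul, abs_of_nonneg (by linarith : 0 ≤ F Hs)]
    exact mul_le_mul_of_nonneg_left hFHs hws0.le
  have h23 : |w Hs * F Hs| ≤ |∑ G, μ G * F G| + |∑ G, μ G * F G - w Hs * F Hs| := by
    have := abs_sub_abs_le_abs_sub (w Hs * F Hs) (∑ G, μ G * F G)
    rw [abs_sub_comm (w Hs * F Hs)] at this
    linarith
  have h24 : ws / 8 * b * ∑ x, |μ x| ≤ ws / 8 * b * 2 :=
    mul_le_mul_of_nonneg_left hμ2 (by positivity)
  have h25 : ws * 1 ≤ ws * b := mul_le_mul_of_nonneg_left hb1 hws0.le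
  linarith

theorem result_ (h1 : S_MAIN) (h2 : S_BD) (h3 : S_PE) (h4 : S_LAW) (h5 : S_TV) (h6 : S_ATT)
    (h7 : S_TW) (h8 : S_ISOF) : S_RESULT := by
  intro α hα0 hα1 k l S T hk hl hS hT hST
  rcases le_total k l with h | h
  · obtain ⟨m, rfl⟩ := Nat.exists_eq_add_of_le h
    exact main h1 h2 h3 h4 h5 h6 h7 h8 α hα0 hα1 k m S T hk hS hT hST
  · obtain ⟨m, rfl⟩ := Nat.exists_eq_add_of_le h
    obtain ⟨δ, hδ, hδ'⟩ := main h1 h2 h3 h4 h5 h6 h7 h8 α hα0 hα1 l m T S hl hT hS
      (fun ⟨φ⟩ => hST ⟨φ.symm⟩)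
    refine ⟨δ, hδ, ?_⟩
    have : dTV α S T = dTV α T S := funext fun n => dTV_symm α S T n
    rw [this]
    exact hδ'

end Pool.Agent.TH611.J2308
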