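import Mathlib

/-!
# Banach *-algebras whose self-adjoint elements behave like self-adjoint operators

`A` is a unital complex Banach algebra with continuous involution in which every self-adjoint
element has real spectrum and satisfies `‖q(h)‖ ≤ K(h) sup_{σ(h)} |q|` for real polynomials `q`.
We prove (following Ptak) that the spectral radius is submultiplicative on pairs of self-adjoint
elements, that the elements with nonnegative spectrum form a convex cone, the Shirali-Ford theorem
and the existence of states.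
-/

set_option autoImplicit false
set_option linter.unusedSectionVars false
set_option linter.unusedVariables false

noncomputable section

namespace Pool.Agent.TH611.Un

open Polynomial Filter Topology

variable {A : Type} [NormedRing A] [NormedAlgebra ℂ A] [CompleteSpace A] [StarRing A]
  [StarModule ℂ A] [ContinuousStar A]

/-- real polynomials in an element -/
def pv (h : A) (q : ℝ[X]) : A := aeval h (q.map (algebraMap ℝ ℂ))

/-- self-adjoint elements have real spectrum and a functional calculus -/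
structure Hyp (A : Type) [NormedRing A] [NormedAlgebra ℂ A] [StarRing A] : Prop where
  re : ∀ h : A, IsSelfAdjoint h → ∀ x ∈ spectrum ℂ h, x.im = 0
  pol : ∀ h : A, IsSelfAdjoint h → ∃ K : ℝ, 0 ≤ K ∧ ∀ (q : ℝ[X]) (c : ℝ), 0 ≤ c →
    (∀ x : ℝ, (x : ℂ) ∈ spectrum ℂ h → |q.eval x| ≤ c) → ‖pv h q‖ ≤ K * c

theorem pv_add (h : A) (p q : ℝ[X]) : pv h (p + q) = pv h p + pv h q := by
  unfold pv; rw [Polynomial.map_add, map_add]

theorem pv_sub (h : A) (p q : ℝ[X]) : pv h (p - q) = pv h p - pv h q := by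
  unfold pv; rw [Polynomial.map_sub, map_sub]

theorem pv_mul (h : A) (p q : ℝ[X]) : pv h (p * q) = pv h p * pv h q := by
  unfold pv; rw [Polynomial.map_mul, map_mul]

theorem pv_pow (h : A) (p : ℝ[X]) (n : ℕ) : pv h (p ^ n) = pv h p ^ n := by
  unfold pv; rw [Polynomial.map_pow, map_pow]

theorem pv_X (h : A) : pv h X = h := by
  unfold pv; rw [Polynomial.map_X, aeval_X]

theorem pv_C (h : A) (c : ℝ) : pv h (C c) = algebraMap ℂ A (c : ℂ) := by
  unfold pv; rw [Polynomial.map_C, aeval_C]; rfl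

theorem pv_one (h : A) : pv h 1 = 1 := by
  unfold pv; rw [Polynomial.map_one, map_one]

theorem star_pv {h : A} (hh : IsSelfAdjoint h) (q : ℝ[X]) : star (pv h q) = pv h q := by
  induction q using Polynomial.induction_on' with
  | add p q hp hq => rw [pv_add, star_add, hp, hq]
  | monomial n a =>
    unfold pv
    rw [Polynomial.map_monomial, aeval_monomial, star_mul, ← algebraMap_star_comm]
    have h1 : star h = h := hh
    rw [star_pow, h1]
    have h2 : star ((algebraMap ℝ ℂ) a) = (algebraMap ℝ ℂ) a := Complex.conj_ofReal a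
    rw [h2]
    exact (Algebra.commutes _ _).symm

/-- spectral mapping for polynomials, forward direction -/
theorem mem_pv {h : A} (q : ℝ[X]) {x : ℝ} (hx : (x : ℂ) ∈ spectrum ℂ h) :
    ((q.eval x : ℝ) : ℂ) ∈ spectrum ℂ (pv h q) := by
  have h1 := spectrum.subset_polynomial_aeval h (q.map (algebraMap ℝ ℂ))
  have h2 : ((q.eval x : ℝ) : ℂ) = (q.map (algebraMap ℝ ℂ)).eval (x : ℂ) := by
    rw [Polynomial.eval_map]
    exact (Polynomial.eval₂_at_apply (algebraMap ℝ ℂ) (p := q) x).symm
  rw [h2]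
  exact h1 ⟨_, hx, rfl⟩

/-- spectral mapping for polynomials, backward direction -/
theorem of_mem_pv (H : Hyp A) {h : A} (hh : IsSelfAdjoint h) (q : ℝ[X]) {y : ℂ}
    (hy : y ∈ spectrum ℂ (pv h q)) : ∃ x : ℝ, (x : ℂ) ∈ spectrum ℂ h ∧ y = ((q.eval x : ℝ) : ℂ) := by
  cases subsingleton_or_nontrivial A with
  | inl hs =>
    exfalso
    rw [spectrum.of_subsingleton] at hy
    exact hy
  | inr hn =>
    have hne : (spectrum ℂ h).Nonempty := spectrum.nonempty h
    unfold pv at hy
    rw [spectrum.map_polynomial_aeval_of_nonempty h _ hne] at hy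
    obtain ⟨z, hz, rfl⟩ := hy
    have h1 := H.re h hh z hz
    have h2 : z = ((z.re : ℝ) : ℂ) := by
      apply Complex.ext
      · simp
      · simp [h1]
    refine ⟨z.re, h2 ▸ hz, ?_⟩
    show (q.map (algebraMap ℝ ℂ)).eval z = ((q.eval z.re : ℝ) : ℂ)
    conv_lhs => rw [h2]
    rw [Polynomial.eval_map]
    have := Polynomial.eval₂_at_apply (algebraMap ℝ ℂ) (p := q) z.re
    exact this

theorem isUnit_of_notMem {a : A} {k : ℂ} (h : k ∉ spectrum ℂ a) : IsUnit (algebraMap ℂ A k - a) :=
  spectrum.notMem_iff.1 h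

/-- `1 + S` is invertible for `S` skew-adjoint -/
theorem isUnit_one_add_skew (H : Hyp A) {S : A} (hS : star S = -S) : IsUnit (1 + S) := by
  by_contra hcon
  have h1 : (-1 : ℂ) ∈ spectrum ℂ S := by
    rw [spectrum.mem_iff]
    intro h2
    apply hcon
    have h3 : algebraMap ℂ A (-1) - S = -(1 + S) := by
      rw [map_neg, map_one]; abel
    rw [h3] at h2
    exact (IsUnit.neg_iff _).1 h2
  have h2 : Complex.I • (-1 : ℂ) ∈ spectrum ℂ (Complex.I • S) := by
    have hu : IsUnit Complex.I := isUnit_iff_ne_zero.2 Complex.I_ne_zero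
    exact (spectrum.smul_mem_smul_iff (r := hu.unit)).2 h1
  have h3 : IsSelfAdjoint (Complex.I • S) := by
    show star (Complex.I • S) = Complex.I • S
    rw [star_smul, hS]
    simp
  have h4 := H.re _ h3 _ h2
  simp at h4

/-- the spectrum is in the open unit disc -/
def Dsc (a : A) : Prop := ∀ x ∈ spectrum ℂ a, ‖x‖ < 1

theorem Dsc.exists_lt {a : A} (h : Dsc a) : ∃ ρ : ℝ, 0 ≤ ρ ∧ ρ < 1 ∧ ∀ x ∈ spectrum ℂ a, ‖x‖ ≤ ρ := by
  cases (spectrum ℂ a).eq_empty_or_nonempty with
  | inl he =>
    refine ⟨0, le_rfl, zero_lt_one, fun x hx => ?_⟩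
    rw [he] at hx
    exact absurd hx (Set.notMem_empty _)
  | inr hne =>
    obtain ⟨z, hz, hmax⟩ := (spectrum.isCompact (𝕜 := ℂ) a).exists_isMaxOn hne continuous_norm.continuousOn
    exact ⟨‖z‖, norm_nonneg _, h z hz, fun x hx => hmax hx⟩

theorem Dsc.comm {a b : A} (h : Dsc (a * b)) : Dsc (b * a) := by
  intro x hx
  by_cases h0 : x = 0
  · rw [h0, norm_zero]; exact zero_lt_one
  · have h1 : x ∈ spectrum ℂ (b * a) \ {0} := ⟨hx, h0⟩
    rw [← spectrum.nonzero_mul_comm] at h1
    exact h x h1.1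

theorem Dsc.of_norm {a : A} (h : ‖a‖ * ‖(1 : A)‖ < 1) : Dsc a := fun x hx =>
  (spectrum.norm_le_norm_mul_of_mem hx).trans_lt h

/-- the inverse square root of `1 - T` -/
theorem exists_root (H : Hyp A) {T : A} (hT : IsSelfAdjoint T) (hD : Dsc T) :
    ∃ v : A, IsSelfAdjoint v ∧ v * (1 - T) * v = 1 := by
  obtain ⟨ρ, h0, h1, hρ⟩ := hD.exists_lt
  obtain ⟨K, hK, hpol⟩ := H.pol T hT
  -- the function
  set f : ℝ → ℝ := fun t => (Real.sqrt (1 - t))⁻¹ with hf
  have hcont : ContinuousOn f (Set.Icc (-ρ) ρ) := by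
    refine ContinuousOn.inv₀ (by fun_prop) fun t ht => ?_
    exact Real.sqrt_ne_zero'.2 (by linarith [ht.2])
  have hsq : ∀ t ∈ Set.Icc (-ρ) ρ, f t ^ 2 * (1 - t) = 1 := by
    intro t ht
    have hpos : 0 < 1 - t := by linarith [ht.2]
    simp only [hf]
    rw [inv_pow, Real.sq_sqrt hpos.le]
    exact inv_mul_cancel₀ hpos.ne'
  obtain ⟨B, hB⟩ : ∃ B : ℝ, ∀ t ∈ Set.Icc (-ρ) ρ, |f t| ≤ B := by
    obtain ⟨B, hB⟩ := isCompact_Icc.exists_bound_of_continuousOn hcont
    exact ⟨B, fun t ht => hB t ht⟩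
  have hB0 : 0 ≤ B := (abs_nonneg _).trans (hB 0 ⟨by linarith, h0⟩)
  choose p hp using fun n : ℕ => exists_polynomial_near_of_continuousOn (-ρ) ρ f hcont
    (1 / ((n : ℝ) + 1)) (by positivity)
  have hmem : ∀ x : ℝ, (x : ℂ) ∈ spectrum ℂ T → x ∈ Set.Icc (-ρ) ρ := by
    intro x hx
    have := hρ _ hx
    rw [Complex.norm_real, Real.norm_eq_abs] at this
    exact abs_le.1 this
  have hlim0 : Tendsto (fun n : ℕ => 1 / ((n : ℝ) + 1)) atTop (𝓝 0) :=
    tendsto_one_div_add_atTop_nhds_zero_nat
  have hcau : CauchySeq fun n => pv T (p n) := by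
    refine cauchySeq_of_le_tendsto_0 (fun n => K * (2 * (1 / ((n : ℝ) + 1)))) ?_ ?_
    · intro n m N hn hm
      rw [dist_eq_norm, ← pv_sub]
      refine hpol _ _ (by positivity) fun x hx => ?_
      have h2 := hp n x (hmem x hx)
      have h3 := hp m x (hmem x hx)
      rw [eval_sub]
      have h4 : 1 / ((n : ℝ) + 1) ≤ 1 / ((N : ℝ) + 1) := by
        apply one_div_le_one_div_of_le (by positivity)
        have : (N : ℝ) ≤ n := by exact_mod_cast hn
        linarith
      have h5 : 1 / ((m : ℝ) + 1) ≤ 1 / ((N : ℝ) + 1) := by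
        apply one_div_le_one_div_of_le (by positivity)
        have : (N : ℝ) ≤ m := by exact_mod_cast hm
        linarith
      have h6 : (p n).eval x - (p m).eval x = ((p n).eval x - f x) - ((p m).eval x - f x) := by ring
      rw [h6]
      refine (abs_sub _ _).trans ?_
      linarith
    · have : Tendsto (fun n : ℕ => K * (2 * (1 / ((n : ℝ) + 1)))) atTop (𝓝 (K * (2 * 0))) :=
        (hlim0.const_mul 2).const_mul K
      simpa using this
  obtain ⟨v, hv⟩ := cauchySeq_tendsto_of_complete hcau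
  refine ⟨v, ?_, ?_⟩
  · show star v = v
    have h2 : Tendsto (fun n => star (pv T (p n))) atTop (𝓝 (star v)) :=
      (continuous_star.tendsto v).comp hv
    simp only [star_pv hT] at h2
    exact tendsto_nhds_unique h2 hv
  · have h2 : Tendsto (fun n => pv T (p n) * (1 - T) * pv T (p n)) atTop (𝓝 (v * (1 - T) * v)) :=
      (hv.mul tendsto_const_nhds).mul hv
    have h3 : Tendsto (fun n => pv T (p n) * (1 - T) * pv T (p n)) atTop (𝓝 1) := by
      rw [tendsto_iff_norm_sub_tendsto_zero]
      have h4 : ∀ n, ‖pv T (p n) * (1 - T) * pv T (p n) - 1‖ ≤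
          K * ((1 / ((n : ℝ) + 1)) * (2 * B + 1) * 2) := by
        intro n
        have h5 : pv T (p n) * (1 - T) * pv T (p n) - 1 = pv T (p n * (1 - X) * p n - 1) := by
          rw [pv_sub, pv_mul, pv_mul, pv_sub, pv_X, pv_one]
        rw [h5]
        refine hpol _ _ (by positivity) fun x hx => ?_
        have hx' := hmem x hx
        have h6 := (hp n x hx').le
        have h7 := hB x hx'
        have h8 := hsq x hx'
        simp only [eval_sub, eval_mul, eval_one, eval_X]
        have h9 : (p n).eval x * (1 - x) * (p n).eval x - 1 =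
            ((p n).eval x - f x) * ((p n).eval x - f x + 2 * f x) * (1 - x) := by
          linear_combination h8
        rw [h9, abs_mul, abs_mul]
        have hn1 : 1 / ((n : ℝ) + 1) ≤ 1 := by
          rw [div_le_one (by positivity)]
          have : (0 : ℝ) ≤ n := Nat.cast_nonneg n
          linarith
        have h10 : |(p n).eval x - f x + 2 * f x| ≤ 2 * B + 1 := by
          refine (abs_add_le _ _).trans ?_
          rw [abs_mul, abs_two]
          linarith
        have h11 : |1 - x| ≤ 2 := by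
          rw [abs_le]
          constructor <;> linarith [hx'.1, hx'.2]
        exact mul_le_mul (mul_le_mul h6 h10 (abs_nonneg _) (by positivity)) h11 (abs_nonneg _)
          (by positivity)
      refine squeeze_zero (fun n => norm_nonneg _) h4 ?_
      have : Tendsto (fun n : ℕ => K * ((1 / ((n : ℝ) + 1)) * (2 * B + 1) * 2)) atTop
          (𝓝 (K * (0 * (2 * B + 1) * 2))) := ((hlim0.mul_const _).mul_const 2).const_mul K
      simpa using this
    exact tendsto_nhds_unique h2 h3

theorem isUnit_of_left_right {a b c : A} (h1 : b * a = 1) (h2 : a * c = 1) : IsUnit a := by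
  have : b = c := left_inv_eq_right_inv h1 h2
  exact ⟨⟨a, c, h2, this ▸ h1⟩, rfl⟩

/-- `(1 - T) + S` is invertible for `T` self-adjoint with spectral radius below one and `S`
skew-adjoint -/
theorem isUnit_sub_add_skew (H : Hyp A) {T S : A} (hT : IsSelfAdjoint T) (hD : Dsc T)
    (hS : star S = -S) : IsUnit ((1 - T) + S) := by
  obtain ⟨v, hv, hv1⟩ := exists_root H hT hD
  have hv' : star v = v := hv
  have h1 : star (v * S * v) = -(v * S * v) := by
    rw [star_mul, star_mul, hv', hS]
    simp [mul_assoc]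
  have h2 := isUnit_one_add_skew H h1
  have h3 : 1 + v * S * v = v * ((1 - T) + S) * v := by
    rw [mul_add, add_mul, hv1]
  rw [h3] at h2
  -- `v` is a unit
  obtain ⟨w, hw⟩ := h2
  have e1 : (w⁻¹ : Aˣ).val * (v * ((1 - T) + S) * v) = 1 := by rw [← hw]; exact w.inv_mul
  have e2 : (v * ((1 - T) + S) * v) * (w⁻¹ : Aˣ).val = 1 := by rw [← hw]; exact w.mul_inv
  have hvu : IsUnit v := by
    refine isUnit_of_left_right (b := (w⁻¹ : Aˣ).val * (v * ((1 - T) + S)))
      (c := ((1 - T) + S) * v * (w⁻¹ : Aˣ).val) ?_ ?_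
    · rw [mul_assoc]; exact e1
    · rw [← mul_assoc, ← mul_assoc]; exact e2
  have h4 : IsUnit (v * ((1 - T) + S) * v) := ⟨w, hw⟩
  have h5 : IsUnit (v * ((1 - T) + S)) := (IsUnit.mul_right_iff hvu).1 h4 
  exact (IsUnit.mul_left_iff hvu).1 h5

/-- Ptak: `1 - x` is invertible if the spectral radius of `x* x` is below one -/
theorem isUnit_one_sub (H : Hyp A) {x : A} (hD : Dsc (star x * x)) : IsUnit (1 - x) := by
  have h1 : IsUnit ((1 + star x) * (1 - x)) := by
    have : (1 + star x) * (1 - x) = (1 - star x * x) + (star x - x) := by noncomm_ring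
    rw [this]
    refine isUnit_sub_add_skew H ?_ hD ?_
    · exact IsSelfAdjoint.star_mul_self x
    · rw [star_sub, star_star]; abel
  have h2 : IsUnit ((1 - x) * (1 + star x)) := by
    have : (1 - x) * (1 + star x) = (1 - x * star x) + (star x - x) := by noncomm_ring
    rw [this]
    refine isUnit_sub_add_skew H ?_ hD.comm ?_
    · exact IsSelfAdjoint.mul_star_self x
    · rw [star_sub, star_star]; abel
  obtain ⟨u, hu⟩ := h1
  obtain ⟨w, hw⟩ := h2
  refine isUnit_of_left_right (b := (u⁻¹ : Aˣ).val * (1 + star x)) (c := (1 + star x) * (w⁻¹ : Aˣ).val)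
    ?_ ?_
  · rw [mul_assoc, ← hu]; exact u.inv_mul
  · rw [← mul_assoc, ← hw]; exact w.mul_inv

theorem Dsc.smul {a : A} (h : Dsc a) {c : ℂ} (hc : ‖c‖ ≤ 1) : Dsc (c • a) := by
  intro x hx
  by_cases h0 : c = 0
  · subst h0
    rw [zero_smul] at hx
    cases subsingleton_or_nontrivial A with
    | inl hs =>
      rw [spectrum.of_subsingleton] at hx
      exact absurd hx (Set.notMem_empty _)
    | inr hn =>
      rw [spectrum.zero_eq, Set.mem_singleton_iff] at hx
      rw [hx, norm_zero]
      exact zero_lt_one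
  · have hu : IsUnit c := isUnit_iff_ne_zero.2 h0
    have h1 : c * (c⁻¹ * x) ∈ spectrum ℂ (c • a) := by
      rw [mul_inv_cancel_left₀ h0]; exact hx
    have h2 : c⁻¹ * x ∈ spectrum ℂ a := (spectrum.smul_mem_smul_iff (r := hu.unit)).1 h1
    have h3 := h _ h2
    have h4 : x = c * (c⁻¹ * x) := by rw [mul_inv_cancel_left₀ h0]
    rw [h4, norm_mul]
    calc ‖c‖ * ‖c⁻¹ * x‖ ≤ 1 * ‖c⁻¹ * x‖ := mul_le_mul_of_nonneg_right hc (norm_nonneg _)
      _ < 1 := by rw [one_mul]; exact h3

/-- Ptak's inequality -/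
theorem Dsc.of_star_mul (H : Hyp A) {x : A} (hD : Dsc (star x * x)) : Dsc x := by
  intro z hz
  by_contra hcon
  push Not at hcon
  have hz0 : z ≠ 0 := by
    rintro rfl
    rw [norm_zero] at hcon
    linarith
  have h1 : Dsc (star (z⁻¹ • x) * (z⁻¹ • x)) := by
    have : star (z⁻¹ • x) * (z⁻¹ • x) = (star z⁻¹ * z⁻¹) • (star x * x) := by
      rw [star_smul, smul_mul_smul_comm]
    rw [this]
    refine hD.smul ?_
    rw [norm_mul, norm_star, norm_inv]
    have : ‖z‖⁻¹ ≤ 1 := inv_le_one_of_one_le₀ hcon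
    have h0 : 0 ≤ ‖z‖⁻¹ := by positivity
    nlinarith
  have h2 := isUnit_one_sub H h1
  have h3 : algebraMap ℂ A z - x = z • (1 - z⁻¹ • x) := by
    rw [smul_sub, smul_smul, mul_inv_cancel₀ hz0, one_smul, Algebra.algebraMap_eq_smul_one]
  rw [spectrum.mem_iff] at hz
  apply hz
  rw [h3]
  exact h2.smul (Units.mk0 z hz0)

end Pool.Agent.TH611.Un
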