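import Pool.Agent.TH611.Un9

/-!
# Off-diagonal corners
-/

set_option autoImplicit false
set_option linter.unusedSectionVars false
set_option linter.unusedVariables false

noncomputable section

namespace Pool.Agent.TH611.Un

open Polynomial Filter Topology NormedSpace

variable {A : Type} [NormedRing A] [NormedAlgebra ℂ A] [CompleteSpace A] [StarRing A]
  [StarModule ℂ A] [ContinuousStar A]

/-- ramp function: `0` up to `a`, `1` from `a + w` on -/
def ramp (a w : ℝ) (t : ℝ) : ℝ := max 0 (min 1 ((t - a) / w))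

theorem continuous_ramp (a w : ℝ) : Continuous (ramp a w) := by unfold ramp; fun_prop

theorem ramp_nonneg (a w t : ℝ) : 0 ≤ ramp a w t := le_max_left _ _

theorem ramp_le_one (a w t : ℝ) : ramp a w t ≤ 1 := max_le zero_le_one (min_le_left _ _)

theorem ramp_zero {a w t : ℝ} (hw : 0 < w) (h : t ≤ a) : ramp a w t = 0 := by
  unfold ramp
  apply max_eq_left
  refine (min_le_right _ _).trans ?_
  rw [div_le_iff₀ hw]
  linarith

theorem ramp_one {a w t : ℝ} (hw : 0 < w) (h : a + w ≤ t) : ramp a w t = 1 := by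
  unfold ramp
  have : 1 ≤ (t - a) / w := by rw [le_div_iff₀ hw]; linarith
  rw [min_eq_left this]
  exact max_eq_right zero_le_one

theorem pv_sq_comp (k : A) (q : ℝ[X]) : k * pv (k * k) q = pv k (X * q.comp (X * X)) := by
  rw [pv_mul, pv_X]
  congr 1
  unfold pv
  rw [Polynomial.map_comp, Polynomial.map_mul, Polynomial.map_X, aeval_comp, map_mul, aeval_X]

/-- **Part II**: off-diagonal corners -/
theorem part_two (hk : ∀ h : A, IsSelfAdjoint h → ∃ n : ℝ, Kap h n) {e f : A}
    (he : IsSelfAdjoint e) (hf : IsSelfAdjoint f) (hef : e * f = 0) {Ke Kf : ℝ} (hKe : 0 ≤ Ke)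
    (hKf : 0 ≤ Kf) (hce : Cor e e Ke) (hcf : Cor f f Kf) : ∃ K : ℝ, 0 ≤ K ∧ Cor e f K := by
  have H := hyp_of_kap hk
  have hes : star e = e := he
  have hfs : star f = f := hf
  have hfe : f * e = 0 := by
    have := congrArg star hef
    rwa [star_mul, hes, hfs, star_zero] at this
  -- the category argument
  obtain ⟨x₀, ⟨hx1, hx2⟩, ε, hε, n, hball⟩ := baire {x : A | e * x = x ∧ x * f = x}
    ((isClosed_eq (continuous_const.mul continuous_id) continuous_id).inter
      (isClosed_eq (continuous_id.mul continuous_const) continuous_id))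
    ⟨0, mul_zero e, zero_mul f⟩ (fun x => x + star x) (continuous_id.add continuous_star)
    (fun v hv => hk _ (isSelfAdjoint_add_star v))
  have hn0 : 0 ≤ n := (hball x₀ ⟨hx1, hx2⟩ (by rw [sub_self, norm_zero]; exact hε)).nonneg
  set y₀ : A := star x₀ with hy₀
  have hy1 : y₀ * e = y₀ := by
    have := congrArg star hx1
    rwa [star_mul, hes] at this
  have hy2 : f * y₀ = y₀ := by
    have := congrArg star hx2
    rwa [star_mul, hfs] at this
  set a : A := x₀ * y₀ with ha
  set b : A := y₀ * x₀ with hb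
  have hsa : IsSelfAdjoint a := IsSelfAdjoint.mul_star_self x₀
  have hsb : IsSelfAdjoint b := IsSelfAdjoint.star_mul_self x₀
  have hxx : x₀ * x₀ = 0 := by
    calc x₀ * x₀ = (x₀ * f) * (e * x₀) := by rw [hx1, hx2]
      _ = x₀ * (f * e) * x₀ := by simp only [mul_assoc]
      _ = 0 := by rw [hfe, mul_zero, zero_mul]
  have hyy : y₀ * y₀ = 0 := by
    calc y₀ * y₀ = (y₀ * e) * (f * y₀) := by rw [hy1, hy2]
      _ = y₀ * (e * f) * y₀ := by simp only [mul_assoc]
      _ = 0 := by rw [hef, mul_zero, zero_mul]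
  have hey : e * y₀ = 0 := by rw [← hy2, ← mul_assoc, hef, zero_mul]
  have hea : e * a = a := by rw [ha, ← mul_assoc, hx1]
  have hae : a * e = a := by rw [ha, mul_assoc, hy1]
  have hfb : f * b = b := by rw [hb, ← mul_assoc, hy2]
  have hbf : b * f = b := by rw [hb, mul_assoc, hx2]
  have hxb : x₀ * b = a * x₀ := by rw [ha, hb, mul_assoc]
  have hya : y₀ * a = b * y₀ := by rw [ha, hb, mul_assoc]
  set k₀ : A := x₀ + y₀ with hk₀
  have hk₀s : IsSelfAdjoint k₀ := isSelfAdjoint_add_star x₀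
  have hekx : e * k₀ = x₀ := by rw [hk₀, mul_add, hx1, hey, add_zero]
  have hkk : k₀ * k₀ = a + b := by
    rw [hk₀, mul_add, add_mul, add_mul, hxx, hyy, ha, hb]
    abel
  obtain ⟨K₀, hK₀, hpol⟩ := H.pol k₀ hk₀s
  -- parameters
  set ρ : ℝ := ε / (4 * (‖e‖ * K₀ + 1)) with hρ
  have hρ0 : 0 < ρ := by positivity
  have hsmall : ‖e‖ * (K₀ * ρ) < ε / 2 := by
    have h1 : ‖e‖ * (K₀ * ρ) = ε / 4 * ((‖e‖ * K₀) / (‖e‖ * K₀ + 1)) := by
      rw [hρ]; field_simp
    rw [h1]
    have h2 : (‖e‖ * K₀) / (‖e‖ * K₀ + 1) ≤ 1 := by rw [div_le_one (by positivity)]; linarith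
    nlinarith
  set τ : ℝ := ρ ^ 2 / 2 with hτ
  have hτ0 : 0 < τ := by positivity
  -- the functions
  have cθ : Continuous (ramp τ τ) := continuous_ramp _ _
  have cω : Continuous (fun t => 1 - ramp τ τ t) := continuous_const.sub cθ
  have cθ1 : Continuous (ramp (τ / 2) (τ / 2)) := continuous_ramp _ _
  have cG : Continuous (fun t => ramp (τ / 2) (τ / 2) t / max t (τ / 2)) := by
    refine cθ1.div (by fun_prop) fun t => ?_
    have : 0 < max t (τ / 2) := lt_max_of_lt_right (by positivity)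
    exact this.ne'
  have hG : ∀ t : ℝ, t * (ramp (τ / 2) (τ / 2) t / max t (τ / 2)) = ramp (τ / 2) (τ / 2) t := by
    intro t
    rcases le_total t (τ / 2) with h | h
    · rw [ramp_zero (by positivity) h, zero_div, mul_zero]
    · rw [max_eq_left h]
      have : t ≠ 0 := by have : 0 < t := by linarith [hτ0]
                         exact this.ne'
      field_simp
  have hθθ : ∀ t : ℝ, ramp τ τ t * (1 - ramp (τ / 2) (τ / 2) t) = 0 := by
    intro t
    rcases le_total t τ with h | h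
    · rw [ramp_zero hτ0 h, zero_mul]
    · rw [ramp_one (a := τ / 2) (by positivity) (by linarith), sub_self, mul_zero]
  -- the modified element
  set x₁ : A := x₀ * cf b (ramp τ τ) with hx₁
  have hx₁' : x₁ = cf a (ramp τ τ) * x₀ := cf_intertwine H hsb hsa hxb cθ
  have hx₁e : e * x₁ = x₁ := by rw [hx₁, ← mul_assoc, hx1]
  have hx₁f : x₁ * f = x₁ := by rw [hx₁', mul_assoc, hx2]
  have hx₁s : star x₁ = cf b (ramp τ τ) * y₀ := by rw [hx₁, star_mul, star_cf H hsb cθ]
  have hx₁s' : star x₁ = y₀ * cf a (ramp τ τ) := by rw [hx₁', star_mul, star_cf H hsa cθ]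
  have hdist : ‖x₁ - x₀‖ < ε / 2 := by
    have e1 : x₁ - x₀ = -(x₀ * cf b (fun t => 1 - ramp τ τ t)) := by
      rw [cf_sub H hsb continuous_const cθ, cf_const H hsb, Complex.ofReal_one, map_one, mul_sub,
        mul_one, hx₁]
      abel
    rw [e1, norm_neg]
    refine lt_of_le_of_lt ?_ hsmall
    set L : ℝ := max (Rd b) (Rd k₀ ^ 2) with hL
    obtain ⟨q, hq⟩ := exists_apx cω L
    have h1 := ((tendsto_cf H hsb cω (le_max_left _ _) hq).const_mul x₀).norm
    have h2 : Tendsto (fun m : ℕ => ‖e‖ * (K₀ * (ρ + Rd k₀ * (1 / ((m : ℝ) + 1))))) atTop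
        (𝓝 (‖e‖ * (K₀ * (ρ + Rd k₀ * 0)))) :=
      ((tendsto_const_nhds.add (tendsto_one_div_add_atTop_nhds_zero_nat.const_mul _)).const_mul
        _).const_mul _
    rw [mul_zero, add_zero] at h2
    refine le_of_tendsto_of_tendsto' h1 h2 fun m => ?_
    have e2 : x₀ * pv b (q m) = e * pv k₀ (X * (q m).comp (X * X)) := by
      rw [← pv_sq_comp, ← mul_assoc, hekx]
      have i1 : x₀ * (k₀ * k₀) = a * x₀ := by
        rw [hkk, mul_add, hxb, ha, ← mul_assoc, hxx, zero_mul, zero_add]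
      rw [pv_intertwine i1, pv_intertwine hxb]
    rw [e2]
    refine (norm_mul_le _ _).trans (mul_le_mul_of_nonneg_left ?_ (norm_nonneg _))
    refine hpol _ _ (by have := Rd_nonneg k₀; positivity) fun x hx => ?_
    have hxR := mem_Rd hx
    have hxR' : |x| ≤ Rd k₀ := abs_le.2 hxR
    rw [eval_mul, eval_X, eval_comp, eval_mul, eval_X]
    have hx2L : x * x ∈ Set.Icc (-L) L := by
      have h3 : x * x ≤ Rd k₀ ^ 2 := by
        rw [← abs_mul_abs_self x, pow_two]
        exact mul_le_mul hxR' hxR' (abs_nonneg _) (Rd_nonneg _)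
      have h4 : Rd k₀ ^ 2 ≤ L := le_max_right _ _
      constructor
      · nlinarith [mul_self_nonneg x]
      · linarith
    have h5 := hq m (x * x) hx2L
    have e3 : x * (q m).eval (x * x) = x * (1 - ramp τ τ (x * x)) +
        x * ((q m).eval (x * x) - (1 - ramp τ τ (x * x))) := by ring
    rw [e3]
    refine (abs_add_le _ _).trans (add_le_add ?_ ?_)
    · rw [abs_mul]
      rcases le_total (ρ ^ 2) (x * x) with h6 | h6
      · rw [ramp_one hτ0 (by linarith), sub_self, abs_zero, mul_zero]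
        exact hρ0.le
      · have h7 : |x| ≤ ρ := by
          have : x ^ 2 ≤ ρ ^ 2 := by nlinarith
          exact abs_le_of_sq_le_sq this hρ0.le
        have h8 : |1 - ramp τ τ (x * x)| ≤ 1 := by
          rw [abs_le]
          constructor <;> linarith [ramp_nonneg τ τ (x * x), ramp_le_one τ τ (x * x)]
        calc |x| * |1 - ramp τ τ (x * x)| ≤ ρ * 1 := mul_le_mul h7 h8 (abs_nonneg _) hρ0.le
          _ = ρ := mul_one _
    · rw [abs_mul]
      exact mul_le_mul hxR' h5 (abs_nonneg _) (Rd_nonneg _)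
  -- the support elements
  set l : A := cf a (ramp (τ / 2) (τ / 2)) with hl
  set r : A := cf b (ramp (τ / 2) (τ / 2)) with hr
  set ga : A := cf a (fun t => ramp (τ / 2) (τ / 2) t / max t (τ / 2)) with hga
  set gb : A := cf b (fun t => ramp (τ / 2) (τ / 2) t / max t (τ / 2)) with hgb
  have hl1 : l = a * ga := by
    rw [hl, hga]
    have h1 := cf_mul H hsa continuous_id' cG
    rw [cf_id H hsa] at h1
    rw [← h1]
    congr 1
    funext t
    exact (hG t).symm
  have hl2 : l = ga * a := by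
    rw [hl, hga]
    have h1 := cf_mul H hsa cG continuous_id'
    rw [cf_id H hsa] at h1
    rw [← h1]
    congr 1
    funext t
    rw [mul_comm]
    exact (hG t).symm
  have hr1 : r = b * gb := by
    rw [hr, hgb]
    have h1 := cf_mul H hsb continuous_id' cG
    rw [cf_id H hsb] at h1
    rw [← h1]
    congr 1
    funext t
    exact (hG t).symm
  have hr2 : r = gb * b := by
    rw [hr, hgb]
    have h1 := cf_mul H hsb cG continuous_id'
    rw [cf_id H hsb] at h1
    rw [← h1]
    congr 1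
    funext t
    rw [mul_comm]
    exact (hG t).symm
  have hel : e * l = l := by rw [hl1, ← mul_assoc, hea]
  have hle : l * e = l := by rw [hl2, mul_assoc, hae]
  have hfr : f * r = r := by rw [hr1, ← mul_assoc, hfb]
  have hrf : r * f = r := by rw [hr2, mul_assoc, hbf]
  have hθl : cf a (ramp τ τ) * (1 - l) = 0 := by
    have e1 : 1 - l = cf a (fun t => 1 - ramp (τ / 2) (τ / 2) t) := by
      rw [cf_sub H hsa continuous_const cθ1, cf_const H hsa, Complex.ofReal_one, map_one]
    rw [e1, ← cf_mul H hsa (g := fun t => 1 - ramp (τ / 2) (τ / 2) t) cθ (continuous_const.sub cθ1)]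
    have e2 : (fun x => ramp τ τ x * (1 - ramp (τ / 2) (τ / 2) x)) = fun _ => (0 : ℝ) := by
      funext t; exact hθθ t
    rw [e2, cf_const H hsa, Complex.ofReal_zero, map_zero]
  have hθr : (1 - r) * cf b (ramp τ τ) = 0 := by
    have e1 : 1 - r = cf b (fun t => 1 - ramp (τ / 2) (τ / 2) t) := by
      rw [cf_sub H hsb continuous_const cθ1, cf_const H hsb, Complex.ofReal_one, map_one]
    rw [e1, ← cf_mul H hsb (f := fun t => 1 - ramp (τ / 2) (τ / 2) t) (continuous_const.sub cθ1) cθ]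
    have e2 : (fun x => (1 - ramp (τ / 2) (τ / 2) x) * ramp τ τ x) = fun _ => (0 : ℝ) := by
      funext t; rw [mul_comm]; exact hθθ t
    rw [e2, cf_const H hsb, Complex.ofReal_zero, map_zero]
  -- constants
  obtain ⟨p₁, hp₁⟩ := P.exists (1 - l)
  obtain ⟨p₂, hp₂⟩ := P.exists (1 - r)
  obtain ⟨p₃, hp₃⟩ := P.exists (y₀ * ga)
  obtain ⟨p₄, hp₄⟩ := P.exists (gb * y₀)
  have hp₁0 := hp₁.1
  have hp₂0 := hp₂.1
  have hp₃0 := hp₃.1
  have hp₄0 := hp₄.1
  refine ⟨‖x₀‖ * (Kf * p₃) + ‖1 - l‖ * (Ke * p₄ * ‖x₀‖) +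
    ‖e‖ * (Real.exp 1 * (n * n) * (2 * (p₁ * p₂))), by positivity, fun y hy1' hy2' c hc => ?_⟩
  have hc0 := hc.1
  -- decomposition
  set z : A := (1 - l) * y * (1 - r) with hz
  have hdec : y = l * y + (1 - l) * (y * r) + z := by rw [hz]; noncomm_ring
  -- first piece
  have t1 : ‖l * y‖ ≤ ‖x₀‖ * (Kf * p₃) * c := by
    have e1 : l * y = x₀ * (y₀ * ga * y) := by rw [hl1, ha]; simp only [mul_assoc]
    rw [e1]
    have h1 : ‖y₀ * ga * y‖ ≤ Kf * (p₃ * c) := by
      refine hcf _ ?_ ?_ _ (P.mul H hp₃ hc)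
      · rw [← mul_assoc, ← mul_assoc, hy2]
      · rw [mul_assoc, hy2']
    calc ‖x₀ * (y₀ * ga * y)‖ ≤ ‖x₀‖ * ‖y₀ * ga * y‖ := norm_mul_le _ _
      _ ≤ ‖x₀‖ * (Kf * (p₃ * c)) := mul_le_mul_of_nonneg_left h1 (norm_nonneg _)
      _ = _ := by ring
  -- second piece
  have t2 : ‖(1 - l) * (y * r)‖ ≤ ‖1 - l‖ * (Ke * p₄ * ‖x₀‖) * c := by
    have e1 : y * r = (y * (gb * y₀)) * x₀ := by rw [hr2, hb]; simp only [mul_assoc]
    have h1 : ‖y * (gb * y₀)‖ ≤ Ke * (c * p₄) := by
      refine hce _ ?_ ?_ _ (P.mul H hc hp₄)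
      · rw [← mul_assoc, hy1']
      · rw [mul_assoc, mul_assoc, hy1]
    calc ‖(1 - l) * (y * r)‖ ≤ ‖1 - l‖ * ‖y * r‖ := norm_mul_le _ _
      _ ≤ ‖1 - l‖ * (‖y * (gb * y₀)‖ * ‖x₀‖) := by
          rw [e1]
          exact mul_le_mul_of_nonneg_left (norm_mul_le _ _) (norm_nonneg _)
      _ ≤ ‖1 - l‖ * (Ke * (c * p₄) * ‖x₀‖) :=
          mul_le_mul_of_nonneg_left (mul_le_mul_of_nonneg_right h1 (norm_nonneg _)) (norm_nonneg _)
      _ = _ := by ring
  -- third piece
  have hze : e * z = z := by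
    have h1 : e * (1 - l) = (1 - l) * e := by rw [mul_sub, sub_mul, hel, hle, mul_one, one_mul]
    calc e * z = (e * (1 - l)) * y * (1 - r) := by rw [hz]; simp only [mul_assoc]
      _ = (1 - l) * (e * y) * (1 - r) := by rw [h1]; simp only [mul_assoc]
      _ = z := by rw [hy1']
  have hzf : z * f = z := by
    have h1 : (1 - r) * f = f * (1 - r) := by rw [mul_sub, sub_mul, hrf, hfr, mul_one, one_mul]
    calc z * f = (1 - l) * y * ((1 - r) * f) := by rw [hz]; simp only [mul_assoc]
      _ = (1 - l) * (y * f) * (1 - r) := by rw [h1]; simp only [mul_assoc]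
      _ = z := by rw [hy2']
  have hsz : star z = star z * e ∧ star z = f * star z := by
    constructor
    · have := congrArg star hze
      rw [star_mul, hes] at this
      exact this.symm
    · have := congrArg star hzf
      rw [star_mul, hfs] at this
      exact this.symm
  -- orthogonality relations
  have o1 : star x₁ * z = 0 := by
    calc star x₁ * z = y₀ * (cf a (ramp τ τ) * (1 - l)) * y * (1 - r) := by
          rw [hx₁s', hz]; simp only [mul_assoc]
      _ = 0 := by rw [hθl, mul_zero, zero_mul, zero_mul]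
  have o2 : z * star x₁ = 0 := by
    calc z * star x₁ = (1 - l) * y * ((1 - r) * cf b (ramp τ τ)) * y₀ := by
          rw [hx₁s, hz]; simp only [mul_assoc]
      _ = 0 := by rw [hθr, mul_zero, zero_mul]
  have o3 : x₁ * z = 0 := by
    calc x₁ * z = (x₁ * f) * (e * z) := by rw [hx₁f, hze]
      _ = x₁ * (f * e) * z := by simp only [mul_assoc]
      _ = 0 := by rw [hfe, mul_zero, zero_mul]
  have o4 : z * x₁ = 0 := by
    calc z * x₁ = (z * f) * (e * x₁) := by rw [hzf, hx₁e]
      _ = z * (f * e) * x₁ := by simp only [mul_assoc]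
      _ = 0 := by rw [hfe, mul_zero, zero_mul]
  have o1' : star z * x₁ = 0 := by
    have := congrArg star o1
    rwa [star_mul, star_star, star_zero] at this
  have o2' : x₁ * star z = 0 := by
    have := congrArg star o2
    rwa [star_mul, star_star, star_zero] at this
  have o3' : star z * star x₁ = 0 := by
    have := congrArg star o3
    rwa [star_mul, star_zero] at this
  have o4' : star x₁ * star z = 0 := by
    have := congrArg star o4
    rwa [star_mul, star_zero] at this
  have hcomm : Commute (x₁ + star x₁) (z + star z) := by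
    show (x₁ + star x₁) * (z + star z) = (z + star z) * (x₁ + star x₁)
    simp only [mul_add, add_mul, o1, o2, o3, o4, o1', o2', o3', o4', add_zero]
  have hkx : Kap (x₁ + star x₁) n := hball x₁ ⟨hx₁e, hx₁f⟩ (by linarith)
  have hkz : Kap (z + star z) (n * n) := by
    set s : ℝ := ε / (4 * (‖z‖ + 1)) with hs
    have hs0 : 0 < s := by positivity
    have h2 : ‖(s : ℂ) • z‖ < ε / 2 := by
      rw [norm_smul, Complex.norm_real, Real.norm_of_nonneg hs0.le, hs, div_mul_eq_mul_div,
        div_lt_iff₀ (by positivity)]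
      nlinarith [norm_nonneg z]
    have h3 := hball (x₁ + (s : ℂ) • z)
      ⟨by rw [mul_add, mul_smul_comm, hx₁e, hze], by rw [add_mul, smul_mul_assoc, hx₁f, hzf]⟩ (by
        have e : x₁ + (s : ℂ) • z - x₀ = (x₁ - x₀) + (s : ℂ) • z := by abel
        rw [e]
        exact (norm_add_le _ _).trans_lt (by linarith))
    have e2 : x₁ + (s : ℂ) • z + star (x₁ + (s : ℂ) • z) = (x₁ + star x₁) + (s : ℂ) • (z + star z) := by
      rw [star_add, star_smul, smul_add]
      have : star (s : ℂ) = (s : ℂ) := Complex.conj_ofReal s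
      rw [this]
      abel
    rw [e2] at h3
    exact Kap.of_add hs0.ne' hcomm hkx h3
  have hPz : P z (p₁ * c * p₂) := P.mul H (P.mul H hp₁ hc) hp₂
  have t3 : ‖z‖ ≤ ‖e‖ * (Real.exp 1 * (n * n) * (2 * (p₁ * p₂))) * c := by
    have h1 := hkz.norm_le (by have := hPz.1; linarith) (hPz.re H)
    have e1 : z = e * (z + star z) := by
      rw [mul_add, hze, hsz.2, ← mul_assoc, hef, zero_mul, add_zero]
    calc ‖z‖ = ‖e * (z + star z)‖ := by rw [← e1]
      _ ≤ ‖e‖ * ‖z + star z‖ := norm_mul_le _ _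
      _ ≤ ‖e‖ * (Real.exp 1 * (n * n) * (2 * (p₁ * c * p₂))) :=
          mul_le_mul_of_nonneg_left h1 (norm_nonneg _)
      _ = _ := by ring
  calc ‖y‖ = ‖l * y + (1 - l) * (y * r) + z‖ := by rw [← hdec]
    _ ≤ ‖l * y‖ + ‖(1 - l) * (y * r)‖ + ‖z‖ := norm_add₃_le
    _ ≤ ‖x₀‖ * (Kf * p₃) * c + ‖1 - l‖ * (Ke * p₄ * ‖x₀‖) * c +
        ‖e‖ * (Real.exp 1 * (n * n) * (2 * (p₁ * p₂))) * c := add_le_add (add_le_add t1 t2) t3
    _ = _ := by ring

end Pool.Agent.TH611.Un
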