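import Pool.Agent.TH611.Un10

/-!
# Local C*-equivalence implies C*-equivalence (Cuntz)
-/

set_option autoImplicit false
set_option linter.unusedSectionVars false
set_option linter.unusedVariables false

noncomputable section

namespace Pool.Agent.TH611.Un

open Polynomial Filter Topology NormedSpace

variable {A : Type} [NormedRing A] [NormedAlgebra ℂ A] [CompleteSpace A] [StarRing A]
  [StarModule ℂ A] [ContinuousStar A]

/-- the tent functions -/
def tent (a η : ℝ) (t : ℝ) : ℝ := ramp a η t - ramp (a + η) η t

theorem continuous_tent (a η : ℝ) : Continuous (tent a η) :=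
  (continuous_ramp _ _).sub (continuous_ramp _ _)

theorem tent_supp {a η t : ℝ} (hη : 0 < η) (h : tent a η t ≠ 0) : a < t ∧ t < a + 2 * η := by
  constructor
  · by_contra hcon
    push Not at hcon
    apply h
    unfold tent
    rw [ramp_zero hη hcon, ramp_zero hη (by linarith), sub_self]
  · by_contra hcon
    push Not at hcon
    apply h
    unfold tent
    rw [ramp_one hη (by linarith), ramp_one hη (by linarith), sub_self]

/-- bump functions: `1` on `|t - c| ≤ a`, `0` for `|t - c| ≥ a + w` -/
def bump (c a w : ℝ) (t : ℝ) : ℝ := 1 - ramp a w |t - c|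

theorem continuous_bump (c a w : ℝ) : Continuous (bump c a w) := by
  unfold bump
  exact continuous_const.sub ((continuous_ramp _ _).comp (by fun_prop))

theorem bump_one {c a w t : ℝ} (hw : 0 < w) (h : |t - c| ≤ a) : bump c a w t = 1 := by
  unfold bump
  rw [ramp_zero hw h, sub_zero]

theorem bump_supp {c a w t : ℝ} (hw : 0 < w) (h : bump c a w t ≠ 0) : |t - c| < a + w := by
  by_contra hcon
  push Not at hcon
  apply h
  unfold bump
  rw [ramp_one hw hcon, sub_self]

/-- **Cuntz's theorem**: if every self-adjoint element has bounded exponentials, then the norm is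
dominated by the C*-seminorm -/
theorem cstar_equiv (hk : ∀ h : A, IsSelfAdjoint h → ∃ n : ℝ, Kap h n) :
    ∃ K : ℝ, 0 ≤ K ∧ ∀ (x : A) (c : ℝ), P x c → ‖x‖ ≤ K * c := by
  have H := hyp_of_kap hk
  obtain ⟨h₀, hh₀, η, K, hη, hK, hcor⟩ := part_one hk
  set R : ℝ := Rd h₀ with hR
  have hR0 : 0 ≤ R := Rd_nonneg h₀
  -- the nodes
  set s : ℕ → ℝ := fun j => -R - η + j * η with hs
  have hs1 : ∀ j : ℕ, s (j + 1) = s j + η := by
    intro j
    simp only [hs]
    push_cast
    ring
  obtain ⟨m, hm⟩ := exists_nat_ge ((2 * R + η) / η)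
  have hm' : R ≤ s m := by
    rw [div_le_iff₀ hη] at hm
    simp only [hs]
    linarith
  set g : ℕ → A := fun j => cf h₀ (tent (s j) η) with hg
  have hgsub : ∀ j : ℕ, g j = cf h₀ (ramp (s j) η) - cf h₀ (ramp (s (j + 1)) η) := by
    intro j
    rw [hs1, ← cf_sub H hh₀ (continuous_ramp _ _) (continuous_ramp _ _)]
    rfl
  have hsum : ∑ j ∈ Finset.range m, g j = 1 := by
    have h1 : ∑ j ∈ Finset.range m, g j =
        ∑ j ∈ Finset.range m, (cf h₀ (ramp (s j) η) - cf h₀ (ramp (s (j + 1)) η)) :=
      Finset.sum_congr rfl fun j _ => hgsub j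
    rw [h1, Finset.sum_range_sub']
    have h2 : cf h₀ (ramp (s 0) η) = 1 := by
      rw [cf_congr H hh₀ (continuous_ramp _ _) (g := fun _ => (1 : ℝ)) continuous_const (fun x hx => ?_),
        cf_const H hh₀, Complex.ofReal_one, map_one]
      refine ramp_one hη ?_
      simp only [hs]
      push_cast
      have := hx.1
      linarith
    have h3 : cf h₀ (ramp (s m) η) = 0 := by
      rw [cf_congr H hh₀ (continuous_ramp _ _) (g := fun _ => (0 : ℝ)) continuous_const (fun x hx => ?_),
        cf_const H hh₀, Complex.ofReal_zero, map_zero]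
      exact ramp_zero hη (by have := hx.2; linarith)
    rw [h2, h3, sub_zero]
  -- each pair of corners
  have hpair : ∀ j k : ℕ, ∃ L : ℝ, 0 ≤ L ∧ ∃ e f : A, e * g j = g j ∧ g k * f = g k ∧ Cor e f L := by
    intro j k
    -- absorbing functions
    have habs : ∀ (i : ℕ) (u : ℝ → ℝ), Continuous u →
        (∀ t, s i < t → t < s i + 2 * η → u t = 1) → cf h₀ u * g i = g i ∧ g i * cf h₀ u = g i := by
      intro i u hu h1
      have e1 : (fun t => u t * tent (s i) η t) = tent (s i) η := by
        funext t
        by_cases h0 : tent (s i) η t = 0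
        · rw [h0, mul_zero]
        · obtain ⟨h2, h3⟩ := tent_supp hη h0
          rw [h1 t h2 h3, one_mul]
      have e2 : (fun t => tent (s i) η t * u t) = tent (s i) η := by
        funext t
        rw [mul_comm]
        exact congrFun e1 t
      constructor
      · rw [hg]
        simp only
        rw [← cf_mul H hh₀ hu (continuous_tent _ _), e1]
      · rw [hg]
        simp only
        rw [← cf_mul H hh₀ (continuous_tent _ _) hu, e2]
    by_cases hclose : |s k - s j| ≤ 2 * η
    · -- close nodes
      have hu := continuous_bump (s j + η) (3 * η) η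
      rw [abs_le] at hclose
      refine ⟨K, hK, cf h₀ (bump (s j + η) (3 * η) η), cf h₀ (bump (s j + η) (3 * η) η), ?_, ?_, ?_⟩
      · refine (habs j _ hu fun t h1 h2 => bump_one hη ?_).1
        rw [abs_le]
        constructor <;> linarith
      · refine (habs k _ hu fun t h1 h2 => bump_one hη ?_).2
        rw [abs_le]
        constructor <;> linarith [hclose.1, hclose.2]
      · refine hcor (s j + η) _ hu fun t ht => ?_
        have := bump_supp hη ht
        linarith
    · -- distant nodes
      have hw : 0 < η / 3 := by positivity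
      have huj := continuous_bump (s j + η) η (η / 3)
      have huk := continuous_bump (s k + η) η (η / 3)
      have cj : Cor (cf h₀ (bump (s j + η) η (η / 3))) (cf h₀ (bump (s j + η) η (η / 3))) K := by
        refine hcor (s j + η) _ huj fun t ht => ?_
        have := bump_supp hw ht
        linarith
      have ck : Cor (cf h₀ (bump (s k + η) η (η / 3))) (cf h₀ (bump (s k + η) η (η / 3))) K := by
        refine hcor (s k + η) _ huk fun t ht => ?_
        have := bump_supp hw ht
        linarith
      -- the distance is at least `3 η`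
      have hdist : 3 * η ≤ |s k - s j| := by
        push Not at hclose
        have e1 : s k - s j = ((k : ℝ) - j) * η := by simp only [hs]; ring
        rw [e1, abs_mul, abs_of_pos hη] at hclose ⊢
        have h2 : (2 : ℝ) < |(k : ℝ) - j| := lt_of_mul_lt_mul_right hclose hη.le
        have h3 : (2 : ℤ) < |(k : ℤ) - j| := by exact_mod_cast h2
        have h4 : (3 : ℤ) ≤ |(k : ℤ) - j| := h3
        have h5 : (3 : ℝ) ≤ |(k : ℝ) - j| := by exact_mod_cast h4
        exact mul_le_mul_of_nonneg_right h5 hη.le
      have horth : cf h₀ (bump (s j + η) η (η / 3)) * cf h₀ (bump (s k + η) η (η / 3)) = 0 := by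
        rw [← cf_mul H hh₀ huj huk]
        have e2 : (fun x => bump (s j + η) η (η / 3) x * bump (s k + η) η (η / 3) x) =
            fun _ => (0 : ℝ) := by
          funext t
          by_contra hcon
          have h1 := bump_supp hw (left_ne_zero_of_mul hcon)
          have h2 := bump_supp hw (right_ne_zero_of_mul hcon)
          rw [abs_lt] at h1 h2
          have h3 : |s k - s j| < 3 * η := by
            rw [abs_lt]
            constructor <;> linarith [h1.1, h1.2, h2.1, h2.2]
          linarith
        rw [e2, cf_const H hh₀, Complex.ofReal_zero, map_zero]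
      obtain ⟨L, hL, hLc⟩ := part_two hk (star_cf H hh₀ huj) (star_cf H hh₀ huk) horth hK hK cj ck
      refine ⟨L, hL, _, _, ?_, ?_, hLc⟩
      · refine (habs j _ huj fun t h1 h2 => bump_one hw ?_).1
        rw [abs_le]
        constructor <;> linarith
      · refine (habs k _ huk fun t h1 h2 => bump_one hw ?_).2
        rw [abs_le]
        constructor <;> linarith
  choose L hL hLc using hpair
  choose b hb using fun j : ℕ => P.exists (g j)
  have hb0 : ∀ j, 0 ≤ b j := fun j => (hb j).1
  refine ⟨∑ j ∈ Finset.range m, ∑ k ∈ Finset.range m, L j k * (b j * b k), ?_, fun x c hc => ?_⟩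
  · exact Finset.sum_nonneg fun j _ => Finset.sum_nonneg fun k _ =>
      mul_nonneg (hL j k) (mul_nonneg (hb0 j) (hb0 k))
  · have hx : x = ∑ j ∈ Finset.range m, ∑ k ∈ Finset.range m, g j * x * g k := by
      calc x = (∑ j ∈ Finset.range m, g j) * x * (∑ k ∈ Finset.range m, g k) := by
            rw [hsum, one_mul, mul_one]
        _ = _ := by
            rw [Finset.sum_mul, Finset.sum_mul]
            refine Finset.sum_congr rfl fun j _ => ?_
            rw [Finset.mul_sum]
    have hterm : ∀ j k : ℕ, ‖g j * x * g k‖ ≤ L j k * (b j * b k) * c := by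
      intro j k
      obtain ⟨e, f, h1, h2, h3⟩ := hLc j k
      have h4 := h3 (g j * x * g k) (by rw [← mul_assoc, ← mul_assoc, h1]) (by rw [mul_assoc, h2])
        (b j * c * b k) (P.mul H (P.mul H (hb j) hc) (hb k))
      refine h4.trans (le_of_eq ?_)
      ring
    calc ‖x‖ = ‖∑ j ∈ Finset.range m, ∑ k ∈ Finset.range m, g j * x * g k‖ := by rw [← hx]
      _ ≤ ∑ j ∈ Finset.range m, ‖∑ k ∈ Finset.range m, g j * x * g k‖ := norm_sum_le _ _
      _ ≤ ∑ j ∈ Finset.range m, ∑ k ∈ Finset.range m, ‖g j * x * g k‖ :=
          Finset.sum_le_sum fun j _ => norm_sum_le _ _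
      _ ≤ ∑ j ∈ Finset.range m, ∑ k ∈ Finset.range m, L j k * (b j * b k) * c :=
          Finset.sum_le_sum fun j _ => Finset.sum_le_sum fun k _ => hterm j k
      _ = _ := by
          rw [Finset.sum_mul]
          refine Finset.sum_congr rfl fun j _ => ?_
          rw [Finset.sum_mul]

end Pool.Agent.TH611.Un
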