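import Pool.Agent.TH611.Un6
import Pool.Agent.TH611.Un11

/-!
# Unitarizability and self-adjoint elements of the group algebra
-/

set_option autoImplicit false
set_option linter.unusedSectionVars false
set_option linter.unusedVariables false

noncomputable section

namespace Pool.Agent.TH611.Un

open Polynomial Filter Topology NormedSpace
open Pool.Agent.H71R3.FS Pool.Agent.TH698.Dix

variable {G : Type} [Group G]
variable {H : Type} [NormedAddCommGroup H] [InnerProductSpace ℂ H] [CompleteSpace H]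

theorem smul_mem_HH (π : G →* (H →L[ℂ] H)) {T : H →L[ℂ] H} (hT : T ∈ HH π) (t : ℝ) :
    (t : ℂ) • T ∈ HH π := by
  refine map_mem_closure (f := fun T => (t : ℂ) • T) (continuous_const_smul _) hT ?_
  rintro _ ⟨b, hb, rfl⟩
  refine ⟨(t : ℂ) • b, ?_, map_smul _ _ _⟩
  rw [adj_smul, hb, Complex.conj_ofReal]

/-- individually bounded exponentials in the pair algebra -/
theorem kap_pair (π : G →* (H →L[ℂ] H))
    (hk : ∀ T ∈ HH π, ∃ n : ℝ, ∀ t : ℝ, ‖exp (((t : ℂ) * Complex.I) • T)‖ ≤ n)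
    (h : clo (pr π) (star_pr π)) (hh : IsSelfAdjoint h) : ∃ n : ℝ, Kap h n := by
  obtain ⟨n, hn⟩ := hk _ (fst_mem_HH π hh)
  refine ⟨n, fun t => ?_⟩
  have hz : star (((t : ℂ) • h : clo (pr π) (star_pr π)) : Sw (H →L[ℂ] H)) =
      (((t : ℂ) • h : clo (pr π) (star_pr π)) : Sw (H →L[ℂ] H)) := by
    exact congrArg Subtype.val (isSelfAdjoint_smul_real hh t)
  have h3 := norm_exp_pair (M := n) hz (by
      have := hn t
      rw [mul_comm, mul_smul] at this
      exact this) (by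
      have := hn (-t)
      rw [mul_comm, mul_smul] at this
      have e : -((((t : ℂ) • h : clo (pr π) (star_pr π)) : Sw (H →L[ℂ] H)).1) =
          ((-t : ℝ) : ℂ) • (h : Sw (H →L[ℂ] H)).1 := by
        rw [Complex.ofReal_neg, neg_smul]
        rfl
      rw [e]
      exact this)
  have h4 : ((exp (Complex.I • ((t : ℂ) • h)) : clo (pr π) (star_pr π)) : Sw (H →L[ℂ] H)) =
      exp (Complex.I • (((t : ℂ) • h : clo (pr π) (star_pr π)) : Sw (H →L[ℂ] H))) := by
    let _ : NormedAlgebra ℚ (Sw (H →L[ℂ] H)) := .restrictScalars ℚ ℂ _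
    let _ : NormedAlgebra ℚ (clo (pr π) (star_pr π)) := .restrictScalars ℚ ℂ _
    exact map_exp (clo (pr π) (star_pr π)).subtype.toRingHom continuous_subtype_val
      (Complex.I • ((t : ℂ) • h))
  have h5 : ‖exp (Complex.I • ((t : ℂ) • h))‖ =
      ‖((exp (Complex.I • ((t : ℂ) • h)) : clo (pr π) (star_pr π)) : Sw (H →L[ℂ] H))‖ := rfl
  rw [mul_comm, mul_smul, h5, h4]
  exact h3

/-- domination by the maximal norm follows from the self-adjoint case -/
theorem dom_of_sa (π : G → (H →L[ℂ] H)) {K : ℝ} (hK : 0 ≤ K)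
    (hsa : ∀ b : G →₀ ℂ, adj b = b → ‖opv π b‖ ≤ K * maxNorm b) (a : G →₀ ℂ) :
    ‖opv π a‖ ≤ 2 * K * maxNorm a := by
  set b : G →₀ ℂ := (1 / 2 : ℂ) • (a + adj a) with hb
  set c : G →₀ ℂ := (1 / 2 : ℂ) • (Complex.I • (a - adj a)) with hc
  have hbs : adj b = b := by
    rw [hb, adj_smul, adj_add, adj_adj, add_comm (adj a), conj_half]
  have hcs : adj c = c := by
    rw [hc, adj_smul, adj_smul, adj_sub, adj_adj, Complex.conj_I]
    rw [conj_half, neg_smul, ← smul_neg]
    congr 2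
    abel
  have ha : a = b + (-Complex.I) • c := by
    rw [hb, hc, smul_comm (-Complex.I) (1 / 2 : ℂ), smul_smul (-Complex.I)]
    have : -Complex.I * Complex.I = 1 := by rw [neg_mul, Complex.I_mul_I, neg_neg]
    rw [this, one_smul, ← smul_add]
    have h2 : a + adj a + (a - adj a) = (2 : ℂ) • a := by rw [two_smul]; abel
    rw [h2, smul_smul]
    norm_num
  have hmb : maxNorm b ≤ maxNorm a := by
    calc maxNorm b ≤ ‖(1 / 2 : ℂ)‖ * maxNorm (a + adj a) := maxNorm_smul_le _ _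
      _ ≤ ‖(1 / 2 : ℂ)‖ * (maxNorm a + maxNorm (adj a)) :=
          mul_le_mul_of_nonneg_left (maxNorm_add _ _) (norm_nonneg _)
      _ ≤ ‖(1 / 2 : ℂ)‖ * (maxNorm a + maxNorm a) :=
          mul_le_mul_of_nonneg_left (by linarith [maxNorm_adj_le a]) (norm_nonneg _)
      _ = maxNorm a := by
          rw [norm_div, norm_one]
          norm_num
          ring
  have hneg : maxNorm (-adj a) ≤ maxNorm a := by
    have h1 : -adj a = (-1 : ℂ) • adj a := by rw [neg_one_smul]
    rw [h1]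
    refine (maxNorm_smul_le _ _).trans ?_
    rw [norm_neg, norm_one, one_mul]
    exact maxNorm_adj_le a
  have hmc : maxNorm c ≤ maxNorm a := by
    calc maxNorm c ≤ ‖(1 / 2 : ℂ)‖ * maxNorm (Complex.I • (a - adj a)) := maxNorm_smul_le _ _
      _ ≤ ‖(1 / 2 : ℂ)‖ * (‖Complex.I‖ * maxNorm (a - adj a)) :=
          mul_le_mul_of_nonneg_left (maxNorm_smul_le _ _) (norm_nonneg _)
      _ ≤ ‖(1 / 2 : ℂ)‖ * (1 * (maxNorm a + maxNorm a)) := by
          rw [Complex.norm_I]
          refine mul_le_mul_of_nonneg_left ?_ (norm_nonneg _)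
          rw [one_mul, one_mul, sub_eq_add_neg]
          refine (maxNorm_add _ _).trans ?_
          linarith
      _ = maxNorm a := by
          rw [norm_div, norm_one]
          norm_num
          ring
  have h1 := hsa b hbs
  have h2 := hsa c hcs
  calc ‖opv π a‖ = ‖opv π b + (-Complex.I) • opv π c‖ := by rw [← map_smul, ← map_add, ← ha]
    _ ≤ ‖opv π b‖ + ‖(-Complex.I) • opv π c‖ := norm_add_le _ _
    _ = ‖opv π b‖ + ‖opv π c‖ := by rw [norm_smul, norm_neg, Complex.norm_I, one_mul]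
    _ ≤ K * maxNorm a + K * maxNorm a :=
        add_le_add (h1.trans (mul_le_mul_of_nonneg_left hmb hK))
          (h2.trans (mul_le_mul_of_nonneg_left hmc hK))
    _ = _ := by ring

/-- individually bounded exponentials imply unitarizability -/
theorem unit_of_kap (π : G →* (H →L[ℂ] H)ˣ)
    (hk : ∀ T ∈ HH ((Units.coeHom (H →L[ℂ] H)).comp π),
      ∃ n : ℝ, ∀ t : ℝ, ‖exp (((t : ℂ) * Complex.I) • T)‖ ≤ n) :
    ∃ S : (H →L[ℂ] H)ˣ, ∀ g : G, ((S * π g * S⁻¹ : (H →L[ℂ] H)ˣ) : H →L[ℂ] H) ∈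
      unitary (H →L[ℂ] H) := by
  set ρ : G →* (H →L[ℂ] H) := (Units.coeHom (H →L[ℂ] H)).comp π with hρ
  have hkp := kap_pair ρ hk
  have Hy : Hyp (clo (pr ρ) (star_pr ρ)) := hyp_of_kap hkp
  obtain ⟨K, hK, hKc⟩ := cstar_equiv hkp
  have hsa : ∀ b : G →₀ ℂ, adj b = b → ‖opv ρ b‖ ≤ K * maxNorm b := by
    intro b hb
    have hsa' : IsSelfAdjoint (lc (ιc (pr ρ) (star_pr ρ)) b) := by
      show star (lc (ιc (pr ρ) (star_pr ρ)) b) = lc (ιc (pr ρ) (star_pr ρ)) b
      rw [star_lc _ (star_ιc (pr ρ) (star_pr ρ)), hb]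
    have h1 := hKc _ _ (P.of_bd Hy hsa' (maxNorm_nonneg b)
      (fun x hx => spec_le_maxNorm Hy (ιc (pr ρ) (star_pr ρ)) (star_ιc (pr ρ) (star_pr ρ)) hb hx))
    refine le_trans ?_ h1
    have h2 : ‖(lc (ιc (pr ρ) (star_pr ρ)) b : clo (pr ρ) (star_pr ρ))‖ =
        ‖((lc (ιc (pr ρ) (star_pr ρ)) b : clo (pr ρ) (star_pr ρ)) : Sw (H →L[ℂ] H))‖ := rfl
    rw [h2, coe_lc_ιc, ← fst_lc_pr]
    exact le_max_left _ _
  refine unit_of_bound (C := max 1 (2 * K)) π (le_max_left _ _) fun a => ?_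
  exact (dom_of_sa _ hK hsa a).trans (mul_le_mul_of_nonneg_right (le_max_right _ _) (maxNorm_nonneg a))

/-- the C*-inequality on commuting pairs bounds the exponentials -/
theorem exp_of_ineq (π : G →* (H →L[ℂ] H)) {K : ℝ} (hK0 : 0 ≤ K)
    (hK : ∀ a : G →₀ ℂ, opv π (adj a) * opv π a = opv π a * opv π (adj a) →
      ‖opv π a‖ ^ 2 ≤ K * ‖opv π (adj a) * opv π a‖)
    {b : G →₀ ℂ} (hb : adj b = b) : ‖exp (Complex.I • opv π b)‖ ^ 2 ≤ K := by
  -- the partial sums of the exponential series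
  set z : Sw (H →L[ℂ] H) := lc (pr π) b with hz
  have hzs : star z = z := by rw [hz, star_lc _ (star_pr π), hb]
  set w : ℕ → Sw (H →L[ℂ] H) := fun n =>
    ∑ k ∈ Finset.range n, ((k.factorial : ℂ)⁻¹) • (Complex.I • z) ^ k with hw
  have hzmem : z ∈ gen (pr π) (star_pr π) := (mem_gen _ _ _).2 ⟨b, rfl⟩
  have hwmem : ∀ n, w n ∈ gen (pr π) (star_pr π) := by
    intro n
    refine sum_mem fun k _ => ?_
    exact SMulMemClass.smul_mem _ (pow_mem (SMulMemClass.smul_mem _ hzmem) k)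
  have hlim : Tendsto w atTop (𝓝 (exp (Complex.I • z))) :=
    (exp_series_hasSum_exp' (𝕂 := ℂ) (Complex.I • z)).tendsto_sum_nat
  have hcomm : ∀ n, star (w n) * w n = w n * star (w n) := by
    intro n
    have h1 : Commute (star (w n)) (w n) := by
      rw [hw]
      simp only
      rw [star_sum]
      refine Commute.sum_left _ _ _ fun i _ => Commute.sum_right _ _ _ fun j _ => ?_
      rw [star_smul, star_pow, star_smul, hzs]
      refine Commute.smul_left (Commute.smul_right ?_ _) _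
      refine Commute.pow_pow ?_ _ _
      exact ((Commute.refl z).smul_left _).smul_right _
    exact h1
  have hineq : ∀ n, ‖(w n).1‖ ^ 2 ≤ K * ‖(star (w n) * w n).1‖ := by
    intro n
    obtain ⟨a, ha⟩ := (mem_gen _ _ _).1 (hwmem n)
    have e1 : (w n).1 = opv π a := by rw [← ha, fst_lc_pr]
    have e2 : (star (w n) * w n).1 = opv π (adj a) * opv π a := by
      rw [← ha, star_lc _ (star_pr π)]
      show (lc (pr π) (adj a)).1 * (lc (pr π) a).1 = _
      rw [fst_lc_pr, fst_lc_pr]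
    have e3 : (w n * star (w n)).1 = opv π a * opv π (adj a) := by
      rw [← ha, star_lc _ (star_pr π)]
      show (lc (pr π) a).1 * (lc (pr π) (adj a)).1 = _
      rw [fst_lc_pr, fst_lc_pr]
    rw [e1, e2]
    refine hK a ?_
    rw [← e2, ← e3, hcomm]
  have hc1 : Continuous fun z : Sw (H →L[ℂ] H) => z.1 := continuous_fst
  have l1 : Tendsto (fun n => ‖(w n).1‖ ^ 2) atTop (𝓝 (‖(exp (Complex.I • z)).1‖ ^ 2)) :=
    (((hc1.tendsto _).comp hlim).norm).pow 2
  have l2 : Tendsto (fun n => K * ‖(star (w n) * w n).1‖) atTop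
      (𝓝 (K * ‖(star (exp (Complex.I • z)) * exp (Complex.I • z)).1‖)) := by
    have h1 : Tendsto (fun n => star (w n) * w n) atTop
        (𝓝 (star (exp (Complex.I • z)) * exp (Complex.I • z))) :=
      ((continuous_star.tendsto _).comp hlim).mul hlim
    exact (((hc1.tendsto _).comp h1).norm).const_mul K
  have h3 := le_of_tendsto_of_tendsto' l1 l2 hineq
  have e4 : star (exp (Complex.I • z)) * exp (Complex.I • z) = 1 := by
    let _ : NormedAlgebra ℚ (Sw (H →L[ℂ] H)) := .restrictScalars ℚ ℂ _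
    rw [star_exp, star_smul, hzs]
    have h5 : star Complex.I = -Complex.I := Complex.conj_I
    rw [h5, neg_smul, ← exp_add_of_commute (Commute.neg_left (Commute.refl _)), neg_add_cancel,
      exp_zero]
  have e5 : (exp (Complex.I • z)).1 = exp (Complex.I • opv π b) := by
    let _ : NormedAlgebra ℚ (H →L[ℂ] H) := .restrictScalars ℚ ℂ _
    have h6 : (exp (Complex.I • z)).1 = exp (Complex.I • z.1) :=
      Prod.fst_exp (𝔸 := H →L[ℂ] H) (𝔹 := H →L[ℂ] H) (Complex.I • z)
    rw [h6, hz, fst_lc_pr]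
  rw [e4, e5] at h3
  refine h3.trans ?_
  have h8 : ‖((1 : Sw (H →L[ℂ] H))).1‖ ≤ 1 := by
    show ‖(1 : H →L[ℂ] H)‖ ≤ 1
    exact ContinuousLinearMap.norm_id_le
  nlinarith

end Pool.Agent.TH611.Un
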