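import Pool.Agent.TH611.Un12

/-!
# Equivalent conditions for unitarizability
-/

set_option autoImplicit false
set_option linter.unusedSectionVars false
set_option linter.unusedVariables false

noncomputable section

namespace Pool.Agent.TH611.Un

open Polynomial Filter Topology NormedSpace
open Pool.Agent.H71R3.FS Pool.Agent.TH698.Dix

variable {G : Type} [Group G]
variable {H : Type} [NormedAddCommGroup H] [InnerProductSpace ℂ H] [CompleteSpace H]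

/-- conjugation turns `f*` into the adjoint -/
theorem conj_adj (π : G →* (H →L[ℂ] H)ˣ) (S : (H →L[ℂ] H)ˣ)
    (hS : ∀ g : G, ((S * π g * S⁻¹ : (H →L[ℂ] H)ˣ) : H →L[ℂ] H) ∈ unitary (H →L[ℂ] H))
    (a : G →₀ ℂ) :
    (S : H →L[ℂ] H) * opv (fun g => ((π g : (H →L[ℂ] H)ˣ) : H →L[ℂ] H)) (adj a) *
        ((S⁻¹ : (H →L[ℂ] H)ˣ) : H →L[ℂ] H) =
      star ((S : H →L[ℂ] H) * opv (fun g => ((π g : (H →L[ℂ] H)ˣ) : H →L[ℂ] H)) a *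
        ((S⁻¹ : (H →L[ℂ] H)ˣ) : H →L[ℂ] H)) := by
  induction a using Finsupp.induction_linear with
  | zero =>
    have : adj (0 : G →₀ ℂ) = 0 := by ext g; simp [adj_apply]
    rw [this, map_zero, mul_zero, zero_mul, star_zero]
  | add f g hf hg => rw [adj_add, map_add, map_add, mul_add, add_mul, mul_add, add_mul, star_add, hf, hg]
  | single g c =>
    have hs : ∀ (g : G) (c : ℂ), opv (fun g => ((π g : (H →L[ℂ] H)ˣ) : H →L[ℂ] H)) (Finsupp.single g c) =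
        c • ((π g : (H →L[ℂ] H)ˣ) : H →L[ℂ] H) := fun g c => by
      unfold opv
      exact Finsupp.linearCombination_single _ _ _
    rw [adj_single, hs, hs, mul_smul_comm, smul_mul_assoc, mul_smul_comm, smul_mul_assoc, star_smul]
    congr 1
    have e1 : (S : H →L[ℂ] H) * ((π g : (H →L[ℂ] H)ˣ) : H →L[ℂ] H) * ((S⁻¹ : (H →L[ℂ] H)ˣ) : H →L[ℂ] H) =
        ((S * π g * S⁻¹ : (H →L[ℂ] H)ˣ) : H →L[ℂ] H) := rfl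
    have e2 : (S : H →L[ℂ] H) * ((π g⁻¹ : (H →L[ℂ] H)ˣ) : H →L[ℂ] H) * ((S⁻¹ : (H →L[ℂ] H)ˣ) : H →L[ℂ] H) =
        ((S * π g⁻¹ * S⁻¹ : (H →L[ℂ] H)ˣ) : H →L[ℂ] H) := rfl
    rw [e1, e2]
    set U : H →L[ℂ] H := ((S * π g * S⁻¹ : (H →L[ℂ] H)ˣ) : H →L[ℂ] H) with hU
    have h1 : star U * U = 1 := (Unitary.mem_iff.1 (hS g)).1
    have h2 : U * ((S * π g⁻¹ * S⁻¹ : (H →L[ℂ] H)ˣ) : H →L[ℂ] H) = 1 := by
      rw [hU, ← Units.val_mul]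
      have : S * π g * S⁻¹ * (S * π g⁻¹ * S⁻¹) = 1 := by
        rw [map_inv]; group
      rw [this, Units.val_one]
    calc ((S * π g⁻¹ * S⁻¹ : (H →L[ℂ] H)ˣ) : H →L[ℂ] H)
        = (star U * U) * ((S * π g⁻¹ * S⁻¹ : (H →L[ℂ] H)ˣ) : H →L[ℂ] H) := by rw [h1, one_mul]
      _ = star U := by rw [mul_assoc, h2, mul_one]

theorem unconj (S : (H →L[ℂ] H)ˣ) (T : H →L[ℂ] H) :
    T = ((S⁻¹ : (H →L[ℂ] H)ˣ) : H →L[ℂ] H) * ((S : H →L[ℂ] H) * T *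
      ((S⁻¹ : (H →L[ℂ] H)ˣ) : H →L[ℂ] H)) * (S : H →L[ℂ] H) := by
  have h1 : ((S⁻¹ : (H →L[ℂ] H)ˣ) : H →L[ℂ] H) * (S : H →L[ℂ] H) = 1 := S.inv_mul
  calc T = (((S⁻¹ : (H →L[ℂ] H)ˣ) : H →L[ℂ] H) * (S : H →L[ℂ] H)) * T *
        (((S⁻¹ : (H →L[ℂ] H)ˣ) : H →L[ℂ] H) * (S : H →L[ℂ] H)) := by rw [h1, one_mul, mul_one]
    _ = _ := by simp only [mul_assoc]

/-- the C*-inequality for unitarizable homomorphisms -/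
theorem ineq_of_unit (π : G →* (H →L[ℂ] H)ˣ) (S : (H →L[ℂ] H)ˣ)
    (hS : ∀ g : G, ((S * π g * S⁻¹ : (H →L[ℂ] H)ˣ) : H →L[ℂ] H) ∈ unitary (H →L[ℂ] H)) :
    ∃ K : ℝ, ∀ a : G →₀ ℂ, ‖opv (fun g => ((π g : (H →L[ℂ] H)ˣ) : H →L[ℂ] H)) a‖ ^ 2 ≤
      K * ‖opv (fun g => ((π g : (H →L[ℂ] H)ˣ) : H →L[ℂ] H)) (adj a) *
        opv (fun g => ((π g : (H →L[ℂ] H)ˣ) : H →L[ℂ] H)) a‖ := by
  set C : ℝ := ‖((S⁻¹ : (H →L[ℂ] H)ˣ) : H →L[ℂ] H)‖ * ‖(S : H →L[ℂ] H)‖ with hC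
  have hC0 : 0 ≤ C := by positivity
  refine ⟨C ^ 2 * C, fun a => ?_⟩
  set T : H →L[ℂ] H := opv (fun g => ((π g : (H →L[ℂ] H)ˣ) : H →L[ℂ] H)) a with hT
  set T' : H →L[ℂ] H := opv (fun g => ((π g : (H →L[ℂ] H)ˣ) : H →L[ℂ] H)) (adj a) with hT'
  set R : H →L[ℂ] H := (S : H →L[ℂ] H) * T * ((S⁻¹ : (H →L[ℂ] H)ˣ) : H →L[ℂ] H) with hR
  have h1 : ‖T‖ ≤ C * ‖R‖ := by
    have e : T = ((S⁻¹ : (H →L[ℂ] H)ˣ) : H →L[ℂ] H) * R * (S : H →L[ℂ] H) := unconj S T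
    calc ‖T‖ = ‖((S⁻¹ : (H →L[ℂ] H)ˣ) : H →L[ℂ] H) * R * (S : H →L[ℂ] H)‖ := by rw [← e]
      _ ≤ ‖((S⁻¹ : (H →L[ℂ] H)ˣ) : H →L[ℂ] H)‖ * ‖R‖ * ‖(S : H →L[ℂ] H)‖ :=
          (norm_mul_le _ _).trans (mul_le_mul_of_nonneg_right (norm_mul_le _ _) (norm_nonneg _))
      _ = C * ‖R‖ := by rw [hC]; ring
  have h2 : ‖R‖ ^ 2 = ‖star R * R‖ := by rw [CStarRing.norm_star_mul_self, pow_two]
  have h3 : star R * R = (S : H →L[ℂ] H) * (T' * T) * ((S⁻¹ : (H →L[ℂ] H)ˣ) : H →L[ℂ] H) := by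
    rw [← conj_adj π S hS a]
    have h4 : ((S⁻¹ : (H →L[ℂ] H)ˣ) : H →L[ℂ] H) * (S : H →L[ℂ] H) = 1 := S.inv_mul
    calc (S : H →L[ℂ] H) * T' * ((S⁻¹ : (H →L[ℂ] H)ˣ) : H →L[ℂ] H) *
        ((S : H →L[ℂ] H) * T * ((S⁻¹ : (H →L[ℂ] H)ˣ) : H →L[ℂ] H))
        = (S : H →L[ℂ] H) * T' * (((S⁻¹ : (H →L[ℂ] H)ˣ) : H →L[ℂ] H) * (S : H →L[ℂ] H)) * T *
          ((S⁻¹ : (H →L[ℂ] H)ˣ) : H →L[ℂ] H) := by simp only [mul_assoc]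
      _ = _ := by rw [h4, mul_one]; simp only [mul_assoc]
  have h5 : ‖star R * R‖ ≤ C * ‖T' * T‖ := by
    rw [h3]
    calc ‖(S : H →L[ℂ] H) * (T' * T) * ((S⁻¹ : (H →L[ℂ] H)ˣ) : H →L[ℂ] H)‖
        ≤ ‖(S : H →L[ℂ] H)‖ * ‖T' * T‖ * ‖((S⁻¹ : (H →L[ℂ] H)ˣ) : H →L[ℂ] H)‖ :=
          (norm_mul_le _ _).trans (mul_le_mul_of_nonneg_right (norm_mul_le _ _) (norm_nonneg _))
      _ = C * ‖T' * T‖ := by rw [hC]; ring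
  calc ‖T‖ ^ 2 ≤ (C * ‖R‖) ^ 2 := pow_le_pow_left₀ (norm_nonneg _) h1 2
    _ = C ^ 2 * ‖star R * R‖ := by rw [mul_pow, h2]
    _ ≤ C ^ 2 * (C * ‖T' * T‖) := mul_le_mul_of_nonneg_left h5 (sq_nonneg C)
    _ = C ^ 2 * C * ‖T' * T‖ := by ring

/-- unitarizability makes all operators in the closure similar to self-adjoint ones -/
theorem sa_of_unit (π : G →* (H →L[ℂ] H)ˣ) (S : (H →L[ℂ] H)ˣ)
    (hS : ∀ g : G, ((S * π g * S⁻¹ : (H →L[ℂ] H)ˣ) : H →L[ℂ] H) ∈ unitary (H →L[ℂ] H))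
    {T : H →L[ℂ] H} (hT : T ∈ HH ((Units.coeHom (H →L[ℂ] H)).comp π)) :
    IsSelfAdjoint ((S : H →L[ℂ] H) * T * ((S⁻¹ : (H →L[ℂ] H)ˣ) : H →L[ℂ] H)) := by
  have hcl : IsClosed {T : H →L[ℂ] H | star ((S : H →L[ℂ] H) * T *
      ((S⁻¹ : (H →L[ℂ] H)ˣ) : H →L[ℂ] H)) = (S : H →L[ℂ] H) * T *
      ((S⁻¹ : (H →L[ℂ] H)ˣ) : H →L[ℂ] H)} :=
    isClosed_eq (by fun_prop) (by fun_prop)
  refine closure_minimal ?_ hcl hT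
  rintro _ ⟨b, hb, rfl⟩
  have := conj_adj π S hS b
  rw [hb] at this
  exact this.symm

/-- operators similar to self-adjoint ones generate bounded groups -/
theorem kap_of_sa {T : H →L[ℂ] H} (S : (H →L[ℂ] H)ˣ)
    (hS : IsSelfAdjoint ((S : H →L[ℂ] H) * T * ((S⁻¹ : (H →L[ℂ] H)ˣ) : H →L[ℂ] H))) :
    ∃ n : ℝ, ∀ t : ℝ, ‖exp (((t : ℂ) * Complex.I) • T)‖ ≤ n := by
  refine ⟨‖((S⁻¹ : (H →L[ℂ] H)ˣ) : H →L[ℂ] H)‖ * ‖(S : H →L[ℂ] H)‖, fun t => ?_⟩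
  set R : H →L[ℂ] H := (S : H →L[ℂ] H) * T * ((S⁻¹ : (H →L[ℂ] H)ˣ) : H →L[ℂ] H) with hR
  have hRs : star R = R := hS
  have e1 : T = ((S⁻¹ : (H →L[ℂ] H)ˣ) : H →L[ℂ] H) * R * (S : H →L[ℂ] H) := unconj S T
  let _ : NormedAlgebra ℚ (H →L[ℂ] H) := .restrictScalars ℚ ℂ _
  have e2 : exp (((t : ℂ) * Complex.I) • T) = ((S⁻¹ : (H →L[ℂ] H)ˣ) : H →L[ℂ] H) *
      exp (((t : ℂ) * Complex.I) • R) * (S : H →L[ℂ] H) := by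
    have h1 := exp_units_conj' S (((t : ℂ) * Complex.I) • R)
    rw [← h1]
    congr 1
    conv_lhs => rw [e1]
    rw [mul_smul_comm, smul_mul_assoc]
  have h2 : ‖exp (((t : ℂ) * Complex.I) • R)‖ ≤ 1 := by
    have h3 : star (exp (((t : ℂ) * Complex.I) • R)) * exp (((t : ℂ) * Complex.I) • R) = 1 := by
      rw [star_exp, star_smul, hRs]
      have h5 : star ((t : ℂ) * Complex.I) = -((t : ℂ) * Complex.I) := by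
        show (starRingEnd ℂ) ((t : ℂ) * Complex.I) = _
        rw [map_mul, Complex.conj_ofReal, Complex.conj_I, mul_neg]
      rw [h5, neg_smul, ← exp_add_of_commute (Commute.neg_left (Commute.refl _)), neg_add_cancel,
        exp_zero]
    have h4 := CStarRing.norm_star_mul_self (x := exp (((t : ℂ) * Complex.I) • R))
    rw [h3] at h4
    have h5 : ‖(1 : H →L[ℂ] H)‖ ≤ 1 := ContinuousLinearMap.norm_id_le
    rw [h4] at h5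
    nlinarith [norm_nonneg (exp (((t : ℂ) * Complex.I) • R))]
  rw [e2]
  calc ‖((S⁻¹ : (H →L[ℂ] H)ˣ) : H →L[ℂ] H) * exp (((t : ℂ) * Complex.I) • R) * (S : H →L[ℂ] H)‖
      ≤ ‖((S⁻¹ : (H →L[ℂ] H)ˣ) : H →L[ℂ] H)‖ * ‖exp (((t : ℂ) * Complex.I) • R)‖ *
        ‖(S : H →L[ℂ] H)‖ :=
        (norm_mul_le _ _).trans (mul_le_mul_of_nonneg_right (norm_mul_le _ _) (norm_nonneg _))
    _ ≤ ‖((S⁻¹ : (H →L[ℂ] H)ˣ) : H →L[ℂ] H)‖ * 1 * ‖(S : H →L[ℂ] H)‖ := by gcongr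
    _ = _ := by rw [mul_one]

/-- **Criteria for unitarizability.** -/
theorem tfae_all (π : G →* (H →L[ℂ] H)ˣ) :
    List.TFAE
      [ ∃ S : (H →L[ℂ] H)ˣ, ∀ g : G, ((S * π g * S⁻¹ : (H →L[ℂ] H)ˣ) : H →L[ℂ] H) ∈
          unitary (H →L[ℂ] H),
        ∀ T ∈ HH ((Units.coeHom (H →L[ℂ] H)).comp π), ∃ S : (H →L[ℂ] H)ˣ,
          IsSelfAdjoint ((S : H →L[ℂ] H) * T * ((S⁻¹ : (H →L[ℂ] H)ˣ) : H →L[ℂ] H)),
        ∀ T ∈ HH ((Units.coeHom (H →L[ℂ] H)).comp π),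
          ∃ n : ℝ, ∀ t : ℝ, ‖exp (((t : ℂ) * Complex.I) • T)‖ ≤ n,
        ∃ K : ℝ, ∀ a : G →₀ ℂ, ‖opv (fun g => ((π g : (H →L[ℂ] H)ˣ) : H →L[ℂ] H)) a‖ ^ 2 ≤
          K * ‖opv (fun g => ((π g : (H →L[ℂ] H)ˣ) : H →L[ℂ] H)) (adj a) *
            opv (fun g => ((π g : (H →L[ℂ] H)ˣ) : H →L[ℂ] H)) a‖,
        ∃ K : ℝ, ∀ a : G →₀ ℂ, opv (fun g => ((π g : (H →L[ℂ] H)ˣ) : H →L[ℂ] H)) (adj a) *
            opv (fun g => ((π g : (H →L[ℂ] H)ˣ) : H →L[ℂ] H)) a =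
              opv (fun g => ((π g : (H →L[ℂ] H)ˣ) : H →L[ℂ] H)) a *
                opv (fun g => ((π g : (H →L[ℂ] H)ˣ) : H →L[ℂ] H)) (adj a) →
          ‖opv (fun g => ((π g : (H →L[ℂ] H)ˣ) : H →L[ℂ] H)) a‖ ^ 2 ≤
          K * ‖opv (fun g => ((π g : (H →L[ℂ] H)ˣ) : H →L[ℂ] H)) (adj a) *
            opv (fun g => ((π g : (H →L[ℂ] H)ˣ) : H →L[ℂ] H)) a‖,
        ∃ K : ℝ, ∀ b : G →₀ ℂ, adj b = b →
          ‖exp (Complex.I • opv (fun g => ((π g : (H →L[ℂ] H)ˣ) : H →L[ℂ] H)) b)‖ ≤ K ] := by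
  tfae_have 1 → 2 := by
    rintro ⟨S, hS⟩ T hT
    exact ⟨S, sa_of_unit π S hS hT⟩
  tfae_have 2 → 3 := by
    intro h T hT
    obtain ⟨S, hS⟩ := h T hT
    exact kap_of_sa S hS
  tfae_have 3 → 1 := fun h => unit_of_kap π h
  tfae_have 1 → 4 := by
    rintro ⟨S, hS⟩
    exact ineq_of_unit π S hS
  tfae_have 4 → 5 := by
    rintro ⟨K, hK⟩
    exact ⟨K, fun a _ => hK a⟩
  tfae_have 5 → 6 := by
    rintro ⟨K, hK⟩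
    refine ⟨Real.sqrt (max K 0), fun b hb => ?_⟩
    have h1 := exp_of_ineq ((Units.coeHom (H →L[ℂ] H)).comp π) (le_max_right K 0) (fun a ha =>
      (hK a ha).trans (mul_le_mul_of_nonneg_right (le_max_left _ _) (norm_nonneg _))) hb
    exact Real.le_sqrt_of_sq_le h1
  tfae_have 6 → 3 := by
    rintro ⟨K, hK⟩ T hT
    refine ⟨K, fun t => ?_⟩
    have h1 := exp_bound_closure ((Units.coeHom (H →L[ℂ] H)).comp π) (M := K) (fun b hb => hK b hb) _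
      (smul_mem_HH _ hT t)
    rwa [smul_smul, mul_comm] at h1
  tfae_finish

end Pool.Agent.TH611.Un
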