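import Pool.Agent.TH611.Un1

/-!
# Positivity: sums, the Shirali-Ford theorem
-/

set_option autoImplicit false
set_option linter.unusedSectionVars false
set_option linter.unusedVariables false

noncomputable section

namespace Pool.Agent.TH611.Un

open Polynomial Filter Topology

variable {A : Type} [NormedRing A] [NormedAlgebra ℂ A] [CompleteSpace A] [StarRing A]
  [StarModule ℂ A] [ContinuousStar A]

theorem norm_pow_le (H : Hyp A) {h : A} (hh : IsSelfAdjoint h) (hD : Dsc h) :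
    ∃ K ρ : ℝ, 0 ≤ K ∧ 0 ≤ ρ ∧ ρ < 1 ∧ ∀ n : ℕ, ‖h ^ n‖ ≤ K * ρ ^ n := by
  obtain ⟨ρ, h0, h1, hρ⟩ := hD.exists_lt
  obtain ⟨K, hK, hpol⟩ := H.pol h hh
  refine ⟨K, ρ, hK, h0, h1, fun n => ?_⟩
  have h2 := hpol (X ^ n) (ρ ^ n) (by positivity) (fun x hx => by
    rw [eval_pow, eval_X, abs_pow]
    have := hρ _ hx
    rw [Complex.norm_real, Real.norm_eq_abs] at this
    exact pow_le_pow_left₀ (abs_nonneg _) this n)
  rwa [pv_pow, pv_X] at h2

/-- for self-adjoint `h, k` of spectral radius below one, `h k` has spectral radius below one -/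
theorem dsc_mul (H : Hyp A) {h k : A} (hh : IsSelfAdjoint h) (hk : IsSelfAdjoint k)
    (hDh : Dsc h) (hDk : Dsc k) : Dsc (h * k) := by
  obtain ⟨K, ρ, hK, hρ0, hρ1, hp⟩ := norm_pow_le H hh hDh
  obtain ⟨L, σ, hL, hσ0, hσ1, hq⟩ := norm_pow_le H hk hDk
  have hlim : Tendsto (fun n : ℕ => (K * ρ ^ n) * (L * σ ^ n) * ‖(1 : A)‖) atTop
      (𝓝 ((K * 0) * (L * 0) * ‖(1 : A)‖)) :=
    (((tendsto_pow_atTop_nhds_zero_of_lt_one hρ0 hρ1).const_mul K).mul
      ((tendsto_pow_atTop_nhds_zero_of_lt_one hσ0 hσ1).const_mul L)).mul_const _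
  rw [mul_zero, zero_mul, zero_mul] at hlim
  have hev := (hlim.eventually (gt_mem_nhds zero_lt_one)).exists_forall_of_atTop
  obtain ⟨N, hN⟩ := hev
  -- a power of two above `N`
  have hbig : N ≤ 2 ^ N := Nat.lt_two_pow_self.le
  have hbase : Dsc (h ^ 2 ^ N * k ^ 2 ^ N) := by
    apply Dsc.of_norm
    refine lt_of_le_of_lt ?_ (hN _ hbig)
    refine mul_le_mul_of_nonneg_right ?_ (norm_nonneg _)
    exact (norm_mul_le _ _).trans (mul_le_mul (hp _) (hq _) (norm_nonneg _) (by positivity))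
  have hstep : ∀ j : ℕ, Dsc (h ^ 2 ^ (j + 1) * k ^ 2 ^ (j + 1)) → Dsc (h ^ 2 ^ j * k ^ 2 ^ j) := by
    intro j hj
    apply Dsc.of_star_mul H
    have e1 : star (h ^ 2 ^ j * k ^ 2 ^ j) = k ^ 2 ^ j * h ^ 2 ^ j := by
      have h1 : star h = h := hh
      have h2 : star k = k := hk
      rw [star_mul, star_pow, star_pow, h1, h2]
    rw [e1]
    have e2 : k ^ 2 ^ j * h ^ 2 ^ j * (h ^ 2 ^ j * k ^ 2 ^ j) =
        k ^ 2 ^ j * (h ^ 2 ^ (j + 1) * k ^ 2 ^ j) := by
      rw [pow_succ 2 j, pow_mul, sq (h ^ 2 ^ j)]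
      simp only [mul_assoc]
    rw [e2]
    apply Dsc.comm
    have e3 : h ^ 2 ^ (j + 1) * k ^ 2 ^ j * k ^ 2 ^ j = h ^ 2 ^ (j + 1) * k ^ 2 ^ (j + 1) := by
      rw [pow_succ 2 j, pow_mul k, sq (k ^ 2 ^ j)]
      simp only [mul_assoc]
    rw [e3]
    exact hj
  have hall : ∀ m : ℕ, m ≤ N → Dsc (h ^ 2 ^ (N - m) * k ^ 2 ^ (N - m)) := by
    intro m
    induction m with
    | zero => intro _; exact hbase
    | succ m ih =>
      intro hm
      have h1 := ih (by omega)
      have h2 : N - m = (N - (m + 1)) + 1 := by omega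
      rw [h2] at h1
      exact hstep _ h1
  have := hall N le_rfl
  rw [Nat.sub_self, pow_zero, pow_one, pow_one] at this
  exact this

/-- self-adjoint with nonnegative spectrum -/
def Pos (h : A) : Prop := IsSelfAdjoint h ∧ ∀ x ∈ spectrum ℂ h, 0 ≤ x.re

theorem Pos.mem {H : Hyp A} {h : A} (hh : Pos h) {x : ℂ} (hx : x ∈ spectrum ℂ h) :
    x = ((x.re : ℝ) : ℂ) ∧ 0 ≤ x.re :=
  ⟨Complex.ext (by simp) (by simp [H.re h hh.1 x hx]), hh.2 x hx⟩

theorem Pos.one_add (H : Hyp A) {h : A} (hh : Pos h) :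
    ∃ u : Aˣ, (u : A) = 1 + h ∧ IsSelfAdjoint (1 - (u⁻¹ : Aˣ).val) ∧ Dsc (1 - (u⁻¹ : Aˣ).val) := by
  have hu : IsUnit (1 + h) := by
    by_contra hcon
    have h1 : (-1 : ℂ) ∈ spectrum ℂ h := by
      rw [spectrum.mem_iff]
      intro h2
      apply hcon
      have h3 : algebraMap ℂ A (-1) - h = -(1 + h) := by
        rw [map_neg, map_one]; abel
      rw [h3] at h2
      exact (IsUnit.neg_iff _).1 h2
    have := hh.2 _ h1
    simp at this
    linarith
  obtain ⟨u, hu⟩ := hu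
  refine ⟨u, hu, ?_, ?_⟩
  · show star (1 - (u⁻¹ : Aˣ).val) = 1 - (u⁻¹ : Aˣ).val
    have h1 : star h = h := hh.1
    have h2 : star (u : A) = u := by rw [hu, star_add, star_one, h1]
    have h3 : star (u⁻¹ : Aˣ).val = (u⁻¹ : Aˣ).val := by
      have e1 : star (u⁻¹ : Aˣ).val * (u : A) = 1 := by
        have := congrArg star u.mul_inv
        rw [star_mul, star_one, h2] at this
        exact this
      calc star (u⁻¹ : Aˣ).val = star (u⁻¹ : Aˣ).val * ((u : A) * (u⁻¹ : Aˣ).val) := by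
            rw [u.mul_inv, mul_one]
        _ = (u⁻¹ : Aˣ).val := by rw [← mul_assoc, e1, one_mul]
    rw [star_sub, star_one, h3]
  · intro x hx
    -- `1 - x` is in the spectrum of `u⁻¹`
    have h1 : 1 - x ∈ spectrum ℂ (u⁻¹ : Aˣ).val := by
      rw [spectrum.mem_iff] at hx ⊢
      intro h2
      apply hx
      have h3 : algebraMap ℂ A x - (1 - (u⁻¹ : Aˣ).val) =
          -(algebraMap ℂ A (1 - x) - (u⁻¹ : Aˣ).val) := by
        rw [map_sub, map_one]; abel
      rw [h3]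
      exact h2.neg
    have h2 : 1 - x ≠ 0 := by
      intro h3
      rw [h3] at h1
      exact spectrum.zero_notMem ℂ (u⁻¹ : Aˣ).isUnit h1
    have h3 : (1 - x)⁻¹ ∈ spectrum ℂ (u : A) := by
      have h4 := (spectrum.inv_mem_iff (r := Units.mk0 (1 - x) h2) (a := u⁻¹)).1 h1
      rw [inv_inv] at h4
      simpa using h4
    have h4 : (1 - x)⁻¹ - 1 ∈ spectrum ℂ h := by
      rw [spectrum.mem_iff] at h3 ⊢
      intro h5
      apply h3
      have h6 : algebraMap ℂ A (1 - x)⁻¹ - (u : A) = algebraMap ℂ A ((1 - x)⁻¹ - 1) - h := by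
        rw [hu, map_sub, map_one]; abel
      rw [h6]
      exact h5
    obtain ⟨h5, h6⟩ := Pos.mem (H := H) hh h4
    set m : ℝ := ((1 - x)⁻¹ - 1).re with hm
    have h7 : (1 - x)⁻¹ = ((m + 1 : ℝ) : ℂ) := by
      push_cast
      rw [← h5]; ring
    have h8 : x = ((m / (m + 1) : ℝ) : ℂ) := by
      have h9 : 1 - x = ((m + 1 : ℝ) : ℂ)⁻¹ := by rw [← h7, inv_inv]
      have h10 : ((m + 1 : ℝ) : ℂ) ≠ 0 := by
        rw [Complex.ofReal_ne_zero]
        linarith
      have h11 : x = 1 - ((m + 1 : ℝ) : ℂ)⁻¹ := by rw [← h9]; ring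
      rw [h11]
      push_cast
      push_cast at h10
      field_simp
      ring
    rw [h8, Complex.norm_real, Real.norm_of_nonneg (by positivity), div_lt_one (by linarith)]
    linarith

theorem isUnit_one_add_add (H : Hyp A) {h k : A} (hh : Pos h) (hk : Pos k) :
    IsUnit (1 + h + k) := by
  obtain ⟨u, hu, hua, hud⟩ := hh.one_add H
  obtain ⟨w, hw, hwa, hwd⟩ := hk.one_add H
  have h1 := dsc_mul H hua hwa hud hwd
  have h2 : IsUnit (1 - (1 - (u⁻¹ : Aˣ).val) * (1 - (w⁻¹ : Aˣ).val)) := by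
    by_contra hcon
    have h3 : (1 : ℂ) ∈ spectrum ℂ ((1 - (u⁻¹ : Aˣ).val) * (1 - (w⁻¹ : Aˣ).val)) := by
      rw [spectrum.mem_iff, map_one]
      exact hcon
    have := h1 _ h3
    rw [norm_one] at this
    exact lt_irrefl _ this
  have h3 : 1 + h + k = (u : A) * (1 - (1 - (u⁻¹ : Aˣ).val) * (1 - (w⁻¹ : Aˣ).val)) * (w : A) := by
    have e1 : (u : A) * (1 - (u⁻¹ : Aˣ).val) = h := by
      rw [mul_sub, mul_one, u.mul_inv, hu]; abel
    have e2 : (1 - (w⁻¹ : Aˣ).val) * (w : A) = k := by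
      rw [sub_mul, one_mul, w.inv_mul, hw]; abel
    have e3 : (u : A) * (1 - (1 - (u⁻¹ : Aˣ).val) * (1 - (w⁻¹ : Aˣ).val)) * (w : A) =
        (u : A) * (w : A) - ((u : A) * (1 - (u⁻¹ : Aˣ).val)) * ((1 - (w⁻¹ : Aˣ).val) * (w : A)) := by
      noncomm_ring
    rw [e3, e1, e2, hu, hw]
    noncomm_ring
  rw [h3]
  exact (u.isUnit.mul h2).mul w.isUnit

theorem Pos.smul (H : Hyp A) {h : A} (hh : Pos h) {c : ℝ} (hc : 0 ≤ c) : Pos ((c : ℂ) • h) := by
  refine ⟨?_, fun x hx => ?_⟩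
  · show star ((c : ℂ) • h) = (c : ℂ) • h
    have h1 : star h = h := hh.1
    rw [star_smul, h1]
    congr 1
    exact Complex.conj_ofReal c
  · rcases hc.eq_or_lt with h0 | h0
    · rw [← h0, Complex.ofReal_zero, zero_smul] at hx
      cases subsingleton_or_nontrivial A with
      | inl hs =>
        rw [spectrum.of_subsingleton] at hx
        exact absurd hx (Set.notMem_empty _)
      | inr hn =>
        rw [spectrum.zero_eq, Set.mem_singleton_iff] at hx
        rw [hx]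
        simp
    · have hne : (c : ℂ) ≠ 0 := Complex.ofReal_ne_zero.2 h0.ne'
      have hu : IsUnit (c : ℂ) := isUnit_iff_ne_zero.2 hne
      have h1 : (c : ℂ) * ((c : ℂ)⁻¹ * x) ∈ spectrum ℂ ((c : ℂ) • h) := by
        rw [mul_inv_cancel_left₀ hne]; exact hx
      have h2 : (c : ℂ)⁻¹ * x ∈ spectrum ℂ h := (spectrum.smul_mem_smul_iff (r := hu.unit)).1 h1
      obtain ⟨h3, h4⟩ := Pos.mem (H := H) hh h2
      have h5 : x = (c : ℂ) * ((((c : ℂ)⁻¹ * x).re : ℝ) : ℂ) := by
        rw [← h3, mul_inv_cancel_left₀ hne]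
      rw [h5, ← Complex.ofReal_mul, Complex.ofReal_re]
      positivity

theorem Pos.add (H : Hyp A) {h k : A} (hh : Pos h) (hk : Pos k) : Pos (h + k) := by
  have hsa : IsSelfAdjoint (h + k) := hh.1.add hk.1
  refine ⟨hsa, fun x hx => ?_⟩
  by_contra hcon
  push Not at hcon
  have h1 : x = ((x.re : ℝ) : ℂ) := Complex.ext (by simp) (by simp [H.re _ hsa x hx])
  set c : ℝ := -x.re with hc
  have hc0 : 0 < c := by linarith
  have h2 := isUnit_one_add_add H (hh.smul H (inv_nonneg.2 hc0.le)) (hk.smul H (inv_nonneg.2 hc0.le))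
  rw [spectrum.mem_iff] at hx
  apply hx
  have hne : (c : ℂ) ≠ 0 := Complex.ofReal_ne_zero.2 hc0.ne'
  have h3 : algebraMap ℂ A x - (h + k) =
      -((c : ℂ) • (1 + ((c⁻¹ : ℝ) : ℂ) • h + ((c⁻¹ : ℝ) : ℂ) • k)) := by
    rw [smul_add, smul_add, smul_smul, smul_smul, Complex.ofReal_inv, mul_inv_cancel₀ hne,
      one_smul, one_smul, ← Algebra.algebraMap_eq_smul_one]
    have h4 : x = -(c : ℂ) := by
      rw [hc, Complex.ofReal_neg, neg_neg]; exact h1
    rw [h4, map_neg]
    abel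
  rw [h3]
  exact ((h2.smul (Units.mk0 (c : ℂ) hne))).neg

theorem Pos.of_pv (H : Hyp A) {h : A} (hh : IsSelfAdjoint h) (q : ℝ[X])
    (hq : ∀ x : ℝ, (x : ℂ) ∈ spectrum ℂ h → 0 ≤ q.eval x) : Pos (pv h q) := by
  refine ⟨star_pv hh q, fun y hy => ?_⟩
  obtain ⟨x, hx, rfl⟩ := of_mem_pv H hh q hy
  rw [Complex.ofReal_re]
  exact hq x hx

theorem Pos.sq (H : Hyp A) {h : A} (hh : IsSelfAdjoint h) : Pos (h * h) := by
  have h1 : h * h = pv h (X * X) := by rw [pv_mul, pv_X]
  rw [h1]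
  refine Pos.of_pv H hh _ fun x _ => ?_
  rw [eval_mul, eval_X]
  exact mul_self_nonneg x

theorem pos_sum (H : Hyp A) (x : A) : Pos (star x * x + x * star x) := by
  have h1 : IsSelfAdjoint (x + star x) := by
    show star (x + star x) = x + star x
    rw [star_add, star_star, add_comm]
  have h2 : IsSelfAdjoint (Complex.I • (x - star x)) := by
    show star (Complex.I • (x - star x)) = Complex.I • (x - star x)
    rw [star_smul, star_sub, star_star]
    have : star Complex.I = -Complex.I := Complex.conj_I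
    rw [this, neg_smul, ← smul_neg]
    congr 1
    abel
  have h3 := ((Pos.sq H h1).add H (Pos.sq H h2)).smul H (c := 1 / 2) (by norm_num)
  have h4 : ((1 / 2 : ℝ) : ℂ) • ((x + star x) * (x + star x) +
      Complex.I • (x - star x) * Complex.I • (x - star x)) = star x * x + x * star x := by
    rw [smul_mul_smul_comm, Complex.I_mul_I, neg_one_smul]
    have h5 : (x + star x) * (x + star x) + -((x - star x) * (x - star x)) =
        (2 : ℂ) • (star x * x + x * star x) := by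
      rw [two_smul]
      noncomm_ring
    rw [h5, smul_smul]
    have : (((1 / 2 : ℝ) : ℂ) * 2) = 1 := by push_cast; norm_num
    rw [this, one_smul]
  rw [h4] at h3
  exact h3

theorem sf_base (H : Hyp A) {x : A} (hx : ∀ z ∈ spectrum ℂ (star x * x), z.re ≤ 1) :
    ∀ z ∈ spectrum ℂ (star x * x), -1 ≤ z.re := by
  have hsa : IsSelfAdjoint (star x * x) := IsSelfAdjoint.star_mul_self x
  have h1 : Pos (1 - star x * x) := by
    have e : 1 - star x * x = pv (star x * x) (1 - X) := by rw [pv_sub, pv_one, pv_X]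
    rw [e]
    refine Pos.of_pv H hsa _ fun t ht => ?_
    rw [eval_sub, eval_one, eval_X]
    have := hx _ ht
    rw [Complex.ofReal_re] at this
    linarith
  have h2 : Pos (1 + x * star x) := by
    have := h1.add H (pos_sum H x)
    have e : 1 - star x * x + (star x * x + x * star x) = 1 + x * star x := by abel
    rwa [e] at this
  intro z hz
  by_cases h0 : z = 0
  · rw [h0]; norm_num
  · have h3 : z ∈ spectrum ℂ (star x * x) \ {0} := ⟨hz, h0⟩
    rw [spectrum.nonzero_mul_comm] at h3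
    have h4 : 1 + z ∈ spectrum ℂ (1 + x * star x) := by
      have := h3.1
      rw [spectrum.mem_iff] at this ⊢
      intro h5
      apply this
      have h6 : algebraMap ℂ A z - x * star x = algebraMap ℂ A (1 + z) - (1 + x * star x) := by
        rw [map_add, map_one]; abel
      rw [h6]
      exact h5
    have h5 := h2.2 _ h4
    rw [Complex.add_re, Complex.one_re] at h5
    linarith

theorem sf_step (H : Hyp A) (n : ℕ) :
    ∀ x : A, (∀ z ∈ spectrum ℂ (star x * x), z.re ≤ 1) →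
      ∀ z ∈ spectrum ℂ (star x * x), -(1 / 9 ^ n : ℝ) ≤ z.re := by
  induction n with
  | zero =>
    intro x hx z hz
    have := sf_base H hx z hz
    simpa using this
  | succ n ih =>
    intro x hx z hz
    have hsa : IsSelfAdjoint (star x * x) := IsSelfAdjoint.star_mul_self x
    have hsa' : star (star x * x) = star x * x := hsa
    set T : A := star x * x with hT
    set y : A := x * pv T (3 - 4 * X) with hy
    have e1 : star y * y = pv T (X * (3 - 4 * X) ^ 2) := by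
      rw [hy, star_mul, star_pv hsa]
      have : pv T (3 - 4 * X) * star x * (x * pv T (3 - 4 * X)) =
          pv T (3 - 4 * X) * T * pv T (3 - 4 * X) := by rw [hT]; simp only [mul_assoc]
      rw [this]
      have e2 : pv T (3 - 4 * X) * T * pv T (3 - 4 * X) =
          pv T ((3 - 4 * X) * X * (3 - 4 * X)) := by rw [pv_mul, pv_mul, pv_X]
      rw [e2]
      congr 1
      ring
    have e3 : ∀ t : ℝ, (X * (3 - 4 * X) ^ 2 : ℝ[X]).eval t = t * (3 - 4 * t) ^ 2 := by
      intro t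
      simp
    have h1 : ∀ w ∈ spectrum ℂ (star y * y), w.re ≤ 1 := by
      intro w hw
      rw [e1] at hw
      obtain ⟨t, ht, rfl⟩ := of_mem_pv H hsa _ hw
      rw [Complex.ofReal_re, e3]
      have := hx _ ht
      rw [Complex.ofReal_re] at this
      nlinarith [mul_nonneg (sub_nonneg.2 this) (sq_nonneg (1 - 4 * t))]
    have hz0 : z = ((z.re : ℝ) : ℂ) := Complex.ext (by simp) (by simp [H.re _ hsa z hz])
    have h2 : (((z.re * (3 - 4 * z.re) ^ 2 : ℝ)) : ℂ) ∈ spectrum ℂ (star y * y) := by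
      rw [e1, ← e3]
      apply mem_pv
      rw [← hz0]
      exact hz
    have h3 := ih y h1 _ h2
    rw [Complex.ofReal_re] at h3
    by_contra hcon
    push Not at hcon
    have hneg : z.re < 0 := by
      have : (0 : ℝ) < 1 / 9 ^ (n + 1) := by positivity
      linarith
    have h4 : z.re * (3 - 4 * z.re) ^ 2 ≤ 9 * z.re := by
      have h6 : 0 ≤ z.re ^ 2 * (3 - 2 * z.re) := mul_nonneg (sq_nonneg _) (by linarith)
      nlinarith
    have h5 : (1 : ℝ) / 9 ^ n = 9 * (1 / 9 ^ (n + 1)) := by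
      rw [pow_succ]; field_simp
    rw [h5] at h3
    linarith

/-- **Shirali-Ford** -/
theorem pos_star_mul (H : Hyp A) (x : A) : Pos (star x * x) := by
  have hsa : IsSelfAdjoint (star x * x) := IsSelfAdjoint.star_mul_self x
  -- normalised version
  have key : ∀ y : A, (∀ z ∈ spectrum ℂ (star y * y), z.re ≤ 1) →
      ∀ z ∈ spectrum ℂ (star y * y), 0 ≤ z.re := by
    intro y hy z hz
    have h1 : ∀ n : ℕ, -((1 / 9 : ℝ) ^ n) ≤ z.re := fun n => by
      have := sf_step H n y hy z hz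
      rwa [one_div_pow]
    have h2 : Tendsto (fun n : ℕ => -((1 / 9 : ℝ) ^ n)) atTop (𝓝 (-0)) :=
      (tendsto_pow_atTop_nhds_zero_of_lt_one (by norm_num) (by norm_num)).neg
    rw [neg_zero] at h2
    exact le_of_tendsto' h2 h1
  refine ⟨hsa, fun z hz => ?_⟩
  set R : ℝ := ‖star x * x‖ * ‖(1 : A)‖ + 1 with hR
  have hR0 : 0 < R := by positivity
  set c : ℝ := (Real.sqrt R)⁻¹ with hc
  have hcs : (c : ℂ) * (c : ℂ) = ((R⁻¹ : ℝ) : ℂ) := by
    rw [← Complex.ofReal_mul, hc, ← mul_inv, Real.mul_self_sqrt hR0.le]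
  have e1 : star ((c : ℂ) • x) * ((c : ℂ) • x) = ((R⁻¹ : ℝ) : ℂ) • (star x * x) := by
    rw [star_smul, smul_mul_smul_comm]
    congr 1
    rw [← hcs]
    congr 1
    exact Complex.conj_ofReal c
  have hne : ((R⁻¹ : ℝ) : ℂ) ≠ 0 := Complex.ofReal_ne_zero.2 (inv_ne_zero hR0.ne')
  have hu : IsUnit ((R⁻¹ : ℝ) : ℂ) := isUnit_iff_ne_zero.2 hne
  have h1 : ∀ w ∈ spectrum ℂ (star ((c : ℂ) • x) * ((c : ℂ) • x)), w.re ≤ 1 := by
    intro w hw
    rw [e1] at hw
    have h2 := spectrum.norm_le_norm_mul_of_mem hw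
    rw [norm_smul, Complex.norm_real, Real.norm_of_nonneg (inv_nonneg.2 hR0.le)] at h2
    have h3 : R⁻¹ * ‖star x * x‖ * ‖(1 : A)‖ ≤ 1 := by
      rw [mul_assoc, inv_mul_le_iff₀ hR0]
      linarith
    exact (Complex.re_le_norm w).trans (h2.trans h3)
  have h2 : ((R⁻¹ : ℝ) : ℂ) * z ∈ spectrum ℂ (star ((c : ℂ) • x) * ((c : ℂ) • x)) := by
    rw [e1]
    exact (spectrum.smul_mem_smul_iff (r := hu.unit)).2 hz
  have h3 := key _ h1 _ h2
  rw [Complex.re_ofReal_mul] at h3
  exact nonneg_of_mul_nonneg_right h3 (inv_pos.2 hR0)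

end Pool.Agent.TH611.Un
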