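import Pool.Agent.TH611.Un2

/-!
# States
-/

set_option autoImplicit false
set_option linter.unusedSectionVars false
set_option linter.unusedVariables false

noncomputable section

namespace Pool.Agent.TH611.Un

open Polynomial Filter Topology

variable {A : Type} [NormedRing A] [NormedAlgebra ℂ A] [CompleteSpace A] [StarRing A]
  [StarModule ℂ A] [ContinuousStar A]

theorem pos_zero (H : Hyp A) : Pos (0 : A) := by
  have := Pos.sq H (IsSelfAdjoint.zero A)
  rwa [mul_zero] at this

theorem real_smul (c : ℝ) (x : A) : c • x = (c : ℂ) • x := (Complex.coe_smul c x).symm ▸ rfl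

/-- the cone used in the extension theorem -/
def cone (H : Hyp A) (k : A) : PointedCone ℝ A where
  carrier := {x | ∃ t : ℝ, Pos (x + star x + (t : ℂ) • k)}
  zero_mem' := ⟨0, by simpa using pos_zero H⟩
  add_mem' := by
    rintro x y ⟨s, hs⟩ ⟨t, ht⟩
    refine ⟨s + t, ?_⟩
    have := hs.add H ht
    have e : x + star x + (s : ℂ) • k + (y + star y + (t : ℂ) • k) =
        x + y + star (x + y) + ((s + t : ℝ) : ℂ) • k := by
      rw [star_add, Complex.ofReal_add, add_smul]; abel
    rwa [e] at this
  smul_mem' := by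
    rintro ⟨c, hc⟩ x ⟨t, ht⟩
    refine ⟨c * t, ?_⟩
    have := ht.smul H hc
    have e : (c : ℂ) • (x + star x + (t : ℂ) • k) =
        (⟨c, hc⟩ : {c : ℝ // 0 ≤ c}) • x + star ((⟨c, hc⟩ : {c : ℝ // 0 ≤ c}) • x) +
          ((c * t : ℝ) : ℂ) • k := by
      have e1 : (⟨c, hc⟩ : {c : ℝ // 0 ≤ c}) • x = (c : ℂ) • x := by
        show c • x = (c : ℂ) • x
        exact real_smul c x
      rw [e1, star_smul, smul_add, smul_add, smul_smul, Complex.ofReal_mul]
      congr 2
      congr 1
      exact (Complex.conj_ofReal c).symm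
    rwa [e] at this

theorem mem_cone (H : Hyp A) (k x : A) : x ∈ cone H k ↔ ∃ t : ℝ, Pos (x + star x + (t : ℂ) • k) :=
  Iff.rfl

theorem pos_algebraMap_add (H : Hyp A) {h : A} (hh : IsSelfAdjoint h) {c : ℝ}
    (hc : ‖h‖ * ‖(1 : A)‖ ≤ c) : Pos (algebraMap ℂ A (c : ℂ) + h) := by
  have e : algebraMap ℂ A (c : ℂ) + h = pv h (C c + X) := by rw [pv_add, pv_C, pv_X]
  rw [e]
  refine Pos.of_pv H hh _ fun x hx => ?_
  rw [eval_add, eval_C, eval_X]
  have h1 := spectrum.norm_le_norm_mul_of_mem hx
  rw [Complex.norm_real, Real.norm_eq_abs] at h1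
  have := neg_abs_le x
  linarith

/-- for a point of the spectrum of a self-adjoint element there is a state with that value -/
theorem exists_state (H : Hyp A) {h : A} (hh : IsSelfAdjoint h) {x : ℂ} (hx : x ∈ spectrum ℂ h) :
    ∃ φ : A →ₗ[ℂ] ℂ, φ 1 = 1 ∧ φ h = x ∧ (∀ a, 0 ≤ (φ (star a * a)).re) ∧
      (∀ a, (φ (star a * a)).im = 0) ∧ ∀ a, φ (star a) = (starRingEnd ℂ) (φ a) := by
  have hstar : star h = h := hh
  have hxr : x = ((x.re : ℝ) : ℂ) := Complex.ext (by simp) (by simp [H.re h hh x hx])
  set l : ℝ := x.re with hl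
  set k : A := h - algebraMap ℂ A (l : ℂ) with hk
  have hks : star k = k := by
    rw [hk, star_sub, hstar, ← algebraMap_star_comm]
    congr 2
    exact Complex.conj_ofReal l
  have hnt : Nontrivial A := by
    by_contra hcon
    rw [not_nontrivial_iff_subsingleton] at hcon
    rw [spectrum.of_subsingleton] at hx
    exact absurd hx (Set.notMem_empty _)
  have hone : (1 : A) ≠ 0 := one_ne_zero
  -- the starting functional
  set f : A →ₗ.[ℝ] ℝ := LinearPMap.mkSpanSingleton (1 : A) (1 : ℝ) hone with hf
  have hfdom : ∀ y : f.domain, ∃ c : ℝ, (y : A) = c • (1 : A) ∧ f y = c := by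
    intro y
    have hy : (y : A) ∈ Submodule.span ℝ {(1 : A)} := y.2
    obtain ⟨c, hc⟩ := Submodule.mem_span_singleton.1 hy
    refine ⟨c, hc.symm, ?_⟩
    have h1 : y = ⟨c • (1 : A), hc ▸ y.2⟩ := Subtype.ext hc.symm
    rw [h1]
    have := LinearPMap.mkSpanSingleton'_apply (σ := RingHom.id ℝ) (1 : A) (1 : ℝ)
      (fun c' hc' => by
        rcases smul_eq_zero.1 hc' with h | h
        · simp [h]
        · exact absurd h hone) c (hc ▸ y.2)
    have h2 : f ⟨c • (1 : A), hc ▸ y.2⟩ = (RingHom.id ℝ) c • (1 : ℝ) := this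
    rw [h2]
    simp
  obtain ⟨g, hg1, hg2⟩ := riesz_extension (cone H k) f (by
    intro y hy
    obtain ⟨c, hc, hfc⟩ := hfdom y
    rw [hfc]
    rw [mem_cone, hc] at hy
    obtain ⟨t, ht⟩ := hy
    have e : c • (1 : A) + star (c • (1 : A)) + (t : ℂ) • k = pv h (C (2 * c) + C t * (X - C l)) := by
      rw [pv_add, pv_mul, pv_sub, pv_C, pv_C, pv_C, pv_X, real_smul, star_smul, star_one]
      have e1 : star (c : ℂ) = (c : ℂ) := Complex.conj_ofReal c
      rw [e1, ← two_smul ℂ, smul_smul, Algebra.algebraMap_eq_smul_one (((2 * c : ℝ)) : ℂ),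
        Algebra.algebraMap_eq_smul_one ((t : ℝ) : ℂ), smul_mul_assoc, one_mul, hk]
      push_cast
      rfl
    rw [e] at ht
    have h1 : (((C (2 * c) + C t * (X - C l) : ℝ[X]).eval l : ℝ) : ℂ) ∈
        spectrum ℂ (pv h (C (2 * c) + C t * (X - C l))) := by
      apply mem_pv
      rw [← hxr]
      exact hx
    have h2 := ht.2 _ h1
    rw [Complex.ofReal_re] at h2
    simp at h2
    linarith) (by
    intro y
    have hsa : IsSelfAdjoint (y + star y) := by
      show star (y + star y) = y + star y
      rw [star_add, star_star, add_comm]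
    set c : ℝ := ‖y + star y‖ * ‖(1 : A)‖ with hc
    have hmem : c • (1 : A) ∈ f.domain := by
      show c • (1 : A) ∈ Submodule.span ℝ {(1 : A)}
      exact Submodule.smul_mem _ _ (Submodule.mem_span_singleton_self _)
    refine ⟨⟨c • (1 : A), hmem⟩, ?_⟩
    rw [mem_cone]
    refine ⟨0, ?_⟩
    have hc0 : 0 ≤ c := by positivity
    have h1 := pos_algebraMap_add H hsa (c := 2 * c) (by linarith)
    have e : algebraMap ℂ A (((2 * c : ℝ)) : ℂ) + (y + star y) =
        c • (1 : A) + y + star (c • (1 : A) + y) + ((0 : ℝ) : ℂ) • k := by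
      rw [Complex.ofReal_zero, zero_smul, add_zero, star_add, real_smul, star_smul, star_one]
      have e1 : star (c : ℂ) = (c : ℂ) := Complex.conj_ofReal c
      rw [e1, Algebra.algebraMap_eq_smul_one]
      push_cast
      rw [mul_smul, two_smul]
      abel
    rw [e] at h1
    exact h1)
  -- properties of `g`
  have g1 : g 1 = 1 := by
    have hmem : (1 : A) ∈ f.domain := by
      show (1 : A) ∈ Submodule.span ℝ {(1 : A)}
      exact Submodule.mem_span_singleton_self _
    have h1 := hg1 ⟨1, hmem⟩
    obtain ⟨c, hc, hfc⟩ := hfdom ⟨1, hmem⟩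
    have h2 : c = 1 := by
      have h3 : (c - 1) • (1 : A) = 0 := by
        rw [sub_smul, one_smul, ← hc, sub_self]
      rcases smul_eq_zero.1 h3 with h | h
      · linarith
      · exact absurd h hone
    rw [hfc, h2] at h1
    exact h1
  have gskew : ∀ y : A, star y = -y → g y = 0 := by
    intro y hy
    have h1 : y ∈ cone H k := ⟨0, by
      rw [hy, add_neg_cancel, Complex.ofReal_zero, zero_smul, add_zero]; exact pos_zero H⟩
    have h2 : -y ∈ cone H k := ⟨0, by
      rw [star_neg, hy, neg_neg, neg_add_cancel, Complex.ofReal_zero, zero_smul, add_zero]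
      exact pos_zero H⟩
    have h3 := hg2 _ h1
    have h4 := hg2 _ h2
    rw [map_neg] at h4
    linarith
  have gk : g k = 0 := by
    have h1 : k ∈ cone H k := ⟨-2, by
      rw [hks, ← two_smul ℂ, ← add_smul]
      have : (2 : ℂ) + ((-2 : ℝ) : ℂ) = 0 := by push_cast; ring
      rw [this, zero_smul]; exact pos_zero H⟩
    have h2 : -k ∈ cone H k := ⟨2, by
      rw [star_neg, hks, ← two_smul ℂ, smul_neg]
      have : -((2 : ℂ) • k) + ((2 : ℝ) : ℂ) • k = 0 := by
        push_cast
        rw [neg_add_cancel]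
      rw [this]; exact pos_zero H⟩
    have h3 := hg2 _ h1
    have h4 := hg2 _ h2
    rw [map_neg] at h4
    linarith
  have gpos : ∀ y : A, Pos y → 0 ≤ g y := by
    intro y hy
    refine hg2 _ ⟨0, ?_⟩
    have hys : star y = y := hy.1
    rw [hys, Complex.ofReal_zero, zero_smul, add_zero]
    exact hy.add H hy
  -- the complex functional
  set φ : A →ₗ[ℂ] ℂ := Module.Dual.extendRCLike g with hφ
  have hφa : ∀ a, φ a = (g a : ℂ) - Complex.I * (g (Complex.I • a) : ℂ) := fun a => rfl
  have hφsa : ∀ a : A, star a = a → φ a = ((g a : ℝ) : ℂ) := by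
    intro a ha
    rw [hφa]
    have h1 : g (Complex.I • a) = 0 := by
      apply gskew
      rw [star_smul, ha]
      have : star Complex.I = -Complex.I := Complex.conj_I
      rw [this, neg_smul]
    rw [h1]
    simp
  refine ⟨φ, ?_, ?_, ?_, ?_, ?_⟩
  · rw [hφsa 1 (star_one A), g1, Complex.ofReal_one]
  · rw [hφsa h hstar]
    have h1 : h = k + l • (1 : A) := by
      rw [hk, real_smul, ← Algebra.algebraMap_eq_smul_one]; abel
    rw [h1, map_add, map_smul, gk, g1, hxr]
    simp
  · intro a
    have h1 : star (star a * a) = star a * a := by rw [star_mul, star_star]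
    rw [hφsa _ h1, Complex.ofReal_re]
    exact gpos _ (pos_star_mul H a)
  · intro a
    have h1 : star (star a * a) = star a * a := by rw [star_mul, star_star]
    rw [hφsa _ h1, Complex.ofReal_im]
  · intro a
    -- split into self-adjoint parts
    have e1 : φ (a + star a) = ((g (a + star a) : ℝ) : ℂ) := hφsa _ (by
      rw [star_add, star_star, add_comm])
    have e2 : φ (Complex.I • (a - star a)) = ((g (Complex.I • (a - star a)) : ℝ) : ℂ) := hφsa _ (by
      rw [star_smul, star_sub, star_star]
      have : star Complex.I = -Complex.I := Complex.conj_I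
      rw [this, neg_smul, ← smul_neg]
      congr 1
      abel)
    rw [map_add] at e1
    rw [map_smul, map_sub, smul_eq_mul] at e2
    have i1 : (φ a).im + (φ (star a)).im = 0 := by
      have := congrArg Complex.im e1
      simpa using this
    have i2 : (φ a).re - (φ (star a)).re = 0 := by
      have := congrArg Complex.im e2
      simpa using this
    apply Complex.ext
    · rw [Complex.conj_re]; linarith
    · rw [Complex.conj_im]; linarith

end Pool.Agent.TH611.Un
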