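import Pool.Agent.TH611.Un3

/-!
# Bounded exponentials
-/

set_option autoImplicit false
set_option linter.unusedSectionVars false
set_option linter.unusedVariables false

noncomputable section

namespace Pool.Agent.TH611.Un

open Polynomial Filter Topology NormedSpace

section NoStar

variable {A : Type} [NormedRing A] [NormedAlgebra ℂ A] [CompleteSpace A]

theorem norm_exp_le {x : A} {C ρ : ℝ} (hC : 0 ≤ C) (hρ : 0 ≤ ρ) (h : ∀ n : ℕ, ‖x ^ n‖ ≤ C * ρ ^ n) :
    ‖exp x‖ ≤ C * Real.exp ρ := by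
  rw [exp_eq_tsum ℂ]
  have h1 : HasSum (fun n : ℕ => C * (ρ ^ n / n.factorial)) (C * Real.exp ρ) := by
    rw [Real.exp_eq_exp_ℝ]
    exact (expSeries_div_hasSum_exp ρ).mul_left C
  refine tsum_of_norm_bounded h1 fun n => ?_
  rw [norm_smul, norm_inv]
  have h2 : ‖((n.factorial : ℕ) : ℂ)‖ = (n.factorial : ℝ) := by
    rw [Complex.norm_natCast]
  rw [h2, div_eq_inv_mul]
  calc ((n.factorial : ℝ))⁻¹ * ‖x ^ n‖ ≤ ((n.factorial : ℝ))⁻¹ * (C * ρ ^ n) :=
        mul_le_mul_of_nonneg_left (h n) (by positivity)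
    _ = C * (((n.factorial : ℝ))⁻¹ * ρ ^ n) := by ring

theorem norm_pow_le1 (h : A) (n : ℕ) : ‖h ^ n‖ ≤ max 1 ‖(1 : A)‖ * ‖h‖ ^ n := by
  rcases Nat.eq_zero_or_pos n with h0 | h0
  · rw [h0, pow_zero, pow_zero, mul_one]
    exact le_max_right _ _
  · calc ‖h ^ n‖ ≤ ‖h‖ ^ n := _root_.norm_pow_le' h h0
      _ = 1 * ‖h‖ ^ n := (one_mul _).symm
      _ ≤ _ := mul_le_mul_of_nonneg_right (le_max_left _ _) (by positivity)

theorem exists_pow_bound {h : A} {ρ : ℝ} (hρ : 0 < ρ) (hs : ∀ x ∈ spectrum ℂ h, ‖x‖ < ρ) :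
    ∃ C : ℝ, 0 ≤ C ∧ ∀ n : ℕ, ‖h ^ n‖ ≤ C * ρ ^ n := by
  cases subsingleton_or_nontrivial A with
  | inl hsub =>
    refine ⟨0, le_rfl, fun n => ?_⟩
    rw [Subsingleton.elim (h ^ n) 0, norm_zero, zero_mul]
  | inr hn =>
    have hne : (spectrum ℂ h).Nonempty := spectrum.nonempty h
    have h1 : spectralRadius ℂ h < (ρ.toNNReal : ENNReal) := by
      refine spectrum.spectralRadius_lt_of_forall_lt_of_nonempty hne fun k hk => ?_
      rw [← NNReal.coe_lt_coe, coe_nnnorm, Real.coe_toNNReal _ hρ.le]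
      exact hs k hk
    have h2 := spectrum.pow_norm_pow_one_div_tendsto_nhds_spectralRadius h
    have h3 := (h2.eventually (gt_mem_nhds h1)).exists_forall_of_atTop
    obtain ⟨N, hN⟩ := h3
    -- the bound for large `n`
    have h4 : ∀ n : ℕ, N + 1 ≤ n → ‖h ^ n‖ ≤ ρ ^ n := by
      intro n hn'
      have h5 : ENNReal.ofReal (‖h ^ n‖ ^ (1 / n : ℝ)) < (ρ.toNNReal : ENNReal) := hN n (by omega)
      have h6 : ‖h ^ n‖ ^ (1 / n : ℝ) < ρ := by
        have h7 : ENNReal.ofReal (‖h ^ n‖ ^ (1 / n : ℝ)) < ENNReal.ofReal ρ := h5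
        exact (ENNReal.ofReal_lt_ofReal_iff hρ).1 h7
      have hn0 : (n : ℝ) ≠ 0 := by
        have : 0 < n := by omega
        exact_mod_cast this.ne'
      have h8 : ‖h ^ n‖ = (‖h ^ n‖ ^ (1 / n : ℝ)) ^ n := by
        rw [← Real.rpow_natCast, ← Real.rpow_mul (norm_nonneg _), one_div_mul_cancel hn0,
          Real.rpow_one]
      rw [h8]
      exact pow_le_pow_left₀ (by positivity) h6.le n
    set C : ℝ := 1 + ∑ n ∈ Finset.range (N + 1), ‖h ^ n‖ / ρ ^ n with hC
    have hsum : 0 ≤ ∑ n ∈ Finset.range (N + 1), ‖h ^ n‖ / ρ ^ n :=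
      Finset.sum_nonneg fun n _ => by positivity
    refine ⟨C, by linarith, fun n => ?_⟩
    rcases le_or_gt (N + 1) n with h5 | h5
    · calc ‖h ^ n‖ ≤ 1 * ρ ^ n := by rw [one_mul]; exact h4 n h5
        _ ≤ C * ρ ^ n := mul_le_mul_of_nonneg_right (by linarith) (by positivity)
    · have h6 : ‖h ^ n‖ / ρ ^ n ≤ ∑ n ∈ Finset.range (N + 1), ‖h ^ n‖ / ρ ^ n :=
        Finset.single_le_sum (f := fun n => ‖h ^ n‖ / ρ ^ n) (fun n _ => by positivity)
          (Finset.mem_range.2 h5)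
      have h7 : ‖h ^ n‖ = ‖h ^ n‖ / ρ ^ n * ρ ^ n := by field_simp
      rw [h7]
      exact mul_le_mul_of_nonneg_right (by linarith) (by positivity)

/-- the half plane estimate -/
theorem half_plane {h : A} {M ρ : ℝ} (hρ : 0 < ρ) (hs : ∀ x ∈ spectrum ℂ h, ‖x‖ < ρ)
    (hM : ∀ t : ℝ, ‖exp (((t : ℂ) * Complex.I) • h)‖ ≤ M) {z : ℂ} (hz : 0 ≤ z.re) :
    ‖exp (z • h)‖ ≤ M * Real.exp (ρ * z.re) := by
  set f : ℂ → A := fun z => Complex.exp (-(ρ : ℂ) * z) • exp (z • h) with hf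
  have hdiff : Differentiable ℂ f := by
    intro w
    have h1 : DifferentiableAt ℂ (fun u : ℂ => exp (u • h)) w :=
      (hasDerivAt_exp_smul_const (𝕂 := ℂ) h w).differentiableAt
    have h2 : DifferentiableAt ℂ (fun u : ℂ => Complex.exp (-(ρ : ℂ) * u)) w := by fun_prop
    exact h2.smul h1
  have hnorm : ∀ w : ℂ, ‖f w‖ = Real.exp (-(ρ * w.re)) * ‖exp (w • h)‖ := by
    intro w
    rw [hf]
    simp only
    rw [norm_smul, Complex.norm_exp]
    congr 2
    simp
  obtain ⟨C, hC0, hC⟩ := exists_pow_bound hρ hs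
  have key := PhragmenLindelof.right_half_plane_of_bounded_on_real (f := f) (C := M) (z := z)
    hdiff.diffContOnCl ?_ ?_ ?_ hz
  · rw [hnorm] at key
    have h1 : Real.exp (ρ * z.re) * (Real.exp (-(ρ * z.re)) * ‖exp (z • h)‖) ≤
        Real.exp (ρ * z.re) * M := mul_le_mul_of_nonneg_left key (Real.exp_nonneg _)
    rw [← mul_assoc, ← Real.exp_add, add_neg_cancel, Real.exp_zero, one_mul] at h1
    linarith
  · refine ⟨1, by norm_num, ρ + ‖h‖, ?_⟩
    refine Asymptotics.IsBigO.of_bound (max 1 ‖(1 : A)‖) (Filter.Eventually.of_forall fun w => ?_)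
    rw [hnorm, Real.norm_of_nonneg (Real.exp_nonneg _), Real.rpow_one]
    have h1 : ‖exp (w • h)‖ ≤ max 1 ‖(1 : A)‖ * Real.exp (‖w‖ * ‖h‖) := by
      refine norm_exp_le (by positivity) (by positivity) fun n => ?_
      have := norm_pow_le1 (w • h) n
      rwa [norm_smul] at this
    have h2 : Real.exp (-(ρ * w.re)) ≤ Real.exp (ρ * ‖w‖) := by
      apply Real.exp_le_exp.2
      have := Complex.abs_re_le_norm w
      have h3 := neg_abs_le w.re
      nlinarith
    calc Real.exp (-(ρ * w.re)) * ‖exp (w • h)‖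
        ≤ Real.exp (ρ * ‖w‖) * (max 1 ‖(1 : A)‖ * Real.exp (‖w‖ * ‖h‖)) :=
          mul_le_mul h2 h1 (norm_nonneg _) (Real.exp_nonneg _)
      _ = max 1 ‖(1 : A)‖ * (Real.exp (ρ * ‖w‖) * Real.exp (‖w‖ * ‖h‖)) := by ring
      _ = max 1 ‖(1 : A)‖ * Real.exp ((ρ + ‖h‖) * ‖w‖) := by
          rw [← Real.exp_add]
          congr 2
          ring
  · refine ⟨C, ?_⟩
    rw [Filter.eventually_map]
    filter_upwards [Filter.eventually_ge_atTop (0 : ℝ)] with x hx
    rw [hnorm, Complex.ofReal_re]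
    have h1 : ‖exp ((x : ℂ) • h)‖ ≤ C * Real.exp (x * ρ) := by
      refine norm_exp_le hC0 (by positivity) fun n => ?_
      rw [_root_.smul_pow, norm_smul, norm_pow, Complex.norm_real, Real.norm_of_nonneg hx, mul_pow]
      calc x ^ n * ‖h ^ n‖ ≤ x ^ n * (C * ρ ^ n) := mul_le_mul_of_nonneg_left (hC n) (by positivity)
        _ = C * (x ^ n * ρ ^ n) := by ring
    calc Real.exp (-(ρ * x)) * ‖exp ((x : ℂ) • h)‖ ≤ Real.exp (-(ρ * x)) * (C * Real.exp (x * ρ)) :=
          mul_le_mul_of_nonneg_left h1 (Real.exp_nonneg _)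
      _ = C * (Real.exp (-(ρ * x)) * Real.exp (x * ρ)) := by ring
      _ = C := by
          rw [← Real.exp_add]
          have : -(ρ * x) + x * ρ = 0 := by ring
          rw [this, Real.exp_zero, mul_one]
  · intro t
    rw [hnorm]
    have h1 : ((t : ℂ) * Complex.I).re = 0 := by simp
    rw [h1, mul_zero, neg_zero, Real.exp_zero, one_mul]
    exact hM t

/-- a Bernstein type inequality -/
theorem norm_le_of_exp {h : A} {M ρ : ℝ} (hρ : 0 < ρ) (hs : ∀ x ∈ spectrum ℂ h, ‖x‖ < ρ)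
    (hM : ∀ t : ℝ, ‖exp (((t : ℂ) * Complex.I) • h)‖ ≤ M) : ‖h‖ ≤ Real.exp 1 * M * ρ := by
  have hM0 : 0 ≤ M := (norm_nonneg _).trans (hM 0)
  have hneg : ∀ x ∈ spectrum ℂ (-h), ‖x‖ < ρ := by
    intro x hx
    rw [← spectrum.neg_eq] at hx
    have := hs _ (Set.mem_neg.1 hx)
    rwa [norm_neg] at this
  have hMneg : ∀ t : ℝ, ‖exp (((t : ℂ) * Complex.I) • (-h))‖ ≤ M := by
    intro t
    have := hM (-t)
    have e : (((-t : ℝ) : ℂ) * Complex.I) • h = ((t : ℂ) * Complex.I) • (-h) := by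
      rw [smul_neg, ← neg_smul]
      congr 1
      push_cast
      ring
    rwa [e] at this
  have hall : ∀ z : ℂ, ‖exp (z • h)‖ ≤ M * Real.exp (ρ * |z.re|) := by
    intro z
    rcases le_total 0 z.re with h0 | h0
    · rw [abs_of_nonneg h0]
      exact half_plane hρ hs hM h0
    · rw [abs_of_nonpos h0]
      have h1 := half_plane hρ hneg hMneg (z := -z) (by rw [Complex.neg_re]; linarith)
      rw [neg_smul, smul_neg, neg_neg, Complex.neg_re] at h1
      exact h1
  have hd : Differentiable ℂ (fun u : ℂ => exp (u • h)) := fun w =>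
    (hasDerivAt_exp_smul_const (𝕂 := ℂ) h w).differentiableAt
  have h1 := Complex.norm_deriv_le_of_forall_mem_sphere_norm_le (c := 0) (R := 1 / ρ)
    (C := M * Real.exp 1) (f := fun u : ℂ => exp (u • h)) (by positivity) hd.diffContOnCl (by
      intro z hz
      refine (hall z).trans (mul_le_mul_of_nonneg_left (Real.exp_le_exp.2 ?_) hM0)
      rw [mem_sphere_zero_iff_norm] at hz
      have h2 := Complex.abs_re_le_norm z
      rw [hz] at h2
      calc ρ * |z.re| ≤ ρ * (1 / ρ) := mul_le_mul_of_nonneg_left h2 hρ.le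
        _ = 1 := by field_simp)
  have h2 : deriv (fun u : ℂ => exp (u • h)) 0 = h := by
    rw [(hasDerivAt_exp_smul_const (𝕂 := ℂ) h 0).deriv, zero_smul, exp_zero, one_mul]
  rw [h2] at h1
  calc ‖h‖ ≤ M * Real.exp 1 / (1 / ρ) := h1
    _ = Real.exp 1 * M * ρ := by field_simp

end NoStar

variable {A : Type} [NormedRing A] [NormedAlgebra ℂ A] [CompleteSpace A] [StarRing A]
  [StarModule ℂ A] [ContinuousStar A]

theorem isSelfAdjoint_smul_real {h : A} (hh : IsSelfAdjoint h) (t : ℝ) : IsSelfAdjoint ((t : ℂ) • h) := by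
  show star ((t : ℂ) • h) = (t : ℂ) • h
  have h1 : star h = h := hh
  rw [star_smul, h1]
  congr 1
  exact Complex.conj_ofReal t

/-- real spectrum from bounded exponentials -/
theorem real_of_exp {h : A} {M : ℝ} (hM : ∀ t : ℝ, ‖exp (((t : ℂ) * Complex.I) • h)‖ ≤ M) {x : ℂ}
    (hx : x ∈ spectrum ℂ h) : x.im = 0 := by
  have h1 : ∀ t : ℝ, Real.exp (-(t * x.im)) ≤ M * ‖(1 : A)‖ := by
    intro t
    have h2 : (t : ℂ) * Complex.I * x ∈ spectrum ℂ (((t : ℂ) * Complex.I) • h) := by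
      by_cases h0 : (t : ℂ) * Complex.I = 0
      · rw [h0, zero_mul, zero_smul]
        cases subsingleton_or_nontrivial A with
        | inl hs =>
          rw [spectrum.of_subsingleton] at hx
          exact absurd hx (Set.notMem_empty _)
        | inr hn =>
          rw [spectrum.zero_eq]
          exact Set.mem_singleton _
      · have hu : IsUnit ((t : ℂ) * Complex.I) := isUnit_iff_ne_zero.2 h0
        exact (spectrum.smul_mem_smul_iff (r := hu.unit)).2 hx
    have h3 := spectrum.exp_mem_exp _ h2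
    have h4 := spectrum.norm_le_norm_mul_of_mem h3
    have h5 : ‖exp ((t : ℂ) * Complex.I * x)‖ = Real.exp (-(t * x.im)) := by
      rw [← Complex.exp_eq_exp_ℂ, Complex.norm_exp]
      congr 1
      simp
    rw [h5] at h4
    exact h4.trans (mul_le_mul_of_nonneg_right (hM t) (norm_nonneg _))
  by_contra hcon
  -- choose `t` with `-(t x.im)` large
  set L : ℝ := M * ‖(1 : A)‖ with hL
  have h2 := h1 (-(L / x.im))
  have h3 : -(-(L / x.im) * x.im) = L := by field_simp
  rw [h3] at h2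
  have h4 := Real.add_one_le_exp L
  linarith

/-- if all exponentials `exp(ih)` are bounded by `M`, the algebra satisfies the hypothesis -/
theorem hyp_of_exp {M : ℝ} (hM : ∀ h : A, IsSelfAdjoint h → ‖exp (Complex.I • h)‖ ≤ M) : Hyp A := by
  have hM' : ∀ h : A, IsSelfAdjoint h → ∀ t : ℝ, ‖exp (((t : ℂ) * Complex.I) • h)‖ ≤ M := by
    intro h hh t
    have := hM _ (isSelfAdjoint_smul_real hh t)
    rwa [smul_smul, mul_comm] at this
  have hM0 : 0 ≤ M := (norm_nonneg _).trans (hM 0 (IsSelfAdjoint.zero A))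
  refine ⟨fun h hh x hx => real_of_exp (hM' h hh) hx, fun h hh => ⟨Real.exp 1 * M, by positivity, ?_⟩⟩
  intro q c hc hq
  have hre : ∀ x ∈ spectrum ℂ h, x.im = 0 := fun x hx => real_of_exp (hM' h hh) hx
  -- the spectrum of `q(h)`
  have hsp : ∀ y ∈ spectrum ℂ (pv h q), ‖y‖ ≤ c := by
    intro y hy
    cases subsingleton_or_nontrivial A with
    | inl hs =>
      rw [spectrum.of_subsingleton] at hy
      exact absurd hy (Set.notMem_empty _)
    | inr hn =>
      have hne : (spectrum ℂ h).Nonempty := spectrum.nonempty h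
      unfold pv at hy
      rw [spectrum.map_polynomial_aeval_of_nonempty h _ hne] at hy
      obtain ⟨z, hz, rfl⟩ := hy
      have h2 : z = ((z.re : ℝ) : ℂ) := Complex.ext (by simp) (by simp [hre z hz])
      have h3 := hq z.re (h2 ▸ hz)
      have h4 : (q.map (algebraMap ℝ ℂ)).eval z = ((q.eval z.re : ℝ) : ℂ) := by
        conv_lhs => rw [h2]
        rw [Polynomial.eval_map]
        exact Polynomial.eval₂_at_apply (algebraMap ℝ ℂ) (p := q) z.re
      show ‖(q.map (algebraMap ℝ ℂ)).eval z‖ ≤ c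
      rw [h4, Complex.norm_real]
      exact h3
  refine le_of_forall_pos_le_add fun ε hε => ?_
  have hK : 0 ≤ Real.exp 1 * M := by positivity
  set δ : ℝ := ε / (Real.exp 1 * M + 1) with hδ
  have hδ0 : 0 < δ := by positivity
  have h1 := norm_le_of_exp (h := pv h q) (ρ := c + δ) (by linarith)
    (fun x hx => (hsp x hx).trans_lt (by linarith)) (hM' _ (star_pv hh q))
  have h2 : Real.exp 1 * M * δ ≤ ε := by
    rw [hδ, mul_div_assoc', div_le_iff₀ (by positivity)]
    nlinarith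
  nlinarith

end Pool.Agent.TH611.Un
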