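import Pool.Agent.TH611.Un4
import Pool.Agent.TH698.Dix4

/-!
# Domination by the maximal C*-norm
-/

set_option autoImplicit false
set_option linter.unusedSectionVars false
set_option linter.unusedVariables false

noncomputable section

namespace Pool.Agent.TH611.Un

open Polynomial Filter Topology NormedSpace
open Pool.Agent.H71R3.FS Pool.Agent.TH698.Dix

variable {G : Type} [Group G]

/-- `f*(g) = conj f(g⁻¹)` -/
def adj (a : G →₀ ℂ) : G →₀ ℂ := (a.mapDomain (·⁻¹)).mapRange (starRingEnd ℂ) (map_zero _)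

theorem adj_apply (a : G →₀ ℂ) (g : G) : adj a g = (starRingEnd ℂ) (a g⁻¹) := by
  unfold adj
  rw [Finsupp.mapRange_apply]
  congr 1
  have : g = (fun x : G => x⁻¹) g⁻¹ := (inv_inv g).symm
  conv_lhs => rw [this]
  exact Finsupp.mapDomain_apply inv_injective a g⁻¹

theorem adj_adj (a : G →₀ ℂ) : adj (adj a) = a := by
  ext g
  rw [adj_apply, adj_apply, inv_inv, Complex.conj_conj]

theorem adj_add (a b : G →₀ ℂ) : adj (a + b) = adj a + adj b := by
  ext g
  simp [adj_apply]

theorem adj_sub (a b : G →₀ ℂ) : adj (a - b) = adj a - adj b := by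
  ext g
  simp [adj_apply]

theorem adj_smul (c : ℂ) (a : G →₀ ℂ) : adj (c • a) = (starRingEnd ℂ) c • adj a := by
  ext g
  simp [adj_apply]

theorem adj_single (g : G) (c : ℂ) : adj (Finsupp.single g c) = Finsupp.single g⁻¹ ((starRingEnd ℂ) c) := by
  classical
  ext x
  rw [adj_apply, Finsupp.single_apply, Finsupp.single_apply]
  by_cases h : g = x⁻¹
  · have h' : g⁻¹ = x := by rw [h, inv_inv]
    rw [if_pos h, if_pos h']
  · have h' : ¬ g⁻¹ = x := fun h' => h (by rw [← h', inv_inv])
    rw [if_neg h, if_neg h', map_zero]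

variable {A : Type} [NormedRing A] [NormedAlgebra ℂ A] [CompleteSpace A] [StarRing A]
  [StarModule ℂ A] [ContinuousStar A]

/-- `∑ a(g) ι(g)` -/
def lc (ι : G → A) : (G →₀ ℂ) →ₗ[ℂ] A := Finsupp.linearCombination ℂ ι

theorem lc_apply (ι : G → A) (a : G →₀ ℂ) : lc ι a = a.sum fun g c => c • ι g := rfl

theorem lc_single (ι : G → A) (g : G) (c : ℂ) : lc ι (Finsupp.single g c) = c • ι g := by
  unfold lc
  exact Finsupp.linearCombination_single _ _ _

theorem star_lc (ι : G → A) (hι : ∀ g, star (ι g) = ι g⁻¹) (a : G →₀ ℂ) :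
    star (lc ι a) = lc ι (adj a) := by
  induction a using Finsupp.induction_linear with
  | zero =>
    have : adj (0 : G →₀ ℂ) = 0 := by ext g; simp [adj_apply]
    rw [this, map_zero, star_zero]
  | add f g hf hg => rw [map_add, star_add, hf, hg, adj_add, map_add]
  | single g c =>
    rw [adj_single, lc_single, lc_single, star_smul, hι]
    rfl

theorem sq_eq (ι : G →* A) (hι : ∀ g, star (ι g) = ι g⁻¹) (φ : A →ₗ[ℂ] ℂ) (a b : G →₀ ℂ) :
    Pool.Agent.H71R3.FS.sq (fun g => φ (ι g)) a b = φ (star (lc ι a) * lc ι b) := by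
  unfold Pool.Agent.H71R3.FS.sq
  rw [lc_apply, lc_apply]
  unfold Finsupp.sum
  rw [star_sum, Finset.sum_mul_sum, map_sum]
  refine Finset.sum_congr rfl fun g _ => ?_
  rw [map_sum]
  refine Finset.sum_congr rfl fun h _ => ?_
  rw [star_smul, smul_mul_smul_comm, map_smul, hι, ← map_mul, smul_eq_mul]
  rfl

/-- the spectrum of a self-adjoint element of the group algebra is bounded by the maximal norm -/
theorem spec_le_maxNorm (H : Hyp A) (ι : G →* A) (hι : ∀ g, star (ι g) = ι g⁻¹) {b : G →₀ ℂ}
    (hb : adj b = b) {x : ℂ} (hx : x ∈ spectrum ℂ (lc ι b)) : ‖x‖ ≤ maxNorm b := by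
  have hsa : IsSelfAdjoint (lc ι b) := by
    show star (lc ι b) = lc ι b
    rw [star_lc ι hι, hb]
  obtain ⟨φ, h1, h2, h3, h4, h5⟩ := exists_state H hsa hx
  have hpd : PD (fun g => φ (ι g)) := by
    refine ⟨fun g => ?_, fun a => ?_⟩
    · show φ (ι g⁻¹) = (starRingEnd ℂ) (φ (ι g))
      rw [← hι, h5]
    · rw [sq_eq ι hι]
      exact h3 _
  obtain ⟨E, i1, i2, σ, ξ, hξ⟩ := gns_vector _ hpd
  have h6 := coef_le σ b ξ ξ
  simp only [hξ] at h6
  have h7 : (b.sum fun g c => c * φ (ι g)) = x := by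
    rw [← h2, lc_apply]
    unfold Finsupp.sum
    rw [map_sum]
    refine Finset.sum_congr rfl fun g _ => ?_
    rw [map_smul, smul_eq_mul]
  rw [h7] at h6
  have h8 : ‖ξ‖ * ‖ξ‖ = 1 := by
    have h9 := hξ 1
    have h10 : inner ℂ ξ (σ 1 ξ) = inner ℂ ξ ξ := by rw [map_one]; rfl
    rw [h10, inner_self_eq_norm_sq_to_K, map_one, h1] at h9
    have h11 : ((‖ξ‖ ^ 2 : ℝ) : ℂ) = ((1 : ℝ) : ℂ) := by
      push_cast
      exact h9
    rw [← pow_two]
    exact Complex.ofReal_injective h11
  rw [h8, one_mul] at h6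
  exact h6

theorem norm_le_maxNorm {M : ℝ} (hM : ∀ h : A, IsSelfAdjoint h → ‖exp (Complex.I • h)‖ ≤ M)
    (ι : G →* A) (hι : ∀ g, star (ι g) = ι g⁻¹) {b : G →₀ ℂ} (hb : adj b = b) :
    ‖lc ι b‖ ≤ Real.exp 1 * M * maxNorm b := by
  have H : Hyp A := hyp_of_exp hM
  have hsa : IsSelfAdjoint (lc ι b) := by
    show star (lc ι b) = lc ι b
    rw [star_lc ι hι, hb]
  have hM' : ∀ t : ℝ, ‖exp (((t : ℂ) * Complex.I) • (lc ι b))‖ ≤ M := by
    intro t
    have := hM _ (isSelfAdjoint_smul_real hsa t)
    rwa [smul_smul, mul_comm] at this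
  have hM0 : 0 ≤ M := (norm_nonneg _).trans (hM 0 (IsSelfAdjoint.zero A))
  have hK : 0 ≤ Real.exp 1 * M := by positivity
  have hm := maxNorm_nonneg b
  refine le_of_forall_pos_le_add fun ε hε => ?_
  set δ : ℝ := ε / (Real.exp 1 * M + 1) with hδ
  have hδ0 : 0 < δ := by positivity
  have h1 := norm_le_of_exp (h := lc ι b) (ρ := maxNorm b + δ) (by linarith)
    (fun x hx => (spec_le_maxNorm H ι hι hb hx).trans_lt (by linarith)) hM'
  have h2 : Real.exp 1 * M * δ ≤ ε := by
    rw [hδ, mul_div_assoc', div_le_iff₀ (by positivity)]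
    nlinarith
  nlinarith

theorem maxNorm_adj_le (a : G →₀ ℂ) : maxNorm (adj a) ≤ maxNorm a := by
  refine maxNorm_le fun E _ _ _ π => ?_
  refine (ContinuousLinearMap.opNorm_le_bound _ (maxNorm_nonneg a) fun x => ?_)
  -- `ev π (adj a)` is the adjoint of `ev π a`
  have h1 : ∀ x y : E, inner ℂ (ev π (adj a) x) y = inner ℂ x (ev π a y) := by
    intro x y
    have hs : ∀ b : G →₀ ℂ, inner ℂ (ev π (adj b) x) y = inner ℂ x (ev π b y) := by
      intro b
      induction b using Finsupp.induction_linear with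
      | zero =>
        have h0 : adj (0 : G →₀ ℂ) = 0 := by ext g; simp [adj_apply]
        rw [h0, ev_apply, ev_apply, Finsupp.sum_zero_index, Finsupp.sum_zero_index, inner_zero_left,
          inner_zero_right]
      | add f g hf hg =>
        rw [adj_add, ev_add, ev_add, add_apply, add_apply, inner_add_left, inner_add_right, hf, hg]
      | single g c =>
        rw [adj_single, ev_apply, ev_apply, Finsupp.sum_single_index (by simp),
          Finsupp.sum_single_index (by simp), inner_smul_left, inner_smul_right, Complex.conj_conj]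
        congr 1
        have h2 : y = π g⁻¹ (π g y) := by
          show y = (π g⁻¹ * π g) y
          rw [← map_mul, inv_mul_cancel, map_one]
          rfl
        conv_lhs => rw [h2]
        exact (π g⁻¹).inner_map_map _ _
    exact hs a
  have h2 : ‖ev π (adj a) x‖ ^ 2 ≤ ‖x‖ * (maxNorm a * ‖ev π (adj a) x‖) := by
    have h3 := h1 x (ev π (adj a) x)
    have h4 : ‖inner ℂ (ev π (adj a) x) (ev π (adj a) x)‖ = ‖ev π (adj a) x‖ ^ 2 := by
      rw [inner_self_eq_norm_sq_to_K, norm_pow]
      simp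
    rw [← h4, h3]
    refine (norm_inner_le_norm _ _).trans (mul_le_mul_of_nonneg_left ?_ (norm_nonneg _))
    exact ((ev π a).le_opNorm _).trans (mul_le_mul_of_nonneg_right (le_maxNorm π a) (norm_nonneg _))
  by_cases h0 : ‖ev π (adj a) x‖ = 0
  · rw [h0]
    exact mul_nonneg (maxNorm_nonneg a) (norm_nonneg _)
  · have h3 : 0 < ‖ev π (adj a) x‖ := lt_of_le_of_ne (norm_nonneg _) (Ne.symm h0)
    have h4 : ‖ev π (adj a) x‖ * ‖ev π (adj a) x‖ ≤ (maxNorm a * ‖x‖) * ‖ev π (adj a) x‖ := by
      nlinarith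
    exact le_of_mul_le_mul_right h4 h3

/-! ### The pair algebra -/

/-- pairs, with the involution `(x, y)* = (y*, x*)` -/
def Sw (B : Type) : Type := B × B

section Sw

variable {B : Type} [NormedRing B] [NormedAlgebra ℂ B] [CompleteSpace B] [StarRing B]
  [StarModule ℂ B] [ContinuousStar B]

instance : NormedRing (Sw B) := inferInstanceAs (NormedRing (B × B))
instance : NormedAlgebra ℂ (Sw B) := inferInstanceAs (NormedAlgebra ℂ (B × B))
instance : CompleteSpace (Sw B) := inferInstanceAs (CompleteSpace (B × B))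

instance : Star (Sw B) := ⟨fun z => (star z.2, star z.1)⟩

theorem Sw.star_def (z : Sw B) : star z = ((star z.2, star z.1) : B × B) := rfl

instance : StarRing (Sw B) where
  star_involutive z := by
    apply Prod.ext
    · exact star_star z.1
    · exact star_star z.2
  star_mul x y := by
    apply Prod.ext
    · exact star_mul x.2 y.2
    · exact star_mul x.1 y.1
  star_add x y := by
    apply Prod.ext
    · exact star_add x.2 y.2
    · exact star_add x.1 y.1

instance : StarModule ℂ (Sw B) where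
  star_smul c x := by
    apply Prod.ext
    · exact star_smul c x.2
    · exact star_smul c x.1

instance : ContinuousStar (Sw B) where
  continuous_star := by
    have : Continuous fun z : B × B => (star z.2, star z.1) := by fun_prop
    exact this

end Sw

end Pool.Agent.TH611.Un
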