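import Pool.Agent.TH611.Un5

/-!
# The closed algebra generated by a representation and its contragredient
-/

set_option autoImplicit false
set_option linter.unusedSectionVars false
set_option linter.unusedVariables false

noncomputable section

namespace Pool.Agent.TH611.Un

open Polynomial Filter Topology NormedSpace
open Pool.Agent.H71R3.FS Pool.Agent.TH698.Dix

variable {G : Type} [Group G]

theorem conj_half : (starRingEnd ℂ) (1 / 2) = 1 / 2 := by
  rw [map_div₀, map_one, map_ofNat]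

section Gen

variable {S : Type} [NormedRing S] [NormedAlgebra ℂ S] [CompleteSpace S] [StarRing S]
  [StarModule ℂ S] [ContinuousStar S]

theorem star_mem_adjoin (ι : G →* S) (hι : ∀ g, star (ι g) = ι g⁻¹) (x : S)
    (hx : x ∈ Algebra.adjoin ℂ (Set.range ι)) : star x ∈ Algebra.adjoin ℂ (Set.range ι) := by
  induction hx using Algebra.adjoin_induction with
  | mem x h =>
    obtain ⟨g, rfl⟩ := h
    exact Algebra.subset_adjoin ⟨g⁻¹, (hι g).symm⟩
  | algebraMap r =>
    rw [← algebraMap_star_comm]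
    exact Subalgebra.algebraMap_mem _ _
  | add x y _ _ h1 h2 =>
    rw [star_add]
    exact Subalgebra.add_mem _ h1 h2
  | mul x y _ _ h1 h2 =>
    rw [star_mul]
    exact Subalgebra.mul_mem _ h2 h1

/-- the *-algebra generated by the group -/
def gen (ι : G →* S) (hι : ∀ g, star (ι g) = ι g⁻¹) : StarSubalgebra ℂ S :=
  { Algebra.adjoin ℂ (Set.range ι) with
    star_mem' := fun {x} hx => star_mem_adjoin ι hι x hx }

theorem mem_gen (ι : G →* S) (hι : ∀ g, star (ι g) = ι g⁻¹) (x : S) :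
    x ∈ gen ι hι ↔ ∃ a : G →₀ ℂ, lc ι a = x := mem_adjoin_iff ι x

/-- its closure -/
def clo (ι : G →* S) (hι : ∀ g, star (ι g) = ι g⁻¹) : StarSubalgebra ℂ S :=
  (gen ι hι).topologicalClosure

instance instCompleteClo (ι : G →* S) (hι : ∀ g, star (ι g) = ι g⁻¹) : CompleteSpace (clo ι hι) :=
  (StarSubalgebra.isClosed_topologicalClosure (gen ι hι)).completeSpace_coe

instance instContStarClo (ι : G →* S) (hι : ∀ g, star (ι g) = ι g⁻¹) : ContinuousStar (clo ι hι) :=
  ⟨Continuous.subtype_mk (continuous_star.comp continuous_subtype_val) _⟩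

theorem mem_clo (ι : G →* S) (hι : ∀ g, star (ι g) = ι g⁻¹) (g : G) : ι g ∈ clo ι hι := by
  refine StarSubalgebra.le_topologicalClosure _ ?_
  rw [mem_gen]
  refine ⟨Finsupp.single g 1, ?_⟩
  rw [lc_single, one_smul]

/-- the group in the closure -/
def ιc (ι : G →* S) (hι : ∀ g, star (ι g) = ι g⁻¹) : G →* (clo ι hι) where
  toFun g := ⟨ι g, mem_clo ι hι g⟩
  map_one' := Subtype.ext (map_one ι)
  map_mul' g h := Subtype.ext (map_mul ι g h)

theorem star_ιc (ι : G →* S) (hι : ∀ g, star (ι g) = ι g⁻¹) (g : G) :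
    star (ιc ι hι g) = ιc ι hι g⁻¹ := Subtype.ext (hι g)

theorem coe_lc_ιc (ι : G →* S) (hι : ∀ g, star (ι g) = ι g⁻¹) (a : G →₀ ℂ) :
    ((lc (ιc ι hι) a : clo ι hι) : S) = lc ι a := by
  induction a using Finsupp.induction_linear with
  | zero => rw [map_zero, map_zero]; rfl
  | add f g hf hg => rw [map_add, map_add, ← hf, ← hg]; rfl
  | single g c => rw [lc_single, lc_single]; rfl

/-- self-adjoint elements are limits of self-adjoint elements of the group algebra -/
theorem exists_seq (ι : G →* S) (hι : ∀ g, star (ι g) = ι g⁻¹) {h : clo ι hι}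
    (hh : IsSelfAdjoint h) :
    ∃ b : ℕ → (G →₀ ℂ), (∀ n, adj (b n) = b n) ∧ Tendsto (fun n => lc ι (b n)) atTop (𝓝 (h : S)) := by
  have h1 : (h : S) ∈ closure ((gen ι hι : StarSubalgebra ℂ S) : Set S) := by
    rw [← StarSubalgebra.topologicalClosure_coe]
    exact h.2
  obtain ⟨s, hs, hlim⟩ := mem_closure_iff_seq_limit.1 h1
  choose a ha using fun n => (mem_gen ι hι (s n)).1 (hs n)
  have h2 : star (h : S) = h := congrArg Subtype.val hh
  have h3 : Tendsto (fun n => star (s n)) atTop (𝓝 (h : S)) := by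
    have := (continuous_star.tendsto (h : S)).comp hlim
    rw [h2] at this
    exact this
  refine ⟨fun n => (1 / 2 : ℂ) • (a n + adj (a n)), fun n => ?_, ?_⟩
  · rw [adj_smul, adj_add, adj_adj, add_comm (adj (a n)), conj_half]
  · have h4 : Tendsto (fun n => (1 / 2 : ℂ) • (s n + star (s n))) atTop
        (𝓝 ((1 / 2 : ℂ) • ((h : S) + (h : S)))) := (hlim.add h3).const_smul _
    have h5 : (1 / 2 : ℂ) • ((h : S) + (h : S)) = h := by
      rw [← two_smul ℂ, smul_smul]
      norm_num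
    rw [h5] at h4
    refine h4.congr fun n => ?_
    rw [map_smul, map_add, ← star_lc ι hι, ha]

end Gen

variable {H : Type} [NormedAddCommGroup H] [InnerProductSpace ℂ H] [CompleteSpace H]

/-- the representation together with its contragredient -/
def pr (π : G →* (H →L[ℂ] H)) : G →* Sw (H →L[ℂ] H) where
  toFun g := (π g, star (π g⁻¹))
  map_one' := by
    rw [inv_one, map_one, star_one]; rfl
  map_mul' g h := by
    rw [mul_inv_rev, map_mul, map_mul, star_mul]; rfl

theorem star_pr (π : G →* (H →L[ℂ] H)) (g : G) : star (pr π g) = pr π g⁻¹ := by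
  show ((star (star (π g⁻¹)), star (π g)) : (H →L[ℂ] H) × (H →L[ℂ] H)) = (π g⁻¹, star (π g⁻¹⁻¹))
  rw [star_star, inv_inv]

theorem fst_lc_pr (π : G →* (H →L[ℂ] H)) (a : G →₀ ℂ) : (lc (pr π) a).1 = opv π a := by
  induction a using Finsupp.induction_linear with
  | zero => rw [map_zero, map_zero]; rfl
  | add f g hf hg =>
    rw [map_add, map_add, ← hf, ← hg]; rfl
  | single g c =>
    rw [lc_single]
    unfold opv
    rw [Finsupp.linearCombination_single]
    rfl

theorem snd_of_sa {z : Sw (H →L[ℂ] H)} (hz : star z = z) : z.2 = star z.1 := by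
  have := congrArg Prod.snd hz
  exact this.symm

/-- exponentials in the pair algebra -/
theorem norm_exp_pair {z : Sw (H →L[ℂ] H)} (hz : star z = z) {M : ℝ}
    (h1 : ‖exp (Complex.I • z.1)‖ ≤ M) (h2 : ‖exp (Complex.I • (-z.1))‖ ≤ M) :
    ‖exp (Complex.I • z)‖ ≤ M := by
  have e1 : (exp (Complex.I • z)).1 = exp (Complex.I • z.1) := by
    let _ : NormedAlgebra ℚ (H →L[ℂ] H) := .restrictScalars ℚ ℂ _
    exact Prod.fst_exp (𝔸 := H →L[ℂ] H) (𝔹 := H →L[ℂ] H) (Complex.I • z)
  have e2 : (exp (Complex.I • z)).2 = exp (Complex.I • z.2) := by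
    let _ : NormedAlgebra ℚ (H →L[ℂ] H) := .restrictScalars ℚ ℂ _
    exact Prod.snd_exp (𝔸 := H →L[ℂ] H) (𝔹 := H →L[ℂ] H) (Complex.I • z)
  have e3 : exp (Complex.I • z.2) = star (exp (Complex.I • (-z.1))) := by
    rw [snd_of_sa hz, star_exp, star_smul, star_neg]
    congr 1
    have : star Complex.I = -Complex.I := Complex.conj_I
    rw [this, neg_smul, smul_neg, neg_neg]
  have e4 : ‖exp (Complex.I • z)‖ = max ‖(exp (Complex.I • z)).1‖ ‖(exp (Complex.I • z)).2‖ := rfl
  rw [e4, e1, e2, e3, norm_star]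
  exact max_le h1 h2

/-- the closure of the image of the self-adjoint part of the group algebra -/
def HH (π : G →* (H →L[ℂ] H)) : Set (H →L[ℂ] H) :=
  closure {T | ∃ b : G →₀ ℂ, adj b = b ∧ opv π b = T}

theorem exp_bound_closure (π : G →* (H →L[ℂ] H)) {M : ℝ}
    (hM : ∀ b : G →₀ ℂ, adj b = b → ‖exp (Complex.I • opv π b)‖ ≤ M) :
    ∀ T ∈ HH π, ‖exp (Complex.I • T)‖ ≤ M := by
  intro T hT
  have hcl : IsClosed {T : H →L[ℂ] H | ‖exp (Complex.I • T)‖ ≤ M} := by
    refine isClosed_le (continuous_norm.comp ?_) continuous_const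
    let _ : NormedAlgebra ℚ (H →L[ℂ] H) := .restrictScalars ℚ ℂ _
    exact exp_continuous.comp (continuous_const_smul Complex.I)
  refine closure_minimal ?_ hcl hT
  rintro _ ⟨b, hb, rfl⟩
  exact hM b hb

theorem fst_mem_HH (π : G →* (H →L[ℂ] H)) {h : clo (pr π) (star_pr π)} (hh : IsSelfAdjoint h) :
    (h : Sw (H →L[ℂ] H)).1 ∈ HH π := by
  obtain ⟨b, hb, hlim⟩ := exists_seq (pr π) (star_pr π) hh
  have h1 : Tendsto (fun n => (lc (pr π) (b n)).1) atTop (𝓝 (h : Sw (H →L[ℂ] H)).1) := by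
    have hc : Continuous fun z : (H →L[ℂ] H) × (H →L[ℂ] H) => z.1 := continuous_fst
    exact (hc.tendsto _).comp hlim
  refine mem_closure_of_tendsto h1 (Eventually.of_forall fun n => ⟨b n, hb n, ?_⟩)
  rw [fst_lc_pr]

/-- exponentials of self-adjoint elements of the closed pair algebra -/
theorem exp_bound_pair (π : G →* (H →L[ℂ] H)) {M : ℝ}
    (hM : ∀ T ∈ HH π, ‖exp (Complex.I • T)‖ ≤ M) (h : clo (pr π) (star_pr π))
    (hh : IsSelfAdjoint h) : ‖exp (Complex.I • h)‖ ≤ M := by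
  have hz : star (h : Sw (H →L[ℂ] H)) = h := congrArg Subtype.val hh
  have h1 := fst_mem_HH π hh
  have h2 : -(h : Sw (H →L[ℂ] H)).1 ∈ HH π := fst_mem_HH π (h := -h) hh.neg
  have h3 := norm_exp_pair hz (hM _ h1) (hM _ h2)
  have h4 : ((exp (Complex.I • h) : clo (pr π) (star_pr π)) : Sw (H →L[ℂ] H)) =
      exp (Complex.I • (h : Sw (H →L[ℂ] H))) := by
    let _ : NormedAlgebra ℚ (Sw (H →L[ℂ] H)) := .restrictScalars ℚ ℂ _
    let _ : NormedAlgebra ℚ (clo (pr π) (star_pr π)) := .restrictScalars ℚ ℂ _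
    exact map_exp (clo (pr π) (star_pr π)).subtype.toRingHom continuous_subtype_val (Complex.I • h)
  have h5 : ‖exp (Complex.I • h)‖ =
      ‖((exp (Complex.I • h) : clo (pr π) (star_pr π)) : Sw (H →L[ℂ] H))‖ := rfl
  rw [h5, h4]
  exact h3

/-- domination by the maximal norm, self-adjoint elements -/
theorem dom_sa (π : G →* (H →L[ℂ] H)) {M : ℝ} (hM : ∀ T ∈ HH π, ‖exp (Complex.I • T)‖ ≤ M)
    {b : G →₀ ℂ} (hb : adj b = b) : ‖opv π b‖ ≤ Real.exp 1 * M * maxNorm b := by
  have h1 := norm_le_maxNorm (exp_bound_pair π hM) (ιc (pr π) (star_pr π))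
    (star_ιc (pr π) (star_pr π)) hb
  refine le_trans ?_ h1
  have h2 : ‖(lc (ιc (pr π) (star_pr π)) b : clo (pr π) (star_pr π))‖ =
      ‖((lc (ιc (pr π) (star_pr π)) b : clo (pr π) (star_pr π)) : Sw (H →L[ℂ] H))‖ := rfl
  rw [h2, coe_lc_ιc, ← fst_lc_pr]
  exact le_max_left _ _

/-- domination by the maximal norm -/
theorem dom_all (π : G →* (H →L[ℂ] H)) {M : ℝ} (hM : ∀ T ∈ HH π, ‖exp (Complex.I • T)‖ ≤ M)
    (a : G →₀ ℂ) : ‖opv π a‖ ≤ 2 * (Real.exp 1 * M) * maxNorm a := by
  have hM0 : 0 ≤ M := by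
    refine (norm_nonneg _).trans (hM 0 (subset_closure ⟨0, ?_, map_zero _⟩))
    ext g; simp [adj_apply]
  set b : G →₀ ℂ := (1 / 2 : ℂ) • (a + adj a) with hb
  set c : G →₀ ℂ := (1 / 2 : ℂ) • (Complex.I • (a - adj a)) with hc
  have hbs : adj b = b := by
    rw [hb, adj_smul, adj_add, adj_adj, add_comm (adj a), conj_half]
  have hcs : adj c = c := by
    rw [hc, adj_smul, adj_smul, adj_sub, adj_adj, Complex.conj_I]
    rw [conj_half, neg_smul, ← smul_neg]
    congr 2
    abel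
  have ha : a = b + (-Complex.I) • c := by
    rw [hb, hc, smul_comm (-Complex.I) (1 / 2 : ℂ), smul_smul (-Complex.I)]
    have : -Complex.I * Complex.I = 1 := by rw [neg_mul, Complex.I_mul_I, neg_neg]
    rw [this, one_smul, ← smul_add]
    have h2 : a + adj a + (a - adj a) = (2 : ℂ) • a := by rw [two_smul]; abel
    rw [h2, smul_smul]
    norm_num
  have hK : 0 ≤ Real.exp 1 * M := by positivity
  have hmb : maxNorm b ≤ maxNorm a := by
    calc maxNorm b ≤ ‖(1 / 2 : ℂ)‖ * maxNorm (a + adj a) := maxNorm_smul_le _ _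
      _ ≤ ‖(1 / 2 : ℂ)‖ * (maxNorm a + maxNorm (adj a)) :=
          mul_le_mul_of_nonneg_left (maxNorm_add _ _) (norm_nonneg _)
      _ ≤ ‖(1 / 2 : ℂ)‖ * (maxNorm a + maxNorm a) :=
          mul_le_mul_of_nonneg_left (by linarith [maxNorm_adj_le a]) (norm_nonneg _)
      _ = maxNorm a := by
          rw [norm_div, norm_one]
          norm_num
          ring
  have hneg : maxNorm (-adj a) ≤ maxNorm a := by
    have h1 : -adj a = (-1 : ℂ) • adj a := by rw [neg_one_smul]
    rw [h1]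
    refine (maxNorm_smul_le _ _).trans ?_
    rw [norm_neg, norm_one, one_mul]
    exact maxNorm_adj_le a
  have hmc : maxNorm c ≤ maxNorm a := by
    calc maxNorm c ≤ ‖(1 / 2 : ℂ)‖ * maxNorm (Complex.I • (a - adj a)) := maxNorm_smul_le _ _
      _ ≤ ‖(1 / 2 : ℂ)‖ * (‖Complex.I‖ * maxNorm (a - adj a)) :=
          mul_le_mul_of_nonneg_left (maxNorm_smul_le _ _) (norm_nonneg _)
      _ ≤ ‖(1 / 2 : ℂ)‖ * (1 * (maxNorm a + maxNorm a)) := by
          rw [Complex.norm_I]
          refine mul_le_mul_of_nonneg_left ?_ (norm_nonneg _)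
          rw [one_mul, one_mul, sub_eq_add_neg]
          refine (maxNorm_add _ _).trans ?_
          linarith
      _ = maxNorm a := by
          rw [norm_div, norm_one]
          norm_num
          ring
  have h1 := dom_sa π hM hbs
  have h2 := dom_sa π hM hcs
  calc ‖opv π a‖ = ‖opv π b + (-Complex.I) • opv π c‖ := by rw [← map_smul, ← map_add, ← ha]
    _ ≤ ‖opv π b‖ + ‖(-Complex.I) • opv π c‖ := norm_add_le _ _
    _ = ‖opv π b‖ + ‖opv π c‖ := by rw [norm_smul, norm_neg, Complex.norm_I, one_mul]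
    _ ≤ Real.exp 1 * M * maxNorm a + Real.exp 1 * M * maxNorm a :=
        add_le_add (h1.trans (mul_le_mul_of_nonneg_left hmb hK))
          (h2.trans (mul_le_mul_of_nonneg_left hmc hK))
    _ = _ := by ring

/-- bounded exponentials imply unitarizability -/
theorem unit_of_exp (π : G →* (H →L[ℂ] H)ˣ) {M : ℝ}
    (hM : ∀ T ∈ HH ((Units.coeHom (H →L[ℂ] H)).comp π), ‖exp (Complex.I • T)‖ ≤ M) :
    ∃ S : (H →L[ℂ] H)ˣ, ∀ g : G, ((S * π g * S⁻¹ : (H →L[ℂ] H)ˣ) : H →L[ℂ] H) ∈
      unitary (H →L[ℂ] H) := by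
  refine unit_of_bound (C := max 1 (2 * (Real.exp 1 * M))) π (le_max_left _ _) fun a => ?_
  refine (dom_all _ hM a).trans (mul_le_mul_of_nonneg_right (le_max_right _ _) (maxNorm_nonneg a))

end Pool.Agent.TH611.Un
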