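import Pool.Agent.TH611.Un4

/-!
# The C*-seminorm
-/

set_option autoImplicit false
set_option linter.unusedSectionVars false
set_option linter.unusedVariables false

noncomputable section

namespace Pool.Agent.TH611.Un

open Polynomial Filter Topology NormedSpace

variable {A : Type} [NormedRing A] [NormedAlgebra ℂ A] [CompleteSpace A] [StarRing A]
  [StarModule ℂ A] [ContinuousStar A]

/-- the spectral radius is at most `c` -/
def Bd (a : A) (c : ℝ) : Prop := ∀ x ∈ spectrum ℂ a, ‖x‖ ≤ c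

theorem Bd.mono {a : A} {c d : ℝ} (h : Bd a c) (hcd : c ≤ d) : Bd a d := fun x hx => (h x hx).trans hcd

theorem Bd.smul {a : A} {c : ℝ} (h : Bd a c) (hc : 0 ≤ c) (z : ℂ) : Bd (z • a) (‖z‖ * c) := by
  intro x hx
  by_cases h0 : z = 0
  · subst h0
    rw [zero_smul] at hx
    cases subsingleton_or_nontrivial A with
    | inl hs =>
      rw [spectrum.of_subsingleton] at hx
      exact absurd hx (Set.notMem_empty _)
    | inr hn =>
      rw [spectrum.zero_eq, Set.mem_singleton_iff] at hx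
      rw [hx, norm_zero, zero_mul]
  · have hu : IsUnit z := isUnit_iff_ne_zero.2 h0
    have h1 : z * (z⁻¹ * x) ∈ spectrum ℂ (z • a) := by
      rw [mul_inv_cancel_left₀ h0]; exact hx
    have h2 : z⁻¹ * x ∈ spectrum ℂ a := (spectrum.smul_mem_smul_iff (r := hu.unit)).1 h1
    have h3 := h _ h2
    have h4 : x = z * (z⁻¹ * x) := by rw [mul_inv_cancel_left₀ h0]
    rw [h4, norm_mul]
    exact mul_le_mul_of_nonneg_left h3 (norm_nonneg _)

theorem Bd.dsc {a : A} {c d : ℝ} (h : Bd a c) (hc : 0 ≤ c) (hcd : c < d) :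
    Dsc (((d⁻¹ : ℝ) : ℂ) • a) := by
  intro x hx
  have h1 := h.smul hc ((d⁻¹ : ℝ) : ℂ) x hx
  have hd : 0 < d := by linarith
  rw [Complex.norm_real, Real.norm_of_nonneg (inv_nonneg.2 hd.le)] at h1
  refine h1.trans_lt ?_
  rw [inv_mul_lt_iff₀ hd]
  linarith

theorem Dsc.bd {a : A} {d : ℝ} (hd : 0 < d) (h : Dsc (((d⁻¹ : ℝ) : ℂ) • a)) :
    ∀ x ∈ spectrum ℂ a, ‖x‖ < d := by
  intro x hx
  have hne : ((d⁻¹ : ℝ) : ℂ) ≠ 0 := Complex.ofReal_ne_zero.2 (inv_ne_zero hd.ne')
  have hu : IsUnit ((d⁻¹ : ℝ) : ℂ) := isUnit_iff_ne_zero.2 hne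
  have h1 : ((d⁻¹ : ℝ) : ℂ) * x ∈ spectrum ℂ (((d⁻¹ : ℝ) : ℂ) • a) :=
    (spectrum.smul_mem_smul_iff (r := hu.unit)).2 hx
  have h2 := h _ h1
  rw [norm_mul, Complex.norm_real, Real.norm_of_nonneg (inv_nonneg.2 hd.le), inv_mul_lt_iff₀ hd,
    mul_one] at h2
  exact h2

theorem le_of_forall_eps {a c d : ℝ} (h : ∀ ε : ℝ, 0 < ε → a ≤ (c + ε) * (d + ε)) : a ≤ c * d := by
  have h1 : Tendsto (fun ε : ℝ => (c + ε) * (d + ε)) (𝓝[>] 0) (𝓝 ((c + 0) * (d + 0))) := by
    refine Tendsto.mono_left ?_ nhdsWithin_le_nhds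
    exact ((tendsto_const_nhds.add tendsto_id).mul (tendsto_const_nhds.add tendsto_id))
  rw [add_zero, add_zero] at h1
  refine ge_of_tendsto h1 ?_
  filter_upwards [self_mem_nhdsWithin] with ε hε
  exact h ε hε

theorem bd_mul (H : Hyp A) {h k : A} (hh : IsSelfAdjoint h) (hk : IsSelfAdjoint k) {c d : ℝ}
    (hc : 0 ≤ c) (hd : 0 ≤ d) (h1 : Bd h c) (h2 : Bd k d) : Bd (h * k) (c * d) := by
  intro x hx
  refine le_of_forall_eps fun ε hε => ?_
  have e1 := dsc_mul H (isSelfAdjoint_smul_real hh (c + ε)⁻¹) (isSelfAdjoint_smul_real hk (d + ε)⁻¹)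
    (h1.dsc hc (by linarith)) (h2.dsc hd (by linarith))
  have e2 : (((c + ε)⁻¹ : ℝ) : ℂ) • h * (((d + ε)⁻¹ : ℝ) : ℂ) • k =
      (((((c + ε) * (d + ε))⁻¹ : ℝ)) : ℂ) • (h * k) := by
    rw [smul_mul_smul_comm, ← Complex.ofReal_mul, mul_inv]
  rw [e2] at e1
  exact (Dsc.bd (by positivity) e1 x hx).le

theorem bd_of_star_mul (H : Hyp A) {x : A} {c : ℝ} (hc : 0 ≤ c) (h : Bd (star x * x) (c ^ 2)) :
    Bd x c := by
  intro y hy
  have key : ∀ ε : ℝ, 0 < ε → ‖y‖ ≤ c + ε := by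
    intro ε hε
    have hpos : 0 < c + ε := by linarith
    have h1 : Dsc (star ((((c + ε)⁻¹ : ℝ) : ℂ) • x) * ((((c + ε)⁻¹ : ℝ) : ℂ) • x)) := by
      have e : star ((((c + ε)⁻¹ : ℝ) : ℂ) • x) * ((((c + ε)⁻¹ : ℝ) : ℂ) • x) =
          ((((c + ε) ^ 2)⁻¹ : ℝ) : ℂ) • (star x * x) := by
        rw [star_smul, smul_mul_smul_comm]
        congr 1
        have : star (((c + ε)⁻¹ : ℝ) : ℂ) = (((c + ε)⁻¹ : ℝ) : ℂ) := Complex.conj_ofReal _
        rw [this, ← Complex.ofReal_mul, ← mul_inv, pow_two]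
      rw [e]
      refine h.dsc (by positivity) ?_
      have : 0 < ε * (2 * c + ε) := by positivity
      nlinarith
    exact (Dsc.bd hpos (Dsc.of_star_mul H h1) y hy).le
  exact le_of_forall_pos_le_add key

theorem bd_add (H : Hyp A) {h k : A} (hh : IsSelfAdjoint h) (hk : IsSelfAdjoint k) {c d : ℝ}
    (h1 : Bd h c) (h2 : Bd k d) : Bd (h + k) (c + d) := by
  have hp : ∀ {h : A} (_ : IsSelfAdjoint h) {c : ℝ} (_ : Bd h c), Pos (pv h (C c - X)) := by
    intro h hh c h1
    refine Pos.of_pv H hh _ fun x hx => ?_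
    rw [eval_sub, eval_C, eval_X]
    have := h1 _ hx
    rw [Complex.norm_real, Real.norm_eq_abs] at this
    linarith [le_abs_self x]
  have hm : ∀ {h : A} (_ : IsSelfAdjoint h) {c : ℝ} (_ : Bd h c), Pos (pv h (C c + X)) := by
    intro h hh c h1
    refine Pos.of_pv H hh _ fun x hx => ?_
    rw [eval_add, eval_C, eval_X]
    have := h1 _ hx
    rw [Complex.norm_real, Real.norm_eq_abs] at this
    linarith [neg_abs_le x]
  have hsa : IsSelfAdjoint (h + k) := hh.add hk
  intro x hx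
  have hxr : x = ((x.re : ℝ) : ℂ) := Complex.ext (by simp) (by simp [H.re _ hsa x hx])
  have p1 := (hp hh h1).add H (hp hk h2)
  have p2 := (hm hh h1).add H (hm hk h2)
  have e1 : pv h (C c - X) + pv k (C d - X) = pv (h + k) (C (c + d) - X) := by
    rw [pv_sub, pv_sub, pv_sub, pv_C, pv_C, pv_C, pv_X, pv_X, pv_X, Complex.ofReal_add, map_add]
    abel
  have e2 : pv h (C c + X) + pv k (C d + X) = pv (h + k) (C (c + d) + X) := by
    rw [pv_add, pv_add, pv_add, pv_C, pv_C, pv_C, pv_X, pv_X, pv_X, Complex.ofReal_add, map_add]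
    abel
  rw [e1] at p1
  rw [e2] at p2
  rw [hxr] at hx
  have q1 := p1.2 _ (mem_pv (C (c + d) - X) hx)
  have q2 := p2.2 _ (mem_pv (C (c + d) + X) hx)
  rw [Complex.ofReal_re, eval_sub, eval_C, eval_X] at q1
  rw [Complex.ofReal_re, eval_add, eval_C, eval_X] at q2
  rw [hxr, Complex.norm_real, Real.norm_eq_abs, abs_le]
  constructor <;> linarith

/-- the C*-seminorm of `x` is at most `c` -/
def P (x : A) (c : ℝ) : Prop := 0 ≤ c ∧ Bd (star x * x) (c ^ 2)

theorem P.mono {x : A} {c d : ℝ} (h : P x c) (hcd : c ≤ d) : P x d :=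
  ⟨h.1.trans hcd, h.2.mono (pow_le_pow_left₀ h.1 hcd 2)⟩

theorem Bd.comm {a b : A} {c : ℝ} (hc : 0 ≤ c) (h : Bd (a * b) c) : Bd (b * a) c := by
  intro x hx
  by_cases h0 : x = 0
  · rw [h0, norm_zero]; exact hc
  · have h1 : x ∈ spectrum ℂ (b * a) \ {0} := ⟨hx, h0⟩
    rw [← spectrum.nonzero_mul_comm] at h1
    exact h x h1.1

theorem P.star {x : A} {c : ℝ} (h : P x c) : P (star x) c := by
  refine ⟨h.1, ?_⟩
  rw [star_star]
  exact h.2.comm (sq_nonneg c)

theorem P.mul (H : Hyp A) {x y : A} {c d : ℝ} (h1 : P x c) (h2 : P y d) : P (x * y) (c * d) := by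
  refine ⟨mul_nonneg h1.1 h2.1, ?_⟩
  have e : Star.star (x * y) * (x * y) = Star.star y * ((Star.star x * x) * y) := by
    rw [star_mul]; simp only [mul_assoc]
  rw [e, mul_pow]
  have h3 := h2.star.2
  rw [star_star] at h3
  have h4 := bd_mul H (IsSelfAdjoint.star_mul_self x) (IsSelfAdjoint.mul_star_self y) (sq_nonneg c)
    (sq_nonneg d) h1.2 h3
  have e2 : Star.star x * x * (y * Star.star y) = (Star.star x * x * y) * Star.star y := by
    simp only [mul_assoc]
  rw [e2] at h4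
  exact h4.comm (by positivity)

theorem P.bd (H : Hyp A) {x : A} {c : ℝ} (h : P x c) : Bd x c := bd_of_star_mul H h.1 h.2

theorem P.of_bd (H : Hyp A) {h : A} (hh : IsSelfAdjoint h) {c : ℝ} (hc : 0 ≤ c) (h1 : Bd h c) :
    P h c := by
  refine ⟨hc, ?_⟩
  have e : Star.star h = h := hh
  rw [e, pow_two]
  exact bd_mul H hh hh hc hc h1 h1

theorem P.smul {x : A} {c : ℝ} (h : P x c) (z : ℂ) : P (z • x) (‖z‖ * c) := by
  refine ⟨mul_nonneg (norm_nonneg _) h.1, ?_⟩
  have e : Star.star (z • x) * (z • x) = (Star.star z * z) • (Star.star x * x) := by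
    rw [star_smul, smul_mul_smul_comm]
  rw [e]
  have h1 := h.2.smul (sq_nonneg c) (Star.star z * z)
  have e2 : ‖Star.star z * z‖ * c ^ 2 = (‖z‖ * c) ^ 2 := by
    rw [norm_mul, norm_star]; ring
  rwa [e2] at h1

theorem P.re (H : Hyp A) {w : A} {c : ℝ} (h : P w c) : Bd (w + Star.star w) (2 * c) := by
  have hsa : IsSelfAdjoint (w + Star.star w) := by
    show Star.star (w + Star.star w) = w + Star.star w
    rw [star_add, star_star, add_comm]
  have hsa2 : IsSelfAdjoint (Complex.I • (w - Star.star w)) := by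
    show Star.star (Complex.I • (w - Star.star w)) = Complex.I • (w - Star.star w)
    rw [star_smul, star_sub, star_star]
    have : Star.star Complex.I = -Complex.I := Complex.conj_I
    rw [this, neg_smul, ← smul_neg]
    congr 1
    abel
  have hc2 : 0 ≤ c ^ 2 := sq_nonneg c
  -- the sum `w* w + w w*`
  have h1 : Bd (Star.star w * w + w * Star.star w) (c ^ 2 + c ^ 2) := by
    refine bd_add H (IsSelfAdjoint.star_mul_self w) (IsSelfAdjoint.mul_star_self w) h.2 ?_
    exact h.2.comm hc2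
  set s : A := Star.star w * w + w * Star.star w with hs
  have hss : IsSelfAdjoint s := (IsSelfAdjoint.star_mul_self w).add (IsSelfAdjoint.mul_star_self w)
  have h2 : Pos (pv s (C (4 * c ^ 2) - C 2 * X)) := by
    refine Pos.of_pv H hss _ fun x hx => ?_
    rw [eval_sub, eval_mul, eval_C, eval_C, eval_X]
    have := h1 _ hx
    rw [Complex.norm_real, Real.norm_eq_abs] at this
    linarith [le_abs_self x]
  have h3 : Pos (algebraMap ℂ A ((4 * c ^ 2 : ℝ) : ℂ) - (w + Star.star w) * (w + Star.star w)) := by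
    have h4 := h2.add H (Pos.sq H hsa2)
    have e : pv s (C (4 * c ^ 2) - C 2 * X) + Complex.I • (w - Star.star w) *
        Complex.I • (w - Star.star w) =
        algebraMap ℂ A ((4 * c ^ 2 : ℝ) : ℂ) - (w + Star.star w) * (w + Star.star w) := by
      rw [pv_sub, pv_mul, pv_C, pv_C, pv_X, smul_mul_smul_comm, Complex.I_mul_I, neg_one_smul, hs]
      have e2 : algebraMap ℂ A ((2 : ℝ) : ℂ) = 2 := by
        rw [Complex.ofReal_ofNat, map_ofNat]
      rw [e2]
      noncomm_ring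
    rwa [e] at h4
  refine bd_of_star_mul H (by linarith [h.1]) ?_
  have e : Star.star (w + Star.star w) = w + Star.star w := hsa
  rw [e]
  intro x hx
  have hsq := Pos.sq H hsa
  obtain ⟨h5, h6⟩ := Pos.mem (H := H) hsq hx
  have h7 : ((4 * c ^ 2 : ℝ) : ℂ) - x ∈ spectrum ℂ
      (algebraMap ℂ A ((4 * c ^ 2 : ℝ) : ℂ) - (w + Star.star w) * (w + Star.star w)) := by
    rw [spectrum.mem_iff] at hx ⊢
    intro h8
    apply hx
    have e3 : algebraMap ℂ A x - (w + Star.star w) * (w + Star.star w) =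
        -(algebraMap ℂ A (((4 * c ^ 2 : ℝ) : ℂ) - x) -
          (algebraMap ℂ A ((4 * c ^ 2 : ℝ) : ℂ) - (w + Star.star w) * (w + Star.star w))) := by
      rw [map_sub]; abel
    rw [e3]
    exact h8.neg
  have h8 := h3.2 _ h7
  rw [Complex.sub_re, Complex.ofReal_re] at h8
  rw [h5, Complex.norm_real, Real.norm_of_nonneg h6]
  nlinarith

theorem P.add (H : Hyp A) {x y : A} {c d : ℝ} (h1 : P x c) (h2 : P y d) : P (x + y) (c + d) := by
  refine ⟨add_nonneg h1.1 h2.1, ?_⟩
  have hw : P (Star.star x * y) (c * d) := P.mul H h1.star h2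
  have h3 := hw.re H
  have h4 := bd_add H (IsSelfAdjoint.star_mul_self x) (IsSelfAdjoint.star_mul_self y) h1.2 h2.2
  have hsa : IsSelfAdjoint (Star.star x * y + Star.star (Star.star x * y)) := by
    show Star.star (Star.star x * y + Star.star (Star.star x * y)) = _
    rw [star_add, star_star, add_comm]
  have h5 := bd_add H ((IsSelfAdjoint.star_mul_self x).add (IsSelfAdjoint.star_mul_self y)) hsa h4 h3
  have e1 : Star.star x * x + Star.star y * y + (Star.star x * y + Star.star (Star.star x * y)) =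
      Star.star (x + y) * (x + y) := by
    rw [star_mul, star_star, star_add]
    noncomm_ring
  have e2 : c ^ 2 + d ^ 2 + 2 * (c * d) = (c + d) ^ 2 := by ring
  rw [e1, e2] at h5
  exact h5

theorem P.exists (x : A) : ∃ c : ℝ, P x c := by
  refine ⟨Real.sqrt (‖Star.star x * x‖ * ‖(1 : A)‖), Real.sqrt_nonneg _, fun y hy => ?_⟩
  rw [Real.sq_sqrt (by positivity)]
  exact spectrum.norm_le_norm_mul_of_mem hy

end Pool.Agent.TH611.Un
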