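import Pool.Agent.TH611.Un7

/-!
# Continuous functional calculus
-/

set_option autoImplicit false
set_option linter.unusedSectionVars false
set_option linter.unusedVariables false

noncomputable section

namespace Pool.Agent.TH611.Un

open Polynomial Filter Topology NormedSpace

variable {A : Type} [NormedRing A] [NormedAlgebra ℂ A] [CompleteSpace A] [StarRing A]
  [StarModule ℂ A] [ContinuousStar A]

/-- a bound for the spectral radius -/
def Rd (h : A) : ℝ := ‖h‖ * ‖(1 : A)‖

theorem Rd_nonneg (h : A) : 0 ≤ Rd h := by unfold Rd; positivity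

theorem mem_Rd {h : A} {x : ℝ} (hx : (x : ℂ) ∈ spectrum ℂ h) : x ∈ Set.Icc (-Rd h) (Rd h) := by
  have := spectrum.norm_le_norm_mul_of_mem hx
  rw [Complex.norm_real, Real.norm_eq_abs] at this
  exact abs_le.1 this

/-- the defining property of `f(h)` -/
def IsCf (h : A) (f : ℝ → ℝ) (a : A) : Prop :=
  ∀ (p : ℕ → ℝ[X]) (δ : ℕ → ℝ), Tendsto δ atTop (𝓝 0) →
    (∀ n, ∀ x ∈ Set.Icc (-Rd h) (Rd h), |(p n).eval x - f x| ≤ δ n) →
    Tendsto (fun n => pv h (p n)) atTop (𝓝 a)

theorem exists_isCf (H : Hyp A) {h : A} (hh : IsSelfAdjoint h) {f : ℝ → ℝ} (hf : Continuous f) :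
    ∃ a : A, IsCf h f a := by
  obtain ⟨K, hK, hpol⟩ := H.pol h hh
  choose p0 hp0 using fun n : ℕ => exists_polynomial_near_of_continuousOn (-Rd h) (Rd h) f
    hf.continuousOn (1 / ((n : ℝ) + 1)) (by positivity)
  have hlim0 : Tendsto (fun n : ℕ => 1 / ((n : ℝ) + 1)) atTop (𝓝 0) :=
    tendsto_one_div_add_atTop_nhds_zero_nat
  have hcau : CauchySeq fun n => pv h (p0 n) := by
    refine cauchySeq_of_le_tendsto_0 (fun n => K * (2 * (1 / ((n : ℝ) + 1)))) ?_ ?_
    · intro n m N hn hm
      rw [dist_eq_norm, ← pv_sub]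
      refine hpol _ _ (by positivity) fun x hx => ?_
      have h2 := hp0 n x (mem_Rd hx)
      have h3 := hp0 m x (mem_Rd hx)
      rw [eval_sub]
      have h4 : 1 / ((n : ℝ) + 1) ≤ 1 / ((N : ℝ) + 1) := by
        apply one_div_le_one_div_of_le (by positivity)
        have : (N : ℝ) ≤ n := by exact_mod_cast hn
        linarith
      have h5 : 1 / ((m : ℝ) + 1) ≤ 1 / ((N : ℝ) + 1) := by
        apply one_div_le_one_div_of_le (by positivity)
        have : (N : ℝ) ≤ m := by exact_mod_cast hm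
        linarith
      have h6 : (p0 n).eval x - (p0 m).eval x = ((p0 n).eval x - f x) - ((p0 m).eval x - f x) := by
        ring
      rw [h6]
      refine (abs_sub _ _).trans ?_
      linarith
    · have : Tendsto (fun n : ℕ => K * (2 * (1 / ((n : ℝ) + 1)))) atTop (𝓝 (K * (2 * 0))) :=
        (hlim0.const_mul 2).const_mul K
      simpa using this
  obtain ⟨a, ha⟩ := cauchySeq_tendsto_of_complete hcau
  refine ⟨a, fun p δ hδ hp => ?_⟩
  have hδ0 : ∀ n, 0 ≤ δ n := fun n =>
    (abs_nonneg _).trans (hp n 0 ⟨by linarith [Rd_nonneg h], Rd_nonneg h⟩)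
  have h1 : Tendsto (fun n => pv h (p n) - pv h (p0 n)) atTop (𝓝 0) := by
    rw [tendsto_zero_iff_norm_tendsto_zero]
    refine squeeze_zero (fun n => norm_nonneg _) (g := fun n => K * (δ n + 1 / ((n : ℝ) + 1))) ?_ ?_
    · intro n
      rw [← pv_sub]
      refine hpol _ _ (by have := hδ0 n; positivity) fun x hx => ?_
      have h2 := hp n x (mem_Rd hx)
      have h3 := hp0 n x (mem_Rd hx)
      rw [eval_sub]
      have h6 : (p n).eval x - (p0 n).eval x = ((p n).eval x - f x) - ((p0 n).eval x - f x) := by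
        ring
      rw [h6]
      refine (abs_sub _ _).trans ?_
      linarith
    · have : Tendsto (fun n : ℕ => K * (δ n + 1 / ((n : ℝ) + 1))) atTop (𝓝 (K * (0 + 0))) :=
        (hδ.add hlim0).const_mul K
      simpa using this
  have h2 := h1.add ha
  rw [zero_add] at h2
  refine h2.congr fun n => ?_
  abel

open Classical in
/-- `f(h)` -/
def cf (h : A) (f : ℝ → ℝ) : A := if hyp : ∃ a : A, IsCf h f a then hyp.choose else 0

theorem isCf (H : Hyp A) {h : A} (hh : IsSelfAdjoint h) {f : ℝ → ℝ} (hf : Continuous f) :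
    IsCf h f (cf h f) := by
  have hyp := exists_isCf H hh hf
  unfold cf
  rw [dif_pos hyp]
  exact hyp.choose_spec

/-- polynomial approximations on a given interval -/
theorem exists_apx {f : ℝ → ℝ} (hf : Continuous f) (R : ℝ) :
    ∃ p : ℕ → ℝ[X], ∀ n : ℕ, ∀ x ∈ Set.Icc (-R) R, |(p n).eval x - f x| ≤ 1 / ((n : ℝ) + 1) := by
  choose p0 hp0 using fun n : ℕ => exists_polynomial_near_of_continuousOn (-R) R f
    hf.continuousOn (1 / ((n : ℝ) + 1)) (by positivity)
  exact ⟨p0, fun n x hx => (hp0 n x hx).le⟩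

theorem tendsto_cf (H : Hyp A) {h : A} (hh : IsSelfAdjoint h) {f : ℝ → ℝ} (hf : Continuous f)
    {R : ℝ} (hR : Rd h ≤ R) {p : ℕ → ℝ[X]}
    (hp : ∀ n : ℕ, ∀ x ∈ Set.Icc (-R) R, |(p n).eval x - f x| ≤ 1 / ((n : ℝ) + 1)) :
    Tendsto (fun n => pv h (p n)) atTop (𝓝 (cf h f)) :=
  isCf H hh hf p _ tendsto_one_div_add_atTop_nhds_zero_nat fun n x hx =>
    hp n x ⟨by linarith [hx.1], by linarith [hx.2]⟩

theorem cf_pv (H : Hyp A) {h : A} (hh : IsSelfAdjoint h) (q : ℝ[X]) :
    cf h (fun x => q.eval x) = pv h q := by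
  have h1 := isCf H hh (f := fun x => q.eval x) q.continuous (fun _ => q) (fun _ => 0)
    tendsto_const_nhds (fun n x _ => by simp)
  exact tendsto_nhds_unique h1 tendsto_const_nhds

theorem cf_congr (H : Hyp A) {h : A} (hh : IsSelfAdjoint h) {f g : ℝ → ℝ} (hf : Continuous f)
    (hg : Continuous g) (hfg : ∀ x ∈ Set.Icc (-Rd h) (Rd h), f x = g x) : cf h f = cf h g := by
  obtain ⟨p, hp⟩ := exists_apx hf (Rd h)
  have h1 := tendsto_cf H hh hf le_rfl hp
  have h2 := tendsto_cf H hh hg le_rfl (p := p) fun n x hx => by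
    rw [← hfg x hx]; exact hp n x hx
  exact tendsto_nhds_unique h1 h2

theorem cf_add (H : Hyp A) {h : A} (hh : IsSelfAdjoint h) {f g : ℝ → ℝ} (hf : Continuous f)
    (hg : Continuous g) : cf h (fun x => f x + g x) = cf h f + cf h g := by
  obtain ⟨p, hp⟩ := exists_apx hf (Rd h)
  obtain ⟨q, hq⟩ := exists_apx hg (Rd h)
  have h1 := tendsto_cf H hh hf le_rfl hp
  have h2 := tendsto_cf H hh hg le_rfl hq
  have hl : Tendsto (fun n : ℕ => 1 / ((n : ℝ) + 1) + 1 / ((n : ℝ) + 1)) atTop (𝓝 0) := by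
    have := (tendsto_one_div_add_atTop_nhds_zero_nat (𝕜 := ℝ)).add
      (tendsto_one_div_add_atTop_nhds_zero_nat (𝕜 := ℝ))
    rwa [add_zero] at this
  have h3 := isCf H hh (f := fun x => f x + g x) (hf.add hg) (fun n => p n + q n) _ hl
    (fun n x hx => by
      rw [eval_add]
      have e : (p n).eval x + (q n).eval x - (f x + g x) =
        ((p n).eval x - f x) + ((q n).eval x - g x) := by ring
      rw [e]
      exact (abs_add_le _ _).trans (add_le_add (hp n x hx) (hq n x hx)))
  have h4 : Tendsto (fun n => pv h (p n + q n)) atTop (𝓝 (cf h f + cf h g)) := by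
    refine (h1.add h2).congr fun n => ?_
    rw [pv_add]
  exact tendsto_nhds_unique h3 h4

theorem cf_mul (H : Hyp A) {h : A} (hh : IsSelfAdjoint h) {f g : ℝ → ℝ} (hf : Continuous f)
    (hg : Continuous g) : cf h (fun x => f x * g x) = cf h f * cf h g := by
  obtain ⟨p, hp⟩ := exists_apx hf (Rd h)
  obtain ⟨q, hq⟩ := exists_apx hg (Rd h)
  have h1 := tendsto_cf H hh hf le_rfl hp
  have h2 := tendsto_cf H hh hg le_rfl hq
  obtain ⟨B, hB⟩ : ∃ B : ℝ, ∀ t ∈ Set.Icc (-Rd h) (Rd h), |f t| ≤ B := by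
    obtain ⟨B, hB⟩ := isCompact_Icc.exists_bound_of_continuousOn hf.continuousOn
    exact ⟨B, fun t ht => hB t ht⟩
  obtain ⟨D, hD⟩ : ∃ D : ℝ, ∀ t ∈ Set.Icc (-Rd h) (Rd h), |g t| ≤ D := by
    obtain ⟨D, hD⟩ := isCompact_Icc.exists_bound_of_continuousOn hg.continuousOn
    exact ⟨D, fun t ht => hD t ht⟩
  have hl : Tendsto (fun n : ℕ => (1 / ((n : ℝ) + 1)) * (D + 1) + B * (1 / ((n : ℝ) + 1))) atTop
      (𝓝 0) := by
    have := ((tendsto_one_div_add_atTop_nhds_zero_nat (𝕜 := ℝ)).mul_const (D + 1)).add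
      ((tendsto_one_div_add_atTop_nhds_zero_nat (𝕜 := ℝ)).const_mul B)
    rwa [zero_mul, mul_zero, add_zero] at this
  have h3 := isCf H hh (f := fun x => f x * g x) (hf.mul hg) (fun n => p n * q n) _ hl
    (fun n x hx => by
      rw [eval_mul]
      have e : (p n).eval x * (q n).eval x - (f x * g x) =
        ((p n).eval x - f x) * (q n).eval x + f x * ((q n).eval x - g x) := by ring
      rw [e]
      refine (abs_add_le _ _).trans (add_le_add ?_ ?_)
      · rw [abs_mul]
        refine mul_le_mul (hp n x hx) ?_ (abs_nonneg _) (by positivity)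
        have e2 : (q n).eval x = ((q n).eval x - g x) + g x := by ring
        rw [e2]
        refine (abs_add_le _ _).trans ?_
        have hn1 : 1 / ((n : ℝ) + 1) ≤ 1 := by
          rw [div_le_one (by positivity)]
          have : (0 : ℝ) ≤ n := Nat.cast_nonneg n
          linarith
        have := hq n x hx
        have := hD x hx
        linarith
      · rw [abs_mul]
        exact mul_le_mul (hB x hx) (hq n x hx) (abs_nonneg _) ((abs_nonneg _).trans (hB x hx)))
  have h4 : Tendsto (fun n => pv h (p n * q n)) atTop (𝓝 (cf h f * cf h g)) := by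
    refine (h1.mul h2).congr fun n => ?_
    rw [pv_mul]
  exact tendsto_nhds_unique h3 h4

theorem cf_id (H : Hyp A) {h : A} (hh : IsSelfAdjoint h) : cf h (fun x => x) = h := by
  have := cf_pv H hh X
  simp only [eval_X] at this
  rw [this, pv_X]

theorem cf_const (H : Hyp A) {h : A} (hh : IsSelfAdjoint h) (c : ℝ) :
    cf h (fun _ => c) = algebraMap ℂ A (c : ℂ) := by
  have := cf_pv H hh (C c)
  simp only [eval_C] at this
  rw [this, pv_C]

theorem cf_const_mul (H : Hyp A) {h : A} (hh : IsSelfAdjoint h) (c : ℝ) {f : ℝ → ℝ}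
    (hf : Continuous f) : cf h (fun x => c * f x) = (c : ℂ) • cf h f := by
  rw [cf_mul H hh continuous_const hf, cf_const H hh, Algebra.algebraMap_eq_smul_one, smul_mul_assoc,
    one_mul]

theorem cf_sub (H : Hyp A) {h : A} (hh : IsSelfAdjoint h) {f g : ℝ → ℝ} (hf : Continuous f)
    (hg : Continuous g) : cf h (fun x => f x - g x) = cf h f - cf h g := by
  have h1 := cf_add H hh (f := fun x => f x - g x) (hf.sub hg) hg
  have h2 : (fun x => f x - g x + g x) = f := by
    funext x; ring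
  rw [h2] at h1
  rw [h1]
  abel

/-- a norm bound for the functional calculus -/
theorem norm_cf_le (H : Hyp A) {h : A} (hh : IsSelfAdjoint h) :
    ∃ K : ℝ, 0 ≤ K ∧ ∀ (f : ℝ → ℝ) (c : ℝ), Continuous f →
      (∀ x ∈ Set.Icc (-Rd h) (Rd h), |f x| ≤ c) → ‖cf h f‖ ≤ K * c := by
  obtain ⟨K, hK, hpol⟩ := H.pol h hh
  refine ⟨K, hK, fun f c hf hc => ?_⟩
  obtain ⟨p, hp⟩ := exists_apx hf (Rd h)
  have h1 := (tendsto_cf H hh hf le_rfl hp).norm
  have hc0 : 0 ≤ c := (abs_nonneg _).trans (hc 0 ⟨by linarith [Rd_nonneg h], Rd_nonneg h⟩)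
  have h2 : Tendsto (fun n : ℕ => K * (c + 1 / ((n : ℝ) + 1))) atTop (𝓝 (K * (c + 0))) :=
    (tendsto_const_nhds.add tendsto_one_div_add_atTop_nhds_zero_nat).const_mul K
  rw [add_zero] at h2
  refine le_of_tendsto_of_tendsto' h1 h2 fun n => ?_
  refine hpol _ _ (by positivity) fun x hx => ?_
  have h3 := hp n x (mem_Rd hx)
  have h4 := hc x (mem_Rd hx)
  have e : (p n).eval x = f x + ((p n).eval x - f x) := by ring
  rw [e]
  exact (abs_add_le _ _).trans (add_le_add h4 h3)

theorem star_cf (H : Hyp A) {h : A} (hh : IsSelfAdjoint h) {f : ℝ → ℝ} (hf : Continuous f) :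
    star (cf h f) = cf h f := by
  obtain ⟨p, hp⟩ := exists_apx hf (Rd h)
  have h1 := tendsto_cf H hh hf le_rfl hp
  have h2 : Tendsto (fun n => star (pv h (p n))) atTop (𝓝 (star (cf h f))) :=
    (continuous_star.tendsto _).comp h1
  simp only [star_pv hh] at h2
  exact tendsto_nhds_unique h2 h1

theorem pv_intertwine {h h' a : A} (hi : a * h = h' * a) (q : ℝ[X]) : a * pv h q = pv h' q * a := by
  have hpow : ∀ n : ℕ, a * h ^ n = h' ^ n * a := by
    intro n
    induction n with
    | zero => rw [pow_zero, pow_zero, mul_one, one_mul]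
    | succ n ih => rw [pow_succ, ← mul_assoc, ih, mul_assoc, hi, ← mul_assoc, ← pow_succ]
  induction q using Polynomial.induction_on' with
  | add p q hp hq => rw [pv_add, pv_add, mul_add, add_mul, hp, hq]
  | monomial n c =>
    unfold pv
    rw [Polynomial.map_monomial, aeval_monomial, aeval_monomial, ← mul_assoc,
      ← Algebra.commutes, mul_assoc, hpow, mul_assoc]

theorem cf_intertwine (H : Hyp A) {h h' a : A} (hh : IsSelfAdjoint h) (hh' : IsSelfAdjoint h')
    (hi : a * h = h' * a) {f : ℝ → ℝ} (hf : Continuous f) : a * cf h f = cf h' f * a := by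
  obtain ⟨p, hp⟩ := exists_apx hf (max (Rd h) (Rd h'))
  have h1 := (tendsto_cf H hh hf (le_max_left _ _) hp).const_mul a
  have h2 := (tendsto_cf H hh' hf (le_max_right _ _) hp).mul_const a
  refine tendsto_nhds_unique h1 (h2.congr fun n => ?_)
  exact (pv_intertwine hi (p n)).symm

end Pool.Agent.TH611.Un
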