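import Pool.Agent.TH611.Un8

/-!
# Individually bounded exponentials: category arguments
-/

set_option autoImplicit false
set_option linter.unusedSectionVars false
set_option linter.unusedVariables false

noncomputable section

namespace Pool.Agent.TH611.Un

open Polynomial Filter Topology NormedSpace

variable {A : Type} [NormedRing A] [NormedAlgebra ℂ A] [CompleteSpace A] [StarRing A]
  [StarModule ℂ A] [ContinuousStar A]

/-- the one-parameter group of `h` is bounded by `n` -/
def Kap (h : A) (n : ℝ) : Prop := ∀ t : ℝ, ‖exp (((t : ℂ) * Complex.I) • h)‖ ≤ n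

theorem Kap.mono {h : A} {m n : ℝ} (hk : Kap h m) (hmn : m ≤ n) : Kap h n := fun t =>
  (hk t).trans hmn

theorem Kap.nonneg {h : A} {m : ℝ} (hk : Kap h m) : 0 ≤ m := (norm_nonneg _).trans (hk 0)

/-- cancelling a commuting summand -/
theorem Kap.of_add {k y : A} {m n s : ℝ} (hs : s ≠ 0) (hc : Commute k y) (h1 : Kap k m)
    (h2 : Kap (k + (s : ℂ) • y) n) : Kap y (n * m) := by
  intro t
  have e : ((t : ℂ) * Complex.I) • y =
      (((t / s : ℝ) : ℂ) * Complex.I) • (k + (s : ℂ) • y) + (((-(t / s) : ℝ) : ℂ) * Complex.I) • k := by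
    have hs' : (s : ℂ) ≠ 0 := Complex.ofReal_ne_zero.2 hs
    rw [smul_add, smul_smul]
    have e1 : ((t / s : ℝ) : ℂ) * Complex.I * (s : ℂ) = (t : ℂ) * Complex.I := by
      push_cast
      field_simp
    have e2 : ((-(t / s) : ℝ) : ℂ) * Complex.I = -(((t / s : ℝ) : ℂ) * Complex.I) := by
      push_cast
      ring
    rw [e1, e2, neg_smul]
    abel
  have hcomm : Commute ((((t / s : ℝ) : ℂ) * Complex.I) • (k + (s : ℂ) • y))
      ((((-(t / s) : ℝ) : ℂ) * Complex.I) • k) := by
    have h3 : Commute (k + (s : ℂ) • y) k :=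
      (Commute.refl k).add_left ((hc.symm).smul_left (s : ℂ))
    exact (h3.smul_left _).smul_right _
  let _ : NormedAlgebra ℚ A := .restrictScalars ℚ ℂ A
  rw [e, exp_add_of_commute hcomm]
  exact (norm_mul_le _ _).trans (mul_le_mul (h2 _) (h1 _) (norm_nonneg _) h2.nonneg)

theorem Kap.norm_le {h : A} {n c : ℝ} (hk : Kap h n) (hc : 0 ≤ c) (hb : Bd h c) :
    ‖h‖ ≤ Real.exp 1 * n * c := by
  have hn := hk.nonneg
  have hK : 0 ≤ Real.exp 1 * n := by positivity
  refine le_of_forall_pos_le_add fun ε hε => ?_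
  set δ : ℝ := ε / (Real.exp 1 * n + 1) with hδ
  have hδ0 : 0 < δ := by positivity
  have h1 := norm_le_of_exp (h := h) (ρ := c + δ) (by linarith)
    (fun x hx => (hb x hx).trans_lt (by linarith)) hk
  have h2 : Real.exp 1 * n * δ ≤ ε := by
    rw [hδ, mul_div_assoc', div_le_iff₀ (by positivity)]
    nlinarith
  nlinarith

/-- the category argument -/
theorem baire (V : Set A) (hV : IsClosed V) (hne : V.Nonempty) (F : A → A) (hF : Continuous F)
    (hk : ∀ v ∈ V, ∃ n : ℝ, Kap (F v) n) :
    ∃ v₀ ∈ V, ∃ ε : ℝ, 0 < ε ∧ ∃ n : ℝ, ∀ v ∈ V, ‖v - v₀‖ < ε → Kap (F v) n := by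
  have : CompleteSpace V := hV.completeSpace_coe
  have : Nonempty V := hne.to_subtype
  set E : ℕ → Set V := fun n => {v : V | Kap (F v) n} with hE
  have hcl : ∀ n, IsClosed (E n) := by
    intro n
    have : E n = ⋂ t : ℝ, {v : V | ‖exp (((t : ℂ) * Complex.I) • F v)‖ ≤ n} := by
      ext v
      simp only [hE, Set.mem_ofPred_eq, Set.mem_iInter]
      exact Iff.rfl
    rw [this]
    refine isClosed_iInter fun t => isClosed_le (continuous_norm.comp ?_) continuous_const
    let _ : NormedAlgebra ℚ A := .restrictScalars ℚ ℂ A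
    exact exp_continuous.comp ((hF.comp continuous_subtype_val).const_smul _)
  have hU : ⋃ n, E n = Set.univ := by
    ext v
    simp only [Set.mem_iUnion, Set.mem_univ, iff_true]
    obtain ⟨n, hn⟩ := hk v v.2
    obtain ⟨m, hm⟩ := exists_nat_ge n
    exact ⟨m, hn.mono hm⟩
  obtain ⟨n, v₀, hv₀⟩ := nonempty_interior_of_iUnion_of_closed hcl hU
  rw [mem_interior_iff_mem_nhds, Metric.mem_nhds_iff] at hv₀
  obtain ⟨ε, hε, hball⟩ := hv₀
  refine ⟨v₀, v₀.2, ε, hε, n, fun v hv hd => ?_⟩
  have : (⟨v, hv⟩ : V) ∈ Metric.ball v₀ ε := by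
    rw [Metric.mem_ball, Subtype.dist_eq, dist_eq_norm]
    exact hd
  exact hball this

/-- individually bounded exponentials of self-adjoint elements give the hypothesis -/
theorem hyp_of_kap (hk : ∀ h : A, IsSelfAdjoint h → ∃ n : ℝ, Kap h n) : Hyp A := by
  have hre : ∀ h : A, IsSelfAdjoint h → ∀ x ∈ spectrum ℂ h, x.im = 0 := by
    intro h hh x hx
    obtain ⟨n, hn⟩ := hk h hh
    exact real_of_exp hn hx
  refine ⟨hre, fun h hh => ?_⟩
  -- the closed real subspace generated by the polynomials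
  set V : Set A := closure (Set.range (pv h)) with hV
  have hsa : ∀ v ∈ V, IsSelfAdjoint v := by
    intro v hv
    have hcl : IsClosed {v : A | star v = v} := isClosed_eq continuous_star continuous_id
    refine closure_minimal ?_ hcl hv
    rintro _ ⟨q, rfl⟩
    exact star_pv hh q
  have hcomm : ∀ v ∈ V, ∀ q : ℝ[X], Commute v (pv h q) := by
    intro v hv q
    have hcl : IsClosed {v : A | v * pv h q = pv h q * v} :=
      isClosed_eq (continuous_id.mul continuous_const) (continuous_const.mul continuous_id)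
    refine closure_minimal ?_ hcl hv
    rintro _ ⟨p, rfl⟩
    show pv h p * pv h q = pv h q * pv h p
    rw [← pv_mul, ← pv_mul, mul_comm]
  have hadd : ∀ v ∈ V, ∀ q : ℝ[X], v + pv h q ∈ V := by
    intro v hv q
    have hc : Continuous fun v : A => v + pv h q := continuous_id.add continuous_const
    refine map_mem_closure (f := fun v => v + pv h q) hc hv ?_
    rintro _ ⟨p, rfl⟩
    exact ⟨p + q, pv_add h p q⟩
  obtain ⟨v₀, hv₀, ε, hε, n, hball⟩ := baire V isClosed_closure ⟨pv h 0, subset_closure ⟨0, rfl⟩⟩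
    (fun v => v) continuous_id (fun v hv => hk v (hsa v hv))
  have h0 : Kap v₀ n := hball v₀ hv₀ (by rw [sub_self, norm_zero]; exact hε)
  have key : ∀ q : ℝ[X], Kap (pv h q) (n * n) := by
    intro q
    set s : ℝ := ε / (2 * (‖pv h q‖ + 1)) with hs
    have hs0 : 0 < s := by positivity
    refine Kap.of_add hs0.ne' (hcomm v₀ hv₀ q) h0 ?_
    have e : (s : ℂ) • pv h q = pv h (C s * q) := by
      rw [pv_mul, pv_C, Algebra.algebraMap_eq_smul_one, smul_mul_assoc, one_mul]
    refine hball _ ?_ ?_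
    · rw [e]; exact hadd v₀ hv₀ _
    · rw [add_sub_cancel_left, norm_smul, Complex.norm_real, Real.norm_of_nonneg hs0.le, hs]
      rw [div_mul_eq_mul_div, div_lt_iff₀ (by positivity)]
      nlinarith [norm_nonneg (pv h q)]
  have hn0 : 0 ≤ n := h0.nonneg
  refine ⟨Real.exp 1 * (n * n), by positivity, fun q c hc hq => ?_⟩
  refine (key q).norm_le hc ?_
  intro y hy
  cases subsingleton_or_nontrivial A with
  | inl hs =>
    rw [spectrum.of_subsingleton] at hy
    exact absurd hy (Set.notMem_empty _)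
  | inr hn =>
    have hne : (spectrum ℂ h).Nonempty := spectrum.nonempty h
    unfold pv at hy
    rw [spectrum.map_polynomial_aeval_of_nonempty h _ hne] at hy
    obtain ⟨z, hz, rfl⟩ := hy
    have h2 : z = ((z.re : ℝ) : ℂ) := Complex.ext (by simp) (by simp [hre h hh z hz])
    have h3 := hq z.re (h2 ▸ hz)
    have h4 : (q.map (algebraMap ℝ ℂ)).eval z = ((q.eval z.re : ℝ) : ℂ) := by
      conv_lhs => rw [h2]
      rw [Polynomial.eval_map]
      exact Polynomial.eval₂_at_apply (algebraMap ℝ ℂ) (p := q) z.re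
    show ‖(q.map (algebraMap ℝ ℂ)).eval z‖ ≤ c
    rw [h4, Complex.norm_real]
    exact h3

/-- a corner bound -/
def Cor (e f : A) (K : ℝ) : Prop :=
  ∀ z : A, e * z = z → z * f = z → ∀ c : ℝ, P z c → ‖z‖ ≤ K * c

theorem isSelfAdjoint_add_star (z : A) : IsSelfAdjoint (z + star z) := by
  show star (z + star z) = z + star z
  rw [star_add, star_star, add_comm]

/-- corners on which all self-adjoint elements have uniformly bounded exponentials -/
theorem cor_of_kap (H : Hyp A) {u : A} (hu : IsSelfAdjoint u) {n : ℝ}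
    (hk : ∀ z : A, IsSelfAdjoint z → u * z = z → Kap z n) : Cor u u (2 * (Real.exp 1 * n)) := by
  intro z hz1 hz2 c hc
  have hu' : star u = u := hu
  have hs1 : u * star z = star z := by
    have := congrArg star hz2
    rw [star_mul, hu'] at this
    exact this
  -- the real part
  have h1 : ‖z + star z‖ ≤ Real.exp 1 * n * (2 * c) :=
    (hk _ (isSelfAdjoint_add_star z) (by rw [mul_add, hz1, hs1])).norm_le (by linarith [hc.1])
      (hc.re H)
  -- the imaginary part
  have h2 : ‖Complex.I • z + star (Complex.I • z)‖ ≤ Real.exp 1 * n * (2 * c) := by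
    have hP := hc.smul Complex.I
    rw [Complex.norm_I, one_mul] at hP
    refine (hk _ (isSelfAdjoint_add_star _) ?_).norm_le (by linarith [hc.1]) (hP.re H)
    rw [mul_add, star_smul, mul_smul_comm, mul_smul_comm, hz1, hs1]
  have e : z = (1 / 2 : ℂ) • ((z + star z) + (-Complex.I) • (Complex.I • z + star (Complex.I • z))) := by
    have h3 : star Complex.I = -Complex.I := Complex.conj_I
    have h4 : -Complex.I * Complex.I = 1 := by rw [neg_mul, Complex.I_mul_I, neg_neg]
    have h5 : -Complex.I * -Complex.I = -1 := by rw [neg_mul_neg, Complex.I_mul_I]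
    have e0 : (-Complex.I) • (Complex.I • z + star (Complex.I • z)) = z + -star z := by
      rw [star_smul, h3, smul_add, smul_smul, smul_smul, h4, h5, one_smul, neg_one_smul]
    rw [e0]
    have h6 : z + star z + (z + -star z) = (2 : ℂ) • z := by rw [two_smul]; abel
    rw [h6, smul_smul]
    norm_num
  calc ‖z‖ = ‖(1 / 2 : ℂ) • ((z + star z) + (-Complex.I) • (Complex.I • z + star (Complex.I • z)))‖ := by
        rw [← e]
    _ ≤ 1 / 2 * (‖z + star z‖ + ‖Complex.I • z + star (Complex.I • z)‖) := by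
        rw [norm_smul]
        have h7 : ‖(1 / 2 : ℂ)‖ = 1 / 2 := by rw [norm_div, norm_one]; norm_num
        rw [h7]
        refine mul_le_mul_of_nonneg_left ((norm_add_le _ _).trans (le_of_eq ?_)) (by norm_num)
        rw [norm_smul, norm_neg, Complex.norm_I, one_mul]
    _ ≤ 1 / 2 * (Real.exp 1 * n * (2 * c) + Real.exp 1 * n * (2 * c)) := by
        have := add_le_add h1 h2
        linarith
    _ = 2 * (Real.exp 1 * n) * c := by ring

/-- clipping -/
def clip (L : ℝ) (s : ℝ) : ℝ := max (-L) (min L s)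

theorem continuous_clip (L : ℝ) : Continuous (clip L) := by unfold clip; fun_prop

theorem abs_clip_le {L : ℝ} (hL : 0 ≤ L) (s : ℝ) : |clip L s| ≤ L := by
  unfold clip
  rw [abs_le]
  constructor
  · exact le_max_left _ _
  · exact max_le (by linarith) (min_le_left _ _)

theorem clip_eq {L s : ℝ} (h : |s| ≤ L) : clip L s = s := by
  unfold clip
  rw [abs_le] at h
  rw [min_eq_right h.2, max_eq_right h.1]

/-- **Part I**: near each point of the spectrum of a suitable element, corners are uniformly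
C*-equivalent -/
theorem part_one (hk : ∀ h : A, IsSelfAdjoint h → ∃ n : ℝ, Kap h n) :
    ∃ h₀ : A, IsSelfAdjoint h₀ ∧ ∃ η K : ℝ, 0 < η ∧ 0 ≤ K ∧ ∀ (c : ℝ) (u : ℝ → ℝ), Continuous u →
      (∀ t, u t ≠ 0 → |t - c| ≤ 4 * η) → Cor (cf h₀ u) (cf h₀ u) K := by
  have H := hyp_of_kap hk
  obtain ⟨h₀, hh₀, ε, hε, n, hball⟩ := baire {v : A | star v = v}
    (isClosed_eq continuous_star continuous_id) ⟨0, star_zero A⟩ (fun v => v) continuous_id
    (fun v hv => hk v hv)
  obtain ⟨K₀, hK₀, hcf⟩ := norm_cf_le H (h := h₀) hh₀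
  set η : ℝ := ε / (16 * (K₀ + 1)) with hη
  have hη0 : 0 < η := by positivity
  have hsmall : K₀ * (4 * η) < ε / 2 := by
    rw [hη]
    have : K₀ * (4 * (ε / (16 * (K₀ + 1)))) = ε / 4 * (K₀ / (K₀ + 1)) := by field_simp; ring
    rw [this]
    have h1 : K₀ / (K₀ + 1) ≤ 1 := by rw [div_le_one (by positivity)]; linarith
    nlinarith
  have hn0 : 0 ≤ n := (hball h₀ hh₀ (by rw [sub_self, norm_zero]; exact hε)).nonneg
  refine ⟨h₀, hh₀, η, 2 * (Real.exp 1 * (n * n)), hη0, by positivity, fun c u hu hsupp => ?_⟩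
  have huc : IsSelfAdjoint (cf h₀ u) := star_cf H hh₀ hu
  have huc' : star (cf h₀ u) = cf h₀ u := huc
  refine cor_of_kap H huc fun z hz huz => ?_
  -- the plateau function
  have hψ : Continuous fun t : ℝ => clip (4 * η) (t - c) :=
    (continuous_clip _).comp (continuous_id.sub continuous_const)
  have hφ : Continuous fun t : ℝ => t - clip (4 * η) (t - c) := continuous_id.sub hψ
  set k : A := cf h₀ (fun t => t - clip (4 * η) (t - c)) with hkdef
  have hkk : k = h₀ - cf h₀ (fun t => clip (4 * η) (t - c)) := by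
    rw [hkdef, cf_sub H hh₀ continuous_id' hψ, cf_id H hh₀]
  have hkn : ‖k - h₀‖ < ε / 2 := by
    rw [hkk, sub_sub_cancel_left, norm_neg]
    refine (hcf _ (4 * η) hψ fun x _ => abs_clip_le (by positivity) _).trans_lt hsmall
  have hks : star k = k := star_cf H hh₀ hφ
  have hku : k * cf h₀ u = (c : ℂ) • cf h₀ u := by
    rw [hkdef, ← cf_mul H hh₀ hφ hu, ← cf_const_mul H hh₀ c hu]
    congr 1
    funext t
    by_cases h0 : u t = 0
    · rw [h0, mul_zero, mul_zero]
    · rw [clip_eq (hsupp t h0)]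
      ring
  have hkz : k * z = (c : ℂ) • z := by
    rw [← huz, ← mul_assoc, hku, smul_mul_assoc]
  have hzs : star z = z := hz
  have hzk : z * k = (c : ℂ) • z := by
    have := congrArg star hkz
    rw [star_mul, hks, hzs, star_smul, hzs] at this
    rw [this]
    congr 1
    exact Complex.conj_ofReal c
  have hcomm : Commute k z := by
    show k * z = z * k
    rw [hkz, hzk]
  have h1 : Kap k n := hball k hks (by linarith)
  set s : ℝ := ε / (4 * (‖z‖ + 1)) with hs
  have hs0 : 0 < s := by positivity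
  refine Kap.of_add hs0.ne' hcomm h1 (hball _ ?_ ?_)
  · show star (k + (s : ℂ) • z) = k + (s : ℂ) • z
    rw [star_add, hks, star_smul, hzs]
    congr 2
    exact Complex.conj_ofReal s
  · have h2 : ‖(s : ℂ) • z‖ < ε / 2 := by
      rw [norm_smul, Complex.norm_real, Real.norm_of_nonneg hs0.le, hs, div_mul_eq_mul_div,
        div_lt_iff₀ (by positivity)]
      nlinarith [norm_nonneg z]
    have e : k + (s : ℂ) • z - h₀ = (k - h₀) + (s : ℂ) • z := by abel
    rw [e]
    exact (norm_add_le _ _).trans_lt (by linarith)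

end Pool.Agent.TH611.Un
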